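import Pool.Agent.H.MP_21b43d_ag.E3.G.Num

/-!
# M21, full support, V-H1: bounds for the total cohomology, Koszul sequences
-/

set_option autoImplicit false

open CategoryTheory CategoryTheory.Limits CategoryTheory.Pretriangulated AlgebraicGeometry
  TopologicalSpace

noncomputable section

namespace M21.E3

variable {X : Scheme.{0}} [CX X]

/-- All `Hom(F, E[i])` are finite dimensional and `∑_{i ∈ I} dim Hom(F, E[i]) ≤ B` for every finite set `I`. -/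
structure Bdd (F E : DMod X) (B : ℤ) : Prop where
  fin : ∀ i : ℤ, FiniteDimensional ℂ (F ⟶ E⟦i⟧)
  le : ∀ I : Finset ℤ, (∑ i ∈ I, (Module.finrank ℂ (F ⟶ E⟦i⟧) : ℤ)) ≤ B

/-- The same for `i < n` only. -/
structure BddT (n : ℤ) (F E : DMod X) (B : ℤ) : Prop where
  fin : ∀ i : ℤ, i < n → FiniteDimensional ℂ (F ⟶ E⟦i⟧)
  le : ∀ I : Finset ℤ, (∀ i ∈ I, i < n) → (∑ i ∈ I, (Module.finrank ℂ (F ⟶ E⟦i⟧) : ℤ)) ≤ B

theorem Bdd.mono {F E : DMod X} {B B' : ℤ} (h : Bdd F E B) (hB : B ≤ B') : Bdd F E B' :=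
  ⟨h.fin, fun I => (h.le I).trans hB⟩

theorem Bdd.nonneg {F E : DMod X} {B : ℤ} (h : Bdd F E B) : 0 ≤ B := by
  simpa using h.le ∅

theorem Bdd.truncate {F E : DMod X} {B : ℤ} (h : Bdd F E B) (n : ℤ) : BddT n F E B :=
  ⟨fun i _ => h.fin i, fun I _ => h.le I⟩

/-- transfer along an injective reindexing -/
theorem Bd_one {F E F' E' : DMod X} {B : ℤ} (h : Bdd F E B) (σ : ℤ → ℤ)
    (hσ : Function.Injective σ) (hf : ∀ i : ℤ, FiniteDimensional ℂ (F' ⟶ E'⟦i⟧))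
    (hle : ∀ i : ℤ, Module.finrank ℂ (F' ⟶ E'⟦i⟧) ≤ Module.finrank ℂ (F ⟶ E⟦σ i⟧)) :
    Bdd F' E' B := by
  classical
  refine ⟨hf, fun I => ?_⟩
  refine le_trans (Finset.sum_le_sum fun i _ => (Int.ofNat_le.2 (hle i))) ?_
  have h1 := h.le (I.image σ)
  rwa [Finset.sum_image fun a _ b _ hab => hσ hab] at h1

/-- transfer of sums -/
theorem Bd_two {F₁ E₁ F₂ E₂ F' E' : DMod X} {B₁ B₂ : ℤ} (h₁ : Bdd F₁ E₁ B₁) (h₂ : Bdd F₂ E₂ B₂)
    (σ τ : ℤ → ℤ) (hσ : Function.Injective σ) (hτ : Function.Injective τ)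
    (hf : ∀ i : ℤ, FiniteDimensional ℂ (F' ⟶ E'⟦i⟧))
    (hle : ∀ i : ℤ, Module.finrank ℂ (F' ⟶ E'⟦i⟧) ≤ Module.finrank ℂ (F₁ ⟶ E₁⟦σ i⟧) +
      Module.finrank ℂ (F₂ ⟶ E₂⟦τ i⟧)) :
    Bdd F' E' (B₁ + B₂) := by
  classical
  refine ⟨hf, fun I => ?_⟩
  refine le_trans (Finset.sum_le_sum fun i _ => (Int.ofNat_le.2 (hle i))) ?_
  have h3 := h₁.le (I.image σ)
  have h4 := h₂.le (I.image τ)
  rw [Finset.sum_image fun a _ b _ hab => hσ hab] at h3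
  rw [Finset.sum_image fun a _ b _ hab => hτ hab] at h4
  have h5 : (∑ i ∈ I, ((Module.finrank ℂ (F₁ ⟶ E₁⟦σ i⟧) +
      Module.finrank ℂ (F₂ ⟶ E₂⟦τ i⟧) : ℕ) : ℤ)) =
      ∑ i ∈ I, (Module.finrank ℂ (F₁ ⟶ E₁⟦σ i⟧) : ℤ) +
      ∑ i ∈ I, (Module.finrank ℂ (F₂ ⟶ E₂⟦τ i⟧) : ℤ) := by
    rw [← Finset.sum_add_distrib]
    exact Finset.sum_congr rfl fun i _ => Nat.cast_add _ _
  rw [h5]
  exact add_le_add h3 h4

theorem Bd_mid {V₁ V₂ V₃ : Type*} [AddCommGroup V₁] [AddCommGroup V₂] [AddCommGroup V₃]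
    [Module ℂ V₁] [Module ℂ V₂] [Module ℂ V₃] (f : V₁ →ₗ[ℂ] V₂) (g : V₂ →ₗ[ℂ] V₃)
    (h : LinearMap.range f = LinearMap.ker g) [FiniteDimensional ℂ V₁] [FiniteDimensional ℂ V₃] :
    FiniteDimensional ℂ V₂ ∧
      Module.finrank ℂ V₂ ≤ Module.finrank ℂ V₁ + Module.finrank ℂ V₃ := by
  have h0 : FiniteDimensional ℂ V₂ := finite_mid f g h
  refine ⟨h0, ?_⟩
  have e1 := LinearMap.finrank_range_add_finrank_ker g
  rw [← h] at e1
  have e2 := LinearMap.finrank_range_le f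
  have e3 := Submodule.finrank_le (LinearMap.range g)
  omega

/-- `Hom(F, E[i-n]) = Hom(F[n], E[i])` -/
def Bd_shiftEquiv (F E : DMod X) (n i : ℤ) : (F ⟶ E⟦i - n⟧) ≃ₗ[ℂ] (F⟦n⟧ ⟶ E⟦i⟧) :=
  (LinearEquiv.ofBijective ((shiftFunctor (DMod X) n).mapLinearMap ℂ (X := F) (Y := E⟦i - n⟧))
    ⟨(shiftFunctor (DMod X) n).map_injective, (shiftFunctor (DMod X) n).map_surjective⟩).trans
    (Linear.homCongr ℂ (Iso.refl (F⟦n⟧))
      ((shiftFunctorAdd' (DMod X) (i - n) n i (by ring)).app E).symm)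

theorem Bd_finrank_zero {F E : DMod X} {i : ℤ} (h : ∀ φ : F ⟶ E⟦i⟧, φ = 0) :
    FiniteDimensional ℂ (F ⟶ E⟦i⟧) ∧ Module.finrank ℂ (F ⟶ E⟦i⟧) = 0 := by
  have : Subsingleton (F ⟶ E⟦i⟧) := ⟨fun a b => (h a).trans (h b).symm⟩
  exact ⟨inferInstance, Module.finrank_zero_of_subsingleton⟩

theorem Bdd.iso_left {F F' E : DMod X} {B : ℤ} (e : F ≅ F') (h : Bdd F E B) : Bdd F' E B := by
  refine Bd_one h id Function.injective_id (fun i => ?_) (fun i => (finrank_iso e E i).ge)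
  have := h.fin i
  exact Module.Finite.equiv (Linear.homCongr ℂ e (Iso.refl (E⟦i⟧)))

theorem Bdd.iso_right {F E E' : DMod X} {B : ℤ} (e : E ≅ E') (h : Bdd F E B) : Bdd F E' B := by
  refine Bd_one h id Function.injective_id (fun i => ?_)
    (fun i => (finrank_iso_right_Der F e i).ge)
  have := h.fin i
  exact Module.Finite.equiv
    (Linear.homCongr ℂ (Iso.refl F) ((shiftFunctor (DMod X) i).mapIso e))

theorem Bdd.shift_left {F E : DMod X} {B : ℤ} (h : Bdd F E B) (n : ℤ) : Bdd (F⟦n⟧) E B := by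
  refine Bd_one h (fun i => i - n) (sub_left_injective (b := n)) (fun i => ?_)
    (fun i => (Bd_shiftEquiv F E n i).finrank_eq.ge)
  have := h.fin (i - n)
  exact Module.Finite.equiv (Bd_shiftEquiv F E n i)

theorem Bdd.shift_right {F E : DMod X} {B : ℤ} (h : Bdd F E B) (n : ℤ) : Bdd F (E⟦n⟧) B := by
  refine Bd_one h (fun i => i + n) (add_left_injective n) (fun i => ?_)
    (fun i => (shiftEquiv_Der (k := ℂ) F E n i).finrank_eq.ge)
  have := h.fin (i + n)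
  exact Module.Finite.equiv (shiftEquiv_Der (k := ℂ) F E n i)

theorem Bdd.biprod {F F' E : DMod X} {B B' : ℤ} (h : Bdd F E B) (h' : Bdd F' E B') :
    Bdd (F ⊞ F') E (B + B') := by
  refine Bd_two h h' id id Function.injective_id Function.injective_id (fun i => ?_)
    (fun i => ?_)
  · have := h.fin i
    have := h'.fin i
    exact Module.Finite.equiv (prodEquiv_Der (k := ℂ) F F' (E⟦i⟧)).symm
  · have := h.fin i
    have := h'.fin i
    rw [(prodEquiv_Der (k := ℂ) F F' (E⟦i⟧)).finrank_eq, Module.finrank_prod]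
    exact le_rfl

/-- second variable: `dim Hom(F, E₂[i]) ≤ dim Hom(F, E₁[i]) + dim Hom(F, E₃[i])` -/
theorem Bdd.right₂ {F : DMod X} {B₁ B₃ : ℤ} (T : Triangle (DMod X)) (hT : T ∈ distTriang (DMod X))
    (h₁ : Bdd F T.obj₁ B₁) (h₃ : Bdd F T.obj₃ B₃) : Bdd F T.obj₂ (B₁ + B₃) := by
  have key : ∀ i : ℤ, FiniteDimensional ℂ (F ⟶ T.obj₂⟦i⟧) ∧ Module.finrank ℂ (F ⟶ T.obj₂⟦i⟧) ≤
      Module.finrank ℂ (F ⟶ T.obj₁⟦i⟧) + Module.finrank ℂ (F ⟶ T.obj₃⟦i⟧) := by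
    intro i
    have := h₁.fin i
    have := h₃.fin i
    exact Bd_mid _ _ (range₂_Der F T hT i)
  exact Bd_two h₁ h₃ id id Function.injective_id Function.injective_id (fun i => (key i).1)
    (fun i => (key i).2)

/-- first variable, middle -/
theorem Bdd.left₂ {E : DMod X} {B₁ B₃ : ℤ} (T : Triangle (DMod X)) (hT : T ∈ distTriang (DMod X))
    (h₁ : Bdd T.obj₁ E B₁) (h₃ : Bdd T.obj₃ E B₃) : Bdd T.obj₂ E (B₁ + B₃) := by
  have key : ∀ i : ℤ, FiniteDimensional ℂ (T.obj₂ ⟶ E⟦i⟧) ∧ Module.finrank ℂ (T.obj₂ ⟶ E⟦i⟧) ≤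
      Module.finrank ℂ (T.obj₃ ⟶ E⟦i⟧) + Module.finrank ℂ (T.obj₁ ⟶ E⟦i⟧) := by
    intro i
    have := h₁.fin i
    have := h₃.fin i
    exact Bd_mid _ _ (range_leftComp₂ T hT (E⟦i⟧))
  rw [add_comm B₁]
  exact Bd_two h₃ h₁ id id Function.injective_id Function.injective_id (fun i => (key i).1)
    (fun i => (key i).2)

/-- first variable, third: `dim Hom(T₃, E[i]) ≤ dim Hom(T₂, E[i]) + dim Hom(T₁, E[i-1])` -/
theorem Bdd.left₃ {E : DMod X} {B₁ B₂ : ℤ} (T : Triangle (DMod X)) (hT : T ∈ distTriang (DMod X))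
    (h₁ : Bdd T.obj₁ E B₁) (h₂ : Bdd T.obj₂ E B₂) : Bdd T.obj₃ E (B₁ + B₂) := by
  have key : ∀ i : ℤ, FiniteDimensional ℂ (T.obj₃ ⟶ E⟦i⟧) ∧ Module.finrank ℂ (T.obj₃ ⟶ E⟦i⟧) ≤
      Module.finrank ℂ (T.obj₁ ⟶ E⟦i - 1⟧) + Module.finrank ℂ (T.obj₂ ⟶ E⟦i⟧) := by
    intro i
    have := h₁.fin (i - 1)
    have := h₂.fin i
    exact Bd_mid _ _ (range_homδ T hT E (i - 1) i (by omega))
  exact Bd_two h₁ h₂ (fun i => i - 1) id (sub_left_injective (b := 1)) Function.injective_id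
    (fun i => (key i).1) (fun i => (key i).2)

/-- first variable, first: `dim Hom(T₁, E[i]) ≤ dim Hom(T₂, E[i]) + dim Hom(T₃, E[i+1])` -/
theorem Bdd.left₁ {E : DMod X} {B₂ B₃ : ℤ} (T : Triangle (DMod X)) (hT : T ∈ distTriang (DMod X))
    (h₂ : Bdd T.obj₂ E B₂) (h₃ : Bdd T.obj₃ E B₃) : Bdd T.obj₁ E (B₂ + B₃) := by
  have key : ∀ i : ℤ, FiniteDimensional ℂ (T.obj₁ ⟶ E⟦i⟧) ∧ Module.finrank ℂ (T.obj₁ ⟶ E⟦i⟧) ≤
      Module.finrank ℂ (T.obj₂ ⟶ E⟦i⟧) + Module.finrank ℂ (T.obj₃ ⟶ E⟦i + 1⟧) := by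
    intro i
    have := h₂.fin i
    have := h₃.fin (i + 1)
    exact Bd_mid _ _ (range_leftComp₁ T hT E i (i + 1) rfl)
  exact Bd_two h₂ h₃ id (fun i => i + 1) Function.injective_id (add_left_injective 1)
    (fun i => (key i).1) (fun i => (key i).2)

/-- truncated: from `i < n` for `T₁` and `i < n + 1` for `T₂` to `i < n + 1` for `T₃` -/
theorem BddT.left₃ {n : ℤ} {E : DMod X} {B₁ B₂ : ℤ} (T : Triangle (DMod X))
    (hT : T ∈ distTriang (DMod X)) (h₁ : BddT n T.obj₁ E B₁) (h₂ : BddT (n + 1) T.obj₂ E B₂) :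
    BddT (n + 1) T.obj₃ E (B₁ + B₂) := by
  classical
  have key : ∀ i : ℤ, i < n + 1 → FiniteDimensional ℂ (T.obj₃ ⟶ E⟦i⟧) ∧
      Module.finrank ℂ (T.obj₃ ⟶ E⟦i⟧) ≤
      Module.finrank ℂ (T.obj₁ ⟶ E⟦i - 1⟧) + Module.finrank ℂ (T.obj₂ ⟶ E⟦i⟧) := by
    intro i hi
    have := h₁.fin (i - 1) (by omega)
    have := h₂.fin i hi
    exact Bd_mid _ _ (range_homδ T hT E (i - 1) i (by omega))
  refine ⟨fun i hi => (key i hi).1, fun I hI => ?_⟩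
  refine le_trans (Finset.sum_le_sum fun i hi => (Int.ofNat_le.2 (key i (hI i hi)).2)) ?_
  have h3 := h₁.le (I.image fun i => i - 1) (by
    intro i hi
    obtain ⟨j, hj, rfl⟩ := Finset.mem_image.1 hi
    have := hI j hj
    change j - 1 < n
    omega)
  have h4 := h₂.le I hI
  rw [Finset.sum_image fun a _ b _ hab => sub_left_injective (b := 1) hab] at h3
  have h5 : (∑ i ∈ I, ((Module.finrank ℂ (T.obj₁ ⟶ E⟦i - 1⟧) +
      Module.finrank ℂ (T.obj₂ ⟶ E⟦i⟧) : ℕ) : ℤ)) =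
      ∑ i ∈ I, (Module.finrank ℂ (T.obj₁ ⟶ E⟦i - 1⟧) : ℤ) +
      ∑ i ∈ I, (Module.finrank ℂ (T.obj₂ ⟶ E⟦i⟧) : ℤ) := by
    rw [← Finset.sum_add_distrib]
    exact Finset.sum_congr rfl fun i _ => Nat.cast_add _ _
  rw [h5]
  exact add_le_add h3 h4

theorem BddT.iso_left {n : ℤ} {F F' E : DMod X} {B : ℤ} (e : F ≅ F') (h : BddT n F E B) :
    BddT n F' E B := by
  refine ⟨fun i hi => ?_, fun I hI => ?_⟩
  · have := h.fin i hi
    exact Module.Finite.equiv (Linear.homCongr ℂ e (Iso.refl (E⟦i⟧)))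
  · have h1 := h.le I hI
    simpa only [finrank_iso e] using h1

/-- If `Hom(F, E[i]) = 0` for `i ≥ n`. -/
theorem BddT.bdd {n : ℤ} {F E : DMod X} {B : ℤ} (h : BddT n F E B)
    (h0 : ∀ i : ℤ, n ≤ i → ∀ φ : F ⟶ E⟦i⟧, φ = 0) : Bdd F E B := by
  classical
  refine ⟨fun i => ?_, fun I => ?_⟩
  · by_cases hi : i < n
    · exact h.fin i hi
    · exact (Bd_finrank_zero (h0 i (not_lt.1 hi))).1
  · have h1 := h.le (I.filter fun i => i < n) (fun i hi => (Finset.mem_filter.1 hi).2)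
    refine le_trans (le_of_eq ?_) h1
    symm
    refine Finset.sum_subset (Finset.filter_subset _ _) fun i hi hni => ?_
    have h2 : n ≤ i := by
      by_contra hlt
      exact hni (Finset.mem_filter.2 ⟨hi, not_le.1 hlt⟩)
    rw [(Bd_finrank_zero (h0 i h2)).2, Nat.cast_zero]

/-- If only `Hom(F, E[p])` can be nonzero, then its dimension is `± eulF`. -/
theorem Bdd.of_single {F E : DMod X} (p : ℤ) (hf : HomFin ℂ F E)
    (h : ∀ i : ℤ, i ≠ p → ∀ φ : F ⟶ E⟦i⟧, φ = 0) :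
    Bdd F E ((p.negOnePow : ℤ) * M21.eulF ℂ F E) ∧ 0 ≤ (p.negOnePow : ℤ) * M21.eulF ℂ F E := by
  classical
  have e1 : M21.eulF ℂ F E = (p.negOnePow : ℤ) * (Module.finrank ℂ (F ⟶ E⟦p⟧) : ℤ) := by
    unfold M21.eulF M21.altSum
    rw [finsum_eq_single _ p]
    intro i hi
    simp only []
    rw [(Bd_finrank_zero (h i hi)).2, Nat.cast_zero, mul_zero]
  have e2 : (p.negOnePow : ℤ) * M21.eulF ℂ F E = (Module.finrank ℂ (F ⟶ E⟦p⟧) : ℤ) := by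
    rw [e1, ← mul_assoc, ← Units.val_mul, Int.units_mul_self, Units.val_one, one_mul]
  rw [e2]
  refine ⟨⟨hf.fin, fun I => ?_⟩, Int.natCast_nonneg _⟩
  have h1 : (∑ i ∈ I, (Module.finrank ℂ (F ⟶ E⟦i⟧) : ℤ)) ≤
      ∑ i ∈ insert p I, (Module.finrank ℂ (F ⟶ E⟦i⟧) : ℤ) :=
    Finset.sum_le_sum_of_subset_of_nonneg (Finset.subset_insert _ _)
      fun _ _ _ => Int.natCast_nonneg _
  refine h1.trans (le_of_eq ?_)
  refine Finset.sum_eq_single p (fun i _ hi => ?_) fun hp => absurd (Finset.mem_insert_self _ _) hp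
  rw [(Bd_finrank_zero (h i hi)).2, Nat.cast_zero]

/-- `|χ| ≤ B` -/
theorem Bdd.eulF_le {F E : DMod X} {B : ℤ} (h : Bdd F E B) : |M21.eulF ℂ F E| ≤ B := by
  classical
  unfold M21.eulF M21.altSum
  by_cases hs : (Function.support fun i : ℤ => (i.negOnePow : ℤ) *
      (Module.finrank ℂ (F ⟶ E⟦i⟧) : ℤ)).Finite
  · rw [finsum_eq_sum _ hs]
    refine (Finset.abs_sum_le_sum_abs _ _).trans (le_trans (le_of_eq ?_) (h.le hs.toFinset))
    refine Finset.sum_congr rfl fun i _ => ?_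
    rw [abs_mul, Int.abs_negOnePow, one_mul, Nat.abs_cast]
  · rw [finsum_of_infinite_support hs, abs_zero]
    exact h.nonneg

end M21.E3
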