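import Pool.Agent.H.MP_21b43d_ag.E3.V.Bd

/-!
# M21, full support, V-H1: bounds for the total cohomology, Koszul sequences
-/

set_option autoImplicit false

open CategoryTheory CategoryTheory.Limits CategoryTheory.Pretriangulated AlgebraicGeometry
  TopologicalSpace

noncomputable section

namespace M21.E3

variable {X : Scheme.{0}} [CX X]

/-- (aux) one direction: two consecutive objects bound all others. -/
theorem line_BdK (L : ℤ → DMod X) (hL : ∀ m : ℤ, ∃ T ∈ distTriang (DMod X),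
    Nonempty (T.obj₁ ≅ L (m + 2)) ∧ Nonempty (T.obj₂ ≅ L (m + 1) ⊞ L (m + 1)) ∧
      Nonempty (T.obj₃ ≅ L m)) (m₀ m : ℤ) :
    ∃ c : ℤ, 0 ≤ c ∧ ∀ (E : DMod X) (B : ℤ), Bdd (L m₀) E B → Bdd (L (m₀ + 1)) E B →
      Bdd (L m) E (c * B) := by
  have up : ∀ k : ℕ, ∃ c : ℤ, 0 ≤ c ∧ ∀ (E : DMod X) (B : ℤ), Bdd (L m₀) E B →
      Bdd (L (m₀ + 1)) E B → Bdd (L (m₀ + k)) E (c * B) ∧ Bdd (L (m₀ + k + 1)) E (c * B) := by
    intro k
    induction k with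
    | zero =>
      refine ⟨1, zero_le_one, fun E B h0 h1 => ?_⟩
      rw [Nat.cast_zero, add_zero, one_mul]
      exact ⟨h0, h1⟩
    | succ k ih =>
      obtain ⟨c, hc, ih⟩ := ih
      refine ⟨3 * c, by positivity, fun E B h0 h1 => ?_⟩
      obtain ⟨h2, h3⟩ := ih E B h0 h1
      have hB : 0 ≤ B := h0.nonneg
      obtain ⟨T, hT, ⟨i1⟩, ⟨i2⟩, ⟨i3⟩⟩ := hL (m₀ + k)
      have e1 : m₀ + ((k + 1 : ℕ) : ℤ) = m₀ + k + 1 := by push_cast; ring
      have e2 : m₀ + k + 1 + 1 = m₀ + k + 2 := by ring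
      rw [e1, e2]
      have hcB : 0 ≤ c * B := mul_nonneg hc hB
      refine ⟨h3.mono (by nlinarith), ?_⟩
      have h4 : Bdd T.obj₁ E (c * B + c * B + c * B) :=
        Bdd.left₁ T hT ((h3.biprod h3).iso_left i2.symm) (h2.iso_left i3.symm)
      exact (h4.iso_left i1).mono (by nlinarith)
  have down : ∀ k : ℕ, ∃ c : ℤ, 0 ≤ c ∧ ∀ (E : DMod X) (B : ℤ), Bdd (L m₀) E B →
      Bdd (L (m₀ + 1)) E B → Bdd (L (m₀ - k)) E (c * B) ∧ Bdd (L (m₀ - k + 1)) E (c * B) := by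
    intro k
    induction k with
    | zero =>
      refine ⟨1, zero_le_one, fun E B h0 h1 => ?_⟩
      rw [Nat.cast_zero, sub_zero, one_mul]
      exact ⟨h0, h1⟩
    | succ k ih =>
      obtain ⟨c, hc, ih⟩ := ih
      refine ⟨3 * c, by positivity, fun E B h0 h1 => ?_⟩
      obtain ⟨h2, h3⟩ := ih E B h0 h1
      have hB : 0 ≤ B := h0.nonneg
      obtain ⟨T, hT, ⟨i1⟩, ⟨i2⟩, ⟨i3⟩⟩ := hL (m₀ - k - 1)
      have e1 : m₀ - ((k + 1 : ℕ) : ℤ) = m₀ - k - 1 := by push_cast; ring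
      have e2 : m₀ - (k : ℤ) - 1 + 1 = m₀ - k := by ring
      have e3 : m₀ - (k : ℤ) - 1 + 2 = m₀ - k + 1 := by ring
      rw [e1, e2]
      rw [e2] at i2
      rw [e3] at i1
      have hcB : 0 ≤ c * B := mul_nonneg hc hB
      refine ⟨?_, h2.mono (by nlinarith)⟩
      have h4 : Bdd T.obj₃ E (c * B + (c * B + c * B)) :=
        Bdd.left₃ T hT (h3.iso_left i1.symm) ((h2.biprod h2).iso_left i2.symm)
      exact (h4.iso_left i3).mono (by nlinarith)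
  rcases le_total m₀ m with h | h
  · obtain ⟨c, hc, hc2⟩ := up (m - m₀).toNat
    refine ⟨c, hc, fun E B h0 h1 => ?_⟩
    have h2 := (hc2 E B h0 h1).1
    have e : m₀ + (((m - m₀).toNat : ℕ) : ℤ) = m := by omega
    rwa [e] at h2
  · obtain ⟨c, hc, hc2⟩ := down (m₀ - m).toNat
    refine ⟨c, hc, fun E B h0 h1 => ?_⟩
    have h2 := (hc2 E B h0 h1).1
    have e : m₀ - (((m₀ - m).toNat : ℕ) : ℤ) = m := by omega
    rwa [e] at h2

namespace BiP

variable [IsIntegral X] (G : BiP X)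

/-- (H1) The four twists bound all twists (`exists_triangle_B`, `exists_triangle_Z`, `Bdd.left₁`, `Bdd.left₃`, `Bdd.biprod`; induction on `m - m₀` in both
directions for `n = n₀` and `n = n₀ + 1`, then on `n - n₀`). -/
theorem bdd_all (m₀ n₀ m n : ℤ) : ∃ c : ℤ, 0 ≤ c ∧ ∀ (E : DMod X) (B : ℤ), Bdd (G.LL m₀ n₀) E B →
    Bdd (G.LL (m₀ + 1) n₀) E B → Bdd (G.LL m₀ (n₀ + 1)) E B → Bdd (G.LL (m₀ + 1) (n₀ + 1)) E B →
      Bdd (G.LL m n) E (c * B) := by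
  obtain ⟨c1, hc1, k1⟩ := line_BdK (fun m => G.LL m n₀) (fun m => G.exists_triangle_B m n₀) m₀ m
  obtain ⟨c2, hc2, k2⟩ := line_BdK (fun m => G.LL m (n₀ + 1))
    (fun m => G.exists_triangle_B m (n₀ + 1)) m₀ m
  obtain ⟨c3, hc3, k3⟩ := line_BdK (fun n => G.LL m n) (fun n => G.exists_triangle_Z m n) n₀ n
  refine ⟨c3 * (c1 + c2), by positivity, fun E B h1 h2 h3 h4 => ?_⟩
  have hB : 0 ≤ B := h1.nonneg
  have h5 := (k1 E B h1 h2).mono (B' := (c1 + c2) * B) (by nlinarith [mul_nonneg hc2 hB])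
  have h6 := (k2 E B h3 h4).mono (B' := (c1 + c2) * B) (by nlinarith [mul_nonneg hc1 hB])
  rw [mul_assoc]
  exact k3 E _ h5 h6

end BiP

end M21.E3
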