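import Pool.Agent.H.MP_21b43d_ag.E3.S4.QB

/-!
# M21, full support, V-C: bounds for the Euler characteristic on `ℙ¹ × ℙ¹`
-/

set_option autoImplicit false

open CategoryTheory CategoryTheory.Limits CategoryTheory.Pretriangulated AlgebraicGeometry
  TopologicalSpace

noncomputable section

namespace M21.E3

variable {Q : Scheme.{0}} [IsIntegral Q] [CX Q] [IsLocallyNoetherian Q]

namespace BiP

variable {G : BiP Q}

/-- The sharp bound in a unit window (this is `h5` in the proof of `Split.Std.bound`). -/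
theorem Split.Std.sharp {S : G.Split (FO Q) Unit} (hS : S.Std) (j : ℤ) {N : Q.Modules}
    (hT : ((rdx S).sh (2 * j)).Tc N) (hF : ((rdx S).sh (2 * j + 2)).Fc N) :
    (rdx S).x N ≤ (1 - j ^ 2) * (rdx S).r N + j * (rdx S).D N ∧
      2 * j * (rdx S).r N ≤ (rdx S).D N ∧ (rdx S).D N ≤ (2 * j + 2) * (rdx S).r N := by
  have hW := wserre_isCoh Q
  have hN : IsCoh N := hT.1
  have h1 := (((hS.rk1H j)).finrank_from' hW hF).2
  rw [RDX.sh_r] at h1
  have h2 := eulF_le_finrank S hN j (hS.h2_zero j hT)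
  rw [G.eulF_eq (SS N) (fun m n => homFin_coh S hN m n)] at h2
  have h3 := (((rdx S).sh (2 * j)).Tc_D hW hT).1
  have h4 := hF.2 N (𝟙 N) inferInstance hN
  rw [RDX.sh_D] at h3 h4
  have hr' : (rdx S).r N = G.nr (SS N) := rfl
  have hD' : (rdx S).D N = G.nd1 (SS N) + G.nd2 (SS N) := rfl
  have hx' : (rdx S).x N = G.nx (SS N) := rfl
  rw [← hr', ← hx'] at h2
  refine ⟨?_, by linarith, by linarith⟩
  rw [hD']
  have e : (rdx S).r N * -j * -j + G.nd1 (SS N) * -j + G.nd2 (SS N) * -j + (rdx S).x N =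
    (rdx S).r N * j ^ 2 - (G.nd1 (SS N) + G.nd2 (SS N)) * j + (rdx S).x N := by ring
  rw [e] at h2
  linarith

/-- Bounded windows (`bound_of_window` of `Cmp`, `Split.Std.bound`). -/
theorem Split.Std.win0 {S : G.Split (FO Q) Unit} (hS : S.Std) (K : ℕ) :
    ∃ C : ℤ, 0 ≤ C ∧ ∀ N, ((rdx S).sh (-K)).Tc N → ((rdx S).sh K).Fc N →
      (rdx S).x N ≤ C * (rdx S).r N := by
  have hW := wserre_isCoh Q
  have hK : (0 : ℤ) ≤ K := Int.natCast_nonneg K
  refine ⟨1 + 3 * (K : ℤ) ^ 2 + 4 * K, by positivity, fun N hT hF => ?_⟩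
  refine (rdx S).bound_of_window hW (1 + 3 * (K : ℤ) ^ 2 + 4 * K) K
    (((K : ℤ) - (-K)).toNat) (-K) (Int.self_le_toNat _) (fun j hj hj' M hTM hFM => ?_) N
    ((rdx S).Tc_mono (by omega) hT) ((rdx S).Fc_mono (by omega) hF)
  have e : 2 * (j - 1) + 2 = 2 * j := by ring
  have hb := hS.bound (j - 1) hTM (by rw [e]; exact hFM)
  refine hb.trans (mul_le_mul_of_nonneg_right ?_ ((rdx S).r_nonneg M hTM.1))
  have h1 : |j - 1| ≤ K := abs_le.2 ⟨by omega, by omega⟩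
  have h2 : (j - 1) ^ 2 ≤ (K : ℤ) ^ 2 := sq_le_sq' (by have := (abs_le.1 h1).1; omega)
    (by have := (abs_le.1 h1).2; omega)
  have h3 : |(j - 1) ^ 2 - 2 * (j - 1)| ≤ (j - 1) ^ 2 + 2 * |j - 1| := by
    have h4 := abs_sub ((j - 1) ^ 2) (2 * (j - 1))
    rw [abs_of_nonneg (sq_nonneg (j - 1)), abs_mul, abs_of_nonneg (by norm_num : (0 : ℤ) ≤ 2)] at h4
    exact h4
  linarith

end BiP

end M21.E3
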