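import Pool.Agent.H.MP_21b43d_ag.E3.V.BdK
import Pool.Agent.H.MP_21b43d_ag.E3.V.CvQ

/-!
# M21, full support, V-H3: total cohomology of windows on `ℙ¹ × ℙ¹`
-/

set_option autoImplicit false

open CategoryTheory CategoryTheory.Limits CategoryTheory.Pretriangulated AlgebraicGeometry
  TopologicalSpace

noncomputable section

namespace M21.E3

variable {Q : Scheme.{0}} [IsIntegral Q] [CX Q] [IsLocallyNoetherian Q]

namespace BiP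

variable {G : BiP Q}

/-- (aux) Vanishing for the first object of a distinguished triangle. -/
private theorem hom_zero_left_BdQ (T : Triangle (DMod Q)) (hT : T ∈ distTriang (DMod Q))
    {Y : DMod Q} (h2 : ∀ ψ : T.obj₂ ⟶ Y, ψ = 0) (h3 : ∀ ψ : T.obj₃ ⟶ Y⟦(1 : ℤ)⟧, ψ = 0)
    (φ : T.obj₁ ⟶ Y) : φ = 0 := by
  obtain ⟨g, hg⟩ := Triangle.yoneda_exact₃ T.rotate (rot_of_distTriang T hT)
    (φ⟦(1 : ℤ)⟧' : T.obj₁⟦(1 : ℤ)⟧ ⟶ Y⟦(1 : ℤ)⟧) (h3 _)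
  have h4 : ∀ g : T.obj₂⟦(1 : ℤ)⟧ ⟶ Y⟦(1 : ℤ)⟧, g = 0 := by
    intro g
    obtain ⟨g', hg'⟩ := (shiftFunctor (DMod Q) (1 : ℤ)).map_surjective g
    rw [← hg', h2 g', Functor.map_zero]
  have h5 : g = 0 := h4 g
  have h4 : φ⟦(1 : ℤ)⟧' = 0 := by
    rw [hg, h5, comp_zero]
    rfl
  exact (shiftFunctor (DMod Q) (1 : ℤ)).map_injective (by rw [h4, Functor.map_zero])

/-- (aux) One Koszul step. -/
private theorem step_BdQ {N : Q.Modules} (hN : QC N) (A B C : DMod Q) (m n : ℤ)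
    (hC : C = G.LL m n) (hB : ∀ ψ : B ⟶ (SS N)⟦(2 : ℤ)⟧, ψ = 0)
    (T : Triangle (DMod Q)) (hT : T ∈ distTriang (DMod Q)) (i1 : T.obj₁ ≅ A)
    (i2 : T.obj₂ ≅ B ⊞ B) (i3 : T.obj₃ ≅ C) (φ : A ⟶ (SS N)⟦(2 : ℤ)⟧) : φ = 0 := by
  subst hC
  have h2 : ∀ ψ : T.obj₂ ⟶ (SS N)⟦(2 : ℤ)⟧, ψ = 0 := by
    intro ψ
    have h4 : i2.inv ≫ ψ = 0 := by
      apply biprod.hom_ext'
      · rw [comp_zero]
        exact hB _
      · rw [comp_zero]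
        exact hB _
    rw [← cancel_epi i2.inv, h4, comp_zero]
  have h3 : ∀ ψ : T.obj₃ ⟶ ((SS N)⟦(2 : ℤ)⟧)⟦(1 : ℤ)⟧, ψ = 0 := by
    intro ψ
    have h5 : i3.inv ≫ ψ ≫ ((shiftFunctorAdd' (DMod Q) (2 : ℤ) 1 3 (by norm_num)).app (SS N)).inv = 0 :=
      G.hom_zero_cech hN m n 3 (Or.inr (by norm_num)) _
    rw [← cancel_epi i3.inv, ← cancel_mono
      ((shiftFunctorAdd' (DMod Q) (2 : ℤ) 1 3 (by norm_num)).app (SS N)).inv, Category.assoc, h5,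
      comp_zero, zero_comp]
  have h6 := hom_zero_left_BdQ T hT h2 h3 (i1.hom ≫ φ)
  rw [← cancel_epi i1.hom, h6, comp_zero]

private theorem step_B_BdQ {N : Q.Modules} (hN : QC N) (m n : ℤ)
    (h : ∀ ψ : G.LL m n ⟶ (SS N)⟦(2 : ℤ)⟧, ψ = 0) (φ : G.LL (m + 1) n ⟶ (SS N)⟦(2 : ℤ)⟧) :
    φ = 0 := by
  obtain ⟨T, hT, ⟨i1⟩, ⟨i2⟩, ⟨i3⟩⟩ := G.exists_triangle_B (m - 1) n
  have e1 : m - 1 + 2 = m + 1 := by ring
  have e2 : m - 1 + 1 = m := by ring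
  rw [e1] at i1
  rw [e2] at i2
  exact step_BdQ hN _ _ _ (m - 1) n rfl h T hT i1 i2 i3 φ

private theorem step_Z_BdQ {N : Q.Modules} (hN : QC N) (m n : ℤ)
    (h : ∀ ψ : G.LL m n ⟶ (SS N)⟦(2 : ℤ)⟧, ψ = 0) (φ : G.LL m (n + 1) ⟶ (SS N)⟦(2 : ℤ)⟧) :
    φ = 0 := by
  obtain ⟨T, hT, ⟨i1⟩, ⟨i2⟩, ⟨i3⟩⟩ := G.exists_triangle_Z m (n - 1)
  have e1 : n - 1 + 2 = n + 1 := by ring
  have e2 : n - 1 + 1 = n := by ring
  rw [e1] at i1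
  rw [e2] at i2
  exact step_BdQ hN _ _ _ m (n - 1) rfl h T hT i1 i2 i3 φ

/-- No `H^2` for twists at least the diagonal one. -/
theorem Split.Std.h2_zero' {S : G.Split (FO Q) Unit} (hS : S.Std) (M m n : ℤ) (hm : M ≤ m)
    (hn : M ≤ n) {N : Q.Modules} (hN : ((rdx S).sh (-2 * M - 2)).Tc N)
    (φ : G.LL m n ⟶ (SS N)⟦(2 : ℤ)⟧) : φ = 0 := by
  have hW := wserre_isCoh Q
  have hNc : IsCoh N := hN.1
  have h0 : ∀ φ : G.LL M M ⟶ (SS N)⟦(2 : ℤ)⟧, φ = 0 := by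
    intro φ
    by_contra hφ
    have hT : G.Torus := S.torus hS.e (qc_FO_QB G)
    obtain ⟨ψ, hψ⟩ := G.duality_Q hT hNc.qc M M φ hφ
    have e : 2 * (-(M + 2)) + 2 = -2 * M - 2 := by ring
    have hF : ((rdx S).sh (-2 * M - 2)).Fc (G.OO (-(M + 2)) (-(M + 2))) := by
      have h1 := hS.rk1H (-(M + 2))
      rw [e] at h1
      exact h1.toRk1.fc_QB hW h1.deg
    exact hψ (((rdx S).sh (-2 * M - 2)).Tc_Fc_zero hW hN hF ψ)
  revert φ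
  have h1 : ∀ φ : G.LL m M ⟶ (SS N)⟦(2 : ℤ)⟧, φ = 0 := by
    induction m, hm using Int.leInduction with
    | base => exact h0
    | succ m _ ih => exact step_B_BdQ hNc.qc m M ih
  induction n, hn using Int.leInduction with
  | base => exact h1
  | succ n _ ih => exact step_Z_BdQ hNc.qc m n ih

end BiP

end M21.E3
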