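import Pool.Agent.H.MP_21b43d_ag.E3.V.BdQ

/-!
# M21, full support, V-H3: total cohomology of windows on `ℙ¹ × ℙ¹`
-/

set_option autoImplicit false

open CategoryTheory CategoryTheory.Limits CategoryTheory.Pretriangulated AlgebraicGeometry
  TopologicalSpace

noncomputable section

namespace M21.E3

/-- (aux) rank one objects of positive degree are in `T`. -/
theorem Rk1.tc_BdU {𝒞 : Type*} [Category 𝒞] [Abelian 𝒞] {W : ObjectProperty 𝒞} (hW : WSerre W)
    {q : RDX W} {S : 𝒞} (h : Rk1 q S) (hD : 0 < q.D S) : q.Tc S := by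
  refine ⟨h.mem, fun K p hp hK hK0 => ?_⟩
  by_cases hz : IsZero (kernel p)
  · have h1 : Mono p := Preadditive.mono_of_kernel_zero (hz.eq_of_src _ _)
    have h2 : IsIso p := isIso_of_mono_of_epi p
    rw [← (q.inv_iso hW (asIso p) h.mem).2.1]
    exact hD
  · have h1 := (q.add_ker_Wk2 hW p hp h.mem hK.1).1
    have h2 := h.sub (kernel p) (kernel.ι p) inferInstance (hW.kernel p h.mem hK.1) hz
    exact absurd (q.zero_of_Tf_Wk2 hK (by linarith)) hK0

/-- (aux) an alternating sum with support in `{0, 1}`. -/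
theorem altSum_two_BdU (a : ℤ → ℕ) (h : ∀ i, i < 0 ∨ 2 ≤ i → a i = 0) :
    altSum a = a 0 - a 1 ∧ ∀ I : Finset ℤ, (∑ i ∈ I, (a i : ℤ)) ≤ a 0 + a 1 := by
  constructor
  · unfold altSum
    rw [finsum_eq_sum_of_support_subset (s := {0, 1})]
    · rw [Finset.sum_insert (by decide), Finset.sum_singleton]
      simp
      ring
    · intro i hi
      rw [Function.mem_support] at hi
      simp only [Finset.coe_insert, Finset.coe_singleton, Set.mem_insert_iff,
        Set.mem_singleton_iff]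
      by_contra hcon
      apply hi
      rw [h i (by omega), Nat.cast_zero, mul_zero]
  · intro I
    have h1 : (∑ i ∈ I, (a i : ℤ)) ≤ ∑ i ∈ I ∪ {0, 1}, (a i : ℤ) :=
      Finset.sum_le_sum_of_subset_of_nonneg Finset.subset_union_left
        fun i _ _ => Int.natCast_nonneg _
    have h2 : (∑ i ∈ ({0, 1} : Finset ℤ), (a i : ℤ)) = ∑ i ∈ I ∪ {0, 1}, (a i : ℤ) := by
      refine Finset.sum_subset Finset.subset_union_right fun i _ hi => ?_
      rw [Finset.mem_insert, Finset.mem_singleton] at hi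
      rw [h i (by omega), Nat.cast_zero]
    rw [← h2, Finset.sum_insert (by decide), Finset.sum_singleton] at h1
    exact h1

variable {Q : Scheme.{0}} [IsIntegral Q] [CX Q] [IsLocallyNoetherian Q]

namespace BiP

variable {G : BiP Q}

/-- (aux) one twist without `H^2`. -/
theorem bdd_twist_BdU (S : G.Split (FO Q) Unit) {N : Q.Modules} (hN : IsCoh N) (m n c : ℤ)
    (h2 : ∀ φ : G.LL m n ⟶ (SS N)⟦(2 : ℤ)⟧, φ = 0)
    (h0 : (Module.finrank ℂ (G.OO (-m) (-n) ⟶ N) : ℤ) ≤ c) :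
    Bdd (G.LL m n) (SS N) (2 * c - M21.eulF ℂ (G.LL m n) (SS N)) := by
  have hf := homFin_coh S hN m n
  have hx : M21.eulF ℂ (G.LL m n) (SS N) = altSum fun i : ℤ =>
      Module.finrank ℂ (G.LL m n ⟶ (SS N)⟦i⟧) := rfl
  have hz : ∀ i : ℤ, i < 0 ∨ 2 ≤ i →
      Module.finrank ℂ (G.LL m n ⟶ (SS N)⟦i⟧) = 0 := by
    intro i hi
    have : Subsingleton (G.LL m n ⟶ (SS N)⟦i⟧) := by
      refine ⟨fun φ ψ => ?_⟩
      by_cases h : i = 2
      · subst h
        rw [h2 φ, h2 ψ]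
      · have h' : i < 0 ∨ 2 < i := by omega
        rw [G.hom_zero_cech hN.qc _ _ i h' φ, G.hom_zero_cech hN.qc _ _ i h' ψ]
    exact Module.finrank_zero_of_subsingleton
  obtain ⟨e1, e2⟩ := altSum_two_BdU (fun i : ℤ => Module.finrank ℂ (G.LL m n ⟶ (SS N)⟦i⟧)) hz
  have h4 : Module.finrank ℂ (G.LL m n ⟶ (SS N)⟦(0 : ℤ)⟧) =
      Module.finrank ℂ (G.OO (-m) (-n) ⟶ N) :=
    (homSS (G.OO (-m) (-n)) N).finrank_eq.symm
  refine ⟨hf.fin, fun I => (e2 I).trans ?_⟩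
  rw [hx, e1, h4]
  linarith

/-- Unit windows: `N ∈ T(2j) ∩ F(2j + 2)`; use the four twists `(-j-1, -j-1), (-j, -j-1), (-j-1, -j), (-j, -j)` (that is `m₀ = n₀ = -j - 1` in `bdd_all`). `h^2 = 0` at all four by `h2_zero'` with `M = -j-1`.
`h^0 = 0` at the first three: `Hom(O(-m,-n), N) = 0` as `O(j+1,j+1)`, `O(j,j+1)`, `O(j+1,j)` have `D = 2j + 4`, `2j + 3`, `2j+3` (`Split.Std.rdx_OO`), rank one with torsion cokernels of subobjects (`Split.rk1`), so they are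
in `T(2j+2)` (every quotient is either torsion or an isomorphism; or directly: a nonzero `O(a,b) → N` with `N` torsion-free is mono, so `D_{2j+2} ≤ 0` by `Fc`, contradiction). At `(-j,-j)`: `h^0 ≤ r` (`(hS.rk1H j).finrank_from'`).
So `∑ h_tot = ∑ (2h^0 - χ) ≤ 2 r - ∑ χ`, `∑ χ = 4 x + a D + b r` if the four Euler characteristics are added (`eulF_eq`; the coefficients of `nd1`, `nd2` are equal), `|D| ≤ (2|j| + 2) r`: each of the four `h_tot` is `≤ ∑ ≤ A r - 4 x`. Then `bdd_all`.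
Use `homFin_coh`, `eulF_eq`, `hom_zero_cech`, `homSS`. -/
theorem Split.Std.bdd_unit {S : G.Split (FO Q) Unit} (hS : S.Std) (j m n : ℤ) :
    ∃ A B : ℤ, 0 ≤ A ∧ 0 ≤ B ∧ ∀ N, ((rdx S).sh (2 * j)).Tc N → ((rdx S).sh (2 * j + 2)).Fc N →
      Bdd (G.LL m n) (SS N) (A * (rdx S).r N - B * (rdx S).x N) := by
  have hW := wserre_isCoh Q
  obtain ⟨c, hc, hb⟩ := G.bdd_all (-j - 1) (-j - 1) m n
  have ej : -j - 1 + 1 = -j := by ring
  rw [ej] at hb
  refine ⟨c * (2 + 2 * |2 * j + 1| * (2 * |j| + 2)), c * 4, by positivity, by positivity,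
    fun N hT hF => ?_⟩
  have hN : IsCoh N := hT.1
  have hr := (rdx S).r_nonneg N hN
  have h2 : ∀ m' n' : ℤ, -j - 1 ≤ m' → -j - 1 ≤ n' →
      ∀ φ : G.LL m' n' ⟶ (SS N)⟦(2 : ℤ)⟧, φ = 0 := fun m' n' hm hn φ => by
    have e : -2 * (-j - 1) - 2 = 2 * j := by ring
    refine hS.h2_zero' (-j - 1) m' n' hm hn ?_ φ
    rw [e]
    exact hT
  have h0 : ∀ m' n' : ℤ, m' + n' < -2 * j →
      (Module.finrank ℂ (G.OO (-m') (-n') ⟶ N) : ℤ) ≤ 0 := by
    intro m' n' hmn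
    obtain ⟨hc', hr', hD'⟩ := hS.rdx_OO (-m') (-n')
    obtain ⟨T, -, -⟩ := S.exists_OF (G := G) (-m') (-n')
    have h1 : Rk1 (rdx S) (G.OO (-m') (-n')) := Split.rk1 S T hc'.qc
    have h3 : Rk1 ((rdx S).sh (2 * j + 2)) (G.OO (-m') (-n')) := ⟨h1.mem, h1.pos, h1.sub⟩
    have h4 : ((rdx S).sh (2 * j + 2)).Tc (G.OO (-m') (-n')) := by
      refine h3.tc_BdU hW ?_
      rw [RDX.sh_D, hr', hD']
      linarith
    have h5 : Subsingleton (G.OO (-m') (-n') ⟶ N) := ⟨fun φ ψ => by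
      rw [((rdx S).sh (2 * j + 2)).Tc_Fc_zero hW h4 hF φ,
        ((rdx S).sh (2 * j + 2)).Tc_Fc_zero hW h4 hF ψ]⟩
    rw [Module.finrank_zero_of_subsingleton, Nat.cast_zero]
  have b1 := bdd_twist_BdU S hN (-j - 1) (-j - 1) 0 (h2 _ _ le_rfl le_rfl)
    (h0 _ _ (by linarith))
  have b2 := bdd_twist_BdU S hN (-j) (-j - 1) 0 (h2 _ _ (by linarith) le_rfl)
    (h0 _ _ (by linarith))
  have b3 := bdd_twist_BdU S hN (-j - 1) (-j) 0 (h2 _ _ le_rfl (by linarith))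
    (h0 _ _ (by linarith))
  have b4 := bdd_twist_BdU S hN (-j) (-j) ((rdx S).r N) (h2 _ _ (by linarith) (by linarith)) (by
    rw [neg_neg]
    have h1 := ((hS.rk1H j).finrank_from' hW hF).2
    rw [RDX.sh_r] at h1
    exact h1)
  have n1 := b1.nonneg
  have n2 := b2.nonneg
  have n3 := b3.nonneg
  have n4 := b4.nonneg
  have hx := G.eulF_eq (SS N) (fun m n => homFin_coh S hN m n)
  have hr' : (rdx S).r N = G.nr (SS N) := rfl
  have hD' : (rdx S).D N = G.nd1 (SS N) + G.nd2 (SS N) := rfl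
  have hx' : (rdx S).x N = G.nx (SS N) := rfl
  have h3 := (((rdx S).sh (2 * j)).Tc_D hW hT).1
  have h4 := hF.2 N (𝟙 N) inferInstance hN
  rw [RDX.sh_D] at h3 h4
  have hDabs : |(rdx S).D N| ≤ (2 * |j| + 2) * (rdx S).r N := by
    rw [abs_le]
    have h5 : j * (rdx S).r N ≤ |j| * (rdx S).r N :=
      mul_le_mul_of_nonneg_right (le_abs_self j) hr
    have h6 : -|j| * (rdx S).r N ≤ j * (rdx S).r N :=
      mul_le_mul_of_nonneg_right (neg_abs_le j) hr
    constructor <;> nlinarith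
  have hprod : (2 * j + 1) * (rdx S).D N ≤ |2 * j + 1| * ((2 * |j| + 2) * (rdx S).r N) := by
    refine (le_abs_self _).trans ?_
    rw [abs_mul]
    exact mul_le_mul_of_nonneg_left hDabs (abs_nonneg _)
  have hsum : (2 * 0 - M21.eulF ℂ (G.LL (-j - 1) (-j - 1)) (SS N)) +
      (2 * 0 - M21.eulF ℂ (G.LL (-j) (-j - 1)) (SS N)) +
      (2 * 0 - M21.eulF ℂ (G.LL (-j - 1) (-j)) (SS N)) +
      (2 * (rdx S).r N - M21.eulF ℂ (G.LL (-j) (-j)) (SS N)) ≤
      (2 + 2 * |2 * j + 1| * (2 * |j| + 2)) * (rdx S).r N - 4 * (rdx S).x N := by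
    rw [hx, hx, hx, hx, ← hr', ← hx']
    have h5 : 0 ≤ (rdx S).r N * (2 * j + 1) ^ 2 := mul_nonneg hr (sq_nonneg _)
    rw [hD'] at hprod
    nlinarith
  have hall := hb (SS N)
    ((2 + 2 * |2 * j + 1| * (2 * |j| + 2)) * (rdx S).r N - 4 * (rdx S).x N)
    (b1.mono (by linarith)) (b2.mono (by linarith)) (b3.mono (by linarith))
    (b4.mono (by linarith))
  exact hall.mono (le_of_eq (by ring))

end BiP

end M21.E3
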