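import Pool.Agent.H.MP_21b43d_ag.E3.V.BdU

/-!
# M21, full support, V-H3: total cohomology of windows on `ℙ¹ × ℙ¹`
-/

set_option autoImplicit false

open CategoryTheory CategoryTheory.Limits CategoryTheory.Pretriangulated AlgebraicGeometry
  TopologicalSpace

noncomputable section

namespace M21.E3

variable {Q : Scheme.{0}} [IsIntegral Q] [CX Q] [IsLocallyNoetherian Q]

namespace BiP

variable {G : BiP Q}

/-- (aux) `L + 1` unit windows. -/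
theorem Split.Std.bdd_units_BdW {S : G.Split (FO Q) Unit} (hS : S.Std) (m n j : ℤ) (L : ℕ) :
    ∃ A B C : ℤ, 0 ≤ A ∧ 0 ≤ B ∧ 0 ≤ C ∧ ∀ N, ((rdx S).sh (2 * j)).Tc N →
      ((rdx S).sh (2 * (j + L) + 2)).Fc N →
      Bdd (G.LL m n) (SS N) (A * (rdx S).r N - B * (rdx S).x N) ∧
        (rdx S).x N ≤ C * (rdx S).r N := by
  have hW := wserre_isCoh Q
  have base : ∀ j : ℤ, ∃ A B C : ℤ, 0 ≤ A ∧ 0 ≤ B ∧ 0 ≤ C ∧ ∀ N, ((rdx S).sh (2 * j)).Tc N →
      ((rdx S).sh (2 * j + 2)).Fc N →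
      Bdd (G.LL m n) (SS N) (A * (rdx S).r N - B * (rdx S).x N) ∧
        (rdx S).x N ≤ C * (rdx S).r N := by
    intro j
    obtain ⟨A, B, hA, hB, h⟩ := hS.bdd_unit j m n
    exact ⟨A, B, 1 + 2 * j ^ 2 + 2 * |j| + |j ^ 2 - 2 * j|, hA, hB, by positivity,
      fun N hT hF => ⟨h N hT hF, hS.bound j hT hF⟩⟩
  induction L with
  | zero =>
    obtain ⟨A, B, C, hA, hB, hC, h⟩ := base j
    refine ⟨A, B, C, hA, hB, hC, fun N hT hF => h N hT ?_⟩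
    rw [Nat.cast_zero, add_zero] at hF
    exact hF
  | succ L ih =>
    obtain ⟨A₁, B₁, C₁, hA₁, hB₁, hC₁, h₁⟩ := base (j + L + 1)
    obtain ⟨A₂, B₂, C₂, hA₂, hB₂, hC₂, h₂⟩ := ih
    refine ⟨A₁ + B₂ * C₁ + (A₂ + B₁ * C₂), B₁ + B₂, C₁ + C₂, by positivity, by positivity,
      by positivity, fun N hT hF => ?_⟩
    obtain ⟨R, hR, rfl, hT1, hF3⟩ :=
      ((rdx S).sh (2 * (j + L + 1))).exists_ses hW N hT.1
    have hF1 : ((rdx S).sh (2 * (j + L + 1) + 2)).Fc R.X₁ := by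
      have e : 2 * (j + ((L + 1 : ℕ) : ℤ)) + 2 = 2 * (j + L + 1) + 2 := by push_cast; ring
      rw [e] at hF
      exact RDX.Fc_sub _ hW R.f hR.mono_f hT1.1 hF
    have hT3 : ((rdx S).sh (2 * j)).Tc R.X₃ := RDX.Tc_quot _ hW R.g hR.epi_g hF3.1.1 hT
    have hF3' : ((rdx S).sh (2 * (j + L) + 2)).Fc R.X₃ := by
      have e : 2 * (j + (L : ℤ)) + 2 = 2 * (j + L + 1) := by ring
      rw [e]
      exact hF3
    obtain ⟨b1, x1⟩ := h₁ _ hT1 hF1
    obtain ⟨b3, x3⟩ := h₂ _ hT3 hF3'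
    obtain ⟨a1, -, a3⟩ := (rdx S).add R hR hT1.1 hT.1 hF3.1.1
    have r1 := (rdx S).r_nonneg _ hT1.1
    have r3 := (rdx S).r_nonneg _ hF3.1.1
    obtain ⟨d, hd⟩ := exists_triangle_SS R hR
    have b2 := Bdd.right₂ _ hd b1 b3
    have u1 : B₂ * (rdx S).x R.X₁ ≤ B₂ * (C₁ * (rdx S).r R.X₁) :=
      mul_le_mul_of_nonneg_left x1 hB₂
    have u3 : B₁ * (rdx S).x R.X₃ ≤ B₁ * (C₂ * (rdx S).r R.X₃) :=
      mul_le_mul_of_nonneg_left x3 hB₁
    have v1 : 0 ≤ (A₂ + B₁ * C₂) * (rdx S).r R.X₁ := by positivity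
    have v3 : 0 ≤ (A₁ + B₂ * C₁) * (rdx S).r R.X₃ := by positivity
    have w1 : 0 ≤ C₂ * (rdx S).r R.X₁ := by positivity
    have w3 : 0 ≤ C₁ * (rdx S).r R.X₃ := by positivity
    rw [a1, a3]
    refine ⟨b2.mono ?_, ?_⟩
    · linarith
    · linarith

/-- Bounded windows: induction on the number of unit windows with the torsion pairs; `B` can be increased (`x ≤ C r` for the pieces), so take the same `B` for both pieces;
`Bdd.right₂` with the triangle of a short exact sequence (`exists_triangle_SS`). -/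
theorem Split.Std.bdd_win {S : G.Split (FO Q) Unit} (hS : S.Std) (K : ℕ) (m n : ℤ) :
    ∃ A B : ℤ, 0 ≤ A ∧ 0 ≤ B ∧ ∀ N, ((rdx S).sh (-K)).Tc N → ((rdx S).sh K).Fc N →
      Bdd (G.LL m n) (SS N) (A * (rdx S).r N - B * (rdx S).x N) := by
  obtain ⟨A, B, C, hA, hB, -, h⟩ := hS.bdd_units_BdW m n (-K) (2 * K)
  refine ⟨A, B, hA, hB, fun N hT hF => (h N ?_ ?_).1⟩
  · exact (rdx S).Tc_mono (by omega) hT
  · exact (rdx S).Fc_mono (by push_cast; omega) hF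

end BiP

end M21.E3
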