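import Pool.Agent.H.MP_21b43d_ag.E3.S4.Asm4

/-!
# M21, full support, V-H2, V-H4, V-H5: cohomology of direct images, windows and vanishing on `X`
-/

set_option autoImplicit false

open CategoryTheory CategoryTheory.Limits CategoryTheory.Pretriangulated AlgebraicGeometry
  TopologicalSpace

noncomputable section

namespace M21.E3

variable {X Q : Scheme.{0}} (π : X ⟶ Q) [CX X] [CX Q]
    (hC : (CX.f : X ⟶ Spec (.of ℂ)) = π ≫ CX.f)
    (G : BiP Q) (haff : ∀ s t, IsAffineOpen (π ⁻¹ᵁ G.U s t))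
    (hfin : ∀ s t, (π.app (G.U s t)).hom.Finite) (pt : X)
    (hpt : π pt ∈ (G.V false ⊓ G.V true) ⊓ (G.W false ⊓ G.W true)) [IsIntegral X] [IsIntegral Q]
    [IsLocallyNoetherian X] [IsLocallyNoetherian Q]
    {ι : Type} [Fintype ι] (S : G.Split (FO Q) Unit) (T : (G.pull π haff pt hpt).Split (FO X) ι)

/-- Sections of the push forward over the common overlap, as a complex vector space. -/
private def bdx0E (F : X.Modules) :
    Γ((PP π).obj F, G.UU) ≃ₗ[ℂ] Γ(F, (G.pull π haff pt hpt).UU) where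
  toFun s := s
  invFun s := s
  left_inv _ := rfl
  right_inv _ := rfl
  map_add' _ _ := rfl
  map_smul' c s := smul_pushC π hC F G.UU c s

include hC hfin in
/-- (H2) for `i = 2`: both sides are the quotients of `Γ(F, π⁻¹ UU)` described in `exists_H2` (`app_bp`, `app_zp`, `push_res`). -/
theorem finrank_push_two {F : X.Modules} (hF : IsCoh F) (m n : ℤ) :
    Module.finrank ℂ ((G.pull π haff pt hpt).LL m n ⟶ (SS F)⟦(2 : ℤ)⟧) =
      Module.finrank ℂ (G.LL m n ⟶ (SS ((PP π).obj F))⟦(2 : ℤ)⟧) := by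
  have hfn : IsFinite π := isFinite_of_charts π G haff hfin
  have hQ : QC ((PP π).obj F) := qc_push π hF.qc
  obtain ⟨c, hc, hk⟩ := (G.pull π haff pt hpt).exists_H2 hF.qc m n
  obtain ⟨d, hd, hl⟩ := G.exists_H2 hQ m n
  have e1 := (c.quotKerEquivOfSurjective hc).finrank_eq
  have e2 := (d.quotKerEquivOfSurjective hd).finrank_eq
  rw [← e1, ← e2]
  have hker : (LinearMap.ker d).map (bdx0E π hC G haff pt hpt F).toLinearMap =
      LinearMap.ker c := by
    ext y
    constructor
    · rintro ⟨x, hx, rfl⟩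
      have hx' : d x = 0 := hx
      obtain ⟨x0, x1, y0, y1, h⟩ := (hl x).mp hx'
      refine LinearMap.mem_ker.mpr ((hk _).mpr ⟨x0, x1, y0, y1, ?_⟩)
      have h1 := BiP.app_zp π G haff pt hpt n (inf_le_right : G.UU ≤ G.W01)
      have h2 := BiP.app_bp π G haff pt hpt m (inf_le_left : G.UU ≤ G.V01)
      rw [push_smul, push_smul, h1, h2] at h
      exact h
    · intro hy
      have hy' : c y = 0 := hy
      obtain ⟨x0, x1, y0, y1, h⟩ := (hk y).mp hy'
      refine ⟨y, ?_, rfl⟩
      change d y = 0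
      refine (hl _).mpr ⟨x0, x1, y0, y1, ?_⟩
      have h1 := BiP.app_zp π G haff pt hpt n (inf_le_right : G.UU ≤ G.W01)
      have h2 := BiP.app_bp π G haff pt hpt m (inf_le_left : G.UU ≤ G.V01)
      rw [push_smul, push_smul, h1, h2]
      exact h
  exact (Submodule.Quotient.equiv _ _ (bdx0E π hC G haff pt hpt F) hker).finrank_eq.symm

end M21.E3
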