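import Pool.Agent.H.MP_21b43d_ag.E3.V.CvQ

/-!
# M21, full support, V-C: bounds for the Euler characteristic on `ℙ¹ × ℙ¹`
-/

set_option autoImplicit false

open CategoryTheory CategoryTheory.Limits CategoryTheory.Pretriangulated AlgebraicGeometry
  TopologicalSpace

noncomputable section

namespace M21.E3

variable {Q : Scheme.{0}} [IsIntegral Q] [CX Q] [IsLocallyNoetherian Q]

namespace BiP

variable {G : BiP Q}

theorem CvQa_alg {j l k r D x : ℤ} (hr : 0 ≤ r) (h1 : 2 * j * r ≤ D) (h2 : D ≤ (2 * j + 2) * r)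
    (h3 : 0 ≤ D - l * r) (hx : x ≤ (1 - j ^ 2) * r + j * D) (hk : 2 * j - l ≤ 2 * k)
    (hs : -1 ≤ 2 * j - l) :
    4 * x ≤ (2 * (k + 1) + (4 + l ^ 2 + 2 * |l|)) * (D - l * r) +
      (4 + l ^ 2 + 2 * |l|) * r := by
  obtain ⟨s, hs'⟩ : ∃ s, s = 2 * j - l := ⟨_, rfl⟩
  obtain ⟨d, hd⟩ : ∃ d, d = D - l * r := ⟨_, rfl⟩
  obtain ⟨e, he⟩ : ∃ e, e = d - s * r := ⟨_, rfl⟩
  rw [← hs'] at hk hs
  rw [← hd] at h3 ⊢
  have he0 : 0 ≤ e := by
    rw [he, hd, hs']; linarith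
  have he2 : e ≤ 2 * r := by
    rw [he, hd, hs']; linarith
  have hse : s * e ≤ 2 * d := by
    rcases lt_or_ge s 0 with h | h
    · have hs1 : s = -1 := by omega
      rw [hs1]; linarith
    · have h4 : s * e ≤ s * (2 * r) := mul_le_mul_of_nonneg_left he2 h
      have h5 : d = s * r + e := by rw [he]; ring
      rw [h5]
      linarith
  have hl : 2 * l * d ≤ 2 * |l| * d :=
    mul_le_mul_of_nonneg_right (mul_le_mul_of_nonneg_left (le_abs_self l) (by norm_num)) h3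
  have hk2 : s * d ≤ 2 * k * d := mul_le_mul_of_nonneg_right hk h3
  have e1 : 4 * ((1 - j ^ 2) * r + j * D) = (4 + l ^ 2) * r + 2 * l * d + s * d + s * e := by
    rw [he, hd, hs']; ring
  have h6 : 0 ≤ (4 + l ^ 2) * d := mul_nonneg (by positivity) h3
  have h7 : 0 ≤ 2 * |l| * r := by positivity
  have e2 : (2 * (k + 1) + (4 + l ^ 2 + 2 * |l|)) * d + (4 + l ^ 2 + 2 * |l|) * r =
      2 * k * d + 2 * d + (4 + l ^ 2) * d + 2 * |l| * d + (4 + l ^ 2) * r + 2 * |l| * r := by ring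
  rw [e2]
  linarith

/-- Convexity. Let `2i ≤ l < 2i + 2`. Claim by induction on `k : ℕ`: for `N ∈ T(l) ∩ F(2i + 2k)`,
`4 x(N) ≤ (2k + C) D_l(N) + C r(N)`, `C` depending on `l` only. `k = 0` (and `k = 1`: `Split.Std.sharp`). Step: torsion pair of slope
`2(i + k)`: `0 → N' → N → N'' → 0`, `N' ∈ T(2(i+k)) ∩ F(2(i+k) + 2)`, `N'' ∈ T(l) ∩ F(2(i+k))` (`Tc_quot`, `Fc_sub`; the induction hypothesis for `N''`
has a smaller coefficient of `D_l(N'') ≥ 0`). For `N'` with `j = i + k`: `4x ≤ 4(1 - j²) r + 4 j D`, `2 j r ≤ D ≤ (2j+2) r`; with `D = D_l + l r`,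
`D_l = (2j - l) r + e`, `0 ≤ e ≤ 2r`: `4x ≤ (4 - 4j² + 4jl) r + 4 j D_l` and `4j D_l ≤ (2k + C) D_l + ...`: write `4 j D_l - 4 j² r + 4 j l r - l² r + ... `
`4x ≤ 4r - 4j²r + 4j(2j r + e) = 4 r + 4 j² r + 4 j e`, `D_l ≥ (2j - l) r`, `(2(k+1) + C)((2j - l) r + e) + C r` is larger, with `2k = 2j - 2i ≥ 2 j - l`:
`4j² - l² = (2j - l)(2j + l) ≤ (2k + 2 + C)(2j - l)` if `C ≥ 2 + 2|l|` and `4 j e ≤ (2k + 2 + C) e + 2(2j - l) r + 2|l|·2 r`; so `C` about `4 + 10|l| + l²`. -/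
theorem Split.Std.conv {S : G.Split (FO Q) Unit} (hS : S.Std) (l : ℤ) :
    ∃ C : ℤ, 0 ≤ C ∧ ∀ (m : ℕ) (N : Q.Modules), ((rdx S).sh l).Tc N → ((rdx S).sh (l + m)).Fc N →
      4 * (rdx S).x N ≤ (m + C) * ((rdx S).sh l).D N + C * (rdx S).r N := by
  have hW := wserre_isCoh Q
  obtain ⟨i, hi1, hi2⟩ : ∃ i : ℤ, 2 * i ≤ l ∧ l < 2 * i + 2 := ⟨l / 2, by omega, by omega⟩
  have key : ∀ (k : ℕ) (N : Q.Modules), ((rdx S).sh l).Tc N →
      ((rdx S).sh (2 * (i + k))).Fc N →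
      4 * (rdx S).x N ≤ (2 * k + (4 + l ^ 2 + 2 * |l|)) * ((rdx S).sh l).D N +
        (4 + l ^ 2 + 2 * |l|) * (rdx S).r N := by
    intro k
    induction k with
    | zero =>
      intro N hT hF
      have h0 : IsZero N := ((rdx S).sh l).isZero_of_Tc_Fc hW hT
        ((rdx S).Fc_mono (by push_cast; omega) hF)
      obtain ⟨h1, h2, h3⟩ := ((rdx S).sh l).inv_zero hW h0
      rw [RDX.sh_r] at h1
      rw [RDX.sh_x] at h3
      rw [h3, h2, h1]
      simp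
    | succ k ih =>
      intro N hT hF
      obtain ⟨E, hE, rfl, h1, h3⟩ := ((rdx S).sh (2 * (i + k))).exists_ses hW N hT.1
      have hm := hE.mono_f
      have he := hE.epi_g
      obtain ⟨a1, a2, a3⟩ := (rdx S).add E hE h1.1 hT.1 h3.1.1
      have hF1 : ((rdx S).sh (2 * (i + k) + 2)).Fc E.X₁ := by
        refine (rdx S).Fc_mono ?_ (((rdx S).sh _).Fc_sub hW E.f hm h1.1 hF)
        push_cast
        omega
      obtain ⟨s1, s2, s3⟩ := hS.sharp (i + k) h1 hF1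
      have hT3 : ((rdx S).sh l).Tc E.X₃ := ((rdx S).sh l).Tc_quot hW E.g he h3.1.1 hT
      have hI := ih E.X₃ hT3 h3
      have d3 := (((rdx S).sh l).Tc_D hW hT3).1
      have d2 := (((rdx S).sh l).Tc_D hW hT).1
      have r1 := (rdx S).r_nonneg E.X₁ h1.1
      rw [RDX.sh_D] at d2 d3 hI ⊢
      have d1 : 0 ≤ (rdx S).D E.X₁ - l * (rdx S).r E.X₁ := by
        rcases Nat.eq_zero_or_pos k with hk | hk
        · have h4 : ((rdx S).sh l).Fc E.X₃ := (rdx S).Fc_mono (by rw [hk]; push_cast; omega) h3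
          have h5 := h4.2 E.X₃ (𝟙 _) inferInstance h3.1.1
          rw [RDX.sh_D] at h5
          rw [a1, a2] at d2
          linarith
        · have h4 : 0 ≤ (2 * (i + k) - l) * (rdx S).r E.X₁ := mul_nonneg (by omega) r1
          linarith
      have hA := CvQa_alg (k := k) r1 s2 s3 d1 s1 (by omega) (by omega)
      rw [a1, a2, a3]
      push_cast
      linarith
  refine ⟨4 + l ^ 2 + 2 * |l| + 2, by positivity, fun m N hT hF => ?_⟩
  have hk := key ((m + 2) / 2) N hT ((rdx S).Fc_mono (by push_cast; omega) hF)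
  have hD := (((rdx S).sh l).Tc_D hW hT).1
  have hr := (rdx S).r_nonneg N hT.1
  have h1 : (2 * (((m + 2) / 2 : ℕ) : ℤ)) * ((rdx S).sh l).D N ≤
      ((m : ℤ) + 2) * ((rdx S).sh l).D N := mul_le_mul_of_nonneg_right (by push_cast; omega) hD
  linarith

end BiP

end M21.E3
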