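import Pool.Agent.H.MP_21b43d_ag.E3.V.CvQ

/-!
# M21, full support, V-C: bounds for the Euler characteristic on `ℙ¹ × ℙ¹`
-/

set_option autoImplicit false

open CategoryTheory CategoryTheory.Limits CategoryTheory.Pretriangulated AlgebraicGeometry
  TopologicalSpace

noncomputable section

namespace M21.E3

/-- (aux) the numerical part for one window. -/
theorem cvb_num {r D x j l : ℤ} (h1 : x ≤ (1 - j ^ 2) * r + j * D) (h2 : 2 * j * r ≤ D)
    (h3 : D - l * r ≤ 0) (h4 : 2 * j ≤ l) :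
    4 * x ≤ -((l - 2 * j) + 2 * |l|) * (D - l * r) + (4 + l ^ 2) * r := by
  have h5 : 0 ≤ (l - 2 * j) * (D - 2 * j * r) := mul_nonneg (by linarith) (by linarith)
  have h6 : 0 ≤ (2 * |l| + 2 * l) * -(D - l * r) :=
    mul_nonneg (by linarith [neg_abs_le l]) (by linarith)
  have key : -((l - 2 * j) + 2 * |l|) * (D - l * r) + (4 + l ^ 2) * r -
      4 * ((1 - j ^ 2) * r + j * D) =
      (l - 2 * j) * (D - 2 * j * r) + (2 * |l| + 2 * l) * -(D - l * r) := by ring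
  linarith

variable {Q : Scheme.{0}} [IsIntegral Q] [CX Q] [IsLocallyNoetherian Q]

namespace BiP

variable {G : BiP Q}

/-- (aux) induction on the number of windows. -/
theorem Split.Std.cvb_ind {S : G.Split (FO Q) Unit} (hS : S.Std) {l j : ℤ} (hj : 2 * j ≤ l)
    (hj' : l ≤ 2 * j + 2) :
    ∀ (k : ℕ) (N : Q.Modules), ((rdx S).sh (2 * (j - k))).Tc N → ((rdx S).sh l).Fc N →
      4 * (rdx S).x N ≤ -((l - 2 * (j - k)) + 2 * |l|) * ((rdx S).sh l).D N +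
        (4 + l ^ 2) * (rdx S).r N := by
  have hW := wserre_isCoh Q
  intro k
  induction k with
  | zero =>
    intro N hT hF
    rw [Nat.cast_zero, sub_zero] at hT ⊢
    obtain ⟨h1, h2, -⟩ := hS.sharp j hT ((rdx S).Fc_mono hj' hF)
    have h3 := hF.2 N (𝟙 N) inferInstance hT.1
    rw [RDX.sh_D] at h3 ⊢
    exact cvb_num h1 h2 h3 hj
  | succ k ih =>
    intro N hT hF
    obtain ⟨T, hT', rfl, h1, h3⟩ := ((rdx S).sh (2 * (j - k))).exists_ses hW N hT.1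
    have hm := hT'.mono_f
    have he := hT'.epi_g
    obtain ⟨a1, a2, a3⟩ := (rdx S).add T hT' h1.1 hT.1 h3.1.1
    have hF1 : ((rdx S).sh l).Fc T.X₁ := ((rdx S).sh l).Fc_sub hW T.f hm h1.1 hF
    have e1 := ih T.X₁ h1 hF1
    have hT3 : ((rdx S).sh (2 * (j - (k + 1 : ℕ)))).Tc T.X₃ :=
      ((rdx S).sh (2 * (j - (k + 1 : ℕ)))).Tc_quot hW T.g he h3.1.1 hT
    have hk0 : (0 : ℤ) ≤ k := Int.natCast_nonneg k
    have hF3 : ((rdx S).sh (2 * (j - (k + 1 : ℕ)) + 2)).Fc T.X₃ :=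
      (rdx S).Fc_mono (by push_cast; linarith) h3
    obtain ⟨b1, b2, -⟩ := hS.sharp (j - (k + 1 : ℕ)) hT3 hF3
    have hF3' : ((rdx S).sh l).Fc T.X₃ := (rdx S).Fc_mono (by linarith) h3
    have d1 := hF1.2 T.X₁ (𝟙 _) inferInstance h1.1
    have d3 := hF3'.2 T.X₃ (𝟙 _) inferInstance h3.1.1
    rw [RDX.sh_D] at d1 d3 e1 ⊢
    have e3 := cvb_num b1 b2 d3 (by push_cast; linarith)
    rw [a1, a2, a3]
    push_cast at e3 ⊢
    nlinarith

/-- Convexity for slopes `≤ l` (the same with the top slope fixed; induction downwards). -/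
theorem Split.Std.conv' {S : G.Split (FO Q) Unit} (hS : S.Std) (l : ℤ) :
    ∃ C : ℤ, 0 ≤ C ∧ ∀ (m : ℕ) (N : Q.Modules), ((rdx S).sh (l - m)).Tc N → ((rdx S).sh l).Fc N →
      4 * (rdx S).x N ≤ -(m + C) * ((rdx S).sh l).D N + C * (rdx S).r N := by
  have hl := abs_nonneg l
  have hl2 := sq_nonneg l
  refine ⟨6 + 2 * |l| + l ^ 2, by linarith, fun m N hT hF => ?_⟩
  have hj : 2 * (l / 2) ≤ l := by omega
  have hj' : l ≤ 2 * (l / 2) + 2 := by omega
  have h1 := hS.cvb_ind hj hj' ((m + 1) / 2) N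
    ((rdx S).Tc_mono (by push_cast; omega) hT) hF
  have h2 := hF.2 N (𝟙 N) inferInstance hT.1
  have h3 := (rdx S).r_nonneg N hT.1
  obtain ⟨a, ha⟩ : ∃ a : ℤ, a = l - 2 * (l / 2 - (((m + 1) / 2 : ℕ) : ℤ)) := ⟨_, rfl⟩
  have h4 : a ≤ m + 2 := by
    rw [ha]
    push_cast
    omega
  rw [← ha] at h1
  obtain ⟨d, hd⟩ : ∃ d : ℤ, d = ((rdx S).sh l).D N := ⟨_, rfl⟩
  rw [← hd] at h1 h2 ⊢
  have h5 : 0 ≤ (m + 2 - a + 4 + l ^ 2) * -d := mul_nonneg (by linarith) (by linarith)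
  have h6 : 0 ≤ (2 + 2 * |l|) * (rdx S).r N := mul_nonneg (by linarith) h3
  nlinarith

end BiP

end M21.E3
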