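import Pool.Agent.H.MP_21b43d_ag.E3.V.PuW
import Pool.Agent.H.MP_21b43d_ag.E3.V.CvQa
import Pool.Agent.H.MP_21b43d_ag.E3.V.CvQb

/-!
# M21, full support, V-C: direct images and windows; the bounds on `X`
-/

set_option autoImplicit false

open CategoryTheory CategoryTheory.Limits CategoryTheory.Pretriangulated AlgebraicGeometry
  TopologicalSpace

universe v u v' u'

noncomputable section

namespace M21.E3

section

variable {X Q : Scheme.{0}} (π : X ⟶ Q) [CX X] [CX Q]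
    (hC : (CX.f : X ⟶ Spec (.of ℂ)) = π ≫ CX.f)
    (G : BiP Q) (haff : ∀ s t, IsAffineOpen (π ⁻¹ᵁ G.U s t))
    (hfin : ∀ s t, (π.app (G.U s t)).hom.Finite) (pt : X)
    (hpt : π pt ∈ (G.V false ⊓ G.V true) ⊓ (G.W false ⊓ G.W true)) [IsIntegral X] [IsIntegral Q]
    [IsLocallyNoetherian X] [IsLocallyNoetherian Q]
    {ι : Type} [Fintype ι] (S : G.Split (FO Q) Unit) (T : (G.pull π haff pt hpt).Split (FO X) ι)

include hC hfin in
/-- **The bounds on `X`.** `c0`: `push_windows`, `Split.Std.win0`, `numbers_push`. `c1` for `q = (rdx T).sh 2`: let `c` be as in `push_windows`, `F ∈ T_q`, `F ∈ F_{q.sh m}`.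
Torsion pair of slope `c` (for `q`): `0 → F' → F → F'' → 0`, `F' ∈ T_{q.sh c}`, `F'' ∈ F_{q.sh c}`. `F''`: `x ≤ C r` (bounded window) and `D ≥ 0`. The direct image of `F'` is in
`T(2 + c - c) = T(2)` and in `F(2 + m + c)`: `Split.Std.conv` with `l = 2`. Similarly `c1'` with `Split.Std.conv'`. -/
theorem win_cover (hS : S.Std) : Win ((BiP.rdx T).sh 2) := by
  have hπ : IsFinite π := isFinite_of_charts π G haff hfin
  have hW := wserre_isCoh X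
  obtain ⟨c, hc⟩ := push_windows π hC G haff hfin pt hpt S T
  have hnum : ∀ M : X.Modules, IsCoh M → (BiP.rdx T).r M = (BiP.rdx S).r ((PP π).obj M) ∧
      (BiP.rdx T).D M = (BiP.rdx S).D ((PP π).obj M) ∧
      (BiP.rdx T).x M = (BiP.rdx S).x ((PP π).obj M) := by
    intro M hM
    obtain ⟨e1, e2, e3, e4⟩ := numbers_push π hC G haff pt hpt S T hM
    refine ⟨e1, ?_, e4⟩
    change (G.pull π haff pt hpt).nd1 (SS M) + (G.pull π haff pt hpt).nd2 (SS M) =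
      G.nd1 (SS ((PP π).obj M)) + G.nd2 (SS ((PP π).obj M))
    rw [e2, e3]
  have h0 : ∀ K : ℕ, ∃ C : ℤ, 0 ≤ C ∧ ∀ F, (((BiP.rdx T).sh 2).sh (-K)).Tc F →
      (((BiP.rdx T).sh 2).sh K).Fc F → ((BiP.rdx T).sh 2).x F ≤ C * ((BiP.rdx T).sh 2).r F := by
    intro K
    obtain ⟨C, hC0, hC1⟩ := hS.win0 (K + c + 2)
    refine ⟨C, hC0, fun F hT hF => ?_⟩
    rw [RDX.sh_sh] at hT hF
    have h1 := (hc _ F).2 hT
    have h2 := (hc _ F).1 hF
    obtain ⟨e1, -, e3⟩ := hnum F hT.1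
    rw [RDX.sh_x, RDX.sh_r, e1, e3]
    refine hC1 _ ((BiP.rdx S).Tc_mono ?_ h1) ((BiP.rdx S).Fc_mono ?_ h2)
    · push_cast
      omega
    · push_cast
      omega
  obtain ⟨C0, hC0, hw0⟩ := h0 c
  obtain ⟨C1, hC1, hw1⟩ := hS.conv 2
  obtain ⟨C2, hC2, hw2⟩ := hS.conv' 2
  refine ⟨h0, ⟨c + C1 + 4 * C0, by positivity, ?_⟩, ⟨c + C2 + 4 * C0, by positivity, ?_⟩⟩
  · intro m F hT hF
    obtain ⟨U, hU, rfl, h1, h3⟩ := (((BiP.rdx T).sh 2).sh c).exists_ses hW F hT.1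
    have hm := hU.mono_f
    have he := hU.epi_g
    obtain ⟨a1, a2, a3⟩ := ((BiP.rdx T).sh 2).add U hU h1.1 hT.1 h3.1.1
    -- the quotient
    have hT3 : ((BiP.rdx T).sh 2).Tc U.X₃ := ((BiP.rdx T).sh 2).Tc_quot hW U.g he h3.1.1 hT
    have hD3 := (((BiP.rdx T).sh 2).Tc_D hW hT3).1
    have hx3 : ((BiP.rdx T).sh 2).x U.X₃ ≤ C0 * ((BiP.rdx T).sh 2).r U.X₃ := by
      refine hw0 _ ?_ h3
      have h4 : (((BiP.rdx T).sh 2).sh 0).Tc U.X₃ := by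
        rw [RDX.sh_sh, add_zero]
        exact hT3
      exact ((BiP.rdx T).sh 2).Tc_mono (by omega) h4
    -- the subobject
    have hF1 : (((BiP.rdx T).sh 2).sh m).Fc U.X₁ :=
      (((BiP.rdx T).sh 2).sh m).Fc_sub hW U.f hm h1.1 hF
    rw [RDX.sh_sh] at h1 hF1
    have h5 := (hc _ U.X₁).2 h1
    have h6 := (hc _ U.X₁).1 hF1
    have e5 : (2 : ℤ) + c - c = 2 := by ring
    have e6 : (2 : ℤ) + m + c = 2 + ((m + c : ℕ) : ℤ) := by push_cast; ring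
    rw [e5] at h5
    rw [e6] at h6
    have hx1 := hw1 (m + c) _ h5 h6
    obtain ⟨e1, e2, e3⟩ := hnum U.X₁ h1.1
    have hx1' : 4 * ((BiP.rdx T).sh 2).x U.X₁ ≤ (m + c + C1) * ((BiP.rdx T).sh 2).D U.X₁ +
        C1 * ((BiP.rdx T).sh 2).r U.X₁ := by
      rw [RDX.sh_D] at hx1 ⊢
      rw [RDX.sh_x, RDX.sh_r, e1, e2, e3]
      push_cast at hx1
      exact hx1
    have hr1 := ((BiP.rdx T).sh 2).r_nonneg _ h1.1
    have hr3 := ((BiP.rdx T).sh 2).r_nonneg _ h3.1.1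
    rw [a1, a2, a3]
    have hD := (((BiP.rdx T).sh 2).Tc_D hW hT).1
    rw [a2] at hD
    have hmn : (0 : ℤ) ≤ m := Int.natCast_nonneg m
    have hcn : (0 : ℤ) ≤ c := Int.natCast_nonneg c
    nlinarith [mul_nonneg (add_nonneg (add_nonneg hmn hcn) hC1) hD3, mul_nonneg hC0 hD,
      mul_nonneg hC0 hr1, mul_nonneg hcn hr1, mul_nonneg hcn hr3, mul_nonneg hC1 hr3]
  · intro m F hT hF
    have hFD := hF.2 F (𝟙 F) inferInstance hT.1
    obtain ⟨U, hU, rfl, h1, h3⟩ := (((BiP.rdx T).sh 2).sh (-(c : ℤ))).exists_ses hW F hT.1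
    have hm := hU.mono_f
    have he := hU.epi_g
    obtain ⟨a1, a2, a3⟩ := ((BiP.rdx T).sh 2).add U hU h1.1 hT.1 h3.1.1
    -- the subobject
    have hF1 : ((BiP.rdx T).sh 2).Fc U.X₁ := ((BiP.rdx T).sh 2).Fc_sub hW U.f hm h1.1 hF
    have hD1 := hF1.2 _ (𝟙 _) inferInstance h1.1
    have hx1 : ((BiP.rdx T).sh 2).x U.X₁ ≤ C0 * ((BiP.rdx T).sh 2).r U.X₁ := by
      refine hw0 _ h1 ?_
      have h4 : (((BiP.rdx T).sh 2).sh 0).Fc U.X₁ := by
        rw [RDX.sh_sh, add_zero]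
        exact hF1
      exact ((BiP.rdx T).sh 2).Fc_mono (by omega) h4
    -- the quotient
    have hT3 : (((BiP.rdx T).sh 2).sh (-(m : ℤ))).Tc U.X₃ :=
      (((BiP.rdx T).sh 2).sh (-(m : ℤ))).Tc_quot hW U.g he h3.1.1 hT
    rw [RDX.sh_sh] at h3 hT3
    have h5 := (hc _ U.X₃).1 h3
    have h6 := (hc _ U.X₃).2 hT3
    have e5 : (2 : ℤ) + -(c : ℤ) + c = 2 := by ring
    have e6 : (2 : ℤ) + -(m : ℤ) - c = 2 - ((m + c : ℕ) : ℤ) := by push_cast; ring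
    rw [e5] at h5
    rw [e6] at h6
    have hx3 := hw2 (m + c) _ h6 h5
    obtain ⟨e1, e2, e3⟩ := hnum U.X₃ h3.1.1
    have hx3' : 4 * ((BiP.rdx T).sh 2).x U.X₃ ≤ -(m + c + C2) * ((BiP.rdx T).sh 2).D U.X₃ +
        C2 * ((BiP.rdx T).sh 2).r U.X₃ := by
      rw [RDX.sh_D] at hx3 ⊢
      rw [RDX.sh_x, RDX.sh_r, e1, e2, e3]
      push_cast at hx3
      exact hx3
    have hr1 := ((BiP.rdx T).sh 2).r_nonneg _ h1.1
    have hr3 := ((BiP.rdx T).sh 2).r_nonneg _ h3.1.1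
    rw [a2] at hFD
    rw [a1, a2, a3]
    have hmn : (0 : ℤ) ≤ m := Int.natCast_nonneg m
    have hcn : (0 : ℤ) ≤ c := Int.natCast_nonneg c
    nlinarith [mul_nonneg (add_nonneg (add_nonneg hmn hcn) hC2) (neg_nonneg.2 hD1),
      mul_nonneg hC0 (neg_nonneg.2 hFD), mul_nonneg hC0 hr3, mul_nonneg hcn hr1,
      mul_nonneg hcn hr3, mul_nonneg hC2 hr1]

end

end M21.E3
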