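import Pool.Agent.H.MP_21b43d_ag.E3.V.BdW
import Pool.Agent.H.MP_21b43d_ag.E3.V.BdX0
import Pool.Agent.H.MP_21b43d_ag.E3.V.PuX

/-!
# M21, full support, V-H2, V-H4, V-H5: cohomology of direct images, windows and vanishing on `X`
-/

set_option autoImplicit false

open CategoryTheory CategoryTheory.Limits CategoryTheory.Pretriangulated AlgebraicGeometry
  TopologicalSpace

noncomputable section

namespace M21.E3

/-- An alternating sum with support in `{0, 1, 2}`. -/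
private theorem altSum_three_BdX (a : ℤ → ℕ) (h : ∀ i, i < 0 ∨ 2 < i → a i = 0) :
    altSum a = a 0 - a 1 + a 2 := by
  unfold altSum
  rw [finsum_eq_sum_of_support_subset (s := {0, 1, 2})]
  · rw [Finset.sum_insert (by decide), Finset.sum_insert (by decide), Finset.sum_singleton]
    have e2 : ((2 : ℤ).negOnePow : ℤ) = 1 := by decide
    simp [e2]
    ring
  · intro i hi
    rw [Function.mem_support] at hi
    simp only [Finset.coe_insert, Finset.coe_singleton, Set.mem_insert_iff,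
      Set.mem_singleton_iff]
    by_contra hcon
    apply hi
    rw [h i (by omega), Nat.cast_zero, mul_zero]

variable {X Q : Scheme.{0}} (π : X ⟶ Q) [CX X] [CX Q]
    (hC : (CX.f : X ⟶ Spec (.of ℂ)) = π ≫ CX.f)
    (G : BiP Q) (haff : ∀ s t, IsAffineOpen (π ⁻¹ᵁ G.U s t))
    (hfin : ∀ s t, (π.app (G.U s t)).hom.Finite) (pt : X)
    (hpt : π pt ∈ (G.V false ⊓ G.V true) ⊓ (G.W false ⊓ G.W true)) [IsIntegral X] [IsIntegral Q]
    [IsLocallyNoetherian X] [IsLocallyNoetherian Q]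
    {ι : Type} [Fintype ι] (S : G.Split (FO Q) Unit) (T : (G.pull π haff pt hpt).Split (FO X) ι)

private theorem finrank_zero_BdX {X : Scheme.{0}} [IsIntegral X] [CX X] (G : BiP X)
    {F : X.Modules} (hF : IsCoh F) (m n i : ℤ) (hi : i < 0 ∨ 2 < i) :
    Module.finrank ℂ (G.LL m n ⟶ (SS F)⟦i⟧) = 0 := by
  have : Subsingleton (G.LL m n ⟶ (SS F)⟦i⟧) := ⟨fun φ ψ => by
    rw [G.hom_zero_cech hF.qc m n i hi φ, G.hom_zero_cech hF.qc m n i hi ψ]⟩
  exact Module.finrank_zero_of_subsingleton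

private theorem eulF_three_BdX {X : Scheme.{0}} [IsIntegral X] [CX X] (G : BiP X)
    {F : X.Modules} (hF : IsCoh F) (m n : ℤ) :
    M21.eulF ℂ (G.LL m n) (SS F) = Module.finrank ℂ (G.LL m n ⟶ (SS F)⟦(0 : ℤ)⟧) -
      Module.finrank ℂ (G.LL m n ⟶ (SS F)⟦(1 : ℤ)⟧) +
      Module.finrank ℂ (G.LL m n ⟶ (SS F)⟦(2 : ℤ)⟧) :=
  altSum_three_BdX (fun i : ℤ => Module.finrank ℂ (G.LL m n ⟶ (SS F)⟦i⟧))
    fun i hi => finrank_zero_BdX G hF m n i hi

include hC hfin S T in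
/-- (H2): `i = 0`: `homPush`; `i = 2`: `finrank_push_two`; `i = 1`: `eulF_push`; other `i`: `hom_zero_cech`. -/
theorem finrank_push {F : X.Modules} (hF : IsCoh F) (m n i : ℤ) :
    Module.finrank ℂ ((G.pull π haff pt hpt).LL m n ⟶ (SS F)⟦i⟧) =
      Module.finrank ℂ (G.LL m n ⟶ (SS ((PP π).obj F))⟦i⟧) := by
  have hπ : IsFinite π := isFinite_of_charts π G haff hfin
  have hF' : IsCoh ((PP π).obj F) := coh_push π hF
  have h0 : Module.finrank ℂ ((G.pull π haff pt hpt).LL m n ⟶ (SS F)⟦(0 : ℤ)⟧) =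
      Module.finrank ℂ (G.LL m n ⟶ (SS ((PP π).obj F))⟦(0 : ℤ)⟧) := by
    have e1 := (homSS ((G.pull π haff pt hpt).OO (-m) (-n)) F).finrank_eq
    have e2 := (homSS (G.OO (-m) (-n)) ((PP π).obj F)).finrank_eq
    exact e1.symm.trans (((homPush π hC G haff pt hpt F m n).finrank_eq).symm.trans e2)
  have h2 := finrank_push_two π hC G haff hfin pt hpt hF m n
  by_cases hi : i < 0 ∨ 2 < i
  · rw [finrank_zero_BdX _ hF m n i hi, finrank_zero_BdX G hF' m n i hi]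
  · by_cases hi0 : i = 0
    · subst hi0
      exact h0
    by_cases hi2 : i = 2
    · subst hi2
      exact h2
    have hi1 : i = 1 := by omega
    subst hi1
    have h3 := eulF_push π hC G haff pt hpt S T hF m n
    rw [eulF_three_BdX _ hF m n, eulF_three_BdX G hF' m n, h0, h2] at h3
    have h4 : (Module.finrank ℂ ((G.pull π haff pt hpt).LL m n ⟶ (SS F)⟦(1 : ℤ)⟧) : ℤ) =
        Module.finrank ℂ (G.LL m n ⟶ (SS ((PP π).obj F))⟦(1 : ℤ)⟧) := by linarith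
    exact_mod_cast h4

include hC hfin in
/-- (H4) -/
theorem bdd_winX (hS : S.Std) (K : ℕ) (m n : ℤ) : ∃ A B : ℤ, 0 ≤ A ∧ 0 ≤ B ∧ ∀ F,
    (((BiP.rdx T).sh 2).sh (-K)).Tc F → (((BiP.rdx T).sh 2).sh K).Fc F →
      Bdd ((G.pull π haff pt hpt).LL m n) (SS F) (A * (BiP.rdx T).r F - B * (BiP.rdx T).x F) := by
  have hπ : IsFinite π := isFinite_of_charts π G haff hfin
  obtain ⟨c, hc⟩ := push_windows π hC G haff hfin pt hpt S T
  obtain ⟨A, B, hA, hB, hAB⟩ := hS.bdd_win (K + c + 2) m n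
  refine ⟨A, B, hA, hB, fun F hT hF => ?_⟩
  have hcoh : IsCoh F := hT.1
  rw [RDX.sh_sh] at hT hF
  have hT' := (hc _ F).2 hT
  have hF' := (hc _ F).1 hF
  have hT2 : ((BiP.rdx S).sh (-((K + c + 2 : ℕ) : ℤ))).Tc ((PP π).obj F) :=
    (BiP.rdx S).Tc_mono (by push_cast; omega) hT'
  have hF2 : ((BiP.rdx S).sh ((K + c + 2 : ℕ) : ℤ)).Fc ((PP π).obj F) :=
    (BiP.rdx S).Fc_mono (by push_cast; omega) hF'
  have hb := hAB _ hT2 hF2
  obtain ⟨e1, -, -, e4⟩ := numbers_push π hC G haff pt hpt S T hcoh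
  have er : (BiP.rdx T).r F = (BiP.rdx S).r ((PP π).obj F) := e1
  have ex : (BiP.rdx T).x F = (BiP.rdx S).x ((PP π).obj F) := e4
  rw [er, ex]
  refine ⟨(BiP.homFin_coh T hcoh m n).fin, fun I => ?_⟩
  refine le_trans (le_of_eq ?_) (hb.le I)
  refine Finset.sum_congr rfl fun i _ => ?_
  rw [finrank_push π hC G haff hfin pt hpt S T hcoh m n i]

include hC hfin in
/-- (H5), `h^2`: `Split.Std.h2_zero'` for the direct image, `push_windows`, `finrank_push` (finite dimensional: `homFin_coh`). -/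
theorem hom_zero_high (hS : S.Std) : ∃ c : ℕ, ∀ (M m n : ℤ), M ≤ m → M ≤ n → ∀ F,
    (((BiP.rdx T).sh 2).sh (-2 * M + c)).Tc F →
      ∀ φ : (G.pull π haff pt hpt).LL m n ⟶ (SS F)⟦(2 : ℤ)⟧, φ = 0 := by
  obtain ⟨c, hc⟩ := push_windows π hC G haff hfin pt hpt S T
  refine ⟨c, fun M m n hm hn F hT φ => ?_⟩
  have hcoh : IsCoh F := hT.1
  rw [RDX.sh_sh] at hT
  have hT' := (hc _ F).2 hT
  have hT2 : ((BiP.rdx S).sh (-2 * M - 2)).Tc ((PP π).obj F) :=
    (BiP.rdx S).Tc_mono (by omega) hT'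
  have h0 : Module.finrank ℂ (G.LL m n ⟶ (SS ((PP π).obj F))⟦(2 : ℤ)⟧) = 0 := by
    have : Subsingleton (G.LL m n ⟶ (SS ((PP π).obj F))⟦(2 : ℤ)⟧) := ⟨fun φ ψ => by
      rw [hS.h2_zero' M m n hm hn hT2 φ, hS.h2_zero' M m n hm hn hT2 ψ]⟩
    exact Module.finrank_zero_of_subsingleton
  rw [← finrank_push_two π hC G haff hfin pt hpt hcoh m n] at h0
  have hfd : FiniteDimensional ℂ ((G.pull π haff pt hpt).LL m n ⟶ (SS F)⟦(2 : ℤ)⟧) :=
    (BiP.homFin_coh T hcoh m n).fin 2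
  have : Subsingleton ((G.pull π haff pt hpt).LL m n ⟶ (SS F)⟦(2 : ℤ)⟧) :=
    Module.finrank_zero_iff.mp h0
  exact Subsingleton.elim _ _

end M21.E3
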