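import Pool.Agent.H.MP_21b43d_ag.E3.V.PuX

/-!
# M21, full support, V-H2, V-H4, V-H5: cohomology of direct images, windows and vanishing on `X`
-/

set_option autoImplicit false

open CategoryTheory CategoryTheory.Limits CategoryTheory.Pretriangulated AlgebraicGeometry
  TopologicalSpace

noncomputable section

namespace M21.E3

/-- nonzero morphisms from an object of rank one to a torsion-free object are monomorphisms -/
theorem mono_of_rk1_BdY {𝒞 : Type*} [Category 𝒞] [Abelian 𝒞] {W : ObjectProperty 𝒞}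
    (hW : WSerre W) {q : RDX W} {S F : 𝒞} (hS : Rk1 q S) (hF : q.Tf F) {f : S ⟶ F}
    (hf : f ≠ 0) : Mono f := by
  have hK : W (kernel f) := hW.kernel f hS.mem hF.1
  have hI := W_im_Rk1b hW f hS.mem hF.1
  have hz : IsZero (kernel f) := by
    by_contra hz
    have h1 := hS.sub (kernel f) (kernel.ι f) inferInstance hK hz
    have h2 := (q.add _ (se_im_Rk1b f) hK hS.mem hI).1
    dsimp only at h2
    have h3 : q.r (Abelian.image f) = 0 := by omega
    have h4 : IsZero (Abelian.image f) := hF.2 _ (Abelian.image.ι f) inferInstance hI h3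
    apply hf
    rw [← Abelian.image.fac f, h4.eq_of_src (Abelian.image.ι f) 0, comp_zero]
  exact Preadditive.mono_of_kernel_zero (hz.eq_of_src _ _)

variable {X Q : Scheme.{0}} (π : X ⟶ Q) [CX X] [CX Q]
    (hC : (CX.f : X ⟶ Spec (.of ℂ)) = π ≫ CX.f)
    (G : BiP Q) (haff : ∀ s t, IsAffineOpen (π ⁻¹ᵁ G.U s t))
    (hfin : ∀ s t, (π.app (G.U s t)).hom.Finite) (pt : X)
    (hpt : π pt ∈ (G.V false ⊓ G.V true) ⊓ (G.W false ⊓ G.W true)) [IsIntegral X] [IsIntegral Q]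
    [IsLocallyNoetherian X] [IsLocallyNoetherian Q]
    {ι : Type} [Fintype ι] (S : G.Split (FO Q) Unit) (T : (G.pull π haff pt hpt).Split (FO X) ι)

include hC hfin S in
/-- (H5), `h^0`: `O(M, M)` is in `T(2M - c)` (rank one, `Rk1`), and `O(M,M)^N → O(-m,-n)` is an epimorphism for `-m, -n ≥ M`: iterate Koszul, or: a nonzero `O(-m,-n) → F` gives by
composition a nonzero `O(M,M) → F` (sections `B^i Z^j`; `joint_epi`-type lemmas, or `koszul_B`: if all maps from `O(m-1,n)` vanish then all maps from `O(m,n)` vanish). -/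
theorem hom_zero_low : ∃ c : ℕ, ∀ (M m n : ℤ), m ≤ M → n ≤ M → ∀ F,
    (((BiP.rdx T).sh 2).sh (-2 * M - c)).Fc F →
      ∀ φ : (G.pull π haff pt hpt).LL m n ⟶ (SS F)⟦(0 : ℤ)⟧, φ = 0 := by
  have hW := wserre_isCoh X
  have hne := T.nonempty
  have hcard : 0 < Fintype.card ι := Fintype.card_pos
  obtain ⟨ρ, hρ⟩ : ∃ ρ : ℤ, ρ = Fintype.card ι := ⟨_, rfl⟩
  have hρ1 : 1 ≤ ρ := by rw [hρ]; exact_mod_cast hcard
  obtain ⟨D0, hD0⟩ : ∃ D0 : ℤ, D0 = ∑ l, (T.a l + 1) + ∑ l, (T.b l + 1) := ⟨_, rfl⟩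
  refine ⟨(|D0| + 3).toNat, ?_⟩
  intro M m n hm hn F hF φ
  obtain ⟨ψ, rfl⟩ := (homSS ((G.pull π haff pt hpt).OO (-m) (-n)) F).surjective φ
  have hψ : ψ = 0 := by
    by_contra hψ
    obtain ⟨T', ha, hb⟩ := T.exists_OF (-m) (-n)
    have hO : IsCoh ((G.pull π haff pt hpt).OO (-m) (-n)) := isCoh_OO (G.pull π haff pt hpt) _ _
    have hrk : Rk1 (BiP.rdx T) ((G.pull π haff pt hpt).OO (-m) (-n)) :=
      BiP.Split.rk1 T T' hO.qc
    have hmono : Mono ψ := mono_of_rk1_BdY hW hrk hF.1 hψ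
    have h1 := hF.2 _ ψ hmono hO
    have h2 : (BiP.rdx T).r ((G.pull π haff pt hpt).OO (-m) (-n)) = ρ := by
      rw [hρ]
      exact (BiP.rdx_split T T' hO.qc).1
    have h3 : (BiP.rdx T).D ((G.pull π haff pt hpt).OO (-m) (-n)) = D0 + (-m + -n) * ρ := by
      refine (BiP.rdx_split T T' hO.qc).2.1.trans ?_
      simp only [ha, hb, hD0, hρ, Finset.sum_add_distrib, Finset.sum_const, Finset.card_univ,
        nsmul_eq_mul, mul_one]
      ring
    simp only [RDX.sh_D, RDX.sh_r] at h1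
    rw [h2, h3] at h1
    have h4 : (((|D0| + 3).toNat : ℕ) : ℤ) = |D0| + 3 :=
      Int.toNat_of_nonneg (by positivity)
    rw [h4] at h1
    have h5 := neg_abs_le D0
    have h6 := abs_nonneg D0
    nlinarith [mul_nonneg h6 (sub_nonneg.2 hρ1), mul_nonneg (sub_nonneg.2 hm) (by omega : 0 ≤ ρ),
      mul_nonneg (sub_nonneg.2 hn) (by omega : 0 ≤ ρ)]
  rw [hψ, map_zero]

end M21.E3
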