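import Pool.Agent.H.MP_21b43d_ag.E3.Cmp

/-!
# M21, full support, V-C: bounds for the Euler characteristic (abstract part)
-/

set_option autoImplicit false

open CategoryTheory CategoryTheory.Limits

universe v u

namespace M21.E3

variable {𝒞 : Type u} [Category.{v} 𝒞] [Abelian 𝒞] {W : ObjectProperty 𝒞}

/-- The bounds (C0), (C1), (C1'). -/
structure Win (q : RDX W) : Prop where
  /-- bounded windows -/
  c0 : ∀ K : ℕ, ∃ C : ℤ, 0 ≤ C ∧ ∀ F, (q.sh (-K)).Tc F → (q.sh K).Fc F → q.x F ≤ C * q.r F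
  /-- convexity, nonnegative slopes -/
  c1 : ∃ C : ℤ, 0 ≤ C ∧ ∀ (m : ℕ) (F : 𝒞), q.Tc F → (q.sh m).Fc F →
    4 * q.x F ≤ (m + C) * q.D F + C * q.r F
  /-- convexity, nonpositive slopes -/
  c1' : ∃ C : ℤ, 0 ≤ C ∧ ∀ (m : ℕ) (F : 𝒞), (q.sh (-m)).Tc F → q.Fc F →
    4 * q.x F ≤ -(m + C) * q.D F + C * q.r F

/-- (C2) objects of `F(k)` of degree bounded below -/
theorem Win.small (hW : WSerre W) {q : RDX W} (h : Win q) (k d : ℤ) :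
    ∃ C : ℤ, 0 ≤ C ∧ ∀ H, (q.sh k).Fc H → -d ≤ (q.sh k).D H → q.x H ≤ C * q.r H := by
  obtain ⟨e, he0, hed⟩ : ∃ e : ℤ, 0 ≤ e ∧ d ≤ e := ⟨max d 0, le_max_right _ _, le_max_left _ _⟩
  obtain ⟨K, hK1, hK2⟩ : ∃ K : ℕ, -(K : ℤ) ≤ k - e - 1 ∧ k ≤ (K : ℤ) := by
    refine ⟨(|k| + e + 1).toNat, ?_, ?_⟩
    · have h1 := Int.self_le_toNat (|k| + e + 1)
      have h2 := neg_abs_le k
      linarith
    · have h1 := Int.self_le_toNat (|k| + e + 1)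
      have h2 := le_abs_self k
      linarith
  obtain ⟨C, hC0, hC⟩ := h.c0 K
  refine ⟨C, hC0, fun H hH hd => ?_⟩
  obtain ⟨S, hS, rfl, h1, h3⟩ := (q.sh (k - e - 1)).exists_ses hW H hH.1.1
  have hm := hS.mono_f
  obtain ⟨a1, a2, -⟩ := (q.sh k).add S hS h1.1 hH.1.1 h3.1.1
  have b1 : (q.sh k).D S.X₁ ≤ 0 := hH.2 S.X₁ S.f hm h1.1
  have b2 : (q.sh (k - e - 1)).D S.X₃ ≤ 0 := h3.2 S.X₃ (𝟙 _) inferInstance h3.1.1
  have b3 := q.r_nonneg S.X₃ h3.1.1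
  have hr : q.r S.X₃ = 0 := by
    simp only [RDX.sh_D] at a2 b1 b2 hd
    by_contra hne
    have b4 : 1 ≤ q.r S.X₃ := by omega
    nlinarith
  have hz : IsZero S.X₃ := h3.1.2 S.X₃ (𝟙 _) inferInstance h3.1.1 hr
  have h4 : IsIso S.f := hS.isIso_f_iff.2 hz
  have h5 := (q.sh (k - e - 1)).Tc_iso hW (asIso S.f) h1
  exact hC _ (q.Tc_mono hK1 h5) (q.Fc_mono hK2 hH)

/-- (C2') torsion-free objects of `T(k)` of degree bounded above -/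
theorem Win.small' (hW : WSerre W) {q : RDX W} (h : Win q) (k d : ℤ) :
    ∃ C : ℤ, 0 ≤ C ∧ ∀ R, q.Tf R → (q.sh k).Tc R → (q.sh k).D R ≤ d → q.x R ≤ C * q.r R := by
  obtain ⟨e, he0, hed⟩ : ∃ e : ℤ, 0 ≤ e ∧ d ≤ e := ⟨max d 0, le_max_right _ _, le_max_left _ _⟩
  obtain ⟨K, hK1, hK2⟩ : ∃ K : ℕ, -(K : ℤ) ≤ k ∧ k + e ≤ (K : ℤ) := by
    refine ⟨(|k| + e).toNat, ?_, ?_⟩
    · have h1 := Int.self_le_toNat (|k| + e)
      have h2 := neg_abs_le k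
      linarith
    · have h1 := Int.self_le_toNat (|k| + e)
      have h2 := le_abs_self k
      linarith
  obtain ⟨C, hC0, hC⟩ := h.c0 K
  refine ⟨C, hC0, fun R hRf hR hd => ?_⟩
  obtain ⟨S, hS, rfl, h1, h3⟩ := (q.sh (k + e)).exists_ses hW R hR.1
  have hm := hS.mono_f
  have hep := hS.epi_g
  obtain ⟨a1, a2, -⟩ := (q.sh k).add S hS h1.1 hR.1 h3.1.1
  have hz : IsZero S.X₁ := by
    by_contra hz
    have t1 : (q.sh (k + e)).Tf S.X₁ :=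
      ⟨h1.1, fun N i hi hN hr => hRf.2 N (i ≫ S.f) (mono_comp _ _) hN hr⟩
    have b1 := h1.2 S.X₁ (𝟙 _) inferInstance t1 hz
    have b2 := ((q.sh k).Tc_D hW ((q.sh k).Tc_quot hW S.g hep h3.1.1 hR)).1
    have b3 := q.r_nonneg S.X₁ h1.1
    have b4 : 1 ≤ q.r S.X₁ := by
      by_contra hlt
      exact hz (t1.2 S.X₁ (𝟙 _) inferInstance h1.1 (show q.r S.X₁ = 0 by omega))
    simp only [RDX.sh_D] at a2 b1 b2 hd
    nlinarith
  have h4 : IsIso S.g := hS.isIso_g_iff.2 hz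
  have h5 := (q.sh (k + e)).Fc_iso hW (asIso S.g).symm h3
  exact hC _ (q.Tc_mono hK1 hR) (q.Fc_mono hK2 h5)

end M21.E3
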