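import Pool.Agent.H.MP_21b43d_ag.E3.G.DualC

/-!
# M21, full support, V-H6: every morphism to `Ω` comes from a linear form
-/

set_option autoImplicit false

open CategoryTheory CategoryTheory.Limits CategoryTheory.Pretriangulated AlgebraicGeometry
  TopologicalSpace

noncomputable section

namespace M21.E3

variable {X : Scheme.{0}} [IsIntegral X] [CX X] {G : BiP X} {ι : Type} [Fintype ι] [DecidableEq ι]
  {S : G.Split (FO X) ι} (d : DualB S)

namespace DualB

theorem DuA_tau_B {C : X.functionField →ₗ[ℂ] ℂ}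
    (hC : ∀ p q : ℤ, C (G.B ^ p * G.Z ^ q) = if p = 0 ∧ q = 0 then 1 else 0) (t : Bool)
    (h w : X.functionField) (hh : h ∈ (FO X).secs (G.UB t)) (hw : w ∈ d.Om.secs (G.UB t)) :
    C (d.τ (h * w)) = 0 := by
  rw [S.secs_UB (qc_FO_DualB G) t] at hh
  rw [d.splitOm.secs_UB d.qc_Om t] at hw
  unfold BiP.spanR at hh
  induction hh using Submodule.span_induction with
  | mem h hh =>
    obtain ⟨k, p', q', h1, rfl⟩ := hh
    unfold BiP.spanR at hw
    induction hw using Submodule.span_induction with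
    | mem w hw =>
      obtain ⟨l, p, q, h2, rfl⟩ := hw
      have h3 := d.tau_mon_Omega k l p q p' q'
      change C (d.τ (G.B ^ p' * G.Z ^ q' * S.e k * (G.B ^ p * G.Z ^ q * d.e' l))) = 0
      rw [h3]
      split_ifs with hkl
      · subst hkl
        rw [hC, if_neg]
        rintro ⟨-, h4⟩
        have h5 := Rg_add_Omega t (S.b k) q q' h2 h1
        cases t <;> simp only [Rg, Bool.false_eq_true, if_true, if_false] at h5 <;> omega
      · exact map_zero C
    | zero => rw [mul_zero, map_zero, map_zero]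
    | add u v _ _ hu hv => rw [mul_add, map_add, map_add, hu, hv, add_zero]
    | smul c v _ hv => rw [mul_smul_comm, map_smul, map_smul, hv, smul_zero]
  | zero => rw [zero_mul, map_zero, map_zero]
  | add u v _ _ hu hv => rw [add_mul, map_add, map_add, hu, hv, add_zero]
  | smul c v _ hv => rw [smul_mul_assoc, map_smul, map_smul, hv, smul_zero]

theorem DuA_tau_Z {C : X.functionField →ₗ[ℂ] ℂ}
    (hC : ∀ p q : ℤ, C (G.B ^ p * G.Z ^ q) = if p = 0 ∧ q = 0 then 1 else 0) (t : Bool)
    (h w : X.functionField) (hh : h ∈ (FO X).secs (G.UZ t)) (hw : w ∈ d.Om.secs (G.UZ t)) :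
    C (d.τ (h * w)) = 0 := by
  rw [S.secs_UZ (qc_FO_DualB G) t] at hh
  rw [d.splitOm.secs_UZ d.qc_Om t] at hw
  unfold BiP.spanR at hh
  induction hh using Submodule.span_induction with
  | mem h hh =>
    obtain ⟨k, p', q', h1, rfl⟩ := hh
    unfold BiP.spanR at hw
    induction hw using Submodule.span_induction with
    | mem w hw =>
      obtain ⟨l, p, q, h2, rfl⟩ := hw
      have h3 := d.tau_mon_Omega k l p q p' q'
      change C (d.τ (G.B ^ p' * G.Z ^ q' * S.e k * (G.B ^ p * G.Z ^ q * d.e' l))) = 0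
      rw [h3]
      split_ifs with hkl
      · subst hkl
        rw [hC, if_neg]
        rintro ⟨h4, -⟩
        have h5 := Rg_add_Omega t (S.a k) p p' h2 h1
        cases t <;> simp only [Rg, Bool.false_eq_true, if_true, if_false] at h5 <;> omega
      · exact map_zero C
    | zero => rw [mul_zero, map_zero, map_zero]
    | add u v _ _ hu hv => rw [mul_add, map_add, map_add, hu, hv, add_zero]
    | smul c v _ hv => rw [mul_smul_comm, map_smul, map_smul, hv, smul_zero]
  | zero => rw [zero_mul, map_zero, map_zero]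
  | add u v _ _ hu hv => rw [add_mul, map_add, map_add, hu, hv, add_zero]
  | smul c v _ hv => rw [smul_mul_assoc, map_smul, map_smul, hv, smul_zero]

theorem DuA_tau_mem (w : X.functionField) (hw : w ∈ d.Om.secs G.UU) (k : ι) :
    d.τ (S.e k * w) ∈ Submodule.span ℂ
      (Set.range fun x : ℤ × ℤ => G.B ^ x.1 * G.Z ^ x.2) := by
  rw [d.splitOm.secs_UU d.qc_Om] at hw
  unfold BiP.spanAll at hw
  induction hw using Submodule.span_induction with
  | mem w hw =>
    obtain ⟨⟨l, p, q⟩, rfl⟩ := hw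
    have h3 := d.tau_mon_Omega k l p q 0 0
    rw [zpow_zero, zpow_zero, one_mul, one_mul] at h3
    change d.τ (S.e k * (G.B ^ p * G.Z ^ q * d.e' l)) ∈ _
    rw [h3]
    split_ifs
    · exact Submodule.subset_span ⟨(p + 0 + 1, q + 0 + 1), rfl⟩
    · exact zero_mem _
  | zero => rw [mul_zero, map_zero]; exact zero_mem _
  | add u v _ _ hu hv => rw [mul_add, map_add]; exact add_mem hu hv
  | smul c v _ hv => rw [mul_smul_comm, map_smul]; exact Submodule.smul_mem _ c hv

theorem DuA_one_mem (V : X.Opens) : (1 : X.functionField) ∈ (FO X).secs V :=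
  fun p _ => Reg.one p

/-- Let `C` be as in `exists_C_Mb` and `u y = C (τ (val (φ y)))`. (1) `u ∈ VV M`: for `w ∈ Ω(UB_t)` one has `C (τ w) = 0` (similarly `UZ_s`): `1 ∈ O(UB_t)` is a combination of `B^p Z^q e_l` with `Rg t (b_l) q`
(`Split.secs_UB`), `w` is a combination of `B^p Z^q e'_l`, `e'_l = B Z f_l`, with `Rg t (-b_l-2) q` (`d.splitOm.secs_UB`, `qc_Om`), so `τ w = τ (1 · w)` is a combination of the `B^{p+p'+1} Z^{q+q'+1}` with
`Rg t (b_l) q` and `Rg t (-b_l-2) q'`, and `Rg_add_Omega` (or: for `t = false` `q, q' ≥ 0`; for `t = true` `q ≤ b_l`, `q' ≤ -b_l - 2`) gives `q + q' + 1 ≠ 0`; apply `C`.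
(`φ` commutes with restrictions, `Frac.val_res`.)
(2) `kap u y = val (φ y) =: w`: `v = kap u y - w` satisfies `C (τ (toK h · v)) = 0` for all `h ∈ O(UU)`: `C_kap_Mb` gives `C (τ (toK h · kap u y)) = u (h • y) = C (τ (val (φ (h • y)))) = C (τ (toK h · w))`.
With `h = B^i Z^j e_k` (`Split.mo`): all coefficients of `τ (e_k v)` vanish; it lies in the span of the monomials (`tau_mem_Mb`, and for `w ∈ Ω(UU)`: `splitOm.secs_UU`, `tau_mon_Omega`), so `τ (e_k v) = 0` (`eq_zero_Mb`), and
`v = 0` (`d.expand`). -/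
theorem exists_form {M : X.Modules} (hM : QC M) (φ : M ⟶ d.Om.mod) :
    ∃ u ∈ G.VV M, ∀ y : Γ(M, G.UU), d.Om.val G.pt_mem (φ.app _ y) = d.kap u y := by
  obtain ⟨C, hC⟩ := d.exists_C_Mb
  let W : Γ(M, G.UU) →ₗ[ℂ] X.functionField := d.Om.valL G.pt_mem ∘ₗ appC φ G.UU
  have hW : ∀ y, W y = d.Om.val G.pt_mem (φ.app G.UU y) := fun _ => rfl
  let u : Module.Dual ℂ Γ(M, G.UU) := C ∘ₗ d.τ ∘ₗ W
  have hu' : ∀ y, u y = C (d.τ (W y)) := fun _ => rfl
  have hres : ∀ {V : X.Opens} (h : G.UU ≤ V) (x : Γ(M, V)),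
      W (res M h x) = d.Om.val (h G.pt_mem) (φ.app V x) := by
    intro V h x
    rw [hW, app_res, d.Om.val_res]
  have hu : u ∈ G.VV M := by
    refine ⟨fun t x => ?_, fun s x => ?_⟩
    · rw [hu', hres]
      have h1 := d.DuA_tau_B hC t 1 (d.Om.val (G.UU_leB t G.pt_mem) (φ.app _ x))
        (DuA_one_mem _) (fun p hp => d.Om.val_mem _ hp _)
      rwa [one_mul] at h1
    · rw [hu', hres]
      have h1 := d.DuA_tau_Z hC s 1 (d.Om.val (G.UU_leZ s G.pt_mem) (φ.app _ x))
        (DuA_one_mem _) (fun p hp => d.Om.val_mem _ hp _)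
      rwa [one_mul] at h1
  refine ⟨u, hu, fun y => ?_⟩
  rw [← hW, eq_comm, ← sub_eq_zero]
  rw [d.expand (d.kap u y - W y)]
  apply Finset.sum_eq_zero
  intro l _
  have hWm : W y ∈ d.Om.secs G.UU := fun p hp => d.Om.val_mem _ hp _
  have h1 : d.τ (S.e l * (d.kap u y - W y)) = 0 := by
    apply eq_zero_Mb hC
    · rw [mul_sub, map_sub]
      refine Submodule.sub_mem _ ?_ (d.DuA_tau_mem _ hWm l)
      rw [← S.toK_E]
      exact d.tau_mem_Mb hM hu _ _
    · intro i j
      rw [← d.mon]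
      have h3 : G.B ^ i * G.Z ^ j * (S.e l * (d.kap u y - W y))
          = toK G.pt_mem (S.mo l i j) * d.kap u y - toK G.pt_mem (S.mo l i j) * W y := by
        rw [S.toK_mo]
        ring
      have h4 : W (S.mo l i j • y) = toK G.pt_mem (S.mo l i j) * W y := by
        rw [hW, hW, Scheme.Modules.Hom.app_smul, d.Om.val_smul]
      rw [h3, map_sub, map_sub, d.C_kap_Mb hM hu _ _ hC, hu', h4, sub_self]
  rw [h1, zero_mul]

/-- `kap` is natural: morphisms are linear over the functions. -/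
theorem kap_comp {M M' : X.Modules} (i : M ⟶ M') (u : Module.Dual ℂ Γ(M', G.UU))
    (u' : Module.Dual ℂ Γ(M, G.UU)) (h : ∀ y, u' y = u (i.app G.UU y)) (y : Γ(M, G.UU)) :
    d.kap u' y = d.kap u (i.app G.UU y) := by
  unfold kap
  refine finsum_congr fun x => ?_
  rw [h, Scheme.Modules.Hom.app_smul]

end DualB

end M21.E3
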