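import Pool.Agent.H.MP_21b43d_ag.E3.V.DuN
import Pool.Agent.H.MP_21b43d_ag.E3.V.DuA
import Pool.Agent.H.MP_21b43d_ag.E3.S4.Tw6

/-!
# M21, full support, V-H6a: duality
-/

set_option autoImplicit false

open CategoryTheory CategoryTheory.Limits CategoryTheory.Pretriangulated AlgebraicGeometry
  TopologicalSpace

noncomputable section

namespace M21.E3

variable {X : Scheme.{0}} [IsIntegral X] [CX X] {G : BiP X} {ι : Type} [Fintype ι] [DecidableEq ι]
  {S : G.Split (FO X) ι} (d : DualB S)

namespace BiP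

omit [IsIntegral X] [CX X] in
theorem ucocycle_ext_DuB {κ : Type} {U : κ → X.Opens} {c c' : UCocycle U} (h : c.u = c'.u) :
    c = c' := by
  cases c
  cases c'
  cases h
  rfl

omit [IsIntegral X] [CX X] in
theorem ub_neg_DuB (G : BiP X) (m : ℤ) (s s' : Bool) {O : X.Opens} (h1 : O ≤ G.V s)
    (h2 : O ≤ G.V s') : G.ub m s' s h2 h1 = G.ub (-m) s s' h1 h2 := by
  by_cases h : s = s'
  · subst h
    rw [G.ub_self, G.ub_self]
  · rw [G.ub_ne m (Ne.symm h), G.ub_ne (-m) h]
    have e : sg s' * m = sg s * -m := by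
      have := sg_add_Tw h m
      linarith
    simp only [e]

omit [IsIntegral X] [CX X] in
theorem uz_neg_DuB (G : BiP X) (n : ℤ) (t t' : Bool) {O : X.Opens} (h1 : O ≤ G.W t)
    (h2 : O ≤ G.W t') : G.uz n t' t h2 h1 = G.uz (-n) t t' h1 h2 := by
  by_cases h : t = t'
  · subst h
    rw [G.uz_self, G.uz_self]
  · rw [G.uz_ne n (Ne.symm h), G.uz_ne (-n) h]
    have e : sg t' * n = sg t * -n := by
      have := sg_add_Tw h n
      linarith
    simp only [e]

omit [IsIntegral X] [CX X] in
/-- The inverse of the cocycle of `O(m, n)` is the cocycle of `O(-m, -n)`. -/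
theorem twc_inv_DuB (G : BiP X) (m n : ℤ) : (G.twc m n).inv = G.twc (-m) (-n) := by
  apply ucocycle_ext_DuB
  funext i j
  change resF _ (G.ub m j.1 i.1 _ _ * G.uz n j.2 i.2 _ _) =
    G.ub (-m) i.1 j.1 _ _ * G.uz (-n) i.2 j.2 _ _
  rw [G.uu_res_Tw, G.ub_neg_DuB, G.uz_neg_DuB]

/-- values of sections of a twist over `UU`, linear over `ℂ` -/
def tvL_DuB (G : BiP X) (m n : ℤ) (F : X.Modules) : Γ(G.Twi m n F, G.UU) →ₗ[ℂ] Γ(F, G.UU) where
  toFun := G.tv m n false false (G.UU_le false false)
  map_add' := G.tv_add m n false false (G.UU_le false false)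
  map_smul' := G.tv_smulC m n false false (G.UU_le false false)

/-- the inverse map -/
def tlL_DuB (G : BiP X) (m n : ℤ) (F : X.Modules) : Γ(F, G.UU) →ₗ[ℂ] Γ(G.Twi m n F, G.UU) where
  toFun := G.tl m n false false (G.UU_le false false)
  map_add' := G.tl_add m n false false (G.UU_le false false)
  map_smul' a x := G.tl_smul m n false false (G.UU_le false false) (cr G.UU a) x

omit [IsIntegral X] [CX X] in
theorem tv_resB_false_DuB (G : BiP X) (m n : ℤ) {F : X.Modules}
    (x : Γ(G.Twi m n F, G.UB false)) :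
    G.tv m n false false (G.UU_le false false) (res _ (G.UU_leB false) x) =
      res F (G.UU_leB false) (G.tv m n false false (G.UB_le false false) x) :=
  G.tv_res m n false false (G.UB_le false false) (G.UU_leB false) x

omit [IsIntegral X] [CX X] in
theorem tv_resZ_false_DuB (G : BiP X) (m n : ℤ) {F : X.Modules}
    (x : Γ(G.Twi m n F, G.UZ false)) :
    G.tv m n false false (G.UU_le false false) (res _ (G.UU_leZ false) x) =
      res F (G.UU_leZ false) (G.tv m n false false (G.UZ_le false false) x) :=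
  G.tv_res m n false false (G.UZ_le false false) (G.UU_leZ false) x

omit [IsIntegral X] [CX X] in
theorem tv_resB_true_DuB (G : BiP X) (m n : ℤ) {F : X.Modules}
    (x : Γ(G.Twi m n F, G.UB true)) :
    G.tv m n false false (G.UU_le false false) (res _ (G.UU_leB true) x) =
      G.zp n (inf_le_right : G.UU ≤ G.W01) •
        res F (G.UU_leB true) (G.tv m n false true (G.UB_le false true) x) := by
  rw [G.tv_Z m n false (G.UU_le false false) (G.UU_le false true)
    (inf_le_right : G.UU ≤ G.W01)]
  exact congrArg (fun z => G.zp n (inf_le_right : G.UU ≤ G.W01) • z)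
    (G.tv_res m n false true (G.UB_le false true) (G.UU_leB true) x)

omit [IsIntegral X] [CX X] in
theorem tv_resZ_true_DuB (G : BiP X) (m n : ℤ) {F : X.Modules}
    (x : Γ(G.Twi m n F, G.UZ true)) :
    G.tv m n false false (G.UU_le false false) (res _ (G.UU_leZ true) x) =
      G.bp m (inf_le_left : G.UU ≤ G.V01) •
        res F (G.UU_leZ true) (G.tv m n true false (G.UZ_le true false) x) := by
  rw [G.tv_B m n false (G.UU_le false false) (G.UU_le true false)
    (inf_le_left : G.UU ≤ G.V01)]
  exact congrArg (fun z => G.bp m (inf_le_left : G.UU ≤ G.V01) • z)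
    (G.tv_res m n true false (G.UZ_le true false) (G.UU_leZ true) x)

end BiP

namespace DualB

/-- **Duality**: `H^2(M(m, n))^* = Hom(M, Ω(-m, -n))`, natural in `M`. Let `c` be as in `exists_H2n`. For `f ∈ H^2(M(m,n))^*` the form `f ∘ c_M` on `Γ(M, UU)` vanishes on the images of `UB_0`, `UZ_0` and on `Z^n` (image of `UB_1`),
`B^m` (image of `UZ_1`). With `M' = G.Twi m n M` and `u' = f ∘ c_M ∘ tv_{00} : Γ(M', UU) → ℂ` this says `u' ∈ VV M'` (`tv_res`, `tv_B`, `tv_Z`: `tv_{00} (res x) = Z^n res (tv_{01} x)` for `x` over `UB_1`, `= B^m res (tv_{10} x)` for `x` over `UZ_1`),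
and every element of `VV M'` is of this form. So `f ↦ u'` is a bijection to `VV M'`, `VV M'` is in bijection with `Hom(M', Ω)` (`exists_hom`, `exists_form`, `eq_zero_of_kap` and linearity, `hom_ext_UU`), and
`Hom(G.Twi m n M, Ω) = Hom(M, G.Twi (-m) (-n) Ω)` by the equivalence `G.twe m n` (`toAdjunction.homEquiv`; show that `TwObj (G.twc m n).inv` is isomorphic to `G.Twi (-m) (-n)`). All steps are natural in `M` (`kap_comp`, `tv_map`). -/
theorem exists_duality (m n : ℤ) : ∃ D : ∀ M : X.Modules, QC M →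
    Module.Dual ℂ (G.LL m n ⟶ (SS M)⟦(2 : ℤ)⟧) → (M ⟶ G.Twi (-m) (-n) d.Om.mod),
      (∀ M hM, Function.Bijective (D M hM)) ∧
      ∀ (M : X.Modules) (hM : QC M) (M' : X.Modules) (hM' : QC M') (i : M ⟶ M')
        (f : Module.Dual ℂ (G.LL m n ⟶ (SS M')⟦(2 : ℤ)⟧)),
        D M hM (f ∘ₗ Linear.rightComp ℂ (G.LL m n)
          (((DerivedCategory.singleFunctor X.Modules 0).map i)⟦(2 : ℤ)⟧')) = i ≫ D M' hM' f := by
  obtain ⟨c, hnat, hc⟩ := G.exists_H2n m n
  -- the images vanish
  have hker : ∀ (M : X.Modules) (hM : QC M) (x0 : Γ(M, G.UB false)) (x1 : Γ(M, G.UB true))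
      (y0 : Γ(M, G.UZ false)) (y1 : Γ(M, G.UZ true)), c M (res M (G.UU_leB false) x0 +
        G.zp n (inf_le_right : G.UU ≤ G.W01) • res M (G.UU_leB true) x1 +
        res M (G.UU_leZ false) y0 +
        G.bp m (inf_le_left : G.UU ≤ G.V01) • res M (G.UU_leZ true) y1) = 0 :=
    fun M hM x0 x1 y0 y1 => ((hc M hM).2 _).2 ⟨x0, x1, y0, y1, rfl⟩
  have hB : ∀ (M : X.Modules) (hM : QC M) t (x : Γ(G.Twi m n M, G.UB t)),
      c M (G.tvL_DuB m n M (res _ (G.UU_leB t) x)) = 0 := by
    intro M hM t x
    cases t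
    · have h1 : G.tvL_DuB m n M (res _ (G.UU_leB false) x) = _ := G.tv_resB_false_DuB m n x
      have h2 := hker M hM (G.tv m n false false (G.UB_le false false) x) 0 0 0
      rw [res_zero, res_zero, res_zero, smul_zero, smul_zero, add_zero, add_zero, add_zero] at h2
      rw [h1]
      exact h2
    · have h1 : G.tvL_DuB m n M (res _ (G.UU_leB true) x) = _ := G.tv_resB_true_DuB m n x
      have h2 := hker M hM 0 (G.tv m n false true (G.UB_le false true) x) 0 0
      rw [res_zero, res_zero, res_zero, smul_zero, zero_add, add_zero, add_zero] at h2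
      rw [h1]
      exact h2
  have hZ : ∀ (M : X.Modules) (hM : QC M) s (x : Γ(G.Twi m n M, G.UZ s)),
      c M (G.tvL_DuB m n M (res _ (G.UU_leZ s) x)) = 0 := by
    intro M hM s x
    cases s
    · have h1 : G.tvL_DuB m n M (res _ (G.UU_leZ false) x) = _ := G.tv_resZ_false_DuB m n x
      have h2 := hker M hM 0 0 (G.tv m n false false (G.UZ_le false false) x) 0
      rw [res_zero, res_zero, res_zero, smul_zero, smul_zero, zero_add, zero_add, add_zero] at h2
      rw [h1]
      exact h2
    · have h1 : G.tvL_DuB m n M (res _ (G.UU_leZ true) x) = _ := G.tv_resZ_true_DuB m n x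
      have h2 := hker M hM 0 0 0 (G.tv m n true false (G.UZ_le true false) x)
      rw [res_zero, res_zero, res_zero, smul_zero, zero_add, zero_add, zero_add] at h2
      rw [h1]
      exact h2
  have hU : ∀ (M : X.Modules) (hM : QC M) (f : Module.Dual ℂ (G.LL m n ⟶ (SS M)⟦(2 : ℤ)⟧)),
      f ∘ₗ c M ∘ₗ G.tvL_DuB m n M ∈ G.VV (G.Twi m n M) := by
    intro M hM f
    refine ⟨fun t x => ?_, fun s x => ?_⟩
    · rw [LinearMap.comp_apply, LinearMap.comp_apply, hB M hM t x, map_zero]
    · rw [LinearMap.comp_apply, LinearMap.comp_apply, hZ M hM s x, map_zero]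
  choose φ hφ using fun (M : X.Modules) (hM : QC M)
    (f : Module.Dual ℂ (G.LL m n ⟶ (SS M)⟦(2 : ℤ)⟧)) =>
      d.exists_hom (G.qc_Twi m n hM) (hU M hM f)
  -- the morphisms to `Ω`
  have hbij : ∀ (M : X.Modules) (hM : QC M), Function.Bijective (φ M hM) := by
    intro M hM
    constructor
    · intro f f' hff
      have h1 : ∀ y, (f ∘ₗ c M ∘ₗ G.tvL_DuB m n M) y = (f' ∘ₗ c M ∘ₗ G.tvL_DuB m n M) y := by
        intro y
        have h2 : d.kap (f ∘ₗ c M ∘ₗ G.tvL_DuB m n M) y =
            d.kap (f' ∘ₗ c M ∘ₗ G.tvL_DuB m n M) y := by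
          rw [← hφ M hM f y, ← hφ M hM f' y, hff]
        have h3 : d.kap (f ∘ₗ c M ∘ₗ G.tvL_DuB m n M +
            (-1 : ℂ) • (f' ∘ₗ c M ∘ₗ G.tvL_DuB m n M)) y = 0 := by
          rw [d.kap_add_left (G.qc_Twi m n hM) (hU M hM f)
            (Submodule.smul_mem _ _ (hU M hM f')), d.kap_smul_left, h2]
          rw [neg_one_smul, add_neg_cancel]
        have h4 := d.eq_zero_of_kap (G.qc_Twi m n hM) (Submodule.add_mem _ (hU M hM f)
            (Submodule.smul_mem _ _ (hU M hM f'))) y h3
        rw [LinearMap.add_apply, LinearMap.smul_apply, neg_one_smul] at h4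
        exact eq_of_sub_eq_zero (by rw [sub_eq_add_neg]; exact h4)
      apply LinearMap.ext
      intro α
      obtain ⟨z, hz⟩ := (hc M hM).1 α
      have h5 := h1 (G.tl m n false false (G.UU_le false false) z)
      have h6 : G.tvL_DuB m n M (G.tl m n false false (G.UU_le false false) z) = z :=
        G.tv_tl m n false false (G.UU_le false false) z
      rw [LinearMap.comp_apply, LinearMap.comp_apply, LinearMap.comp_apply,
        LinearMap.comp_apply, h6, hz] at h5
      exact h5
    · intro ψ
      obtain ⟨u, hu, hψ⟩ := d.exists_form (G.qc_Twi m n hM) ψ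
      have hk : LinearMap.ker (c M) ≤ LinearMap.ker (u ∘ₗ G.tlL_DuB m n M) := by
        intro y hy
        rw [LinearMap.mem_ker] at hy ⊢
        obtain ⟨x0, x1, y0, y1, rfl⟩ := ((hc M hM).2 y).1 hy
        have e0 : G.tlL_DuB m n M (res M (G.UU_leB false) x0) =
            res _ (G.UU_leB false) (G.tl m n false false (G.UB_le false false) x0) :=
          (G.tl_res m n false false (G.UB_le false false) (G.UU_leB false) x0).symm
        have e1 : G.tlL_DuB m n M
            (G.zp n (inf_le_right : G.UU ≤ G.W01) • res M (G.UU_leB true) x1) =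
            res _ (G.UU_leB true) (G.tl m n false true (G.UB_le false true) x1) := by
          apply G.tv_inj (m := m) (n := n) (s := false) (t := false)
            (h := G.UU_le false false)
          rw [G.tv_resB_true_DuB, G.tv_tl]
          exact G.tv_tl m n false false (G.UU_le false false) _
        have e2 : G.tlL_DuB m n M (res M (G.UU_leZ false) y0) =
            res _ (G.UU_leZ false) (G.tl m n false false (G.UZ_le false false) y0) :=
          (G.tl_res m n false false (G.UZ_le false false) (G.UU_leZ false) y0).symm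
        have e3 : G.tlL_DuB m n M
            (G.bp m (inf_le_left : G.UU ≤ G.V01) • res M (G.UU_leZ true) y1) =
            res _ (G.UU_leZ true) (G.tl m n true false (G.UZ_le true false) y1) := by
          apply G.tv_inj (m := m) (n := n) (s := false) (t := false)
            (h := G.UU_le false false)
          rw [G.tv_resZ_true_DuB, G.tv_tl]
          exact G.tv_tl m n false false (G.UU_le false false) _
        rw [LinearMap.comp_apply]
        simp only [map_add, e0, e1, e2, e3, hu.1, hu.2, add_zero]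
      obtain ⟨f, hf⟩ : ∃ f : Module.Dual ℂ (G.LL m n ⟶ (SS M)⟦(2 : ℤ)⟧),
          f ∘ₗ c M = u ∘ₗ G.tlL_DuB m n M := by
        refine ⟨((LinearMap.ker (c M)).liftQ (u ∘ₗ G.tlL_DuB m n M) hk) ∘ₗ
          ((c M).quotKerEquivOfSurjective (hc M hM).1).symm.toLinearMap, ?_⟩
        apply LinearMap.ext
        intro y
        rw [LinearMap.comp_apply, LinearMap.comp_apply]
        have h7 : ((c M).quotKerEquivOfSurjective (hc M hM).1).symm.toLinearMap (c M y) =
            Submodule.Quotient.mk y := by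
          rw [LinearEquiv.coe_coe, LinearEquiv.symm_apply_eq]
          rfl
        rw [h7]
        exact Submodule.liftQ_apply _ _ _
      refine ⟨f, ?_⟩
      apply hom_ext_UU G (G.qc_Twi m n hM)
      intro y
      rw [hφ, hψ]
      congr 1
      apply LinearMap.ext
      intro y'
      rw [LinearMap.comp_apply, LinearMap.comp_apply]
      have h8 := LinearMap.congr_fun hf (G.tvL_DuB m n M y')
      rw [LinearMap.comp_apply, LinearMap.comp_apply] at h8
      rw [h8]
      congr 1
      exact G.tl_tv m n false false (G.UU_le false false) y'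
  have hφnat : ∀ (M : X.Modules) (hM : QC M) (M' : X.Modules) (hM' : QC M') (i : M ⟶ M')
        (f : Module.Dual ℂ (G.LL m n ⟶ (SS M')⟦(2 : ℤ)⟧)),
        φ M hM (f ∘ₗ Linear.rightComp ℂ (G.LL m n)
          (((DerivedCategory.singleFunctor X.Modules 0).map i)⟦(2 : ℤ)⟧')) =
        (G.twe m n).functor.map i ≫ φ M' hM' f := by
    intro M hM M' hM' i f
    apply hom_ext_UU G (G.qc_Twi m n hM)
    intro y
    rw [hφ]
    have h9 : d.Om.val G.pt_mem (((G.twe m n).functor.map i ≫ φ M' hM' f).app G.UU y) =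
        d.kap (f ∘ₗ c M' ∘ₗ G.tvL_DuB m n M') ((twMap (G.twc m n) i).app G.UU y) := by
      rw [← hφ M' hM' f]
      rfl
    refine Eq.trans ?_ h9.symm
    apply d.kap_comp
    intro y'
    rw [LinearMap.comp_apply, LinearMap.comp_apply, LinearMap.comp_apply, LinearMap.comp_apply,
      LinearMap.comp_apply]
    have h10 : G.tvL_DuB m n M' ((twMap (G.twc m n) i).app G.UU y') =
        i.app G.UU (G.tvL_DuB m n M y') :=
      G.tv_map m n false false (G.UU_le false false) i y'
    rw [h10, hnat M M' i]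
    rfl
  have key : ∀ T : UCocycle (fun i : Bool × Bool => G.U i.1 i.2), T = (G.twc m n).inv →
      ∃ D : ∀ M : X.Modules, QC M →
        Module.Dual ℂ (G.LL m n ⟶ (SS M)⟦(2 : ℤ)⟧) → (M ⟶ TwObj T d.Om.mod),
      (∀ M hM, Function.Bijective (D M hM)) ∧
      ∀ (M : X.Modules) (hM : QC M) (M' : X.Modules) (hM' : QC M') (i : M ⟶ M')
        (f : Module.Dual ℂ (G.LL m n ⟶ (SS M')⟦(2 : ℤ)⟧)),
        D M hM (f ∘ₗ Linear.rightComp ℂ (G.LL m n)
          (((DerivedCategory.singleFunctor X.Modules 0).map i)⟦(2 : ℤ)⟧')) = i ≫ D M' hM' f := by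
    rintro _ rfl
    refine ⟨fun M hM f => ((G.twe m n).toAdjunction.homEquiv M d.Om.mod) (φ M hM f), ?_, ?_⟩
    · intro M hM
      exact ((G.twe m n).toAdjunction.homEquiv M d.Om.mod).bijective.comp (hbij M hM)
    · intro M hM M' hM' i f
      show ((G.twe m n).toAdjunction.homEquiv M d.Om.mod) (φ M hM _) =
        i ≫ ((G.twe m n).toAdjunction.homEquiv M' d.Om.mod) (φ M' hM' f)
      rw [hφnat M hM M' hM' i f]
      exact (G.twe m n).toAdjunction.homEquiv_naturality_left i (φ M' hM' f)
  exact key _ (G.twc_inv_DuB m n).symm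

end DualB

end M21.E3
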