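import Pool.Agent.H.MP_21b43d_ag.E3.V.DuB
import Pool.Agent.H.MP_21b43d_ag.E3.G.Num

/-!
# M21, full support, V-H6b: `Hom(K, Ω(-m,-n)[1]) = 0` implies `H^1(K(m,n)) = 0`
-/

set_option autoImplicit false

open CategoryTheory CategoryTheory.Limits CategoryTheory.Pretriangulated AlgebraicGeometry
  TopologicalSpace

noncomputable section

namespace M21.E3

/-- One monomial. -/
theorem exists_pt_DuC (P0 P1 Q0 Q1 : Prop) (hP : ¬ (P0 ∧ P1)) (hQ : ¬ (Q0 ∧ Q1))
    (x0 x1 y0 y1 : ℂ)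
    (e0 : x0 ≠ 0 → Q0) (e1 : x1 ≠ 0 → Q1) (e2 : y0 ≠ 0 → P0) (e3 : y1 ≠ 0 → P1)
    (h : x0 - x1 = y0 - y1) :
    ∃ s : Bool → Bool → ℂ, (s false false ≠ 0 → P0 ∧ Q0) ∧ (s false true ≠ 0 → P0 ∧ Q1) ∧
      (s true false ≠ 0 → P1 ∧ Q0) ∧ (s true true ≠ 0 → P1 ∧ Q1) ∧
      x0 = s false false - s true false ∧ x1 = s false true - s true true ∧
      y0 = s false false - s false true ∧ y1 = s true false - s true true ∧
      (x0 = 0 → x1 = 0 → y0 = 0 → y1 = 0 → ∀ i j, s i j = 0) := by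
  have key : ∀ (s00 s01 s10 s11 : ℂ), (s00 ≠ 0 → P0 ∧ Q0) → (s01 ≠ 0 → P0 ∧ Q1) →
      (s10 ≠ 0 → P1 ∧ Q0) → (s11 ≠ 0 → P1 ∧ Q1) → x0 = s00 - s10 → x1 = s01 - s11 →
      y0 = s00 - s01 → y1 = s10 - s11 →
      (x0 = 0 → x1 = 0 → y0 = 0 → y1 = 0 → s00 = 0 ∧ s01 = 0 ∧ s10 = 0 ∧ s11 = 0) →
      ∃ s : Bool → Bool → ℂ, (s false false ≠ 0 → P0 ∧ Q0) ∧ (s false true ≠ 0 → P0 ∧ Q1) ∧
      (s true false ≠ 0 → P1 ∧ Q0) ∧ (s true true ≠ 0 → P1 ∧ Q1) ∧
      x0 = s false false - s true false ∧ x1 = s false true - s true true ∧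
      y0 = s false false - s false true ∧ y1 = s true false - s true true ∧
      (x0 = 0 → x1 = 0 → y0 = 0 → y1 = 0 → ∀ i j, s i j = 0) := by
    intro s00 s01 s10 s11 h1 h2 h3 h4 h5 h6 h7 h8 h9
    refine ⟨fun i j => if i then (if j then s11 else s10) else (if j then s01 else s00),
      h1, h2, h3, h4, h5, h6, h7, h8, fun a b c d i j => ?_⟩
    obtain ⟨k1, k2, k3, k4⟩ := h9 a b c d
    cases i <;> cases j <;> assumption
  by_cases p0 : P0
  · have z1 : y1 = 0 := by
      by_contra hc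
      exact hP ⟨p0, e3 hc⟩
    exact key x0 x1 0 0 (fun hc => ⟨p0, e0 hc⟩) (fun hc => ⟨p0, e1 hc⟩) (fun hc => absurd rfl hc)
      (fun hc => absurd rfl hc) (by ring) (by ring) (by linear_combination z1 - h)
      (by rw [z1]; ring) (fun a b c d => ⟨a, b, rfl, rfl⟩)
  · have z0 : y0 = 0 := by
      by_contra hc
      exact p0 (e2 hc)
    by_cases p1 : P1
    · exact key 0 0 (-x0) (-x1) (fun hc => absurd rfl hc) (fun hc => absurd rfl hc)
        (fun hc => ⟨p1, e0 (neg_ne_zero.mp hc)⟩) (fun hc => ⟨p1, e1 (neg_ne_zero.mp hc)⟩)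
        (by ring) (by ring) (by rw [z0]; ring) (by linear_combination z0 + h)
        (fun a b c d => ⟨rfl, rfl, by rw [a, neg_zero], by rw [b, neg_zero]⟩)
    · have z1 : y1 = 0 := by
        by_contra hc
        exact p1 (e3 hc)
      have hx : x0 = x1 := by linear_combination h + z0 - z1
      have w0 : x0 = 0 := by
        by_contra hc
        exact hQ ⟨e0 hc, e1 (by rw [← hx]; exact hc)⟩
      have w1 : x1 = 0 := by rw [← hx, w0]
      exact key 0 0 0 0 (fun hc => absurd rfl hc) (fun hc => absurd rfl hc)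
        (fun hc => absurd rfl hc) (fun hc => absurd rfl hc) (by rw [w0]; ring) (by rw [w1]; ring)
        (by rw [z0]; ring) (by rw [z1]; ring) (fun _ _ _ _ => ⟨rfl, rfl, rfl, rfl⟩)

/-- The combinatorial core of `H^1 = 0` in coordinates. -/
theorem exists_coords_DuC {α : Type} (P Q : Bool → α → Prop) (hP : ∀ v, ¬ (P false v ∧ P true v))
    (hQ : ∀ v, ¬ (Q false v ∧ Q true v)) (x y : Bool → α →₀ ℂ) (hx : ∀ t v, x t v ≠ 0 → Q t v)
    (hy : ∀ s v, y s v ≠ 0 → P s v) (h : x false - x true = y false - y true) :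
    ∃ S : Bool → Bool → α →₀ ℂ, (∀ s t v, S s t v ≠ 0 → P s v ∧ Q t v) ∧
      (∀ t, x t = S false t - S true t) ∧ ∀ s, y s = S s false - S s true := by
  classical
  have e4 : ∀ v, x false v - x true v = y false v - y true v := fun v => DFunLike.congr_fun h v
  choose f hf using fun v => exists_pt_DuC (P false v) (P true v) (Q false v) (Q true v) (hP v)
    (hQ v) (x false v) (x true v) (y false v) (y true v) (hx _ v) (hx _ v) (hy _ v) (hy _ v) (e4 v)
  have hs : ∀ i j v, f v i j ≠ 0 →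
      v ∈ (x false).support ∪ (x true).support ∪ (y false).support ∪ (y true).support := by
    intro i j v hv
    by_contra hc
    simp only [Finset.mem_union, Finsupp.mem_support_iff, not_or, not_not] at hc
    exact hv ((hf v).2.2.2.2.2.2.2.2 hc.1.1.1 hc.1.1.2 hc.1.2 hc.2 i j)
  refine ⟨fun i j => Finsupp.onFinset _ (fun v => f v i j) (hs i j), ?_, ?_, ?_⟩
  · intro s t v hv
    change f v s t ≠ 0 at hv
    obtain ⟨h1, h2, h3, h4, -⟩ := hf v
    cases s <;> cases t
    · exact h1 hv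
    · exact h2 hv
    · exact h3 hv
    · exact h4 hv
  · intro t
    ext v
    change x t v = f v false t - f v true t
    obtain ⟨-, -, -, -, h5, h6, -⟩ := hf v
    cases t
    · exact h5
    · exact h6
  · intro s
    ext v
    change y s v = f v s false - f v s true
    obtain ⟨-, -, -, -, -, -, h7, h8, -⟩ := hf v
    cases s
    · exact h7
    · exact h8

namespace BiP

section core

variable {X : Scheme.{0}} [IsIntegral X] [CX X] {G : BiP X} {ι : Type}

/-- The core of `H^1 = 0` in the function field. -/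
theorem exists_split_DuC {e : ι → X.functionField}
    (hi : LinearIndependent ℂ (fun x : ι × ℤ × ℤ => G.B ^ x.2.1 * G.Z ^ x.2.2 * e x.1))
    (P Q : Bool → ι → ℤ → ℤ → Prop) (hP : ∀ l p q, ¬ (P false l p q ∧ P true l p q))
    (hQ : ∀ l p q, ¬ (Q false l p q ∧ Q true l p q)) (x y : Bool → X.functionField)
    (hx : ∀ t, x t ∈ G.spanR e (Q t)) (hy : ∀ s, y s ∈ G.spanR e (P s))
    (h : x false - x true = y false - y true) :
    ∃ S : Bool → Bool → X.functionField,
      (∀ s t, S s t ∈ G.spanR e (fun l p q => P s l p q ∧ Q t l p q)) ∧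
      (∀ t, x t = S false t - S true t) ∧ ∀ s, y s = S s false - S s true := by
  set X' : Bool → G.spanAll e := fun t => ⟨x t, spanR_le _ (hx t)⟩ with hX'
  set Y' : Bool → G.spanAll e := fun s => ⟨y s, spanR_le _ (hy s)⟩ with hY'
  have hXY : X' false - X' true = Y' false - Y' true := Subtype.ext h
  obtain ⟨S, hS, h1, h2⟩ := exists_coords_DuC
    (fun (s : Bool) (v : ι × ℤ × ℤ) => P s v.1 v.2.1 v.2.2)
    (fun (t : Bool) (v : ι × ℤ × ℤ) => Q t v.1 v.2.1 v.2.2)
    (fun v => hP _ _ _) (fun v => hQ _ _ _) (fun t => coord hi (X' t)) (fun s => coord hi (Y' s))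
    (fun t v hv => (mem_spanR_iff hi (Q t) (X' t)).mp (hx t) v hv)
    (fun s v hv => (mem_spanR_iff hi (P s) (Y' s)).mp (hy s) v hv)
    (by
      change coord hi (X' false) - coord hi (X' true) = coord hi (Y' false) - coord hi (Y' true)
      rw [← map_sub, ← map_sub, hXY])
  refine ⟨fun s t => ((coord hi).symm (S s t) : G.spanAll e), ?_, ?_, ?_⟩
  · intro s t
    rw [mem_spanR_iff hi]
    intro v hv
    rw [LinearEquiv.apply_symm_apply] at hv
    exact hS s t v hv
  · intro t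
    have h3 : X' t = (coord hi).symm (S false t) - (coord hi).symm (S true t) := by
      rw [← map_sub, ← h1 t]
      exact ((coord hi).symm_apply_apply _).symm
    exact congrArg Subtype.val h3
  · intro s
    have h3 : Y' s = (coord hi).symm (S s false) - (coord hi).symm (S s true) := by
      rw [← map_sub, ← h2 s]
      exact ((coord hi).symm_apply_apply _).symm
    exact congrArg Subtype.val h3

end core

end BiP

variable {X : Scheme.{0}} [IsIntegral X] [CX X] [IsLocallyNoetherian X] {G : BiP X} {ι : Type}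
  [Fintype ι]

namespace BiP

/-- `H^1 = 0` in the negative range. Same proof as `Split.h1_zero` (copy it): now for every monomial at most one of `P0 : 0 ≤ p`, `P1 : p ≤ a_l + m` holds and at most one of `Q0`, `Q1`.
`P0`: `S10 = S11 = 0`, `S00 = X0`, `S01 = X1`; `P1`: `S00 = S01 = 0`, `S10 = -X0`, `S11 = -X1`; neither: `Y0 = Y1 = 0` so `X0 = X1`, which is `0` as `Q0`, `Q1` are not both true; all `S = 0`. -/
theorem Split.h1_zero_neg {N : Frac X} (S : G.Split N ι) (hN : QC N.mod) (m n : ℤ)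
    (h : ∀ l, S.a l + m ≤ -1 ∧ S.b l + n ≤ -1) (φ : G.LL m n ⟶ (SS N.mod)⟦(1 : ℤ)⟧) : φ = 0 := by
  refine G.H1_zero hN m n (fun x y hxy => ?_) φ
  have hB := G.B_ne
  have hZ := G.Z_ne
  have hBm : G.B ^ m * G.B ^ (-m) = 1 := by rw [← zpow_add₀ hB, add_neg_cancel, zpow_zero]
  have hZn : G.Z ^ n * G.Z ^ (-n) = 1 := by rw [← zpow_add₀ hZ, add_neg_cancel, zpow_zero]
  -- the values in the frame of `U 0 0`
  set xv : Bool → X.functionField := fun t => G.Z ^ (tw t n) *
    N.val (pt_mem_UB_SplitH G t) (x t) with hxv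
  set yv : Bool → X.functionField := fun s => G.B ^ (tw s m) *
    N.val (pt_mem_UZ_SplitH G s) (y s) with hyv
  have hx : ∀ t, xv t ∈ G.spanR S.e (fun l _ q => Rg t (S.b l) (q + -tw t n)) := by
    intro t
    have h1 : N.val (pt_mem_UB_SplitH G t) (x t) ∈ N.secs (G.UB t) := val_mem_secs_SplitH _ _
    rw [S.secs_UB hN] at h1
    have h2 := mul_mem_spanR_iff (G := G) (e := S.e) (fun l _ q => Rg t (S.b l) q) 0 (-tw t n)
      (xv t)
    refine h2.mp ?_
    rw [zpow_zero, one_mul, hxv]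
    change G.Z ^ (-tw t n) * (G.Z ^ (tw t n) * _) ∈ _
    rw [← mul_assoc, ← zpow_add₀ hZ, neg_add_cancel, zpow_zero, one_mul]
    exact h1
  have hy : ∀ s, yv s ∈ G.spanR S.e (fun l p _ => Rg s (S.a l) (p + -tw s m)) := by
    intro s
    have h1 : N.val (pt_mem_UZ_SplitH G s) (y s) ∈ N.secs (G.UZ s) := val_mem_secs_SplitH _ _
    rw [S.secs_UZ hN] at h1
    have h2 := mul_mem_spanR_iff (G := G) (e := S.e) (fun l p _ => Rg s (S.a l) p) (-tw s m) 0
      (yv s)
    refine h2.mp ?_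
    rw [zpow_zero, mul_one, hyv]
    change G.B ^ (-tw s m) * (G.B ^ (tw s m) * _) ∈ _
    rw [← mul_assoc, ← zpow_add₀ hB, neg_add_cancel, zpow_zero, one_mul]
    exact h1
  have hxy' : xv false - xv true = yv false - yv true := by
    have h1 := congrArg (N.val G.pt_mem) hxy
    rw [val_sub_SplitH, val_sub_SplitH, N.val_smul, N.val_smul, N.val_res, N.val_res, N.val_res, N.val_res, G.toK_zp,
      G.toK_bp] at h1
    simp only [hxv, hyv, tw, if_true, if_false, Bool.false_eq_true, zpow_zero, one_mul]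
    exact h1
  obtain ⟨T, hT, h1, h2⟩ := exists_split_DuC S.indep
    (fun s l p _ => Rg s (S.a l) (p + -tw s m)) (fun t l _ q => Rg t (S.b l) (q + -tw t n))
    (fun l p q => by
      have := (h l).1
      simp only [Rg, tw, if_true, if_false, Bool.false_eq_true]
      omega)
    (fun l p q => by
      have := (h l).2
      simp only [Rg, tw, if_true, if_false, Bool.false_eq_true]
      omega) xv yv hx hy hxy'
  have hT' : ∀ s t, G.B ^ (-tw s m) * G.Z ^ (-tw t n) * T s t ∈ N.secs (G.U s t) := fun s t =>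
    (S.mem_secs_iff_SplitH m n s t (T s t)).mpr (hT s t)
  refine ⟨fun s t => N.sec (U := G.U s t) (G.B ^ (-tw s m) * G.Z ^ (-tw t n) * T s t) (hT' s t),
    fun t => ?_, fun s => ?_⟩
  · apply N.val_inj (pt_mem_UB_SplitH G t)
    have h3 : N.val (pt_mem_UB_SplitH G t) (x t) = G.Z ^ (-tw t n) * xv t := by
      rw [hxv]
      change _ = G.Z ^ (-tw t n) * (G.Z ^ (tw t n) * _)
      rw [← mul_assoc, ← zpow_add₀ hZ, neg_add_cancel, zpow_zero, one_mul]
    rw [val_sub_SplitH, h3, h1 t, N.val_smul, N.val_res, N.val_res, N.val_sec, N.val_sec, G.toK_bp]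
    have k0 : tw false m = 0 := rfl
    have k1 : tw true m = m := rfl
    rw [k0, k1, neg_zero, zpow_zero, one_mul]
    linear_combination (G.Z ^ (-tw t n) * T true t) * hBm
  · apply N.val_inj (pt_mem_UZ_SplitH G s)
    have h3 : N.val (pt_mem_UZ_SplitH G s) (y s) = G.B ^ (-tw s m) * yv s := by
      rw [hyv]
      change _ = G.B ^ (-tw s m) * (G.B ^ (tw s m) * _)
      rw [← mul_assoc, ← zpow_add₀ hB, neg_add_cancel, zpow_zero, one_mul]
    rw [val_sub_SplitH, h3, h2 s, N.val_smul, N.val_res, N.val_res, N.val_sec, N.val_sec, G.toK_zp]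
    have k0 : tw false n = 0 := rfl
    have k1 : tw true n = n := rfl
    rw [k0, k1, neg_zero, zpow_zero, mul_one]
    linear_combination (G.B ^ (-tw s m) * T s true) * hZn

/-- `exists_epi` with large `k` (same proof: `exists_hom_val` gives all large `k`; take `k` larger than `k₁`). -/
theorem exists_epi_large {F : X.Modules} (hF : IsCoh F) (k₁ : ℤ) :
    ∃ (k : ℤ) (_ : k₁ ≤ k) (n : ℕ) (φ : (⨁ (fun _ : Fin n => G.OO (-k) (-k))) ⟶ F), Epi φ := by
  have hQ : QC F := QC.of_isQuasicoherent F hF.qcoh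
  have hfin : ∀ s t, ∃ T : Finset Γ(F, G.U s t),
      Submodule.span Γ(X, G.U s t) (T : Set Γ(F, G.U s t)) = ⊤ := fun s t =>
    Submodule.fg_def.mp (hF.finite _ (G.aff s t)).fg_top |>.elim fun T hT =>
      ⟨hT.1.toFinset, by rw [Set.Finite.coe_toFinset]; exact hT.2⟩
  choose T hT using hfin
  choose κ hκ using fun (s t : Bool) (x : Γ(F, G.U s t)) => G.exists_hom_val hQ s t x
  -- a common bound
  obtain ⟨k, hk₁, hk⟩ : ∃ k : ℤ, k₁ ≤ k ∧ ∀ s t, ∀ x ∈ T s t, κ s t x ≤ k := by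
    obtain ⟨k, hk⟩ := (Set.finite_range
      (fun y : (Σ st : Bool × Bool, T st.1 st.2) => κ y.1.1 y.1.2 y.2.1)).bddAbove
    exact ⟨max k₁ k, le_max_left _ _,
      fun s t x hx => (hk ⟨⟨(s, t), ⟨x, hx⟩⟩, rfl⟩).trans (le_max_right _ _)⟩
  let J := Σ st : Bool × Bool, T st.1 st.2
  let e : Fin (Fintype.card J) ≃ J := (Fintype.equivFin J).symm
  choose φ hφ using fun y : J => hκ y.1.1 y.1.2 y.2.1 k k (hk _ _ _ y.2.2) (hk _ _ _ y.2.2)
  refine ⟨k, hk₁, Fintype.card J, biproduct.desc fun j => φ (e j), ?_⟩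
  refine epi_of_cover (fun i : Bool × Bool => G.U i.1 i.2) (fun i => G.aff i.1 i.2)
    (fun p => ?_) hQ _ (fun i y => ?_)
  · obtain ⟨s, t, h⟩ := G.exists_mem_U p
    exact ⟨(s, t), h⟩
  · obtain ⟨s, t⟩ := i
    have hy : y ∈ Submodule.span Γ(X, G.U s t) (T s t : Set Γ(F, G.U s t)) := by
      rw [hT s t]; trivial
    induction hy using Submodule.span_induction with
    | mem x hx =>
      refine ⟨(biproduct.ι (fun _ : Fin (Fintype.card J) => G.OO (-k) (-k))
        (e.symm ⟨(s, t), ⟨x, hx⟩⟩)).app _ (G.gen k k s t), ?_⟩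
      rw [← comp_app_apply, biproduct.ι_desc, Equiv.apply_symm_apply]
      exact hφ ⟨(s, t), ⟨x, hx⟩⟩
    | zero => exact ⟨0, app_zero _⟩
    | add x y _ _ hx hy =>
      obtain ⟨x', hx'⟩ := hx
      obtain ⟨y', hy'⟩ := hy
      exact ⟨x' + y', by rw [app_add, hx', hy']⟩
    | smul a x _ hx =>
      obtain ⟨x', hx'⟩ := hx
      exact ⟨a • x', by rw [Scheme.Modules.Hom.app_smul, hx']⟩

end BiP

end M21.E3
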