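import Pool.Agent.H.MP_21b43d_ag.E3.V.DuC

/-!
# M21, full support, V-H6b: `Hom(K, Ω(-m,-n)[1]) = 0` implies `H^1(K(m,n)) = 0`
-/

set_option autoImplicit false

open CategoryTheory CategoryTheory.Limits CategoryTheory.Pretriangulated AlgebraicGeometry
  TopologicalSpace

noncomputable section

namespace M21.E3

variable {X : Scheme.{0}} [IsIntegral X] [CX X] [IsLocallyNoetherian X] {G : BiP X} {ι : Type}
  [Fintype ι]

/-- maps out of a biproduct are determined by the components -/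
theorem src_DuD {n : ℕ} (f : Fin n → X.Modules) (L : DMod X) (φ : SS (⨁ f) ⟶ L)
    (h : ∀ j, (DerivedCategory.singleFunctor X.Modules 0).map (biproduct.ι f j) ≫ φ = 0) :
    φ = 0 := by
  have h1 : 𝟙 (SS (⨁ f)) = ∑ j,
      (DerivedCategory.singleFunctor X.Modules 0).map (biproduct.π f j) ≫
      (DerivedCategory.singleFunctor X.Modules 0).map (biproduct.ι f j) := by
    have h2 : (DerivedCategory.singleFunctor X.Modules 0).map (𝟙 (⨁ f)) = 𝟙 (SS (⨁ f)) :=
      (DerivedCategory.singleFunctor X.Modules 0).map_id _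
    rw [← h2, ← biproduct.total, Functor.map_sum]
    exact Finset.sum_congr rfl fun j _ =>
      (DerivedCategory.singleFunctor X.Modules 0).map_comp _ _
  rw [← Category.id_comp φ, h1, Preadditive.sum_comp]
  refine Finset.sum_eq_zero fun j _ => ?_
  rw [Category.assoc, h j, comp_zero]

/-- complexes with cohomology in degree `-1` only -/
theorem conc_DuD {K : DMod X} (h : ∀ i : ℤ, i ≠ -1 → IsZero (HH i K)) :
    ∃ M : X.Modules, Nonempty (K ≅ (SS M)⟦(1 : ℤ)⟧) ∧ Nonempty (HH (-1) K ≅ M) := by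
  have h1 : K.IsGE (-1) := (DerivedCategory.isGE_iff K (-1)).mpr fun i hi => h i (by omega)
  have h2 : K.IsLE (-1) := (DerivedCategory.isLE_iff K (-1)).mpr fun i hi => h i (by omega)
  obtain ⟨M, ⟨u⟩⟩ := DerivedCategory.exists_iso_singleFunctor_obj_of_isGE_of_isLE K (-1)
  refine ⟨M, ⟨u ≪≫ (((DerivedCategory.singleFunctors X.Modules).shiftIso 1 (-1) 0
    (by omega)).app M).symm⟩, ⟨(DerivedCategory.homologyFunctor X.Modules (-1)).mapIso u ≪≫
    (DerivedCategory.singleFunctorCompHomologyFunctorIso X.Modules (-1)).app M⟩⟩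

/-- the cohomology of a sheaf -/
theorem single_DuD (M : X.Modules) (i : ℤ) (hi : i ≠ 0) : IsZero (HH i (SS M)) := by
  rcases lt_or_gt_of_ne hi with h | h
  · exact (SS M).isZero_of_isGE 0 i h
  · exact (SS M).isZero_of_isLE 0 i h

/-- the first map of a triangle from the second and the third -/
theorem rot_DuD {K' P : X.Modules} {K C : DMod X} (p : SS P ⟶ K) (g : K ⟶ C)
    (δ : C ⟶ (SS P)⟦(1 : ℤ)⟧) (hT : Triangle.mk p g δ ∈ distTriang (DMod X))
    (e : C ≅ (SS K')⟦(1 : ℤ)⟧) :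
    ∃ i : K' ⟶ P, Triangle.mk ((DerivedCategory.singleFunctor X.Modules 0).map i) p
      (g ≫ e.hom) ∈ distTriang (DMod X) := by
  obtain ⟨j, hj⟩ := (shiftFunctor (DMod X) (1 : ℤ)).map_surjective
    (X := SS K') (Y := SS P) (-(e.inv ≫ δ))
  obtain ⟨i, hi⟩ := (DerivedCategory.singleFunctor X.Modules 0).map_surjective j
  refine ⟨i, ?_⟩
  rw [rotate_distinguished_triangle]
  refine isomorphic_distinguished _ hT _ ?_
  refine Triangle.isoMk _ _ (Iso.refl _) (Iso.refl _) e.symm ?_ ?_ ?_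
  · change p ≫ 𝟙 _ = 𝟙 _ ≫ p
    rw [Category.comp_id, Category.id_comp]
  · change (g ≫ e.hom) ≫ e.inv = 𝟙 _ ≫ g
    rw [Category.assoc, e.hom_inv_id, Category.comp_id, Category.id_comp]
  · change (-((DerivedCategory.singleFunctor X.Modules 0).map i)⟦(1 : ℤ)⟧') ≫
      (𝟙 (SS P))⟦(1 : ℤ)⟧' = e.inv ≫ δ
    have h1 : (𝟙 (SS P))⟦(1 : ℤ)⟧' = 𝟙 ((SS P)⟦(1 : ℤ)⟧) :=
      (shiftFunctor (DMod X) (1 : ℤ)).map_id _
    rw [h1, hi, hj, neg_neg]
    exact Category.comp_id _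

namespace BiP

/-- A presentation of a two-term complex: `K' → P → K → K'[1]` with `P = O(-k,-k)^N`, `k` large
and `K'` a coherent sheaf. -/
theorem exists_pres (S : G.Split (FO X) ι) {K : DMod X} (hK : dbCoh X K)
    (h : ∀ i : ℤ, i ≠ -1 → i ≠ 0 → IsZero (HH i K)) (k₁ : ℤ) :
    ∃ (k : ℤ) (_ : k₁ ≤ k) (n : ℕ) (K' : X.Modules) (_ : IsCoh K')
      (i : K' ⟶ ⨁ (fun _ : Fin n => G.OO (-k) (-k)))
      (p : SS (⨁ (fun _ : Fin n => G.OO (-k) (-k))) ⟶ K) (c : K ⟶ (SS K')⟦(1 : ℤ)⟧),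
      Triangle.mk ((DerivedCategory.singleFunctor X.Modules 0).map i) p c ∈ distTriang (DMod X) := by
  have hW := wserre_isCoh X
  obtain ⟨A, B, hA, hB, a, b, δ, hT⟩ :=
    DerivedCategory.TStructure.t.exists_triangle K (-1) 0 (by lia)
  have hAi : A.IsLE (-1) := ⟨hA⟩
  have hBi : B.IsGE 0 := ⟨hB⟩
  have hA1 : ∀ i : ℤ, i ≠ -1 → IsZero (HH i A) := by
    intro i hi
    rcases lt_or_gt_of_ne hi with h1 | h1
    · exact isZero1a_Tilt1 hT (i - 1) i (by lia) (B.isZero_of_isGE 0 (i - 1) (by lia))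
        (h i (by lia) (by lia))
    · exact A.isZero_of_isLE (-1) i (by lia)
  have hB1 : ∀ i : ℤ, i ≠ 0 → IsZero (HH i B) := by
    intro i hi
    rcases lt_or_gt_of_ne hi with h1 | h1
    · exact B.isZero_of_isGE 0 i h1
    · exact isZero3a_Tilt1 hT i (i + 1) rfl (h i (by lia) (by lia)) (hA1 (i + 1) (by lia))
  obtain ⟨M, ⟨eA⟩, ⟨eM⟩⟩ := conc_DuD hA1
  have hBl : B.IsLE 0 := (DerivedCategory.isLE_iff B 0).mpr fun i hi => hB1 i (by omega)
  obtain ⟨F, ⟨uB⟩⟩ := DerivedCategory.exists_iso_singleFunctor_obj_of_isGE_of_isLE B 0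
  have eF : HH 0 B ≅ F := (DerivedCategory.homologyFunctor X.Modules 0).mapIso uB ≪≫
    (DerivedCategory.singleFunctorCompHomologyFunctorIso X.Modules 0).app F
  -- coherence
  have hM : IsCoh M := by
    have h1 : Mono ((DerivedCategory.homologyFunctor X.Modules (-1)).map a) :=
      mono1_Tilt1 hT (-2) (-1) (by lia) (hB1 (-2) (by lia))
    have h2 : Epi ((DerivedCategory.homologyFunctor X.Modules (-1)).map a) :=
      epi1_Tilt1 hT (-1) (hB1 (-1) (by lia))
    have h3 : IsIso ((DerivedCategory.homologyFunctor X.Modules (-1)).map a) :=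
      isIso_of_mono_of_epi _
    exact hW.iso ((asIso ((DerivedCategory.homologyFunctor X.Modules (-1)).map a)).symm ≪≫ eM)
      (hK.2 (-1))
  have hbi : IsIso ((DerivedCategory.homologyFunctor X.Modules 0).map b) := by
    have h1 : Mono ((DerivedCategory.homologyFunctor X.Modules 0).map b) :=
      mono2_Tilt1 hT 0 (hA1 0 (by lia))
    have h2 : Epi ((DerivedCategory.homologyFunctor X.Modules 0).map b) :=
      epi2_Tilt1 hT 0 1 (by lia) (hA1 1 (by lia))
    exact isIso_of_mono_of_epi _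
  have hF : IsCoh F :=
    hW.iso (asIso ((DerivedCategory.homologyFunctor X.Modules 0).map b) ≪≫ eF) (hK.2 0)
  obtain ⟨k₂, hk₂⟩ := van_coh S hM
  obtain ⟨k, hk, n, φ, hφ⟩ := exists_epi_large (G := G) hF (max k₁ k₂)
  have hk1 : k₁ ≤ k := (le_max_left _ _).trans hk
  have hk2 : k₂ ≤ k := (le_max_right _ _).trans hk
  -- the obstruction vanishes
  have hvan : ∀ ψ : SS (⨁ (fun _ : Fin n => G.OO (-k) (-k))) ⟶ A⟦(1 : ℤ)⟧, ψ = 0 := by
    intro ψ
    let E : A⟦(1 : ℤ)⟧ ≅ (SS M)⟦(2 : ℤ)⟧ := (shiftFunctor (DMod X) (1 : ℤ)).mapIso eA ≪≫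
      ((shiftFunctorAdd' (DMod X) (1 : ℤ) 1 2 (by norm_num)).app (SS M)).symm
    rw [← cancel_mono E.hom, zero_comp]
    refine src_DuD _ _ _ fun j => ?_
    exact hk₂ k k 2 hk2 hk2 (by norm_num) _
  obtain ⟨p, hp⟩ : ∃ p : SS (⨁ (fun _ : Fin n => G.OO (-k) (-k))) ⟶ K,
      (DerivedCategory.singleFunctor X.Modules 0).map φ ≫ uB.inv = p ≫ b :=
    Triangle.coyoneda_exact₃ _ hT _ (hvan _)
  have hpe : Epi ((DerivedCategory.homologyFunctor X.Modules 0).map p) := by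
    have h1 : Epi ((DerivedCategory.homologyFunctor X.Modules 0).map
        ((DerivedCategory.singleFunctor X.Modules 0).map φ)) := by
      have e := (DerivedCategory.singleFunctorCompHomologyFunctorIso X.Modules 0).hom.naturality φ
      simp only [Functor.comp_map, Functor.id_map] at e
      have h2 : (DerivedCategory.homologyFunctor X.Modules 0).map
          ((DerivedCategory.singleFunctor X.Modules 0).map φ) =
          (DerivedCategory.singleFunctorCompHomologyFunctorIso X.Modules 0).hom.app _ ≫ φ ≫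
            (DerivedCategory.singleFunctorCompHomologyFunctorIso X.Modules 0).inv.app _ := by
        rw [← Category.assoc, ← e, Category.assoc, Iso.hom_inv_id_app, Category.comp_id]
      rw [h2]
      infer_instance
    have h3 : (DerivedCategory.homologyFunctor X.Modules 0).map p =
        (DerivedCategory.homologyFunctor X.Modules 0).map
          ((DerivedCategory.singleFunctor X.Modules 0).map φ) ≫
        (DerivedCategory.homologyFunctor X.Modules 0).map uB.inv ≫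
          inv ((DerivedCategory.homologyFunctor X.Modules 0).map b) := by
      rw [← Category.assoc, ← Functor.map_comp, hp, Functor.map_comp, Category.assoc,
        IsIso.hom_inv_id, Category.comp_id]
    rw [h3]
    infer_instance
  obtain ⟨C, g, δ', hT'⟩ := distinguished_cocone_triangle p
  have hC1 : ∀ i : ℤ, i ≠ -1 → IsZero (HH i C) := by
    intro i hi
    rcases lt_or_gt_of_ne hi with h1 | h1
    · exact isZero3a_Tilt1 hT' i (i + 1) rfl (h i (by lia) (by lia))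
        (single_DuD _ (i + 1) (by lia))
    · by_cases h0 : i = 0
      · subst h0
        exact isZero3_Tilt1 hT' 0 1 (by lia) hpe ((single_DuD _ 1 (by lia)).mono _)
      · exact isZero3a_Tilt1 hT' i (i + 1) rfl (h i (by lia) h0) (single_DuD _ (i + 1) (by lia))
  obtain ⟨K', ⟨e⟩, ⟨eK⟩⟩ := conc_DuD hC1
  have hK' : IsCoh K' := by
    have htri := dbW_triangulated hW
    have hcl : (dbW (IsCoh : ObjectProperty X.Modules)).IsClosedUnderIsomorphisms :=
      ⟨fun e h => dbW_iso hW e h⟩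
    have hP : dbW (IsCoh : ObjectProperty X.Modules) (SS (⨁ (fun _ : Fin n => G.OO (-k) (-k)))) :=
      dbW_single hW _ (hW.pow (isCoh_OO G (-k) (-k)) n) 0
    have hC : dbW (IsCoh : ObjectProperty X.Modules) C :=
      (dbW (IsCoh : ObjectProperty X.Modules)).ext_of_isTriangulatedClosed₃ _ hT' hP hK
    exact hW.iso eK (hC.2 (-1))
  obtain ⟨i, hi⟩ := rot_DuD p g δ' hT' e
  exact ⟨k, hk1, n, K', hK', i, p, g ≫ e.hom, hi⟩

variable [DecidableEq ι]

omit [IsIntegral X] [CX X] [IsLocallyNoetherian X] in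
/-- factorisation through the first map of a triangle -/
theorem fac_DuD (T : Triangle (DMod X)) (hT : T ∈ distTriang (DMod X)) {L : DMod X}
    (x : T.obj₁ ⟶ L) (h : T.mor₃ ≫ x⟦(1 : ℤ)⟧' = 0) : ∃ y : T.obj₂ ⟶ L, x = T.mor₁ ≫ y := by
  obtain ⟨g, hg⟩ : ∃ g : T.obj₂⟦(1 : ℤ)⟧ ⟶ L⟦(1 : ℤ)⟧,
      x⟦(1 : ℤ)⟧' = (-T.mor₁⟦(1 : ℤ)⟧') ≫ g :=
    T.rotate.yoneda_exact₃ (rot_of_distTriang _ hT) (x⟦(1 : ℤ)⟧') h
  obtain ⟨y, hy⟩ : ∃ y : T.obj₂ ⟶ L, y⟦(1 : ℤ)⟧' = -g :=
    (shiftFunctor (DMod X) (1 : ℤ)).map_surjective (-g)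
  refine ⟨y, ?_⟩
  apply (shiftFunctor (DMod X) (1 : ℤ)).map_injective
  rw [Functor.map_comp, hy, hg, Preadditive.comp_neg, Preadditive.neg_comp]

/-- **(H6b)** -/
theorem hom_one_zero (S : G.Split (FO X) ι) (d : DualB S) {K : DMod X} (hK : dbCoh X K)
    (h : ∀ i : ℤ, i ≠ -1 → i ≠ 0 → IsZero (HH i K)) (m n : ℤ)
    (hO : ∀ φ : K ⟶ (SS (G.Twi (-m) (-n) d.Om.mod))⟦(1 : ℤ)⟧, φ = 0)
    (φ : G.LL m n ⟶ K⟦(1 : ℤ)⟧) : φ = 0 := by
  obtain ⟨k₁, hk₁⟩ : ∃ k₁ : ℤ, ∀ l, S.a l + m + 1 ≤ k₁ ∧ S.b l + n + 1 ≤ k₁ := by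
    refine ⟨∑ l, (|S.a l + m + 1| + |S.b l + n + 1|), fun l => ?_⟩
    have h1 : |S.a l + m + 1| + |S.b l + n + 1| ≤ ∑ l, (|S.a l + m + 1| + |S.b l + n + 1|) :=
      Finset.single_le_sum (f := fun l => |S.a l + m + 1| + |S.b l + n + 1|)
        (fun i _ => add_nonneg (abs_nonneg _) (abs_nonneg _)) (Finset.mem_univ l)
    have h2 := le_abs_self (S.a l + m + 1)
    have h3 := le_abs_self (S.b l + n + 1)
    have h4 := abs_nonneg (S.a l + m + 1)
    have h5 := abs_nonneg (S.b l + n + 1)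
    constructor <;> linarith
  obtain ⟨k, hk, N, K', hK', i, p, c, hT⟩ := exists_pres S hK h k₁
  have hP : IsCoh (⨁ (fun _ : Fin N => G.OO (-k) (-k))) :=
    (wserre_isCoh X).pow (isCoh_OO G (-k) (-k)) N
  have hv : ∀ ψ : G.LL m n ⟶ (SS (⨁ (fun _ : Fin N => G.OO (-k) (-k))))⟦(1 : ℤ)⟧, ψ = 0 := by
    intro ψ
    obtain ⟨T, ha, hb⟩ := S.exists_OF (G := G) (-k) (-k)
    refine zero_of_comp_π_FinB _ _ _ ψ fun j => ?_
    refine T.h1_zero_neg (isCoh_OO G (-k) (-k)).qc m n (fun l => ?_) _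
    have h1 := hk₁ l
    rw [ha, hb]
    constructor <;> omega
  obtain ⟨κ, hκ⟩ : ∃ κ : K⟦(1 : ℤ)⟧ ⟶ (SS K')⟦(2 : ℤ)⟧,
      κ = conn_Der (Triangle.mk ((DerivedCategory.singleFunctor X.Modules 0).map i) p c)
      1 2 (by norm_num) := ⟨_, rfl⟩
  have hβ : φ ≫ κ = 0 := by
    rw [← Module.forall_dual_apply_eq_zero_iff ℂ]
    intro f
    obtain ⟨D, hD, hnat⟩ := d.exists_duality m n
    have h1 : c ≫ ((DerivedCategory.singleFunctor X.Modules 0).map (D K' hK'.qc f))⟦(1 : ℤ)⟧' = 0 :=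
      hO _
    obtain ⟨y, hy⟩ := fac_DuD _ hT ((DerivedCategory.singleFunctor X.Modules 0).map
      (D K' hK'.qc f)) h1
    obtain ⟨y', hy'⟩ := (DerivedCategory.singleFunctor X.Modules 0).map_surjective y
    have h2 : D K' hK'.qc f = i ≫ y' := by
      apply (DerivedCategory.singleFunctor X.Modules 0).map_injective
      rw [Functor.map_comp, hy', hy]
      rfl
    obtain ⟨f', hf'⟩ := (hD _ hP.qc).2 y'
    have h3 := hnat K' hK'.qc _ hP.qc i f'
    rw [hf', ← h2] at h3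
    have h4 := (hD _ hK'.qc).1 h3
    have h5 := conn_comp_Der (Triangle.mk ((DerivedCategory.singleFunctor X.Modules 0).map i) p c)
      hT 1 2 (by norm_num)
    have h6 : κ ≫ ((DerivedCategory.singleFunctor X.Modules 0).map i)⟦(2 : ℤ)⟧' = 0 := by
      rw [hκ]
      exact h5
    rw [← h4]
    change f' ((φ ≫ κ) ≫ ((DerivedCategory.singleFunctor X.Modules 0).map i)⟦(2 : ℤ)⟧') = 0
    rw [Category.assoc, h6, comp_zero, map_zero]
  rw [hκ] at hβ
  obtain ⟨ψ, hψ⟩ := exact₃_Der (G.LL m n) _ hT 1 2 (by norm_num) φ hβ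
  have h7 : ψ = 0 := hv ψ
  rw [hψ, h7]
  exact zero_comp

end BiP

end M21.E3
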