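import Pool.Agent.H.MP_21b43d_ag.E3.G.Cech

/-!
# M21, full support, V-H6: the Čech description of `H^2` is natural
-/

set_option autoImplicit false

open CategoryTheory CategoryTheory.Limits CategoryTheory.Pretriangulated AlgebraicGeometry
  TopologicalSpace

noncomputable section

namespace M21.E3

variable {X : Scheme.{0}} [IsIntegral X] [CX X] (G : BiP X)

namespace BiP

omit [IsIntegral X] in
private theorem homBasis_nat_DuN {N F F' : X.Modules} {V : X.Opens} {e : Γ(N, V)}
    (he : IsBasisOn N e) (φ : F ⟶ F') (f : HM N F V) :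
    homBasis F' he (f ≫ φ) = φ.app V (homBasis F he f) := by
  rw [homBasis_apply, homBasis_apply]
  exact comp_app_apply _ _ _

omit [IsIntegral X] in
private theorem homBasis_symm_nat_DuN {N F F' : X.Modules} {V : X.Opens} {e : Γ(N, V)}
    (he : IsBasisOn N e) (φ : F ⟶ F') (y : Γ(F, V)) :
    (homBasis F' he).symm (φ.app V y) = (homBasis F he).symm y ≫ φ := by
  apply (homBasis F' he).injective
  rw [LinearEquiv.apply_symm_apply, homBasis_nat_DuN, LinearEquiv.apply_symm_apply]

/-- `H^2(F(m, n)) = F(UU) / (F(UB_0) + Z^n F(UB_1) + F(UZ_0) + B^m F(UZ_1))`, natural in `F`.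
Same map as in `exists_H2`. Naturality: `homBasis` is evaluation at the basis, and `Res2.H2` is the
composition of `hom0` and two connecting maps, all natural for postcomposition. -/
theorem exists_H2n (m n : ℤ) :
    ∃ c : ∀ F : X.Modules, Γ(F, G.UU) →ₗ[ℂ] (G.LL m n ⟶ (SS F)⟦(2 : ℤ)⟧),
      (∀ (F F' : X.Modules) (φ : F ⟶ F') (y : Γ(F, G.UU)), c F' (φ.app G.UU y) =
        c F y ≫ ((DerivedCategory.singleFunctor X.Modules 0).map φ)⟦(2 : ℤ)⟧') ∧
      ∀ F : X.Modules, QC F → Function.Surjective (c F) ∧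
        ∀ y, c F y = 0 ↔ ∃ (x0 : Γ(F, G.UB false)) (x1 : Γ(F, G.UB true)) (y0 : Γ(F, G.UZ false))
          (y1 : Γ(F, G.UZ true)), y = res F (G.UU_leB false) x0 +
            G.zp n (inf_le_right : G.UU ≤ G.W01) • res F (G.UU_leB true) x1 +
            res F (G.UU_leZ false) y0 +
            G.bp m (inf_le_left : G.UU ≤ G.V01) • res F (G.UU_leZ true) y1 := by
  refine ⟨fun F => G.dcov.H2 ℂ (G.OO (-m) (-n)) F ∘ₗ
    (homBasis F (G.basis_U m n)).symm.toLinearMap, ?_, ?_⟩
  · intro F F' φ y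
    have h1 := homBasis_symm_nat_DuN (G.basis_U m n) φ y
    have h2 := (G.dcov.res2 (G.OO (-m) (-n))).H2_naturality ℂ φ
      ((homBasis F (G.basis_U m n)).symm y)
    refine Eq.trans ?_ h2
    change (G.dcov.res2 (G.OO (-m) (-n))).H2 ℂ _ = _
    congr 1
  intro F hF
  refine ⟨?_, ?_⟩
  · exact (DCov.H2_surjective ℂ G.dcov_aff (G.dcov_triv m n) hF).comp
      (homBasis F (G.basis_U m n)).symm.surjective
  · intro y
    refine (DCov.H2_eq_zero_iff ℂ G.dcov_aff (G.dcov_triv m n) hF _).trans ?_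
    have key : (∃ w, G.dcov.δ1 ℂ (G.OO (-m) (-n)) F w = (homBasis F (G.basis_U m n)).symm y) ↔
        ∃ z, G.d1 F m n z = y := by
      constructor
      · rintro ⟨w, hw⟩
        refine ⟨G.e1 F m n w, ?_⟩
        rw [d1_e1, hw, LinearEquiv.apply_symm_apply]
      · rintro ⟨z, hz⟩
        refine ⟨(G.e1 F m n).symm z, ?_⟩
        apply (homBasis F (G.basis_U m n)).injective
        rw [← d1_e1, LinearEquiv.apply_symm_apply, hz, LinearEquiv.apply_symm_apply]
    refine key.trans ?_
    constructor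
    · rintro ⟨z, rfl⟩
      refine ⟨-z.1 false, z.1 true, z.2 false, -z.2 true, ?_⟩
      rw [res_neg_CX, res_neg_CX, smul_neg]
      change (res F (G.UU_leZ false) (z.2 false) -
        G.bp m (inf_le_left : G.UU ≤ G.V01) • res F (G.UU_leZ true) (z.2 true)) -
      (res F (G.UU_leB false) (z.1 false) -
        G.zp n (inf_le_right : G.UU ≤ G.W01) • res F (G.UU_leB true) (z.1 true)) = _
      abel
    · rintro ⟨x0, x1, y0, y1, rfl⟩
      refine ⟨(bE (fun t => Γ(F, G.UB t)) (-x0, x1), bE (fun s => Γ(F, G.UZ s)) (y0, -y1)), ?_⟩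
      change (res F (G.UU_leZ false) y0 -
        G.bp m (inf_le_left : G.UU ≤ G.V01) • res F (G.UU_leZ true) (-y1)) -
      (res F (G.UU_leB false) (-x0) -
        G.zp n (inf_le_right : G.UU ≤ G.W01) • res F (G.UU_leB true) x1) = _
      rw [res_neg_CX, res_neg_CX, smul_neg]
      abel

end BiP

end M21.E3
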