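import Pool.Agent.H.MP_21b43d_ag.E3.TNoeth

/-!
# M21, full support, V-S2: quotients of `S_j` in the tilted heart
-/

set_option autoImplicit false

open CategoryTheory CategoryTheory.Limits CategoryTheory.Pretriangulated
  CategoryTheory.Triangulated

universe w v u

namespace M21.E3

variable {𝒞 : Type u} [Category.{v} 𝒞] [Abelian 𝒞] [HasDerivedCategory.{w} 𝒞]
  {W : ObjectProperty 𝒞} [(dbW W).IsTriangulated]

/-- replace the middle term of an exact sequence by an isomorphic object -/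
theorem ExQ_fin {A : Type*} [Category A] [Abelian A] {X J Y' S Z : A} (σ : Y' ≅ S)
    {a : X ⟶ J} {b : J ⟶ Y'} {wab : a ≫ b = 0} {b' : J ⟶ Y'} {g : Y' ⟶ Z} {wbg : b' ≫ g = 0}
    (e1 : (ShortComplex.mk a b wab).Exact) (e2 : (ShortComplex.mk b' g wbg).Exact)
    (ma : Mono a) (eg : Epi g) {P : A → Prop} (hP : P J) {Q : Prop} (hQ : IsZero J → Q)
    (hb : b = b') :
    ∃ (J : A) (a : X ⟶ J) (b : J ⟶ S) (g : S ⟶ Z) (wab : a ≫ b = 0)
      (wbg : b ≫ g = 0), Mono a ∧ (ShortComplex.mk a b wab).Exact ∧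
      (ShortComplex.mk b g wbg).Exact ∧ Epi g ∧ P J ∧ (IsZero J → Q) := by
  subst hb
  have w1 : a ≫ b ≫ σ.hom = 0 := by rw [reassoc_of% wab, zero_comp]
  have w2 : (b ≫ σ.hom) ≫ σ.inv ≫ g = 0 := by
    rw [Category.assoc, Iso.hom_inv_id_assoc, wbg]
  refine ⟨J, a, b ≫ σ.hom, σ.inv ≫ g, w1, w2, ma, ?_, ?_, epi_comp _ _, hP, hQ⟩
  · refine (ShortComplex.exact_iff_of_iso (S₁ := ShortComplex.mk a b wab)
      (S₂ := ShortComplex.mk a (b ≫ σ.hom) w1) (ShortComplex.isoMk (Iso.refl X) (Iso.refl J) σ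
      ?_ ?_)).1 e1
    · simp
    · simp
  · refine (ShortComplex.exact_iff_of_iso (S₁ := ShortComplex.mk b g wbg)
      (S₂ := ShortComplex.mk (b ≫ σ.hom) (σ.inv ≫ g) w2)
      (ShortComplex.isoMk (Iso.refl J) σ (Iso.refl Z) ?_ ?_)).1 e2
    · simp
    · simp

/-- The exact sequence of a quotient of a sheaf in the tilted heart. `J` is the kernel of `p` in the heart: `H^{-1}(J) → H^{-1}(Y) = 0` is
mono, so `J` has only `H^0 ∈ T`. (long exact sequence of the triangle of `exists_triangle_of_ses`). -/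
theorem exact_of_quot (hW : WSerre W) (q : RDX W) {S : 𝒞} (Y I : Hrt (tilt hW q))
    (e : Y.obj.obj ≅ (DerivedCategory.singleFunctor 𝒞 0).obj S) (p : Y ⟶ I) (hp : Epi p) :
    ∃ (J : 𝒞) (a : HH (-1) I.obj.obj ⟶ J) (b : J ⟶ S) (g : S ⟶ HH 0 I.obj.obj) (wab : a ≫ b = 0)
      (wbg : b ≫ g = 0), Mono a ∧ (ShortComplex.mk a b wab).Exact ∧ (ShortComplex.mk b g wbg).Exact ∧
      Epi g ∧ q.Tc J ∧ (IsZero J → IsIso p) := by
  have hS : (ShortComplex.mk (kernel.ι p) p (kernel.condition p)).ShortExact :=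
    { exact := ShortComplex.exact_of_f_is_kernel _ (kernelIsKernel p)
      mono_f := by dsimp only; infer_instance
      epi_g := hp }
  obtain ⟨δ, hδ⟩ := exists_triangle_of_ses (tilt hW q) _ hS
  have hT := (dbW W).ι.map_distinguished _ hδ
  have hYm : IsZero (HH (-1) Y.obj.obj) :=
    IsZero.of_iso (DerivedCategory.isZero_of_isGE _ 0 (-1) (by norm_num))
      ((DerivedCategory.homologyFunctor 𝒞 (-1)).mapIso e)
  have hI := (tilt_heart_iff hW q I.obj).1 I.property
  have hK := (tilt_heart_iff hW q (kernel p).obj).1 (kernel p).property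
  have hKm : IsZero (HH (-1) (kernel p).obj.obj) :=
    isZero1a_Tilt1 hT (-2) (-1) (by norm_num) (hI.1 (-2) (by norm_num) (by norm_num)) hYm
  let σ : HH 0 Y.obj.obj ≅ S := (DerivedCategory.homologyFunctor 𝒞 0).mapIso e ≪≫
    (DerivedCategory.singleFunctorCompHomologyFunctorIso 𝒞 0).app S
  have e3 := DerivedCategory.HomologySequence.exact₃ _ hT (-1) 0 (by norm_num)
  have e1 := DerivedCategory.HomologySequence.exact₁ _ hT (-1) 0 (by norm_num)
  have e2 := DerivedCategory.HomologySequence.exact₂ _ hT 0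
  have ma := e3.mono_g (hYm.eq_zero_of_src _)
  have eg := epi2_Tilt1 hT 0 1 (by norm_num) (hK.1 1 (by norm_num) (by norm_num))
  exact ExQ_fin σ e1 e2 ma eg hK.2.1 (fun hJ =>
    have hz : IsZero (kernel p) := zero_TNoeth hW q _ hJ hKm
    have : Mono p := Preadditive.mono_of_isZero_kernel p hz
    isIso_of_mono_of_epi p) rfl

end M21.E3
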