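import Pool.Agent.H.MP_21b43d_ag.E3.TNoeth

/-!
# M21, full support, V-S3: subobjects of `O_j[1]` in the tilted heart
-/

set_option autoImplicit false

open CategoryTheory CategoryTheory.Limits CategoryTheory.Pretriangulated
  CategoryTheory.Triangulated

universe w v u

namespace M21.E3

variable {𝒞 : Type u} [Category.{v} 𝒞] [Abelian 𝒞] [HasDerivedCategory.{w} 𝒞]

/-- `H^{-1}(O[1]) ≅ O` -/
private theorem iso_ExS {O : 𝒞} {K : DerivedCategory 𝒞}
    (e : K ≅ ((DerivedCategory.singleFunctor 𝒞 0).obj O)⟦(1 : ℤ)⟧) : Nonempty (HH (-1) K ≅ O) :=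
  have sh : HH (-1) (((DerivedCategory.singleFunctor 𝒞 0).obj O)⟦(1 : ℤ)⟧) ≅
      HH 0 ((DerivedCategory.singleFunctor 𝒞 0).obj O) :=
    ((DerivedCategory.homologyFunctor 𝒞 0).shiftIso (1 : ℤ) (-1) 0 (by lia)).app _
  ⟨(DerivedCategory.homologyFunctor 𝒞 (-1)).mapIso e ≪≫ sh ≪≫
    (DerivedCategory.singleFunctorCompHomologyFunctorIso 𝒞 0).app O⟩

/-- `H^0(O[1]) = 0` -/
private theorem zero_ExS {O : 𝒞} {K : DerivedCategory 𝒞}
    (e : K ≅ ((DerivedCategory.singleFunctor 𝒞 0).obj O)⟦(1 : ℤ)⟧) : IsZero (HH 0 K) := by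
  have sh : HH 0 (((DerivedCategory.singleFunctor 𝒞 0).obj O)⟦(1 : ℤ)⟧) ≅
      HH 1 ((DerivedCategory.singleFunctor 𝒞 0).obj O) :=
    ((DerivedCategory.homologyFunctor 𝒞 0).shiftIso (1 : ℤ) 0 1 (by lia)).app _
  have h1 : HH 0 K ≅ HH 1 ((DerivedCategory.singleFunctor 𝒞 0).obj O) :=
    (DerivedCategory.homologyFunctor 𝒞 0).mapIso e ≪≫ sh
  exact (DerivedCategory.isZero_of_isLE _ 0 1 (by lia)).of_iso h1

/-- the long exact sequence of a triangle with `H^{-1}` of the middle term `O` and `H^0` of the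
middle term zero -/
private theorem core_ExS {T : Triangle (DerivedCategory 𝒞)}
    (hT : T ∈ distTriang (DerivedCategory 𝒞)) {O : 𝒞} (s : HH (-1) T.obj₂ ≅ O)
    (h0 : IsZero (HH 0 T.obj₂)) (hm : Mono ((DerivedCategory.homologyFunctor 𝒞 (-1)).map T.mor₁)) :
    ∃ (a : HH (-1) T.obj₁ ⟶ O) (b : O ⟶ HH (-1) T.obj₃) (g : HH (-1) T.obj₃ ⟶ HH 0 T.obj₁)
      (wab : a ≫ b = 0) (wbg : b ≫ g = 0), Mono a ∧ (ShortComplex.mk a b wab).Exact ∧
      (ShortComplex.mk b g wbg).Exact ∧ Epi g := by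
  have x1 := DerivedCategory.HomologySequence.exact₁ T hT (-1) 0 (by lia)
  have x2 := DerivedCategory.HomologySequence.exact₂ T hT (-1)
  have x3 := DerivedCategory.HomologySequence.exact₃ T hT (-1) 0 (by lia)
  have w2 : (DerivedCategory.homologyFunctor 𝒞 (-1)).map T.mor₁ ≫
      (DerivedCategory.homologyFunctor 𝒞 (-1)).map T.mor₂ = 0 := by
    rw [← Functor.map_comp, comp_distTriang_mor_zero₁₂ _ hT, Functor.map_zero]
  have w3 := DerivedCategory.HomologySequence.comp_δ T hT (-1) 0 (by lia)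
  refine ⟨(DerivedCategory.homologyFunctor 𝒞 (-1)).map T.mor₁ ≫ s.hom,
    s.inv ≫ (DerivedCategory.homologyFunctor 𝒞 (-1)).map T.mor₂,
    DerivedCategory.HomologySequence.δ T (-1) 0 (by lia), ?_, ?_, mono_comp _ _, ?_, ?_, ?_⟩
  · rw [Category.assoc, Iso.hom_inv_id_assoc, w2]
  · rw [Category.assoc, w3, comp_zero]
  · refine ShortComplex.exact_of_iso ?_ x2
    exact ShortComplex.isoMk (Iso.refl _) s (Iso.refl _) (by simp) (by simp)
  · refine ShortComplex.exact_of_iso ?_ x3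
    exact ShortComplex.isoMk s (Iso.refl _) (Iso.refl _) (by simp) (by simp)
  · exact x1.epi_f (h0.eq_zero_of_tgt _)

variable {W : ObjectProperty 𝒞} [(dbW W).IsTriangulated]

/-- The exact sequence of a subobject of `O[1]` in the tilted heart: `V = H^{-1}(O[1]/I)`, `H^0(O[1]/I) = 0` as it is a quotient of
`H^0(O[1]) = 0`. -/
theorem exact_of_sub (hW : WSerre W) (q : RDX W) {O : 𝒞} (Y I : Hrt (tilt hW q))
    (e : Y.obj.obj ≅ ((DerivedCategory.singleFunctor 𝒞 0).obj O)⟦(1 : ℤ)⟧) (i : I ⟶ Y) (hi : Mono i) :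
    ∃ (V : 𝒞) (a : HH (-1) I.obj.obj ⟶ O) (b : O ⟶ V) (g : V ⟶ HH 0 I.obj.obj) (wab : a ≫ b = 0)
      (wbg : b ≫ g = 0), Mono a ∧ (ShortComplex.mk a b wab).Exact ∧ (ShortComplex.mk b g wbg).Exact ∧
      Epi g ∧ q.Fc V ∧ (IsZero V → IsIso i) := by
  obtain ⟨s⟩ := iso_ExS e
  have hY0 := zero_ExS e
  have hS : (ShortComplex.mk i (cokernel.π i) (cokernel.condition _)).ShortExact :=
    { exact := ShortComplex.exact_cokernel i
      mono_f := hi
      epi_g := inferInstance }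
  have hmono := mono_TNoeth hW q _ hS
  have hepi := epi_TNoeth hW q _ hS
  obtain ⟨δ, hδ⟩ := exists_triangle_of_ses (tilt hW q) _ hS
  have h := (dbW W).ι.map_distinguished _ hδ
  obtain ⟨a, b, g, wab, wbg, h1, h2, h3, h4⟩ := core_ExS h s hY0 hmono
  refine ⟨(hF_TNoeth hW q (-1)).obj (cokernel i), a, b, g, wab, wbg, h1, h2, h3, h4,
    (heart_TNoeth hW q _).2, ?_⟩
  intro hV
  have h0 : IsZero ((hF_TNoeth hW q 0).obj (cokernel i)) := by
    have := hepi
    exact (IsZero.of_epi ((hF_TNoeth hW q 0).map (cokernel.π i)) hY0)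
  have hQ : IsZero (cokernel i) := zero_TNoeth hW q _ h0 hV
  have h2 : Epi i := Preadditive.epi_of_isZero_cokernel _ hQ
  exact isIso_of_mono_of_epi _

end M21.E3
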