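import Pool.Agent.H.MP_21b43d_ag.E3.V.Tst

/-!
# M21, full support, V-S3, sheaf part
-/

set_option autoImplicit false

open CategoryTheory CategoryTheory.Limits

universe v u

namespace M21.E3

variable {𝒞 : Type u} [Category.{v} 𝒞] [Abelian 𝒞] {W : ObjectProperty 𝒞}

/-- The pull back of a short exact sequence along a subobject of the quotient. -/
theorem PropB2_pull {A V R R' : 𝒞} (a : A ⟶ V) (b : V ⟶ R) (w : a ≫ b = 0)
    (hS : (ShortComplex.mk a b w).ShortExact) (i : R' ⟶ R) (hi : Mono i) :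
    ∃ (V' : 𝒞) (a' : A ⟶ V') (b' : V' ⟶ R') (w' : a' ≫ b' = 0) (m : V' ⟶ V),
      (ShortComplex.mk a' b' w').ShortExact ∧ Mono m := by
  have hbe : Epi b := hS.epi_g
  have ham : Mono a := hS.mono_f
  have hsm : Mono (pullback.snd i b) := inferInstance
  have hfe : Epi (pullback.fst i b) := Abelian.epi_pullback_of_epi_g i b
  let l : A ⟶ pullback i b := pullback.lift 0 a (by rw [zero_comp, w])
  have hlf : l ≫ pullback.fst i b = 0 := pullback.lift_fst _ _ _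
  have hls : l ≫ pullback.snd i b = a := pullback.lift_snd _ _ _
  have hlm : Mono l := by
    have : Mono (l ≫ pullback.snd i b) := by rw [hls]; exact ham
    exact mono_of_mono l (pullback.snd i b)
  refine ⟨pullback i b, l, pullback.fst i b, hlf, pullback.snd i b, ?_, hsm⟩
  refine { exact := ?_, mono_f := hlm, epi_g := hfe }
  refine ShortComplex.exact_of_f_is_kernel _ ?_
  refine KernelFork.IsLimit.ofι' l hlf ?_
  intro T k hk
  have hk2 : (k ≫ pullback.snd i b) ≫ b = 0 := by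
    rw [Category.assoc, ← pullback.condition, ← Category.assoc, hk, zero_comp]
  refine ⟨hS.fIsKernel.lift (KernelFork.ofι (k ≫ pullback.snd i b) hk2), ?_⟩
  have hl' : hS.fIsKernel.lift (KernelFork.ofι (k ≫ pullback.snd i b) hk2) ≫ a
      = k ≫ pullback.snd i b :=
    hS.fIsKernel.fac (KernelFork.ofι (k ≫ pullback.snd i b) hk2) WalkingParallelPair.zero
  apply pullback.hom_ext
  · rw [Category.assoc, hlf, comp_zero, hk]
  · rw [Category.assoc, hls, hl']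

/-- A torsion-free extension of a Hartogs object by an object with `r = D = 0` is trivial. -/
theorem PropB2_hart (hW : WSerre W) {q : RDX W} {A V R : 𝒞} (a : A ⟶ V) (b : V ⟶ R)
    (w : a ≫ b = 0) (hS : (ShortComplex.mk a b w).ShortExact) (hA : W A) (hR : W R)
    (hV : q.Tf V) (hh : Hart q A) (hr : q.r R = 0) (hD : q.D R = 0) : IsZero R := by
  have hbe : Epi b := hS.epi_g
  have ham : Mono a := hS.mono_f
  obtain ⟨e1, e2, -⟩ := q.add _ hS hA hV.1 hR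
  dsimp only at e1 e2
  obtain ⟨f1, f2⟩ := q.add_coker_Wk2 hW a ham hA hV.1
  obtain ⟨ψ, hψ⟩ := hh A V a ham hA hV.1 (by omega) (by omega) (𝟙 A)
  have hψe : Epi ψ := by
    have : Epi (a ≫ ψ) := by rw [hψ]; infer_instance
    exact epi_of_epi a ψ
  obtain ⟨g1, -⟩ := q.add_ker_Wk2 hW ψ hψe hV.1 hA
  have hz : IsZero (kernel ψ) :=
    hV.2 (kernel ψ) (kernel.ι ψ) inferInstance (hW.kernel ψ hV.1 hA) (by omega)
  have hψm : Mono ψ := Preadditive.mono_of_kernel_zero (hz.eq_of_src _ _)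
  have hψi : IsIso ψ := isIso_of_mono_of_epi ψ
  have hai : IsIso a := by
    have : IsIso (a ≫ ψ) := by rw [hψ]; infer_instance
    exact IsIso.of_isIso_comp_right a ψ
  have hb0 : b = 0 := by
    rw [← cancel_epi a, w, comp_zero]
  exact IsZero.of_epi_eq_zero b hb0

/-- Small degree. Let `0 → R' → R → R'' → 0` with `r R' = 0` and `R''` torsion-free (`exists_max` for `r = 0`; or a lemma in
`Wk`, `Wk2`), `V' = V ×_R R'`: `0 → O_j → V' → R' → 0`, `V'` is a subobject of `V`, so in `F(0)`, `r V' = ρ`. `R'' ∈ T(0)`,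
`0 ≤ D R'' ≤ d`, `x R'' ≤ C₂ r R''` (`Win.small'`, `k = 0`). `D R' ≥ 0`, `D R' ≤ d`. If `D R' = 0` then `R' = 0`: by `Hart` the
identity of `O_j` extends to `V' → O_j` (cokernel `R'` with `r = D = 0`), its kernel meets `O_j` in `0` so embeds in `R'`, has rank 0, and
`V'` is torsion-free, so the kernel is 0 and `V' = O_j`. If `D R' ≥ 1`: `x R' = x V' - x O_j ≤ C' - j D R' < 0` for `j > C'` (`hO.ext`).
So `x R - t r R ≤ (x R') + (C₂ - t) r R'' < 0` as `R ≠ 0` (`R' ≠ 0` or `r R'' > 0`), if `t > C₂`. And `D R > 0`: otherwise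
`D R' = D R'' = 0`, so `R' = 0`, and `R'' ∈ T(0)` with `D = 0` has `r = 0` (`Tc_D`), so `R = 0`. -/
theorem propB_small (hW : WSerre W) {q : RDX W} (h : Win q) {ρ C : ℤ} (hρ : 0 < ρ)
    (hr : ∀ F, q.Tf F → ¬ IsZero F → ρ ≤ q.r F) {O : ℕ → 𝒞} (hO : TestO q ρ C O) (d : ℤ) :
    ∃ t₁ : ℤ, ∃ j₁ : ℕ, ∀ (t : ℤ), t₁ ≤ t → ∀ (j : ℕ), j₁ ≤ j → ∀ (V R : 𝒞) (a : O j ⟶ V) (b : V ⟶ R)
      (w : a ≫ b = 0), (ShortComplex.mk a b w).ShortExact → q.Fc V → q.Tc R → ¬ IsZero R → q.D R ≤ d →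
      q.x R - t * q.r R < 0 := by
  obtain ⟨C₂, hC₂0, hC₂⟩ := h.small' hW 0 d
  obtain ⟨C', hC'⟩ := hO.ext d
  refine ⟨C₂ + 1, (C' + 1).toNat, ?_⟩
  intro t ht j hj V R a b w hS hV hR hRz hRd
  obtain ⟨S, hS', h2, hw1, hr1, hTf3⟩ := q.exists_torsion hW R hR.1
  subst h2
  have hgm := hS'.mono_f
  have hge := hS'.epi_g
  obtain ⟨e1, e2, e3⟩ := q.add S hS' hw1 hR.1 hTf3.1
  have hT3 : q.Tc S.X₃ := q.Tc_quot hW S.g hge hTf3.1 hR
  have hD3 := (q.Tc_D hW hT3).1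
  have hD1 : 0 ≤ q.D S.X₁ := q.D_nonneg _ hw1 hr1
  have hr3 : 0 ≤ q.r S.X₃ := q.r_nonneg _ hTf3.1
  -- the torsion-free part
  have hx3 : q.x S.X₃ ≤ C₂ * q.r S.X₃ := by
    refine hC₂ S.X₃ hTf3 ⟨hTf3.1, fun Q p hp hQ hz => ?_⟩ ?_
    · rw [RDX.sh_D, zero_mul, sub_zero]
      exact hT3.2 Q p hp hQ hz
    · rw [RDX.sh_D, zero_mul, sub_zero]
      omega
  -- the torsion part
  obtain ⟨V', a', b', w', m, hV'S, hm⟩ := PropB2_pull a b w hS S.f hgm
  have hOj := hO.mem j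
  have hV'W : W V' := hW.ext _ hV'S hOj hw1
  have hV'T : q.Tf V' := q.Tf_sub_Wk2 m hm hV'W hV.1
  obtain ⟨g1, g2, g3⟩ := q.add _ hV'S hOj hV'W hw1
  dsimp only at g1 g2 g3
  have hrO := hO.r j
  have ha'm : Mono a' := hV'S.mono_f
  have hx1 := hC' j V' a' ha'm hV'T (by omega) (by omega)
  have e4 : q.D V' - q.D (O j) = q.D S.X₁ := by omega
  have e5 : q.x V' - q.x (O j) = q.x S.X₁ := by omega
  rw [e4, e5] at hx1
  have hj' : C' + 1 ≤ (j : ℤ) := by
    have h5 := Int.self_le_toNat (C' + 1)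
    have h6 : ((C' + 1).toNat : ℤ) ≤ j := by exact_mod_cast hj
    exact h5.trans h6
  have hj0 : (0 : ℤ) ≤ j := Int.natCast_nonneg j
  have hx3' : q.x S.X₃ - t * q.r S.X₃ ≤ - q.r S.X₃ := by nlinarith
  rcases eq_or_lt_of_le hD1 with hD0 | hD0
  · have hz1 : IsZero S.X₁ :=
      PropB2_hart hW a' b' w' hV'S hOj hw1 hV'T (hO.hart j) hr1 hD0.symm
    obtain ⟨-, -, z3⟩ := q.inv_zero hW hz1
    have hz3 : ¬ IsZero S.X₃ := by
      intro hz3
      exact hRz (hS'.exact.isZero_of_both_zeros (hz1.eq_of_src _ _) (hz3.eq_of_tgt _ _))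
    have hρ3 := hr S.X₃ hTf3 hz3
    rw [e3, e1, hr1, z3, zero_add, zero_add]
    linarith
  · have hx1' : q.x S.X₁ < 0 := by nlinarith
    rw [e3, e1, hr1, zero_add]
    linarith

end M21.E3
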