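import Pool.Agent.H.MP_21b43d_ag.E3.V.PropB1
import Pool.Agent.H.MP_21b43d_ag.E3.V.PropB2
import Pool.Agent.H.MP_21b43d_ag.E3.V.ExS

/-!
# M21, full support, V-S3: subobjects of `O_j[1]` in the tilted heart
-/

set_option autoImplicit false

open CategoryTheory CategoryTheory.Limits CategoryTheory.Pretriangulated
  CategoryTheory.Triangulated

universe w v u

namespace M21.E3

variable {𝒞 : Type u} [Category.{v} 𝒞] [Abelian 𝒞] [HasDerivedCategory.{w} 𝒞]
  {W : ObjectProperty 𝒞} [(dbW W).IsTriangulated]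

/-- **Proposition b.** If `H^{-1}(I) ≠ 0`: it is a nonzero subobject of the torsion-free `O_j`, so of rank `≥ ρ`, so `O_j → V` has an image of
rank 0, which is 0 as `V` is torsion-free; so `V ≅ H^0(I)` is in `T` and `F`, `V = 0`, `I ≅ O_j[1]` and `m(I) = -(x(O_j) - tρ) < 0` for large `j`.
If `H^{-1}(I) = 0`: `propB_large`, `propB_small` with `d = d₁` for `R = H^0(I)`. -/
theorem propB (hW : WSerre W) {q : RDX W} (h : Win q) {ρ C : ℤ} (hρ : 0 < ρ) (hC : 0 ≤ C)
    (hr : ∀ F, q.Tf F → ¬ IsZero F → ρ ≤ q.r F) {O : ℕ → 𝒞} (hO : TestO q ρ C O) :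
    ∃ t₁ : ℤ, ∀ t : ℤ, t₁ ≤ t → ∃ j₁ : ℕ, ∀ (j : ℕ), j₁ ≤ j → ∀ (Y I : Hrt (tilt hW q))
      (_ : Y.obj.obj ≅ ((DerivedCategory.singleFunctor 𝒞 0).obj (O j))⟦(1 : ℤ)⟧) (i : I ⟶ Y), Mono i →
      ¬ IsZero I → eul (mm q t) I.obj.obj < 0 := by
  obtain ⟨d₁, t₁, hL⟩ := propB_large hW h hρ hC hr hO
  obtain ⟨t₂, j₂, hSm⟩ := propB_small hW h hρ hr hO d₁
  refine ⟨max t₁ t₂, fun t ht => ⟨max j₂ (2 * C + |t| + 2).toNat, fun j hj Y I e i hi hI => ?_⟩⟩
  have hj2 : j₂ ≤ j := (le_max_left _ _).trans hj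
  have hjN : (2 * C + |t| + 2 : ℤ) ≤ j := by
    have h1 := Int.self_le_toNat (2 * C + |t| + 2)
    have h2 : ((2 * C + |t| + 2).toNat : ℤ) ≤ j := by exact_mod_cast (le_max_right _ _).trans hj
    exact h1.trans h2
  have habs := abs_nonneg t
  have hj1 : 1 ≤ j := by
    have : (1 : ℤ) ≤ j := by linarith
    exact_mod_cast this
  obtain ⟨V, a, b, g, wab, wbg, ha, hab, hbg, hg, hV, -⟩ := exact_of_sub hW q Y I e i hi
  obtain ⟨hz, hT, hF⟩ := (tilt_heart_iff hW q I.obj).1 I.property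
  rw [eul_heart_TCharge hW q (mm q t) (addOn_mm q t) I]
  by_cases hA : IsZero (HH (-1) I.obj.obj)
  · have hm0 : mm q t (HH (-1) I.obj.obj) = 0 := by
      have h1 := q.inv_zero hW hA
      unfold mm
      rw [h1.1, h1.2.2]
      ring
    have hbm : Mono b := hab.mono_g (hA.eq_of_src _ _)
    have hS : (ShortComplex.mk b g wbg).ShortExact :=
      { exact := hbg
        mono_f := hbm
        epi_g := hg }
    have hR : ¬ IsZero (HH 0 I.obj.obj) := by
      intro hR
      apply hI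
      rw [isZero_heart_iff]
      have hK : IsZero I.obj.obj := by
        apply isZero_of_HH_TCharge
        intro k
        by_cases e1 : k = -1
        · rw [e1]; exact hA
        · by_cases e0 : k = 0
          · rw [e0]; exact hR
          · exact hz k e1 e0
      rw [IsZero.iff_id_eq_zero] at hK ⊢
      exact (dbW W).ι.map_injective (by
        rw [CategoryTheory.Functor.map_id, CategoryTheory.Functor.map_zero]
        exact hK)
    rw [hm0, sub_zero]
    show q.x (HH 0 I.obj.obj) - t * q.r (HH 0 I.obj.obj) < 0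
    rcases le_total d₁ (q.D (HH 0 I.obj.obj)) with hd | hd
    · exact hL t ((le_max_left _ _).trans ht) j hj1 V _ b g wbg hS hV hT hd
    · exact hSm t ((le_max_right _ _).trans ht) j hj2 V _ b g wbg hS hV hT hR hd
  · have hOF : q.Fc (O j) := hO.Fc j (by linarith)
    have hrA := hr _ hF.1 hA
    have hcW : W (cokernel a) := hW.cokernel a hF.1.1 (hO.mem j)
    have hadd := (q.add_coker_Wk2 hW a ha hF.1.1 (hO.mem j)).1
    rw [hO.r j] at hadd
    have hc0 := q.r_nonneg _ hcW
    have hcm : Mono (cokernel.desc a b wab) :=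
      ((ShortComplex.mk a b wab).exact_iff_mono_cokernel_desc).1 hab
    have hcz : IsZero (cokernel a) :=
      hV.1.2 (cokernel a) (cokernel.desc a b wab) hcm hcW (by linarith)
    have hae : Epi a := Preadditive.epi_of_isZero_cokernel _ hcz
    have hb0 : b = 0 := by
      rw [← cokernel.π_desc a b wab, hcz.eq_of_src (cokernel.desc a b wab) 0, comp_zero]
    have hgm : Mono g := hbg.mono_g hb0
    have hgi : IsIso g := isIso_of_mono_of_epi g
    have hai : IsIso a := isIso_of_mono_of_epi a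
    have hVz : IsZero V := q.isZero_of_Tc_Fc hW (q.Tc_iso hW (asIso g).symm hT) hV
    have hR0 : IsZero (HH 0 I.obj.obj) := hVz.of_iso (asIso g).symm
    have hm0 : mm q t (HH 0 I.obj.obj) = 0 := by
      have h1 := q.inv_zero hW hR0
      unfold mm
      rw [h1.1, h1.2.2]
      ring
    have hm1 : mm q t (HH (-1) I.obj.obj) = q.x (O j) - t * ρ := by
      have h1 := q.inv_iso hW (asIso a) hF.1.1
      unfold mm
      rw [h1.1, h1.2.2, hO.r j]
    rw [hm0, hm1, zero_sub]
    have hx := (abs_le.1 (hO.x j)).1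
    have htj : t ≤ |t| := le_abs_self t
    have hj0 : (2 : ℤ) ≤ j := by linarith
    have k1 : (2 * C + |t| + 2) * (j : ℤ) ≤ (j : ℤ) * j :=
      mul_le_mul_of_nonneg_right hjN (by linarith)
    have k2 : 0 ≤ C * ((j : ℤ) - 1) := mul_nonneg hC (by linarith)
    have k3 : 0 ≤ |t| * ((j : ℤ) - 1) := mul_nonneg habs (by linarith)
    have k4 : C * ((j : ℤ) + 1) + t < (j : ℤ) ^ 2 := by nlinarith
    have k5 : 0 ≤ C * ((j : ℤ) + 1) := mul_nonneg hC (by linarith)
    have k6 : 0 ≤ (ρ - 1) * ((j : ℤ) ^ 2 - t) := mul_nonneg (by linarith) (by linarith)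
    nlinarith

end M21.E3
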