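import Pool.Agent.H.MP_21b43d_ag.E3.V.TstD

/-!
# M21, full support, V-S: the test objects `O(j, j)` and `Ω(-j, -j)`
-/

set_option autoImplicit false

open CategoryTheory CategoryTheory.Limits CategoryTheory.Pretriangulated AlgebraicGeometry
  TopologicalSpace

noncomputable section

namespace M21.E3

section

universe v u

variable {𝒟 : Type u} [Category.{v} 𝒟] [Abelian 𝒟] {V : ObjectProperty 𝒟}

/-- the Hartogs property is invariant under autoequivalences which preserve rank and the degree of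
objects of rank zero -/
private theorem hart_TstO {q : RDX V} {k : ℤ} {e : 𝒟 ≌ 𝒟} (hV : WSerre V) (h : q.Tws k e) {S : 𝒟}
    (hS : Hart q S) : Hart q (e.functor.obj S) := by
  intro M M' i hi hM hM' hr hD ψ
  have hinv := RDX.Tws.inv hV h
  have hK : V (cokernel i) := hV.cokernel i hM hM'
  have hK' : V (e.inverse.obj (cokernel i)) := h.mem' _ hK
  have e1 := q.inv_iso hV (PreservesCokernel.iso e.inverse i) hK'
  have e2 : q.r (e.inverse.obj (cokernel i)) = q.r (cokernel i) := hinv.r _ hK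
  have e3 : q.D (e.inverse.obj (cokernel i)) = q.D (cokernel i) + -k * q.r (cokernel i) :=
    hinv.D _ hK
  have hr' : q.r (cokernel (e.inverse.map i)) = 0 := by rw [← e1.1, e2, hr]
  have hD' : q.D (cokernel (e.inverse.map i)) = 0 := by rw [← e1.2.1, e3, hD, hr]; ring
  obtain ⟨χ, hχ⟩ := hS (e.inverse.obj M) (e.inverse.obj M') (e.inverse.map i) inferInstance
    (h.mem' M hM) (h.mem' M' hM') hr' hD' ((e.symm.toAdjunction.homEquiv M S).symm ψ)
  refine ⟨e.symm.toAdjunction.homEquiv M' S χ, ?_⟩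
  rw [← Adjunction.homEquiv_naturality_left]
  have h1 : e.symm.functor.map i ≫ χ = (e.symm.toAdjunction.homEquiv M S).symm ψ := hχ
  rw [h1, Equiv.apply_symm_apply]

/-- shifting the degree does not change the Hartogs property -/
private theorem hart_sh_TstO {q : RDX V} {S : 𝒟} (k : ℤ) (hS : Hart q S) : Hart (q.sh k) S := by
  intro M M' i hi hM hM' hr hD ψ
  rw [RDX.sh_r] at hr
  rw [RDX.sh_D, hr, mul_zero, sub_zero] at hD
  exact hS M M' i hi hM hM' hr hD ψ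

end

variable {X : Scheme.{0}} [IsIntegral X] [CX X] [IsLocallyNoetherian X] {G : BiP X} {ι : Type}
  [Fintype ι] [DecidableEq ι]

namespace BiP

/-- The test objects `Ω(-j, -j)` (`numbers_Twi`, `exists_window`, `Tc_Twi`, `Fc_Twi`; `Hart` is
invariant under the twist autoequivalence `twe`).
`ext`: `V ⊇ Ω(-j,-j)`, `R = V/Ω(-j,-j)`, `r R = 0`, `D R ≤ d`; `V(j,j) ∈ T(-c)` as a twist of an
extension of a torsion sheaf by `Ω(-j,-j)`; `Win.small'`: `x(V(j,j)) ≤ C' ρ`. -/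
theorem testO (T : G.Split (FO X) ι) (d : DualB T) (hw : Win ((rdx T).sh 2)) : ∃ C : ℤ, 0 ≤ C ∧
    TestO ((rdx T).sh 2) (Fintype.card ι) C (fun j : ℕ => G.Twi (-j) (-j) d.Om.mod) := by
  obtain ⟨hc, ⟨SΩ⟩, hrk, hh⟩ := omega_facts T d
  have hW := wserre_isCoh X
  have hTf : (rdx T).Tf d.Om.mod := by
    refine ⟨hc, fun N i hi hN hr => ?_⟩
    by_contra hz
    have h1 := hrk.sub N i hi hN hz
    have h2 := hrk.pos
    omega
  obtain ⟨c, hcT, hcF⟩ := exists_window T hTf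
  have hrΩ : (rdx T).r d.Om.mod = Fintype.card ι := (rdx_split T SΩ hc.qc).1
  set D₀ : ℤ := (rdx T).D d.Om.mod with hD₀
  set x₀ : ℤ := (rdx T).x d.Om.mod with hx₀
  set ρ : ℤ := (Fintype.card ι : ℤ) with hρ
  -- the numbers of twists
  have num : ∀ (m : ℤ) {F : X.Modules}, IsCoh F → (rdx T).r (G.Twi m m F) = (rdx T).r F ∧
      (rdx T).D (G.Twi m m F) = (rdx T).D F + 2 * m * (rdx T).r F ∧
      (rdx T).x (G.Twi m m F) = (rdx T).r F * m ^ 2 + m * (rdx T).D F + (rdx T).x F := by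
    intro m F hF
    obtain ⟨e1, e2, e3, e4⟩ := numbers_Twi T m m hF
    refine ⟨e1, ?_, ?_⟩
    · show G.nd1 (SS (G.Twi m m F)) + G.nd2 (SS (G.Twi m m F)) =
        G.nd1 (SS F) + G.nd2 (SS F) + 2 * m * G.nr (SS F)
      rw [e2, e3]
      ring
    · show G.nx (SS (G.Twi m m F)) =
        G.nr (SS F) * m ^ 2 + m * (G.nd1 (SS F) + G.nd2 (SS F)) + G.nx (SS F)
      rw [e4]
      ring
  have hcoh : ∀ j : ℕ, IsCoh (G.Twi (-j) (-j) d.Om.mod) := fun j => G.isCoh_Twi _ _ hc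
  have nr : ∀ j : ℕ, (rdx T).r (G.Twi (-j) (-j) d.Om.mod) = ρ := fun j => by
    rw [(num (-j) hc).1, hrΩ]
  have nD : ∀ j : ℕ, (rdx T).D (G.Twi (-j) (-j) d.Om.mod) = D₀ - 2 * j * ρ := fun j => by
    rw [(num (-j) hc).2.1, hrΩ]
    ring
  have nx : ∀ j : ℕ, (rdx T).x (G.Twi (-j) (-j) d.Om.mod) = ρ * j ^ 2 - j * D₀ + x₀ := fun j => by
    rw [(num (-j) hc).2.2, hrΩ]
    ring
  have hρ0 : 0 ≤ ρ := by rw [hρ]; exact_mod_cast Nat.zero_le _
  have hc0 : (0 : ℤ) ≤ (c : ℤ) := Int.natCast_nonneg _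
  have a1 := abs_nonneg (D₀ - 2 * ρ)
  have a2 := abs_nonneg D₀
  have a3 := abs_nonneg x₀
  refine ⟨|D₀ - 2 * ρ| + |D₀| + |x₀| + c + 2, by positivity, ?_⟩
  refine
    { mem := hcoh
      r := nr
      D := ?_
      x := ?_
      Tc := ?_
      Fc := ?_
      hart := ?_
      ext := ?_ }
  · intro j
    have h1 : ((rdx T).sh 2).D (G.Twi (-j) (-j) d.Om.mod) + 2 * ρ * j = D₀ - 2 * ρ := by
      rw [RDX.sh_D, nD j, nr j]
      ring
    show |((rdx T).sh 2).D (G.Twi (-j) (-j) d.Om.mod) + 2 * ρ * j| ≤ _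
    rw [h1]
    linarith only [a2, a3, hc0]
  · intro j
    have hj : (0 : ℤ) ≤ (j : ℤ) := Int.natCast_nonneg _
    have h1 : ((rdx T).sh 2).x (G.Twi (-j) (-j) d.Om.mod) - ρ * j ^ 2 = x₀ - j * D₀ := by
      rw [RDX.sh_x, nx j]
      ring
    show |((rdx T).sh 2).x (G.Twi (-j) (-j) d.Om.mod) - ρ * j ^ 2| ≤ _
    rw [h1]
    have h2 : |x₀ - j * D₀| ≤ |x₀| + j * |D₀| := by
      calc |x₀ - j * D₀| ≤ |x₀| + |(j : ℤ) * D₀| := abs_sub _ _
        _ = |x₀| + j * |D₀| := by rw [abs_mul, abs_of_nonneg hj]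
    have h3 : 0 ≤ (|D₀ - 2 * ρ| + |x₀| + c + 2) * j := by positivity
    have h4 : 0 ≤ |D₀ - 2 * ρ| + |D₀| + c + 2 := by positivity
    nlinarith only [h2, h3, h4]
  · intro j
    have h1 : ((rdx T).sh (2 - (|D₀ - 2 * ρ| + |D₀| + |x₀| + c + 2))).Tc d.Om.mod := by
      refine (rdx T).Tc_mono ?_ hcT
      linarith only [a1, a2, a3]
    have h2 := (Tc_Twi T (-(j : ℤ)) _).2 h1
    have h3 : ((rdx T).sh 2).sh (-(2 * j + (|D₀ - 2 * ρ| + |D₀| + |x₀| + c + 2))) =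
        (rdx T).sh (2 - (|D₀ - 2 * ρ| + |D₀| + |x₀| + c + 2) + 2 * (-(j : ℤ))) := by
      rw [RDX.sh_sh]
      congr 1
      ring
    show (((rdx T).sh 2).sh (-(2 * j + (|D₀ - 2 * ρ| + |D₀| + |x₀| + c + 2)))).Tc _
    rw [h3]
    exact h2
  · intro j hj
    have h1 : ((rdx T).sh (2 + 2 * j)).Fc d.Om.mod := by
      refine (rdx T).Fc_mono ?_ hcF
      have : (0 : ℤ) ≤ (j : ℤ) := Int.natCast_nonneg _
      linarith only [a1, a2, a3, hj, this]
    have h2 := (Fc_Twi T (-(j : ℤ)) _).2 h1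
    have h3 : (2 + 2 * (j : ℤ) + 2 * (-(j : ℤ))) = 2 := by ring
    rw [h3] at h2
    exact h2
  · intro j
    exact hart_sh_TstO 2 (hart_TstO hW (tws T (-(j : ℤ))) hh)
  · intro δ
    obtain ⟨C₂, hC₂0, hC₂⟩ := hw.small' hW (-c - 2) (D₀ + δ + c * ρ)
    refine ⟨C₂ * ρ - x₀, ?_⟩
    intro j V i hi hVf hVr hVD
    have hVc : IsCoh V := hVf.1
    have hVf' : (rdx T).Tf V := hVf
    have hVr' : (rdx T).r V = ρ := hVr
    have hD1 : ((rdx T).sh 2).D V - ((rdx T).sh 2).D (G.Twi (-j) (-j) d.Om.mod) =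
        (rdx T).D V - (D₀ - 2 * j * ρ) := by
      rw [RDX.sh_D, RDX.sh_D, nD j, nr j, hVr']
      ring
    have hD2 : (rdx T).D V - (D₀ - 2 * j * ρ) ≤ δ := by rw [← hD1]; exact hVD
    -- `V` is in `T(-c-2j)`
    have hK : IsCoh (cokernel i) := hW.cokernel i (hcoh j) hVc
    have hse : (ShortComplex.mk i (cokernel.π i) (cokernel.condition i)).ShortExact :=
      { exact := ShortComplex.exact_cokernel i
        mono_f := hi
        epi_g := inferInstance }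
    have hrK : (rdx T).r (cokernel i) = 0 := by
      have h1 := ((rdx T).add _ hse (hcoh j) hVc hK).1
      dsimp only at h1
      rw [hVr', nr j] at h1
      linarith only [h1]
    have hTO : ((rdx T).sh (-c + 2 * (-(j : ℤ)))).Tc (G.Twi (-j) (-j) d.Om.mod) :=
      (Tc_Twi T (-(j : ℤ)) _).2 hcT
    have hTK : ((rdx T).sh (-c + 2 * (-(j : ℤ)))).Tc (cokernel i) :=
      RDX.Tc_of_rank_zero _ hW hK hrK
    have hTV : ((rdx T).sh (-c + 2 * (-(j : ℤ)))).Tc V := RDX.Tc_ext _ hW _ hse hTO hTK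
    have hTV' : ((rdx T).sh (-c)).Tc (G.Twi j j V) := by
      have h1 := (Tc_Twi T (j : ℤ) _).2 hTV
      have h2 : (-(c : ℤ) + 2 * (-(j : ℤ)) + 2 * (j : ℤ)) = -c := by ring
      rw [h2] at h1
      exact h1
    have hTf' : (rdx T).Tf (G.Twi j j V) := RDX.Tws.Tf hW (tws T (j : ℤ)) hVf'
    obtain ⟨v1, v2, v3⟩ := num (j : ℤ) hVc
    have hs1 : ((rdx T).sh 2).sh (-c - 2) = (rdx T).sh (-c) := by
      rw [RDX.sh_sh]
      congr 1
      ring
    have hx := hC₂ (G.Twi j j V) hTf' (by rw [hs1]; exact hTV') (by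
      rw [hs1, RDX.sh_D, v1, v2, hVr']
      linarith only [hD2])
    rw [RDX.sh_x, RDX.sh_r, v1, v3, hVr'] at hx
    show ((rdx T).sh 2).x V - ((rdx T).sh 2).x (G.Twi (-j) (-j) d.Om.mod) ≤ C₂ * ρ - x₀ -
      j * (((rdx T).sh 2).D V - ((rdx T).sh 2).D (G.Twi (-j) (-j) d.Om.mod))
    rw [hD1, RDX.sh_x, nx j]
    nlinarith only [hx]

end BiP

end M21.E3
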