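import Pool.Agent.H.MP_21b43d_ag.E3.V.MaE
import Pool.Agent.H.MP_21b43d_ag.E3.V.PropB
import Pool.Agent.H.MP_21b43d_ag.E3.V.TstO
import Pool.Agent.H.MP_21b43d_ag.E3.V.DuD

/-!
# M21, full support, V-M: the main estimate, slopes `> 0`
-/

set_option autoImplicit false

open CategoryTheory CategoryTheory.Limits CategoryTheory.Pretriangulated AlgebraicGeometry
  TopologicalSpace

noncomputable section

namespace M21.E3

variable {X : Scheme.{0}} [IsIntegral X] [CX X] [IsLocallyNoetherian X] {G : BiP X} {ι : Type}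
  [Fintype ι] [DecidableEq ι]

namespace BiP

/-- **Slopes `> 0`.** `t₀`: the maximum of the constants of `propB` (for `testO`), `sub_num`. Let `t ≥ t₀`, `j` larger than the constants of `propB`, `single_case2`, `TestO.Fc`; `K = 2j + 2 + c`. Let `E` be semistable with `m E > 0` or `D E = 0`; `L → E → E''`, `L ≅ (SS M)⟦1⟧` as in `sub_num`.
`Hom(E'', (SS Ω(-j,-j))⟦1⟧) = 0`: `Ω(-j,-j) ∈ F`, so `Ω(-j,-j)[1]` is in the heart; by `propB` and `SS.hom_zero_of_sub` there is no nonzero map `E → Ω(-j,-j)[1]` and `E → E''` is an epimorphism in the heart. So `Hom(LL j j, E''[1]) = 0` by `hom_one_zero` (`H^0(E'') = H^0(E)` is in `T`: all objects of the heart).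
`single_case2`, `bdd_of_single4` (`m₀ = j`, `p = 0`); `V.bdd K` for `M` (`F(0) ⊆ F(K)`), `Bdd.shift_right`, `Bdd.iso_right`; `Bdd.right₂`. -/
theorem case2 (T : G.Split (FO X) ι) (d : DualB T) (V : Van T) : ∃ t₀ : ℤ, ∀ t : ℤ, t₀ ≤ t →
    ∀ m n : ℤ, ∃ C : ℤ, 0 ≤ C ∧ ∀ (hq : Pos (qq T) t) (E : HT T),
      (tCharge (wserre_isCoh X) (qq T) t hq).SS E →
      (0 < eul (mm (qq T) t) E.obj.obj ∨ eul (qq T).D E.obj.obj = 0) →
        Bdd (G.LL m n) E.obj.obj (C * zAb (wserre_isCoh X) (qq T) t E) := by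
  classical
  have hW := wserre_isCoh X
  obtain ⟨C₀, hC₀, hO⟩ := testO T d V.win
  have hne : Nonempty ι := Split.nonempty T
  have hρ : (0 : ℤ) < (Fintype.card ι : ℤ) := by exact_mod_cast Fintype.card_pos
  have hr : ∀ F, (qq T).Tf F → ¬ IsZero F → (Fintype.card ι : ℤ) ≤ (qq T).r F :=
    fun F hF h0 => rank_ge T hF h0
  obtain ⟨t₁, hB⟩ := propB hW V.win hρ hC₀ hr hO
  obtain ⟨t₂, hN⟩ := sub_num hW V.win
  refine ⟨max t₁ t₂, fun t ht m n => ?_⟩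
  obtain ⟨j₁, hj₁⟩ := hB t (le_trans (le_max_left _ _) ht)
  obtain ⟨c, hc⟩ := single_case2 T V
  obtain ⟨j, hjj, hjc, hjC⟩ : ∃ j : ℕ, j₁ ≤ j ∧ c ≤ j ∧ C₀ ≤ (j : ℤ) := by
    refine ⟨j₁ + c + C₀.toNat, by omega, by omega, ?_⟩
    have := Int.self_le_toNat C₀
    push_cast
    omega
  obtain ⟨C, hC, hE⟩ := hN t (le_trans (le_max_right _ _) ht) (2 * j + 2 + c)
  obtain ⟨A, B, hA, hB', hAB⟩ := V.bdd (2 * j + 2 + c) m n
  obtain ⟨c', hc', hs4⟩ := bdd_of_single4 T (j : ℤ) m n 0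
  refine ⟨(A + B) * C + c' * (3 * C), by positivity, ?_⟩
  intro hq E hSS hm
  obtain ⟨L, E'', i, p, w, M, e, hse, hMT, hMF, hMF'', r1, r2, r3, r4, r5⟩ := hE hq E hSS
  -- the subobject
  have b1 : Bdd (G.LL m n) (SS M) (A * (qq T).r M - B * (qq T).x M) := by
    refine hAB M hMT ?_
    have h0 : ((qq T).sh 0).Fc M := by
      refine ⟨hMF.1, fun N i hi hN => ?_⟩
      have h1 := hMF.2 N i hi hN
      rw [RDX.sh_D, zero_mul, sub_zero]
      exact h1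
    exact (qq T).Fc_mono (Int.natCast_nonneg _) h0
  have b1' : Bdd (G.LL m n) L.obj.obj ((A + B) * C * zAb (wserre_isCoh X) (qq T) t E) := by
    refine ((b1.shift_right 1).iso_right e.symm).mono ?_
    have h1 : A * (qq T).r M ≤ A * (C * zAb (wserre_isCoh X) (qq T) t E) :=
      mul_le_mul_of_nonneg_left ((le_abs_self _).trans r1) hA
    have h2 : B * -(qq T).x M ≤ B * (C * zAb (wserre_isCoh X) (qq T) t E) :=
      mul_le_mul_of_nonneg_left ((neg_le_abs _).trans r2) hB'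
    linarith
  -- vanishing
  have hD : dbCoh X E''.obj.obj := E''.obj.property
  obtain ⟨v1, v2, v3⟩ := (tilt_heart_iff hW (qq T) E''.obj).1 E''.property
  have hOF : (qq T).Fc (G.Twi (-(j : ℤ)) (-(j : ℤ)) d.Om.mod) := hO.Fc j hjC
  have hOC : IsCoh (G.Twi (-(j : ℤ)) (-(j : ℤ)) d.Om.mod) := hOF.1.1
  have hsz : ∀ i : ℤ, i ≠ 0 → IsZero (HH i (SS (G.Twi (-(j : ℤ)) (-(j : ℤ)) d.Om.mod))) := by
    intro i hi
    rcases lt_or_gt_of_ne hi with h | h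
    · exact DerivedCategory.isZero_of_isGE _ 0 i h
    · exact DerivedCategory.isZero_of_isLE _ 0 i h
  have hYc : dbCoh X ((SS (G.Twi (-(j : ℤ)) (-(j : ℤ)) d.Om.mod))⟦(1 : ℤ)⟧) :=
    (dbCoh X).le_shift (1 : ℤ) _ (dbCoh_single _ hOC 0)
  have hYz : ∀ i : ℤ, i ≠ -1 →
      IsZero (HH i ((SS (G.Twi (-(j : ℤ)) (-(j : ℤ)) d.Om.mod))⟦(1 : ℤ)⟧)) := by
    intro i hi
    exact (hsz (1 + i) (by omega)).of_iso (hhShiftTilt _ 1 i (1 + i) rfl)
  have hYF : (qq T).Fc (HH (-1) ((SS (G.Twi (-(j : ℤ)) (-(j : ℤ)) d.Om.mod))⟦(1 : ℤ)⟧)) := by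
    refine (qq T).Fc_iso hW (((hhShiftTilt _ 1 (-1) 0 (by norm_num)) ≪≫
      (DerivedCategory.singleFunctorCompHomologyFunctorIso X.Modules 0).app
        (G.Twi (-(j : ℤ)) (-(j : ℤ)) d.Om.mod)).symm) hOF
  have hYh : (tilt (wserre_isCoh X) (qq T)).heart
      (⟨(SS (G.Twi (-(j : ℤ)) (-(j : ℤ)) d.Om.mod))⟦(1 : ℤ)⟧, hYc⟩ :
        (dbW (IsCoh : ObjectProperty X.Modules)).FullSubcategory) :=
    (tilt_heart_iff hW (qq T) _).2 ⟨fun i hi _ => hYz i hi,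
      Tc_zero_tilt hW (qq T) (hYz 0 (by norm_num)), hYF⟩
  let Y : HT T := ⟨⟨(SS (G.Twi (-(j : ℤ)) (-(j : ℤ)) d.Om.mod))⟦(1 : ℤ)⟧, hYc⟩, hYh⟩
  have hhom : ∀ φ : E''.obj.obj ⟶ (SS (G.Twi (-(j : ℤ)) (-(j : ℤ)) d.Om.mod))⟦(1 : ℤ)⟧,
      φ = 0 := by
    intro φ
    let φ₁ : E''.obj ⟶ Y.obj :=
      (dbW (IsCoh : ObjectProperty X.Modules)).ι.preimage (X := E''.obj) (Y := Y.obj) φ
    let φ₂ : E'' ⟶ Y := (hι (tilt (wserre_isCoh X) (qq T))).preimage (X := E'') (Y := Y) φ₁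
    have h1 : p ≫ φ₂ = 0 := by
      refine hSS.hom_zero_of_sub hm ?_ (p ≫ φ₂)
      intro I k hk hI
      exact hj₁ j hjj Y I (Iso.refl _) k hk hI
    have hp : Epi p := hse.epi_g
    have h2 : φ₂ = 0 := by
      rw [← cancel_epi p, h1, comp_zero]
    have h3 : φ₁ = 0 := by
      have h4 : (hι (tilt (wserre_isCoh X) (qq T))).map φ₂ = φ₁ :=
        (hι (tilt (wserre_isCoh X) (qq T))).map_preimage _
      rw [← h4, h2, Functor.map_zero]
    have h5 : (dbW (IsCoh : ObjectProperty X.Modules)).ι.map φ₁ = φ :=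
      (dbW (IsCoh : ObjectProperty X.Modules)).ι.map_preimage _
    rw [← h5, h3, Functor.map_zero]
  have hv : ∀ φ : G.LL j j ⟶ E''.obj.obj⟦(1 : ℤ)⟧, φ = 0 :=
    fun φ => hom_one_zero T d hD v1 j j hhom φ
  have hv2 := hc j hjc E''.obj.obj hD v1 hMF'' v2 hv
  have b2 := hs4 E''.obj.obj hD hv2
  have b2' : Bdd (G.LL m n) E''.obj.obj
      (c' * (3 * C) * zAb (wserre_isCoh X) (qq T) t E) := by
    refine b2.mono ?_
    have h1 : |eul (qq T).r E''.obj.obj| + |eul (qq T).D E''.obj.obj| +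
        |eul (qq T).x E''.obj.obj| ≤ 3 * C * zAb (wserre_isCoh X) (qq T) t E := by
      linarith
    have h2 := mul_le_mul_of_nonneg_left h1 hc'
    linarith
  obtain ⟨δ, hδ⟩ := exists_triangle_of_ses (tilt (wserre_isCoh X) (qq T)) _ hse
  have hδ' := (dbW (IsCoh : ObjectProperty X.Modules)).ι.map_distinguished _ hδ
  have b3 : Bdd (G.LL m n) E.obj.obj _ := Bdd.right₂ _ hδ' b1' b2'
  exact b3.mono (le_of_eq (add_mul _ _ _).symm)

/-- **Main estimate** (`case1`, `case2`, `exists_dualB`; the maximum of the constants, `zAb ≥ 0`). -/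
theorem main_bound (T : G.Split (FO X) ι) (V : Van T) : ∃ t₀ : ℤ, ∀ t : ℤ, t₀ ≤ t →
    ∀ m n : ℤ, ∃ C : ℤ, 0 ≤ C ∧ ∀ (hq : Pos (qq T) t) (E : HT T),
      (tCharge (wserre_isCoh X) (qq T) t hq).SS E →
        Bdd (G.LL m n) E.obj.obj (C * zAb (wserre_isCoh X) (qq T) t E) := by
  obtain ⟨d⟩ := exists_dualB (S := T)
  obtain ⟨t₁, h1⟩ := case1 T V
  obtain ⟨t₂, h2⟩ := case2 T d V
  refine ⟨max t₁ t₂, fun t ht m n => ?_⟩
  obtain ⟨C₁, hC₁, k1⟩ := h1 t (le_trans (le_max_left _ _) ht) m n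
  obtain ⟨C₂, hC₂, k2⟩ := h2 t (le_trans (le_max_right _ _) ht) m n
  refine ⟨C₁ + C₂, by positivity, fun hq E hE => ?_⟩
  have hD : 0 ≤ eul (qq T).D E.obj.obj := (tCharge (wserre_isCoh X) (qq T) t hq).D_nonneg E
  have hz : 0 ≤ zAb (wserre_isCoh X) (qq T) t E := add_nonneg (abs_nonneg _) hD
  by_cases hc : eul (mm (qq T) t) E.obj.obj ≤ 0 ∧ 0 < eul (qq T).D E.obj.obj
  · refine (k1 hq E hE hc.1 hc.2).mono ?_
    nlinarith
  · have hc' : 0 < eul (mm (qq T) t) E.obj.obj ∨ eul (qq T).D E.obj.obj = 0 := by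
      by_contra hcon
      push Not at hcon
      exact hc ⟨hcon.1, lt_of_le_of_ne hD (Ne.symm hcon.2)⟩
    refine (k2 hq E hE hc').mono ?_
    nlinarith

end BiP

end M21.E3
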