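import Pool.Agent.H.MP_21b43d_ag.E3.V.GaE
import Pool.Agent.H.MP_21b43d_ag.E3.V.MaF
import Pool.Agent.H.MP_21b43d_ag.Full

/-!
# M21, full support: assembly
-/

set_option autoImplicit false

open CategoryTheory CategoryTheory.Limits CategoryTheory.Pretriangulated
  CategoryTheory.Triangulated AlgebraicGeometry TopologicalSpace

universe w v u

noncomputable section

namespace M21.E3

section

variable {𝒞 : Type u} [Category.{v} 𝒞] [Abelian 𝒞] [HasDerivedCategory.{w} 𝒞]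
  {W : ObjectProperty 𝒞} [(dbW W).IsTriangulated]

/-- `exists_stab` with the description of the semistable objects (same proof). -/
theorem exists_stab' (hW : WSerre W) (q : RDX W) (t : ℤ) (hq : Pos q t) :
    ∃ σ : Slicing (dbW W).FullSubcategory, ∀ (φ : ℝ) (E : (dbW W).FullSubcategory), σ.P φ E →
      ¬ IsZero E → (∃ ρ : ℝ, 0 < ρ ∧
        - (eul (mm q t) E.obj : ℂ) + (eul q.D E.obj : ℂ) * Complex.I =
          (ρ : ℂ) * Complex.exp (Real.pi * φ * Complex.I)) ∧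
      ∃ (n : ℤ) (M : Hrt (tilt hW q)), (tCharge hW q t hq).SS M ∧ Nonempty (E ≅ M.obj⟦n⟧) := by
  obtain ⟨σ, hσ⟩ := exists_slicing (tilt hW q) (tCharge hW q t hq) (tilt_bounded hW q)
    (tilt_noetherian hW q t hq)
  refine ⟨σ, fun φ E hE h0 => ?_⟩
  rcases (hσ φ E).1 hE with h | ⟨n, M, ⟨e⟩, hM, rfl⟩
  · exact absurd h h0
  refine ⟨?_, n, M, hM, ⟨e⟩⟩
  obtain ⟨ρ, hρ, hZ⟩ := (tCharge hW q t hq).Z_phase hM.1
  refine ⟨ρ, hρ, ?_⟩
  have i1 : E.obj ≅ M.obj.obj⟦n⟧ :=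
    (dbW W).ι.mapIso e ≪≫ ((dbW W).ι.commShiftIso n).app M.obj
  have e1 : eul q.D E.obj = (n.negOnePow : ℤ) * eul q.D M.obj.obj :=
    (eul_iso hW q.D (addOn_D q) i1 E.property).trans
      (eul_shift hW q.D (addOn_D q) _ M.obj.property n)
  have e2 : eul (mm q t) E.obj = (n.negOnePow : ℤ) * eul (mm q t) M.obj.obj :=
    (eul_iso hW (mm q t) (addOn_mm q t) i1 E.property).trans
      (eul_shift hW (mm q t) (addOn_mm q t) _ M.obj.property n)
  have hZ' : - (eul (mm q t) M.obj.obj : ℂ) + (eul q.D M.obj.obj : ℂ) * Complex.I =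
      (ρ : ℂ) * Complex.exp (Real.pi * (tCharge hW q t hq).ph M * Complex.I) := hZ
  rw [exp_shift_MainB, e1, e2]
  push_cast
  linear_combination ((n.negOnePow : ℤ) : ℂ) * hZ'

/-- the size of the central charge of a shifted object of the heart -/
theorem zAb_FinA (hW : WSerre W) (q : RDX W) (t : ℤ) (hq : Pos q t)
    (E : (dbW W).FullSubcategory) (n : ℤ) (M : Hrt (tilt hW q)) (e : E ≅ M.obj⟦n⟧) :
    zAb hW q t M = |eul (mm q t) E.obj| + |eul q.D E.obj| := by
  have i1 : E.obj ≅ M.obj.obj⟦n⟧ :=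
    (dbW W).ι.mapIso e ≪≫ ((dbW W).ι.commShiftIso n).app M.obj
  have e1 : eul q.D E.obj = (n.negOnePow : ℤ) * eul q.D M.obj.obj :=
    (eul_iso hW q.D (addOn_D q) i1 E.property).trans
      (eul_shift hW q.D (addOn_D q) _ M.obj.property n)
  have e2 : eul (mm q t) E.obj = (n.negOnePow : ℤ) * eul (mm q t) M.obj.obj :=
    (eul_iso hW (mm q t) (addOn_mm q t) i1 E.property).trans
      (eul_shift hW (mm q t) (addOn_mm q t) _ M.obj.property n)
  have h0 : 0 ≤ eul q.D M.obj.obj := (tCharge hW q t hq).D_nonneg M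
  rw [e1, e2, abs_mul, abs_mul, Int.abs_negOnePow, one_mul, one_mul, abs_of_nonneg h0]
  rfl

theorem zAb_nonneg_FinA (hW : WSerre W) (q : RDX W) (t : ℤ) (hq : Pos q t)
    (M : Hrt (tilt hW q)) : 0 ≤ zAb hW q t M := by
  have h0 : 0 ≤ eul q.D M.obj.obj := (tCharge hW q t hq).D_nonneg M
  exact add_nonneg (abs_nonneg _) h0

end

variable {X : Scheme.{0}} [IsIntegral X] [CX X] [IsLocallyNoetherian X] {G : BiP X} {ι : Type}
  [Fintype ι]

namespace BiP

/-- **Full support.** `t₀` from `main_bound`. Take `σ` from `exists_stab'` and the stability condition as in `exists_stabilityCondition_of_pos` (`k = 2`; same proof). Full support: `P E z := ∃ M : HT T, SS M ∧ E = M.obj.obj ∧ z = zAb M`; `bdd_db` for `G` gives `C`; for a nonzero semistable `E ≅ M[n]`: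
`|χ(G, E)| ≤ C zAb M` (`chi_eq_eulF`, `Bdd.shift_right`, `Bdd.iso_right`, `Bdd.eulF_le`), and `zAb M = |Re Z(E)| + |Im Z(E)| ≤ 2 ‖Z(E)‖` (`eul_shift`, `eul_iso`, `D ≥ 0`). Zero objects: `χ = 0`. -/
theorem exists_full_of_pos [X.IsSeparated]
    (hp : ∀ x : X, IsClosed ({x} : Set X) → ∃ a b : X.presheaf.stalk x,
      IsPar2 (X.presheaf.stalk x) a b) (T : G.Split (FO X) ι) (V : Van T) :
    ∃ t₀ : ℤ, ∀ t : ℤ, t₀ ≤ t → Pos (qq T) t →
      ∃ σ : StabilityCondition (CX.f : X ⟶ Spec (.of ℂ)), σ.FullSupport := by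
  classical
  obtain ⟨t₀, ht₀⟩ := main_bound T V
  refine ⟨t₀, fun t ht hq => ?_⟩
  have hW := wserre_isCoh X
  let q := qq T
  obtain ⟨σ, hσ⟩ := exists_stab' hW q t hq
  let v : DbCoh X → (Fin 2 → ℤ) := fun E => ![eul q.D E.obj, eul (mm q t) E.obj]
  let Z : (Fin 2 → ℤ) →+ ℂ :=
    { toFun := fun w => - (w 1 : ℂ) + (w 0 : ℂ) * Complex.I
      map_zero' := by simp
      map_add' := fun a b => by
        simp only [Pi.add_apply, Int.cast_add]
        ring }
  have hZ : ∀ E : DbCoh X, Z (v E) =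
      - (eul (mm q t) E.obj : ℂ) + (eul q.D E.obj : ℂ) * Complex.I := fun E => rfl
  have hn1 : ∀ E : DbCoh X, |(eul q.D E.obj : ℝ)| ≤ ‖Z (v E)‖ := by
    intro E
    rw [hZ]
    have h1 := Complex.abs_im_le_norm
      (- (eul (mm q t) E.obj : ℂ) + (eul q.D E.obj : ℂ) * Complex.I)
    simp only [Complex.add_im, Complex.neg_im, Complex.intCast_im, Complex.mul_im,
      Complex.intCast_re, Complex.I_im, Complex.I_re, mul_one, mul_zero, add_zero, neg_zero,
      zero_add] at h1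
    exact h1
  have hn2 : ∀ E : DbCoh X, |(eul (mm q t) E.obj : ℝ)| ≤ ‖Z (v E)‖ := by
    intro E
    rw [hZ]
    have h1 := Complex.abs_re_le_norm
      (- (eul (mm q t) E.obj : ℂ) + (eul q.D E.obj : ℂ) * Complex.I)
    simp only [Complex.add_re, Complex.neg_re, Complex.intCast_re, Complex.mul_re,
      Complex.intCast_im, Complex.I_im, Complex.I_re, mul_one, mul_zero, sub_zero,
      add_zero, abs_neg] at h1
    exact h1
  refine ⟨{ toSlicing := σ, n := 2, v := v, v_add := ?_, v_num := ?_, Z := Z,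
            Z_phase := ?_, support := ?_ }, ?_⟩
  · intro T hT
    have hT' : (dbCoh X).ι.mapTriangle.obj T ∈ distTriang (DMod X) := hT
    have e1 := eul_add hW q.D (addOn_D q) _ hT' T.obj₁.property T.obj₂.property
      T.obj₃.property
    have e2 := eul_add hW (mm q t) (addOn_mm q t) _ hT' T.obj₁.property
      T.obj₂.property T.obj₃.property
    funext i
    fin_cases i
    · exact e1
    · exact e2
  · intro E F hEF
    have key : ∀ m n : ℤ, M21.eulF ℂ (G.LL m n) E.obj = M21.eulF ℂ (G.LL m n) F.obj := by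
      intro m n
      have h1 := hEF ⟨G.LL m n, dbW_single hW (G.OO (-m) (-n)) (isCoh_OO G (-m) (-n)) 0⟩
      have h2 : chi (CX.f : X ⟶ Spec (.of ℂ)) (G.LL m n) E.obj = M21.eulF ℂ (G.LL m n) E.obj :=
        chi_eq_eulF CX.f (G.LL m n) E.obj
      have h3 : chi (CX.f : X ⟶ Spec (.of ℂ)) (G.LL m n) F.obj = M21.eulF ℂ (G.LL m n) F.obj :=
        chi_eq_eulF CX.f (G.LL m n) F.obj
      rw [← h2, ← h3]
      exact h1
    have e1 : eul q.D E.obj = eul q.D F.obj := by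
      refine eul_num_StabP T (-2) (1 + 2) (1 + 2) (-2 - 2) (fun F => ?_) E.property F.property key
      show G.nd1 (SS F) + G.nd2 (SS F) - 2 * G.nr (SS F) = _
      unfold nd1 nd2 nr
      ring
    have e2 : eul (mm q t) E.obj = eul (mm q t) F.obj := by
      refine eul_num_StabP T (-t) t t (1 - t) (fun F => ?_) E.property F.property key
      show G.nx (SS F) - t * G.nr (SS F) = _
      unfold nx nr
      ring
    funext i
    fin_cases i
    · exact e1
    · exact e2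
  · intro φ E hE h0
    obtain ⟨⟨ρ, hρ, hρ'⟩, -⟩ := hσ φ E hE h0
    exact ⟨ρ, hρ, (hZ E).trans hρ'⟩
  · refine ⟨1, fun φ E _ i => ?_⟩
    rw [one_mul]
    fin_cases i
    · exact hn1 E
    · exact hn2 E
  · intro K
    let P : DMod X → ℤ → Prop := fun E z => ∃ M : HT T,
      (tCharge (wserre_isCoh X) (qq T) t hq).SS M ∧ E = M.obj.obj ∧
        z = zAb (wserre_isCoh X) (qq T) t M
    have hP : ∀ E z, P E z → 0 ≤ z ∧ dbCoh X E ∧ ∀ i : ℤ, i ≠ -1 → i ≠ 0 → IsZero (HH i E) := by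
      rintro E z ⟨M, hM, rfl, rfl⟩
      exact ⟨zAb_nonneg_FinA _ _ _ hq M, M.obj.property,
        ((tilt_heart_iff hW q M.obj).1 M.property).1⟩
    have h : ∀ m n : ℤ, ∃ C : ℤ, 0 ≤ C ∧ ∀ E z, P E z → Bdd (G.LL m n) E (C * z) := by
      intro m n
      obtain ⟨C, hC, hC'⟩ := ht₀ t ht m n
      refine ⟨C, hC, ?_⟩
      rintro E z ⟨M, hM, rfl, rfl⟩
      exact hC' hq M hM
    obtain ⟨C, hC, hb⟩ := bdd_db G hp P hP h K.obj K.property
    refine ⟨2 * (C : ℝ), fun φ E hE => ?_⟩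
    show |(chi (CX.f : X ⟶ Spec (.of ℂ)) K.obj E.obj : ℝ)| ≤ 2 * (C : ℝ) * ‖Z (v E)‖
    have hc : chi (CX.f : X ⟶ Spec (.of ℂ)) K.obj E.obj = M21.eulF ℂ K.obj E.obj :=
      chi_eq_eulF CX.f K.obj E.obj
    rw [hc]
    have hC' : (0 : ℝ) ≤ (C : ℝ) := Int.cast_nonneg hC
    by_cases h0 : IsZero E
    · have h1 : IsZero E.obj := (dbCoh X).ι.map_isZero h0
      have h2 : Bdd K.obj E.obj 0 := by
        have h3 : ∀ (i : ℤ) (φ : K.obj ⟶ E.obj⟦i⟧), φ = 0 := fun i φ =>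
          ((shiftFunctor (DMod X) i).map_isZero h1).eq_of_tgt _ _
        refine ⟨fun i => (Bd_finrank_zero (h3 i)).1, fun I => ?_⟩
        refine le_of_eq (Finset.sum_eq_zero fun i _ => ?_)
        rw [(Bd_finrank_zero (h3 i)).2, Nat.cast_zero]
      have h4 := h2.eulF_le
      have h5 : |(M21.eulF ℂ K.obj E.obj : ℝ)| ≤ 0 := by exact_mod_cast h4
      exact h5.trans (by positivity)
    · obtain ⟨-, n, M, hM, ⟨e⟩⟩ := hσ φ E hE h0
      have i1 : E.obj ≅ M.obj.obj⟦n⟧ :=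
        (dbCoh X).ι.mapIso e ≪≫ ((dbCoh X).ι.commShiftIso n).app M.obj
      have h1 := ((hb M.obj.obj _ ⟨M, hM, rfl, rfl⟩).shift_right n).iso_right i1.symm
      have h2 := h1.eulF_le
      rw [zAb_FinA hW (qq T) t hq E n M e] at h2
      have h3 : |(M21.eulF ℂ K.obj E.obj : ℝ)| ≤
          (C : ℝ) * (|(eul (mm q t) E.obj : ℝ)| + |(eul q.D E.obj : ℝ)|) := by
        exact_mod_cast h2
      refine h3.trans ?_
      have h4 := add_le_add (hn2 E) (hn1 E)
      calc (C : ℝ) * (|(eul (mm q t) E.obj : ℝ)| + |(eul q.D E.obj : ℝ)|)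
          ≤ (C : ℝ) * (‖Z (v E)‖ + ‖Z (v E)‖) := mul_le_mul_of_nonneg_left h4 hC'
        _ = 2 * (C : ℝ) * ‖Z (v E)‖ := by ring

end BiP

end M21.E3
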