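import Pool.Agent.H.MP_21b43d_ag.E3.V.FinB
import Pool.Agent.H.MP_21b43d_ag.E3.Q.FinG
import Pool.Agent.H.MP_21b43d_ag.Z.Main

/-!
# M21, full support: surfaces with a grid
-/

set_option autoImplicit false

open CategoryTheory CategoryTheory.Limits AlgebraicGeometry TopologicalSpace

noncomputable section

namespace M21.E3

open M21X

/-- **Existence of stability conditions with full support.** -/
theorem Grid.exists_full {N : ℕ} {K : Type} [Field K] [Algebra ℂ K] {v : Fin (N + 1) → K}
    {hv : v 0 ≠ 0} (g : Grid v hv) (h : AlgebraicIndependent ℂ ![g.B, g.Z]) {ι : Type} [Fintype ι]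
    (S : SplitK g ι) (hX : IsSmoothProjectiveSurface (XX.str v hv)) :
    ∃ σ : StabilityCondition (XX.str v hv), σ.FullSupport := by
  obtain ⟨T, -⟩ := g.exists_splitPull h S
  obtain ⟨-, hp, hl⟩ := Z.local_conditions (XX.str v hv) hX
  have hsep : (XX v hv).IsSeparated := by
    have : IsSeparated (XX.str v hv) := inferInstance
    have h2 : IsSeparated (XX.str v hv ≫ Limits.terminal.from _) := inferInstance
    rw [Limits.terminal.comp_from] at h2
    exact ⟨h2⟩
  exact exists_full_cover (g.pi h) (g.pi_CX h).symm (g.plane h).biP (g.pi_aff h)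
    (g.pi_finite h S) (gp (XX.pt v hv)) (g.pi_pt_mem h) (Pl.split h).split T
    ⟨Pl.split_e h, rfl, rfl⟩ (fun x hx => (hl x hx).2)

end M21.E3
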