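import Pool.Agent.H.MP_21b43d_ag.CA2

/-!
# M21, full support, V-G: second syzygies are locally free (commutative algebra)
-/

set_option autoImplicit false

namespace M21

open TensorProduct in
/-- Let `R` be a localization of the noetherian ring `A` at a prime ideal `I` which satisfies `IsPar2`. The kernel of a homomorphism `f` between finite free modules is free near `I`: the localization of `ker f` at `I` is the kernel of the localization of `f`
(flatness; `LinearMap.ker` of `IsLocalizedModule.map`), a kernel of a map between finite free `R`-modules, so free (`IsPar2.free_ker`, `h.reg₁`); `Module.FinitePresentation.exists_free_localizedModule_powers`. -/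
theorem exists_free_away {A : Type} [CommRing A] [IsNoetherianRing A] (I : Ideal A) [I.IsPrime]
    {R : Type} [CommRing R] [IsLocalRing R] [Algebra A R] [IsLocalization.AtPrime R I] {a b : R} (h : IsPar2 R a b)
    {M N : Type} [AddCommGroup M] [Module A M] [Module.Free A M] [Module.Finite A M]
    [AddCommGroup N] [Module A N] [Module.Free A N] [Module.Finite A N] (f : M →ₗ[A] N) :
    ∃ s : A, s ∉ I ∧ Module.Free (Localization (Submonoid.powers s))
      (LocalizedModule (Submonoid.powers s) (LinearMap.ker f)) := by
  have hR : IsNoetherianRing R := IsLocalization.isNoetherianRing I.primeCompl R inferInstance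
  have hM : IsLocalizedModule I.primeCompl (TensorProduct.mk A R M 1) :=
    (isLocalizedModule_iff_isBaseChange I.primeCompl R _).2 (TensorProduct.isBaseChange A M R)
  have hN : IsLocalizedModule I.primeCompl (TensorProduct.mk A R N 1) :=
    (isLocalizedModule_iff_isBaseChange I.primeCompl R _).2 (TensorProduct.isBaseChange A N R)
  have hreg : ∀ x : R ⊗[A] N, a • x = 0 → x = 0 := by
    intro x hx
    let e := Module.Free.chooseBasis R (R ⊗[A] N)
    apply e.repr.injective
    ext i
    have h1 : a * e.repr x i = 0 := by
      have := congrArg (fun z => e.repr z i) hx
      simpa using this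
    simpa using h.reg₁ _ h1
  have hfree : Module.Free R ((LinearMap.ker f).localized' R I.primeCompl
      (TensorProduct.mk A R M 1)) := by
    rw [LinearMap.localized'_ker_eq_ker_localizedMap R I.primeCompl (TensorProduct.mk A R M 1)
      (TensorProduct.mk A R N 1) f]
    exact h.free_ker hreg _
  have hfp : Module.FinitePresentation A (LinearMap.ker f) :=
    Module.finitePresentation_of_finite A _
  obtain ⟨s, hs, hs', -⟩ := Module.FinitePresentation.exists_free_localizedModule_powers
    (M := LinearMap.ker f)
    (M' := (LinearMap.ker f).localized' R I.primeCompl (TensorProduct.mk A R M 1))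
    I.primeCompl ((LinearMap.ker f).toLocalized' R I.primeCompl (TensorProduct.mk A R M 1)) R
  exact ⟨s, hs, hs'⟩

end M21
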