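import Pool.Agent.H.MP_21b43d_ag.E3.V.GaA
import Pool.Agent.H.MP_21b43d_ag.E3.G.FinB

/-!
# M21, full support, V-G: second syzygies are locally free
-/

set_option autoImplicit false

open CategoryTheory CategoryTheory.Limits CategoryTheory.Pretriangulated AlgebraicGeometry
  TopologicalSpace

noncomputable section

namespace M21.E3

variable {X : Scheme.{0}}

/-- `e_1, …, e_r` is a basis of `N` over `V` -/
def BasisN (N : X.Modules) {V : X.Opens} {r : ℕ} (e : Fin r → Γ(N, V)) : Prop :=
  ∀ (W : X.Opens) (hW : W ≤ V), Function.Bijective fun a : Fin r → Γ(X, W) =>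
    ∑ j, a j • res N hW (e j)

theorem gaB_res_sum {N : X.Modules} {U V : X.Opens} (h : V ≤ U) {r : ℕ} (f : Fin r → Γ(N, U)) :
    res N h (∑ j, f j) = ∑ j, res N h (f j) :=
  map_sum (AddMonoidHom.mk' (res N h) (res_add h)) f Finset.univ

/-- a module with a free localization has a basis up to powers of `f` -/
theorem gaB_alg {A : Type} [CommRing A] [IsNoetherianRing A] (f : A) {L : Type} [AddCommGroup L]
    [Module A L] [Module.Finite A L] (h : Module.Free (Localization (Submonoid.powers f))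
      (LocalizedModule (Submonoid.powers f) L)) :
    ∃ (r : ℕ) (l : Fin r → L),
      (∀ y : L, ∃ (n : ℕ) (c : Fin r → A), f ^ n • y = ∑ j, c j • l j) ∧
      ∀ c : Fin r → A, ∑ j, c j • l j = 0 → ∃ n : ℕ, ∀ j, f ^ n * c j = 0 := by
  have hfp : Module.FinitePresentation A L := Module.finitePresentation_of_finite A L
  have hfin : Module.Finite (Localization (Submonoid.powers f))
      (LocalizedModule (Submonoid.powers f) L) := inferInstance
  let b0 := Module.Free.chooseBasis (Localization (Submonoid.powers f))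
    (LocalizedModule (Submonoid.powers f) L)
  let b := b0.reindex (Fintype.equivFin _)
  let g := LocalizedModule.mkLinearMap (Submonoid.powers f) L
  have hs : ∀ j, ∃ x : L × Submonoid.powers f, x.2 • b j = g x.1 := fun j =>
    IsLocalizedModule.surj (Submonoid.powers f) g (b j)
  choose x hx using hs
  refine ⟨_, fun j => (x j).1, fun y => ?_, fun c hc => ?_⟩
  · have hu : ∀ j, ∃ v : Localization (Submonoid.powers f), v * algebraMap A _ ((x j).2 : A) = 1 := by
      intro j
      obtain ⟨u, hu⟩ := IsLocalization.map_units (Localization (Submonoid.powers f)) (x j).2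
      exact ⟨((u⁻¹ : (Localization (Submonoid.powers f))ˣ) : Localization (Submonoid.powers f)), by
        rw [← hu, Units.inv_mul]⟩
    choose v hv using hu
    obtain ⟨d, hd⟩ := IsLocalization.exist_integer_multiples_of_finite (Submonoid.powers f)
      (fun j => b.repr (g y) j * v j)
    choose c hc using hd
    have h1 : g ((d : A) • y) = g (∑ j, c j • (x j).1) := by
      rw [map_smul, map_sum]
      conv_lhs => rw [← b.sum_repr (g y)]
      rw [Finset.smul_sum]
      refine Finset.sum_congr rfl fun j _ => ?_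
      rw [map_smul, ← hx j, ← algebraMap_smul (Localization (Submonoid.powers f)) (c j), hc,
        Submonoid.smul_def, ← algebraMap_smul (Localization (Submonoid.powers f)) ((x j).2 : A),
        smul_smul, smul_mul_assoc, mul_assoc, hv, mul_one, smul_assoc]
    obtain ⟨e, he⟩ := IsLocalizedModule.exists_of_eq (S := Submonoid.powers f) h1
    obtain ⟨n, hn⟩ := (e * d).2
    refine ⟨n, fun j => (e : A) * c j, ?_⟩
    have hn' : f ^ n = (e : A) * (d : A) := hn
    rw [hn', mul_smul]
    rw [Submonoid.smul_def, Submonoid.smul_def, Finset.smul_sum] at he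
    rw [he]
    exact Finset.sum_congr rfl fun j _ => smul_smul _ _ _
  · have h1 : ∑ j, (algebraMap A (Localization (Submonoid.powers f)) (c j) *
        algebraMap A (Localization (Submonoid.powers f)) ((x j).2 : A)) • b j = 0 := by
      have h2 : g (∑ j, c j • (x j).1) = 0 := by rw [hc, map_zero]
      rw [map_sum] at h2
      rw [← h2]
      refine Finset.sum_congr rfl fun j _ => ?_
      rw [map_smul, ← hx j, mul_smul, algebraMap_smul, algebraMap_smul]
      rfl
    have h3 := Fintype.linearIndependent_iff.1 b.linearIndependent _ h1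
    have h4 : ∀ j, ∃ n : ℕ, f ^ n * c j = 0 := by
      intro j
      have h5 := h3 j
      have h6 : algebraMap A (Localization (Submonoid.powers f)) (c j) = 0 :=
        ((IsLocalization.map_units (Localization (Submonoid.powers f)) (x j).2).mul_left_eq_zero).1
          h5
      obtain ⟨⟨_, n, rfl⟩, hm⟩ :=
        (IsLocalization.map_eq_zero_iff (Submonoid.powers f) _ (c j)).1 h6
      exact ⟨n, hm⟩
    choose n hn using h4
    refine ⟨∑ j, n j, fun j => ?_⟩
    have h2 : n j ≤ ∑ j, n j := Finset.single_le_sum (fun _ _ => Nat.zero_le _) (Finset.mem_univ j)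
    rw [← Nat.sub_add_cancel h2, pow_add, mul_assoc, hn, mul_zero]

/-- common denominators -/
theorem gaB_denom {V : X.Opens} (hV : IsAffineOpen V) (f : Γ(X, V)) {r : ℕ}
    (a : Fin r → Γ(X, X.basicOpen f)) : ∃ (n : ℕ) (c : Fin r → Γ(X, V)), ∀ j,
      resF (X.basicOpen_le f) (c j) = resF (X.basicOpen_le f) f ^ n * a j := by
  have hloc := hV.isLocalization_basicOpen f
  have h1 : ∀ j, ∃ (n : ℕ) (c : Γ(X, V)),
      resF (X.basicOpen_le f) c = resF (X.basicOpen_le f) f ^ n * a j := by
    intro j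
    obtain ⟨⟨c, ⟨_, n, rfl⟩⟩, hc⟩ := IsLocalization.surj (Submonoid.powers f) (a j)
    refine ⟨n, c, ?_⟩
    rw [← resF_pow, mul_comm]
    exact hc.symm
  choose n c hc using h1
  refine ⟨∑ j, n j, fun j => f ^ (∑ j, n j - n j) * c j, fun j => ?_⟩
  have h2 : n j ≤ ∑ j, n j := Finset.single_le_sum (fun _ _ => Nat.zero_le _) (Finset.mem_univ j)
  rw [resF, map_mul, map_pow]
  change resF (X.basicOpen_le f) f ^ _ * resF (X.basicOpen_le f) (c j) = _
  rw [hc, ← mul_assoc, ← pow_add, Nat.sub_add_cancel h2]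

theorem gaB_basic' {N : X.Modules} (hN : QC N) {V : X.Opens} (hV : IsAffineOpen V) {r : ℕ}
    (f : Γ(X, V)) (e : Fin r → Γ(N, V))
    (hs : ∀ y : Γ(N, V), ∃ (n : ℕ) (c : Fin r → Γ(X, V)), f ^ n • y = ∑ j, c j • e j)
    (hi : ∀ c : Fin r → Γ(X, V), ∑ j, c j • e j = 0 → ∃ n : ℕ, ∀ j, f ^ n * c j = 0) :
    Function.Bijective fun a : Fin r → Γ(X, X.basicOpen f) =>
      ∑ j, a j • res N (X.basicOpen_le f) (e j) := by
  have hu : IsUnit (resF (X.basicOpen_le f) f) := X.toRingedSpace.isUnit_res_basicOpen f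
  have key : ∀ c : Fin r → Γ(X, V), res N (X.basicOpen_le f) (∑ j, c j • e j) =
      ∑ j, resF (X.basicOpen_le f) (c j) • res N (X.basicOpen_le f) (e j) := by
    intro c
    rw [gaB_res_sum]
    exact Finset.sum_congr rfl fun j _ => res_smul' _ _ _
  constructor
  · have h0 : ∀ a : Fin r → Γ(X, X.basicOpen f),
        ∑ j, a j • res N (X.basicOpen_le f) (e j) = 0 → a = 0 := by
      intro a ha
      obtain ⟨n, c, hc⟩ := gaB_denom hV f a
      have h1 : res N (X.basicOpen_le f) (∑ j, c j • e j) = 0 := by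
        rw [key]
        have h2 : ∑ j, resF (X.basicOpen_le f) (c j) • res N (X.basicOpen_le f) (e j) =
            resF (X.basicOpen_le f) f ^ n • ∑ j, a j • res N (X.basicOpen_le f) (e j) := by
          rw [Finset.smul_sum]
          refine Finset.sum_congr rfl fun j _ => ?_
          rw [hc, smul_smul]
        rw [h2, ha, smul_zero]
      obtain ⟨m, hm⟩ := hN.tors V hV f _ h1
      rw [Finset.smul_sum, Finset.sum_congr rfl fun j _ => smul_smul (f ^ m) (c j) (e j)] at hm
      obtain ⟨k, hk⟩ := hi _ hm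
      funext j
      have h4 : f ^ k * (f ^ m * c j) = 0 := hk j
      have h5 := congrArg (resF (X.basicOpen_le f)) h4
      rw [resF_zero, resF, map_mul, map_mul, map_pow, map_pow] at h5
      change resF (X.basicOpen_le f) f ^ k *
        (resF (X.basicOpen_le f) f ^ m * resF (X.basicOpen_le f) (c j)) = 0 at h5
      rw [hc, ← mul_assoc, ← mul_assoc, ← pow_add, ← pow_add] at h5
      exact ((hu.pow (k + m + n)).mul_right_eq_zero).1 h5
    intro a b hab
    have h1 : ∑ j, (a - b) j • res N (X.basicOpen_le f) (e j) = 0 := by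
      have h2 : ∑ j, (a - b) j • res N (X.basicOpen_le f) (e j) =
          ∑ j, a j • res N (X.basicOpen_le f) (e j) -
            ∑ j, b j • res N (X.basicOpen_le f) (e j) := by
        rw [← Finset.sum_sub_distrib]
        exact Finset.sum_congr rfl fun j _ => sub_smul _ _ _
      rw [h2]
      exact sub_eq_zero.2 hab
    exact sub_eq_zero.1 (h0 _ h1)
  · intro t
    obtain ⟨n, t', ht'⟩ := hN.ext V hV f t
    obtain ⟨k, c, hc⟩ := hs t'
    obtain ⟨u, hu'⟩ := hu.pow (k + n)
    refine ⟨fun j => ((u⁻¹ : (Γ(X, X.basicOpen f))ˣ) : Γ(X, X.basicOpen f)) *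
      resF (X.basicOpen_le f) (c j), ?_⟩
    change ∑ j, (((u⁻¹ : (Γ(X, X.basicOpen f))ˣ) : Γ(X, X.basicOpen f)) *
      resF (X.basicOpen_le f) (c j)) • res N (X.basicOpen_le f) (e j) = t
    have h1 : ∑ j, (((u⁻¹ : (Γ(X, X.basicOpen f))ˣ) : Γ(X, X.basicOpen f)) *
      resF (X.basicOpen_le f) (c j)) • res N (X.basicOpen_le f) (e j) =
        ((u⁻¹ : (Γ(X, X.basicOpen f))ˣ) : Γ(X, X.basicOpen f)) •
          ∑ j, resF (X.basicOpen_le f) (c j) • res N (X.basicOpen_le f) (e j) := by
      rw [Finset.smul_sum]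
      exact Finset.sum_congr rfl fun j _ => (smul_smul _ _ _).symm
    rw [h1, ← key, ← hc, res_smul', resF_pow, ht', smul_smul (resF (X.basicOpen_le f) f ^ k),
      ← pow_add, ← hu', smul_smul, Units.inv_mul, one_smul]

theorem gaB_basic {N : X.Modules} (hN : QC N) {V : X.Opens} (hV : IsAffineOpen V) {r : ℕ}
    (e : Fin r → Γ(N, V)) (h : Function.Bijective fun a : Fin r → Γ(X, V) => ∑ j, a j • e j)
    (f : Γ(X, V)) : Function.Bijective fun a : Fin r → Γ(X, X.basicOpen f) =>
      ∑ j, a j • res N (X.basicOpen_le f) (e j) := by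
  refine gaB_basic' hN hV f e (fun y => ?_) (fun c hc => ⟨0, fun j => ?_⟩)
  · obtain ⟨c, hc⟩ := h.2 y
    exact ⟨0, c, by rw [pow_zero, one_smul]; exact hc.symm⟩
  · have h3 : c = 0 := by
      apply h.1
      change ∑ j, c j • e j = ∑ j, (0 : Γ(X, V)) • e j
      rw [Finset.sum_congr rfl fun j _ => zero_smul Γ(X, V) (e j), Finset.sum_const_zero, hc]
    rw [h3, Pi.zero_apply, mul_zero]

theorem gaB_res_basic {N : X.Modules} {V W W' : X.Opens} (hW : W ≤ V) (hW' : W' ≤ W) {r : ℕ}
    (e : Fin r → Γ(N, V)) (a : Fin r → Γ(X, W)) :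
    res N hW' (∑ j, a j • res N hW (e j)) = ∑ j, resF hW' (a j) • res N (hW'.trans hW) (e j) := by
  rw [gaB_res_sum]
  refine Finset.sum_congr rfl fun j _ => ?_
  rw [res_smul', res_res]

/-- A basis over the affine open `V` is a basis over all smaller opens (`N` quasi-coherent): for basic opens of `V` since the sections are localizations (`QC`), for general opens by the sheaf property (glue the coefficients on a covering by basic opens; they are unique). -/
theorem basisN_of_affine {N : X.Modules} (hN : QC N) {V : X.Opens} (hV : IsAffineOpen V) {r : ℕ}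
    (e : Fin r → Γ(N, V)) (h : Function.Bijective fun a : Fin r → Γ(X, V) => ∑ j, a j • e j) :
    BasisN N e := by
  have hb : ∀ (W : X.Opens) (hW : W ≤ V) (f : Γ(X, V)), W = X.basicOpen f →
      Function.Bijective fun a : Fin r → Γ(X, W) => ∑ j, a j • res N hW (e j) := by
    intro W hW f hf
    subst hf
    exact gaB_basic hN hV e h f
  have hinj : ∀ (W : X.Opens) (hW : W ≤ V), Function.Injective fun a : Fin r → Γ(X, W) =>
      ∑ j, a j • res N hW (e j) := by
    intro W hW a b hab
    funext j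
    refine sec_ext (unitMod X) (U := W) (s := a j) (t := b j) fun x hx => ?_
    obtain ⟨f, hf, hxf⟩ := hV.exists_basicOpen_le ⟨x, hx⟩ (hW hx)
    refine ⟨X.basicOpen f, hf, hxf, ?_⟩
    have h1 : (fun j => resF hf (a j)) = fun j => resF hf (b j) := by
      apply (hb (X.basicOpen f) (hf.trans hW) f rfl).1
      change ∑ j, resF hf (a j) • res N (hf.trans hW) (e j) =
        ∑ j, resF hf (b j) • res N (hf.trans hW) (e j)
      rw [← gaB_res_basic hW hf e a, ← gaB_res_basic hW hf e b]
      exact congrArg (res N hf) hab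
    exact congrFun h1 j
  intro W hW
  refine ⟨hinj W hW, fun t => ?_⟩
  choose f hf hxf using fun (x : X) (hx : x ∈ W) => hV.exists_basicOpen_le ⟨x, hx⟩ (hW hx)
  have h1 : ∀ (x : X) (hx : x ∈ W), ∃ a : Fin r → Γ(X, X.basicOpen (f x hx)),
      ∑ j, a j • res N ((hf x hx).trans hW) (e j) = res N (hf x hx) t := fun x hx =>
    (hb (X.basicOpen (f x hx)) ((hf x hx).trans hW) _ rfl).2 _
  choose a ha using h1
  have h2 : ∀ j, ∃ c : Γ(X, W), ∀ (x : X) (hx : x ∈ W), resF (hf x hx) c = a x hx j := by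
    intro j
    refine exists_glue_pt (unitMod X) (U := W) (fun x hx => X.basicOpen (f x hx)) hf hxf
      (fun x hx => a x hx j) ?_
    intro x hx y hy
    have h3 : (fun j => resF (inf_le_left : X.basicOpen (f x hx) ⊓ X.basicOpen (f y hy) ≤
        X.basicOpen (f x hx)) (a x hx j)) = fun j => resF (inf_le_right : X.basicOpen (f x hx) ⊓
        X.basicOpen (f y hy) ≤ X.basicOpen (f y hy)) (a y hy j) := by
      apply hinj _ (inf_le_left.trans ((hf x hx).trans hW))
      change ∑ j, resF inf_le_left (a x hx j) • res N (inf_le_left.trans ((hf x hx).trans hW)) (e j)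
        = ∑ j, resF inf_le_right (a y hy j) • res N (inf_le_right.trans ((hf y hy).trans hW)) (e j)
      rw [← gaB_res_basic ((hf x hx).trans hW) inf_le_left e (a x hx),
        ← gaB_res_basic ((hf y hy).trans hW) inf_le_right e (a y hy), ha, ha, res_res, res_res]
    exact congrFun h3 j
  choose c hc using h2
  refine ⟨c, ?_⟩
  change ∑ j, c j • res N hW (e j) = t
  refine sec_ext N fun x hx => ⟨X.basicOpen (f x hx), hf x hx, hxf x hx, ?_⟩
  rw [gaB_res_basic hW (hf x hx) e c, ← ha x hx]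
  exact Finset.sum_congr rfl fun j _ => by rw [hc]

theorem gaB_sum_app {M N : X.Modules} {U : X.Opens} {m : ℕ} (φ : Fin m → (M ⟶ N)) (y : Γ(M, U)) :
    (∑ j, φ j).app U y = ∑ j, (φ j).app U y := by
  let h : (M ⟶ N) →+ Γ(N, U) := AddMonoidHom.mk' (fun ψ => ψ.app U y) fun a b => by
    rw [Scheme.Modules.Hom.add_app]
    rfl
  exact map_sum h φ Finset.univ

/-- sections of a biproduct -/
theorem gaB_pi {m : ℕ} (f : Fin m → X.Modules) (U : X.Opens) :
    Function.Bijective (LinearMap.pi fun j => appL (biproduct.π f j) U :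
      Γ(⨁ f, U) →ₗ[Γ(X, U)] ∀ j, Γ(f j, U)) := by
  constructor
  · rw [injective_iff_map_eq_zero]
    intro y hy
    have h1 : ∀ j, (biproduct.π f j).app U y = 0 := fun j => congrFun hy j
    have h2 : y = (∑ j, biproduct.π f j ≫ biproduct.ι f j).app U y := by
      rw [biproduct.total]
      rfl
    rw [h2, gaB_sum_app]
    refine Finset.sum_eq_zero fun j _ => ?_
    rw [comp_app_apply, h1, app_zero]
  · intro τ
    refine ⟨∑ j, (biproduct.ι f j).app U (τ j), ?_⟩
    funext k
    change (biproduct.π f k).app U (∑ j, (biproduct.ι f j).app U (τ j)) = τ k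
    have h1 : (biproduct.π f k).app U (∑ j, (biproduct.ι f j).app U (τ j)) =
        ∑ j, (biproduct.π f k).app U ((biproduct.ι f j).app U (τ j)) :=
      map_sum (appL (biproduct.π f k) U) _ _
    rw [h1, Finset.sum_eq_single k]
    · rw [← comp_app_apply, biproduct.ι_π_self]
      rfl
    · intro j _ hjk
      rw [← comp_app_apply, biproduct.ι_π_ne _ hjk]
      rfl
    · intro hk
      exact absurd (Finset.mem_univ k) hk

variable [IsIntegral X] [CX X] [IsLocallyNoetherian X] (G : BiP X)

omit [CX X] [IsLocallyNoetherian X] in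
theorem gaB_one (k l : ℤ) (s t : Bool) : Nonempty (Γ(G.OO (-k) (-l), G.U s t) ≃ₗ[Γ(X, G.U s t)]
    Γ(X, G.U s t)) := by
  have h := G.basis_gen k l s t (G.U s t) le_rfl
  exact ⟨(LinearEquiv.ofBijective (LinearMap.toSpanSingleton Γ(X, G.U s t) _
    (res (G.OO (-k) (-l)) le_rfl (G.gen k l s t))) h).symm⟩

omit [CX X] [IsLocallyNoetherian X] in
theorem gaB_free (k l : ℤ) (m : ℕ) (s t : Bool) :
    Module.Free Γ(X, G.U s t) Γ(⨁ fun _ : Fin m => G.OO (-k) (-l), G.U s t) ∧
    Module.Finite Γ(X, G.U s t) Γ(⨁ fun _ : Fin m => G.OO (-k) (-l), G.U s t) := by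
  obtain ⟨e⟩ := gaB_one G k l s t
  have h1 : Γ(⨁ fun _ : Fin m => G.OO (-k) (-l), G.U s t) ≃ₗ[Γ(X, G.U s t)]
      (Fin m → Γ(X, G.U s t)) :=
    (LinearEquiv.ofBijective _ (gaB_pi (fun _ : Fin m => G.OO (-k) (-l)) (G.U s t))).trans
      (LinearEquiv.piCongrRight fun _ => e)
  exact ⟨Module.Free.of_equiv h1.symm, Module.Finite.equiv h1.symm⟩

/-- Second syzygies are locally free near the points with `IsPar2`. Let `x ∈ U = G.U s t` (affine), `A = Γ(X, U)` (noetherian), `I` the prime ideal of `x`; the stalk is the localization (`IsAffineOpen.isLocalization_stalk`). `P₁(U)`, `P₀(U)` are free (`basis_gen`, sums), `K(U) = ker (P₁(U) → P₀(U))` for `K = kernel φ`.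
`exists_free_away`: `K(U)_s` is free over `A_s`; `Γ(K, D(s)) = K(U)_s`, `Γ(X, D(s)) = A_s` (`QC` of coherent modules, `isCoh` of the kernel), finite, so there is a basis `e` over `V = D(s) ∋ x`; `basisN_of_affine`. -/
theorem exists_basisN (x : X) {a b : X.presheaf.stalk x} (hx : IsPar2 (X.presheaf.stalk x) a b)
    {k l : ℤ} {m n : ℕ} (φ : (⨁ fun _ : Fin m => G.OO (-k) (-k)) ⟶ ⨁ fun _ : Fin n => G.OO (-l) (-l)) :
    ∃ (V : X.Opens) (r : ℕ) (e : Fin r → Γ(kernel φ, V)), x ∈ V ∧ BasisN (kernel φ) e := by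
  obtain ⟨s, t, hxU⟩ := G.exists_mem_U x
  have hU : IsAffineOpen (G.U s t) := G.aff s t
  have hA : IsNoetherianRing Γ(X, G.U s t) := IsLocallyNoetherian.component_noetherian ⟨G.U s t, hU⟩
  obtain ⟨hM1, hM2⟩ := gaB_free G k k m s t
  obtain ⟨hN1, hN2⟩ := gaB_free G l l n s t
  letI : Algebra Γ(X, G.U s t) (X.presheaf.stalk x) := X.presheaf.algebra_section_stalk ⟨x, hxU⟩
  have hloc : IsLocalization.AtPrime (X.presheaf.stalk x) (hU.primeIdealOf ⟨x, hxU⟩).asIdeal :=
    hU.isLocalization_stalk ⟨x, hxU⟩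
  obtain ⟨f, hf, hfree⟩ := exists_free_away (hU.primeIdealOf ⟨x, hxU⟩).asIdeal hx
    (appL φ (G.U s t))
  have hxf : x ∈ X.basicOpen f := by
    rw [X.mem_basicOpen f x hxU]
    exact (IsLocalization.AtPrime.isUnit_to_map_iff (X.presheaf.stalk x)
      (hU.primeIdealOf ⟨x, hxU⟩).asIdeal f).2 hf
  have hsum1 : IsCoh (⨁ (fun _ : Fin m => G.OO (-k) (-k))) :=
    (wserre_isCoh X).pow (isCoh_OO G (-k) (-k)) m
  have hsum2 : IsCoh (⨁ (fun _ : Fin n => G.OO (-l) (-l))) :=
    (wserre_isCoh X).pow (isCoh_OO G (-l) (-l)) n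
  have hK : QC (kernel φ) := ((weakSerre_isCoh X).kernel φ hsum1 hsum2).qc
  obtain ⟨r, y, hy1, hy2⟩ := gaB_alg f hfree
  have h1 : ∀ j, ∃ z : Γ(kernel φ, G.U s t), (kernel.ι φ).app _ z = (y j : Γ(⨁ fun _ : Fin m => G.OO (-k) (-k), G.U s t)) :=
    fun j => exists_kernel_ι φ _ (y j).2
  choose z hz using h1
  have hsumz : ∀ c : Fin r → Γ(X, G.U s t), (kernel.ι φ).app _ (∑ j, c j • z j) =
      ((∑ j, c j • y j : LinearMap.ker (appL φ (G.U s t))) :
        Γ(⨁ fun _ : Fin m => G.OO (-k) (-k), G.U s t)) := by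
    intro c
    have h2 : (kernel.ι φ).app _ (∑ j, c j • z j) = ∑ j, c j • (kernel.ι φ).app _ (z j) := by
      have h3 := map_sum (appL (kernel.ι φ) (G.U s t)) (fun j => c j • z j) Finset.univ
      refine h3.trans (Finset.sum_congr rfl fun j _ => ?_)
      exact map_smul (appL (kernel.ι φ) (G.U s t)) (c j) (z j)
    rw [h2, Submodule.coe_sum]
    refine Finset.sum_congr rfl fun j _ => ?_
    rw [hz]
    rfl
  have hinj := injective_of_mono (kernel.ι φ) (G.U s t)
  refine ⟨X.basicOpen f, r, fun j => res (kernel φ) (X.basicOpen_le f) (z j), hxf, ?_⟩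
  refine basisN_of_affine hK (hU.basicOpen f) _ (gaB_basic' hK hU f z ?_ ?_)
  · intro w
    obtain ⟨N, c, hc⟩ := hy1 ⟨(kernel.ι φ).app _ w, kernel_ι_app φ w⟩
    refine ⟨N, c, hinj ?_⟩
    rw [hsumz, ← hc]
    exact map_smul (appL (kernel.ι φ) (G.U s t)) _ w
  · intro c hc
    refine hy2 c (Subtype.ext ?_)
    rw [← hsumz, hc, app_zero]
    rfl

end M21.E3
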