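import Pool.Agent.H.MP_21b43d_ag.E3.V.GaB
import Pool.Agent.H.MP_21b43d_ag.E3.G.Cov

/-!
# M21, full support, V-G: vanishing for locally free modules on small affine opens; unions
-/

set_option autoImplicit false

open CategoryTheory CategoryTheory.Limits CategoryTheory.Pretriangulated AlgebraicGeometry
  TopologicalSpace

noncomputable section

namespace M21.E3

variable {X : Scheme.{0}}

private theorem gaC_sum_app {M N : X.Modules} {ι : Type} (S : Finset ι) (φ : ι → (M ⟶ N))
    (W : X.Opens) (t : Γ(M, W)) : (∑ j ∈ S, φ j).app W t = ∑ j ∈ S, (φ j).app W t := by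
  classical
  induction S using Finset.induction_on with
  | empty =>
    rw [Finset.sum_empty, Finset.sum_empty]
    rfl
  | insert a S ha ih =>
    rw [Finset.sum_insert ha, Finset.sum_insert ha, ← ih]
    rfl

private theorem gaC_desc_app {K : X.Modules} {r : ℕ} (f : Fin r → X.Modules) (φ : ∀ j, f j ⟶ K)
    (W : X.Opens) (s : Γ(⨁ f, W)) :
    (biproduct.desc φ).app W s = ∑ j, (φ j).app W ((biproduct.π f j).app W s) := by
  rw [biproduct.desc_eq, gaC_sum_app]
  rfl

private theorem gaC_total {r : ℕ} (f : Fin r → X.Modules) (W : X.Opens) (s : Γ(⨁ f, W)) :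
    s = ∑ j, (biproduct.ι f j).app W ((biproduct.π f j).app W s) := by
  have h1 : (𝟙 (⨁ f) : (⨁ f) ⟶ ⨁ f).app W s = s := rfl
  rw [← biproduct.total, gaC_sum_app] at h1
  exact h1.symm

private theorem gaC_exists_sec {r : ℕ} (f : Fin r → X.Modules) (W : X.Opens)
    (a : ∀ j, Γ(f j, W)) : ∃ s : Γ(⨁ f, W), ∀ j, (biproduct.π f j).app W s = a j := by
  classical
  refine ⟨∑ j, (biproduct.ι f j).app W (a j), fun k => ?_⟩
  have h1 : (biproduct.π f k).app W (∑ j, (biproduct.ι f j).app W (a j)) =
      ∑ j, (biproduct.π f k).app W ((biproduct.ι f j).app W (a j)) := map_sum _ _ _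
  rw [h1, Finset.sum_eq_single k]
  · rw [← comp_app_apply, biproduct.ι_π_self]
    rfl
  · intro j _ hj
    rw [← comp_app_apply, biproduct.ι_π_ne _ hj]
    rfl
  · intro h
    exact absurd (Finset.mem_univ k) h

private theorem gaC_ezVal_sum {N : X.Modules} {U W : X.Opens} {ι : Type} (S : Finset ι)
    (t : ι → Γ((Ez U).obj N, W)) : ezVal (∑ j ∈ S, t j) = ∑ j ∈ S, ezVal (t j) := by
  classical
  induction S using Finset.induction_on with
  | empty => rfl
  | insert a S ha ih => rw [Finset.sum_insert ha, Finset.sum_insert ha, ezVal_add, ih]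

private theorem gaC_res_sum {N : X.Modules} {W W' : X.Opens} (h : W' ≤ W) {ι : Type}
    (S : Finset ι) (t : ι → Γ(N, W)) : res N h (∑ j ∈ S, t j) = ∑ j ∈ S, res N h (t j) := by
  classical
  induction S using Finset.induction_on with
  | empty => exact res_zero h
  | insert a S ha ih => rw [Finset.sum_insert ha, Finset.sum_insert ha, res_add, ih]

private theorem gaC_ext0_sum {M : X.Modules} {V U : X.Opens} {ι : Type} (S : Finset ι)
    (s : ι → Γ(M, U ⊓ V)) (t : ι → Γ(M, U)) (h : ∀ j ∈ S, IsExt0 V M (s j) (t j)) :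
    IsExt0 V M (∑ j ∈ S, s j) (∑ j ∈ S, t j) := by
  classical
  induction S using Finset.induction_on with
  | empty =>
    rw [Finset.sum_empty, Finset.sum_empty]
    exact ⟨res_zero _, (ezSub V M).zero' U⟩
  | insert a S ha ih =>
    rw [Finset.sum_insert ha, Finset.sum_insert ha]
    have h1 := h a (Finset.mem_insert_self a S)
    have h2 := ih fun j hj => h j (Finset.mem_insert_of_mem hj)
    exact ⟨by rw [res_add, h1.res_eq, h2.res_eq], (ezSub V M).add' h1.van h2.van⟩

/-- the morphism given by a basis is an isomorphism -/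
private theorem gaC_isIso {N : X.Modules} {V : X.Opens} {r : ℕ} {e : Fin r → Γ(N, V)}
    (he : BasisN N e) {U : X.Opens} (hUV : U ≤ V) :
    IsIso (biproduct.desc fun j : Fin r => ezTriv (res N hUV (e j))) := by
  set f : Fin r → X.Modules := fun _ => (Ez U).obj (unitMod X) with hf
  refine isIso_of_bijective _ fun W => ⟨?_, ?_⟩
  · rw [injective_iff_map_eq_zero]
    intro s hs
    rw [gaC_desc_app] at hs
    have h0 : ∑ j, ezMul (res N hUV (e j)) ((biproduct.π f j).app W s) = 0 := by
      have h1 := congrArg ezVal hs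
      rw [gaC_ezVal_sum, ezVal_zero] at h1
      exact h1
    have h1 : ∑ j, ezFn (inf_le_left : W ⊓ U ≤ W) ((biproduct.π f j).app W s) •
        res N ((inf_le_right : W ⊓ U ≤ U).trans hUV) (e j) = 0 := by
      have h2 := congrArg (res N (inf_le_left : W ⊓ U ≤ W)) h0
      rw [gaC_res_sum, res_zero] at h2
      rw [← h2]
      refine Finset.sum_congr rfl fun j _ => ?_
      rw [(isExt_ezMul (res N hUV (e j)) ((biproduct.π f j).app W s)).res_eq, res_res]
    have h2 : (fun j => ezFn (inf_le_left : W ⊓ U ≤ W) ((biproduct.π f j).app W s)) =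
        (0 : Fin r → Γ(X, W ⊓ U)) := by
      apply (he (W ⊓ U) (inf_le_right.trans hUV)).1
      change _ = ∑ j, (0 : Γ(X, W ⊓ U)) • _
      simp only [zero_smul, Finset.sum_const_zero]
      exact h1
    have h3 : ∀ j, (biproduct.π f j).app W s = 0 := by
      intro j
      have h4 := congrFun h2 j
      refine ezVal_injective (IsExt0.unique (V := U) (M := unitMod X) (s := 0)
        ⟨h4, mem_ezVal _⟩ ⟨?_, (ezSub U _).zero' W⟩)
      exact res_zero _
    rw [gaC_total f W s]
    refine Finset.sum_eq_zero fun j _ => ?_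
    rw [h3 j, app_zero]
  · intro t
    obtain ⟨a, ha⟩ := (he (W ⊓ U) (inf_le_right.trans hUV)).2 (res N inf_le_left (ezVal t))
    have ha' : ∑ j, a j • res N ((inf_le_right : W ⊓ U ≤ U).trans hUV) (e j) =
        res N inf_le_left (ezVal t) := ha
    have h1 : ∀ j, ∃ s, IsExt0 U (unitMod X) (U := W) (a j) s := by
      intro j
      refine exists_isExt0 (unitMod X) (V := U) (U := W) (a j) ?_
      intro x hx hxU
      obtain ⟨W', hW', hxW', h⟩ := mem_ezVal t x hx hxU
      refine ⟨W', hW', hxW', ?_⟩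
      have h2 : (fun j => resF (inf_le_inf_right U hW') (a j)) =
          (0 : Fin r → Γ(X, W' ⊓ U)) := by
        apply (he (W' ⊓ U) (inf_le_right.trans hUV)).1
        change _ = ∑ j, (0 : Γ(X, W' ⊓ U)) • _
        simp only [zero_smul, Finset.sum_const_zero]
        have h3 := congrArg (res N (inf_le_inf_right U hW')) ha'
        rw [gaC_res_sum, res_res, ← res_res hW' inf_le_left, h, res_zero] at h3
        rw [← h3]
        refine Finset.sum_congr rfl fun j _ => ?_
        rw [res_smul', res_res]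
      exact congrFun h2 j
    choose s hs using h1
    obtain ⟨S, hS⟩ := gaC_exists_sec f W fun j => ezSec (s j) (hs j).van
    refine ⟨S, ezVal_injective ?_⟩
    rw [gaC_desc_app, gaC_ezVal_sum]
    have h2 : ∀ j, IsExt0 U N (a j • res N (inf_le_right : W ⊓ U ≤ U) (res N hUV (e j)))
        (ezVal ((ezTriv (res N hUV (e j))).app W ((biproduct.π f j).app W S))) := by
      intro j
      rw [ezVal_triv, hS j]
      have h3 := isExt_ezMul (res N hUV (e j)) (ezSec (s j) (hs j).van)
      have h4 : ezFn (inf_le_left : W ⊓ U ≤ W) (ezSec (s j) (hs j).van) = a j := (hs j).res_eq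
      rw [h4] at h3
      exact h3
    refine IsExt0.unique (gaC_ext0_sum Finset.univ _ _ fun j _ => h2 j) ⟨?_, mem_ezVal t⟩
    rw [← ha']
    refine Finset.sum_congr rfl fun j _ => ?_
    rw [res_res]

/-- `(Ez U).obj N ≅ ⨁ (Ez U).obj 𝒪` (the morphism given by the `ezTriv (res e_j)` is an isomorphism, as in `isIso_ezTriv`), then `affine_vanishing`. -/
theorem acyc_basisN {N M : X.Modules} (hM : QC M) {V : X.Opens} {r : ℕ} {e : Fin r → Γ(N, V)}
    (he : BasisN N e) {U : X.Opens} (hU : IsAffineOpen U) (hUV : U ≤ V) {i : ℤ} (hi : i ≠ 0)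
    (α : sgO ((Ez U).obj N) ⟶ (sgO M)⟦i⟧) : α = 0 := by
  set f : Fin r → X.Modules := fun _ => (Ez U).obj (unitMod X) with hf
  have h1 := gaC_isIso he hUV
  set φ : (⨁ f) ⟶ (Ez U).obj N := biproduct.desc fun j : Fin r => ezTriv (res N hUV (e j)) with hφ
  have h2 : IsIso (sgmO φ) := inferInstanceAs (IsIso ((DerivedCategory.singleFunctor _ 0).map φ))
  rw [← cancel_epi (sgmO φ), comp_zero]
  have h3 : sgmO φ = ∑ j, sgmO (biproduct.π f j) ≫ sgmO (biproduct.ι f j) ≫ sgmO φ := by
    have h4 : φ = ∑ j, biproduct.π f j ≫ biproduct.ι f j ≫ φ := by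
      conv_lhs => rw [← Category.id_comp φ, ← biproduct.total, Preadditive.sum_comp]
      simp only [Category.assoc]
    conv_lhs => rw [h4]
    unfold sgmO
    rw [Functor.map_sum]
    simp only [Functor.map_comp]
  rw [h3, Preadditive.sum_comp]
  refine Finset.sum_eq_zero fun j _ => ?_
  rw [Category.assoc, Category.assoc,
    affine_vanishing M hM hU hi (sgmO (biproduct.ι f j) ≫ sgmO φ ≫ α), comp_zero]

/-- Vanishing above `c` on a class of opens closed under intersections gives vanishing above `c + n` on unions of `n` opens of the class. Induction on `n`: `⨆_{j < n+1} V j = (⨆_{j<n} V j) ⊔ V n`, `(⨆_{j<n} V j) ⊓ V n = ⨆_{j<n} (V j ⊓ V n)`,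
Mayer–Vietoris (`mv_zero` with `i = i' + 1`: `Hom((Ez (V₀ ⊓ V₁)) N, M[i'])` vanishes as `c + n < i'`, and the restrictions to `V₀`, `V₁` vanish). `n = 0`: `isZero_ez_bot`. -/
theorem vanish_union {N : X.Modules} (P : X.Opens → Prop) (hinf : ∀ V W, P V → P W → P (V ⊓ W))
    (c : ℤ) (h : ∀ V, P V → ∀ F : X.Modules, QC F → ∀ i : ℤ, c < i →
      ∀ α : sgO ((Ez V).obj N) ⟶ (sgO F)⟦i⟧, α = 0) (n : ℕ) :
    ∀ V : Fin n → X.Opens, (∀ j, P (V j)) → ∀ F : X.Modules, QC F → ∀ i : ℤ, c + n < i →
      ∀ α : sgO ((Ez (⨆ j, V j)).obj N) ⟶ (sgO F)⟦i⟧, α = 0 := by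
  induction n with
  | zero =>
    intro V _ F _ i _ α
    have h1 : (⨆ j, V j) = (⊥ : X.Opens) := iSup_of_empty V
    have h2 : IsZero ((Ez (⨆ j, V j)).obj N) := by
      rw [h1]
      exact isZero_ez_bot N
    have h3 : IsZero (sgO ((Ez (⨆ j, V j)).obj N)) :=
      (DerivedCategory.singleFunctor X.Modules 0).map_isZero h2
    exact h3.eq_of_src _ _
  | succ n ih =>
    intro V hV F hF i hi
    have hsup : (⨆ j : Fin n, V j.castSucc) ⊔ V (Fin.last n) = ⨆ j, V j := by
      apply le_antisymm
      · exact sup_le (iSup_le fun j => le_iSup V j.castSucc) (le_iSup V _)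
      · refine iSup_le fun j => ?_
        refine Fin.lastCases ?_ (fun k => ?_) j
        · exact le_sup_right
        · exact (le_iSup (fun k : Fin n => V k.castSucc) k).trans le_sup_left
    rw [← hsup]
    intro α
    refine mv_zero (j := i - 1) (by ring) ?_ α ?_ ?_
    · have hinf' : (⨆ j : Fin n, V j.castSucc) ⊓ V (Fin.last n) =
          ⨆ j : Fin n, (V j.castSucc ⊓ V (Fin.last n)) := iSup_inf_eq _ _
      rw [hinf']
      exact ih (fun j => V j.castSucc ⊓ V (Fin.last n)) (fun j => hinf _ _ (hV _) (hV _)) F hF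
        (i - 1) (by push_cast at hi; lia)
    · exact ih (fun j => V j.castSucc) (fun j => hV _) F hF i (by push_cast at hi; lia) _
    · exact h (V (Fin.last n)) (hV _) F hF i (by push_cast at hi; lia) _

end M21.E3
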