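import Pool.Agent.H.MP_21b43d_ag.E3.V.GaC

/-!
# M21, full support, V-G: `Ext^i(K, F) = 0` for large `i`
-/

set_option autoImplicit false

open CategoryTheory CategoryTheory.Limits CategoryTheory.Pretriangulated AlgebraicGeometry
  TopologicalSpace

noncomputable section

namespace M21.E3

variable {X : Scheme.{0}} [IsIntegral X] [CX X] [IsLocallyNoetherian X] (G : BiP X)

omit [IsIntegral X] [CX X] [IsLocallyNoetherian X] in
theorem GaD_acyc_pow {N M : X.Modules} {V : X.Opens} (h : Acyc ((Ez V).obj N) M) (n : ℕ) :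
    Acyc ((Ez V).obj (⨁ fun _ : Fin n => N)) M := by
  intro i hi α
  have h1 : (Ez V ⋙ DerivedCategory.singleFunctor X.Modules 0).map
      (𝟙 (⨁ fun _ : Fin n => N)) ≫ α = 0 := by
    rw [← biproduct.total, Functor.map_sum, Preadditive.sum_comp]
    refine Finset.sum_eq_zero (fun j _ => ?_)
    rw [Functor.map_comp, Category.assoc]
    have h2 : (Ez V ⋙ DerivedCategory.singleFunctor X.Modules 0).map
      (biproduct.ι (fun _ : Fin n => N) j) ≫ α = 0 := h i hi _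
    rw [h2]
    exact comp_zero
  rw [CategoryTheory.Functor.map_id] at h1
  exact (Category.id_comp α).symm.trans h1

omit [IsIntegral X] [CX X] [IsLocallyNoetherian X] in
theorem GaD_shift {Z P₁ K₁ P₀ K : X.Modules} {f₁ : Z ⟶ P₁} {g₁ : P₁ ⟶ K₁} {w₁ : f₁ ≫ g₁ = 0}
    (h₁ : (ShortComplex.mk f₁ g₁ w₁).ShortExact) {f₀ : K₁ ⟶ P₀} {g₀ : P₀ ⟶ K}
    {w₀ : f₀ ≫ g₀ = 0} (h₀ : (ShortComplex.mk f₀ g₀ w₀).ShortExact) {V : X.Opens}
    {F : X.Modules} (hZ : Acyc ((Ez V).obj Z) F) (hP₁ : Acyc ((Ez V).obj P₁) F)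
    (hP₀ : Acyc ((Ez V).obj P₀) F) {i : ℤ} (hi : 2 < i)
    (α : sgO ((Ez V).obj K) ⟶ (sgO F)⟦i⟧) : α = 0 := by
  have h0' := h₀.map_of_exact (Ez V)
  have h1' := h₁.map_of_exact (Ez V)
  refine eq_zero_of_middle h0' (j := i - 1) (by omega) (fun β => ?_) α (hP₀ i (by omega) _)
  exact eq_zero_of_middle h1' (j := i - 2) (by omega) (fun γ => hZ (i - 2) (by omega) γ) β
    (hP₁ (i - 1) (by omega) _)

omit [IsIntegral X] [CX X] [IsLocallyNoetherian X] in
include G in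
theorem GaD_compact : CompactSpace X := by
  rw [← isCompact_univ_iff]
  have h : (Set.univ : Set X) = ⋃ i : Bool × Bool, ((G.U i.1 i.2 : X.Opens) : Set X) := by
    apply Set.Subset.antisymm
    · intro p _
      obtain ⟨s, t, hp⟩ := G.exists_mem_U p
      exact Set.mem_iUnion.2 ⟨(s, t), hp⟩
    · exact Set.subset_univ _
  rw [h]
  exact isCompact_iUnion (fun i => (G.aff i.1 i.2).isCompact)

include G in
/-- Let `0 → Z → P₁ → P₀ → K → 0` be exact with `P_i` sums of copies of `O(-k_i, -k_i)` (`exists_epi` twice). Class `P` of opens: `V` affine, `V ≤ B` for an open `B ≤ G.U s t` (some `s`, `t`) such that `Z` has a basis (`BasisN`) over `B`. It is closed under intersections (`IsAffineOpen.inf`, `X` is separated).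
For such `V` the sequence `0 → Ez V Z → Ez V P₁ → Ez V P₀ → Ez V K → 0` is exact, the first three are acyclic (`acyc_basisN`; `acyc_ez` and finite sums), so `Hom(Ez V K, F[i]) = 0` for `i > 2` (dimension shifting). Covering: every point specializes to a closed point `y` (`X` is quasi-compact: four affine charts; noetherian);
`exists_basisN` for `y`, an affine neighbourhood `V` of `y` in `B ∩ G.U s t`; it contains the given point. A finite subcovering `V_1, …, V_n`, `vanish_union` with `c = 2`, `⨆ V_j = ⊤`, `isIso_ezI_top`. -/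
theorem ext_vanish [X.IsSeparated]
    (hp : ∀ x : X, IsClosed ({x} : Set X) → ∃ a b : X.presheaf.stalk x,
      IsPar2 (X.presheaf.stalk x) a b) {K : X.Modules} (hK : IsCoh K) :
    ∃ c : ℤ, ∀ F : X.Modules, QC F → ∀ i : ℤ, c < i → ∀ α : SS K ⟶ (SS F)⟦i⟧, α = 0 := by
  classical
  have hW := wserre_isCoh X
  have hcomp : CompactSpace X := GaD_compact G
  obtain ⟨k0, n0, φ0, hφ0⟩ := G.exists_epi hK
  have hP0 : IsCoh (⨁ (fun _ : Fin n0 => G.OO (-k0) (-k0))) := hW.pow (isCoh_OO G _ _) n0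
  have hK1 : IsCoh (kernel φ0) := hW.kernel φ0 hP0 hK
  obtain ⟨k1, n1, φ1, hφ1⟩ := G.exists_epi hK1
  obtain ⟨φ, hφ⟩ : ∃ φ, φ = φ1 ≫ kernel.ι φ0 := ⟨_, rfl⟩
  have w1 : kernel.ι φ ≫ φ1 = 0 := by
    rw [← cancel_mono (kernel.ι φ0), Category.assoc, ← hφ, zero_comp]
    exact kernel.condition φ
  have h1 : (ShortComplex.mk (kernel.ι φ) φ1 w1).ShortExact :=
    { exact := ShortComplex.exact_of_f_is_kernel _
        (isKernelOfComp (kernel.ι φ0) φ (kernelIsKernel φ) w1 hφ.symm)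
      mono_f := inferInstance
      epi_g := hφ1 }
  have h0 : (ShortComplex.mk (kernel.ι φ0) φ0 (kernel.condition φ0)).ShortExact :=
    { exact := ShortComplex.exact_kernel φ0
      mono_f := inferInstance
      epi_g := hφ0 }
  obtain ⟨P, hPdef⟩ : ∃ P : X.Opens → Prop, ∀ V, P V ↔ (IsAffineOpen V ∧ (∃ s t, V ≤ G.U s t) ∧
      ∃ (B : X.Opens) (r : ℕ) (e : Fin r → Γ(kernel φ, B)), V ≤ B ∧ BasisN (kernel φ) e) :=
    ⟨_, fun _ => Iff.rfl⟩
  have hinf : ∀ V W, P V → P W → P (V ⊓ W) := by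
    intro V W hV hW'
    rw [hPdef] at hV hW' ⊢
    obtain ⟨hV1, ⟨s, t, hst⟩, B, r, e, hVB, he⟩ := hV
    exact ⟨hV1.inf hW'.1, ⟨s, t, inf_le_left.trans hst⟩, B, r, e, inf_le_left.trans hVB, he⟩
  have hP : ∀ V, P V → ∀ F : X.Modules, QC F → ∀ i : ℤ, 2 < i →
      ∀ α : sgO ((Ez V).obj K) ⟶ (sgO F)⟦i⟧, α = 0 := by
    intro V hV F hF i hi α
    rw [hPdef] at hV
    obtain ⟨hV1, ⟨s, t, hst⟩, B, r, e, hVB, he⟩ := hV
    exact GaD_shift h1 h0 (fun j hj β => acyc_basisN hF he hV1 hVB hj β)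
      (GaD_acyc_pow (acyc_ez hF hV1 hst ⟨_, G.basis_gen k1 k1 s t⟩) n1)
      (GaD_acyc_pow (acyc_ez hF hV1 hst ⟨_, G.basis_gen k0 k0 s t⟩) n0) hi α
  have hcov : ∀ x : X, ∃ V, P V ∧ x ∈ V := by
    intro x
    obtain ⟨y, hy, hyc⟩ := IsClosed.exists_closed_singleton
      (isClosed_closure (s := ({x} : Set X))) ⟨x, subset_closure rfl⟩
    obtain ⟨a, b, hab⟩ := hp y hyc
    obtain ⟨B, r, e, hyB, he⟩ := exists_basisN G y hab φ
    obtain ⟨s, t, hst⟩ := G.exists_mem_U y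
    obtain ⟨V, hV, hyV, hVB⟩ := AlgebraicGeometry.exists_isAffineOpen_mem_and_subset
      (U := B ⊓ G.U s t) (x := y) ⟨hyB, hst⟩
    refine ⟨V, (hPdef V).2 ⟨hV, ⟨s, t, fun z hz => (hVB hz).2⟩, B, r, e,
      fun z hz => (hVB hz).1, he⟩, ?_⟩
    obtain ⟨z, hz1, hz2⟩ := mem_closure_iff.1 hy V V.isOpen hyV
    rw [Set.mem_singleton_iff] at hz2
    rw [← hz2]
    exact hz1
  choose Vx hPx hxx using hcov
  obtain ⟨T, hT⟩ := CompactSpace.elim_nhds_subcover (fun x => (Vx x : Set X))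
    (fun x => (Vx x).isOpen.mem_nhds (hxx x))
  have htop : (⨆ j : Fin T.card, Vx (T.equivFin.symm j)) = ⊤ := by
    refine top_unique (fun x _ => ?_)
    have hx : x ∈ ⋃ y ∈ T, (Vx y : Set X) := by
      rw [hT]
      trivial
    obtain ⟨y, hy, hxy⟩ := Set.mem_iUnion₂.1 hx
    refine Opens.mem_iSup.2 ⟨T.equivFin ⟨y, hy⟩, ?_⟩
    rw [Equiv.symm_apply_apply]
    exact hxy
  refine ⟨2 + T.card, fun F hF i hi α => ?_⟩
  have h2 := vanish_union P hinf 2 hP T.card (fun j => Vx (T.equivFin.symm j))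
    (fun j => hPx _) F hF i hi
    (sgmO ((ezI (⨆ j : Fin T.card, Vx (T.equivFin.symm j))).app K) ≫ α)
  have h3 : IsIso ((ezI (⨆ j : Fin T.card, Vx (T.equivFin.symm j))).app K) :=
    isIso_ezI_of_eq_top htop K
  have h4 : IsIso (sgmO ((ezI (⨆ j : Fin T.card, Vx (T.equivFin.symm j))).app K)) := inferInstance
  rw [← cancel_epi (sgmO ((ezI (⨆ j : Fin T.card, Vx (T.equivFin.symm j))).app K)), h2, comp_zero]

end M21.E3
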