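import Pool.Agent.H.MP_21b43d_ag.E3.V.GaD
import Pool.Agent.H.MP_21b43d_ag.E3.V.Bd

/-!
# M21, full support, V-G: from `O(-m, -n)` to all objects of `D^b_coh`
-/

set_option autoImplicit false

open CategoryTheory CategoryTheory.Limits CategoryTheory.Pretriangulated AlgebraicGeometry
  TopologicalSpace

noncomputable section

namespace M21.E3

variable {X : Scheme.{0}} [IsIntegral X] [CX X] [IsLocallyNoetherian X] (G : BiP X)

/-- the components of a morphism from a sum of copies as a linear map -/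
def GaE_comps {N : ℕ} (A : X.Modules) (L : DMod X) :
    (SS (⨁ fun _ : Fin N => A) ⟶ L) →ₗ[ℂ] (Fin N → (SS A ⟶ L)) where
  toFun φ j := (DerivedCategory.singleFunctor X.Modules 0).map
    (biproduct.ι (fun _ : Fin N => A) j) ≫ φ
  map_add' φ ψ := by
    funext j
    exact Preadditive.comp_add _ _ _ _ _ _
  map_smul' c φ := by
    funext j
    exact Linear.comp_smul _ _ _ _ _ _

omit [IsIntegral X] [IsLocallyNoetherian X] in
theorem GaE_comps_injective {N : ℕ} (A : X.Modules) (L : DMod X) :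
    Function.Injective (GaE_comps (N := N) A L) := by
  rw [injective_iff_map_eq_zero]
  intro φ h
  have h1 : 𝟙 (SS (⨁ fun _ : Fin N => A)) = ∑ j,
      (DerivedCategory.singleFunctor X.Modules 0).map (biproduct.π (fun _ : Fin N => A) j) ≫
      (DerivedCategory.singleFunctor X.Modules 0).map (biproduct.ι (fun _ : Fin N => A) j) := by
    rw [← CategoryTheory.Functor.map_id, ← biproduct.total, Functor.map_sum]
    exact Finset.sum_congr rfl fun j _ => Functor.map_comp _ _ _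
  rw [← Category.id_comp φ, h1, Preadditive.sum_comp]
  refine Finset.sum_eq_zero fun j _ => ?_
  have h2 : (DerivedCategory.singleFunctor X.Modules 0).map
    (biproduct.ι (fun _ : Fin N => A) j) ≫ φ = 0 := congrFun h j
  rw [Category.assoc, h2, comp_zero]

omit [IsIntegral X] [IsLocallyNoetherian X] in
/-- sums of copies: `SS (⨁ A) ≅ ⨁ SS A` (or induction on `N` with `Bdd.biprod`) -/
theorem Bdd.sum {A : X.Modules} {E : DMod X} {B : ℤ} (h : Bdd (SS A) E B) (N : ℕ) :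
    Bdd (SS (⨁ fun _ : Fin N => A)) E (N * B) := by
  have hfin : ∀ i : ℤ, FiniteDimensional ℂ (SS (⨁ fun _ : Fin N => A) ⟶ E⟦i⟧) ∧
      Module.finrank ℂ (SS (⨁ fun _ : Fin N => A) ⟶ E⟦i⟧) ≤
        N * Module.finrank ℂ (SS A ⟶ E⟦i⟧) := by
    intro i
    have := h.fin i
    refine ⟨Module.Finite.of_injective _ (GaE_comps_injective A (E⟦i⟧)), ?_⟩
    have h1 := LinearMap.finrank_le_finrank_of_injective
      (GaE_comps_injective (N := N) A (E⟦i⟧))
    rwa [Module.finrank_pi_fintype, Finset.sum_const, Finset.card_univ, Fintype.card_fin,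
      smul_eq_mul] at h1
  refine ⟨fun i => (hfin i).1, fun I => ?_⟩
  refine le_trans (Finset.sum_le_sum fun i _ => Int.ofNat_le.2 (hfin i).2) ?_
  have h2 : (∑ i ∈ I, ((N * Module.finrank ℂ (SS A ⟶ E⟦i⟧) : ℕ) : ℤ)) =
      (N : ℤ) * ∑ i ∈ I, (Module.finrank ℂ (SS A ⟶ E⟦i⟧) : ℤ) := by
    rw [Finset.mul_sum]
    exact Finset.sum_congr rfl fun i _ => Nat.cast_mul _ _
  rw [h2]
  exact mul_le_mul_of_nonneg_left (h.le I) (Int.natCast_nonneg N)

omit [IsIntegral X] [CX X] [IsLocallyNoetherian X] in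
/-- `E` has cohomology in degrees `-1`, `0` -/
theorem GaE_ge {E : DMod X} (h : ∀ i : ℤ, i ≠ -1 → i ≠ 0 → IsZero (HH i E)) :
    E.IsGE (-1) ∧ E.IsLE 0 :=
  ⟨(DerivedCategory.isGE_iff E (-1)).mpr fun i hi => h i (by omega) (by omega),
    (DerivedCategory.isLE_iff E 0).mpr fun i hi => h i (by omega) (by omega)⟩

/-- Truncated bound. Induction on `n` (from below: `n = -1 + n'`): for `i < -1` all `Hom(SS K, E[i])` vanish since `E` has cohomology in degrees `≥ -1` (`DerivedCategory.TStructure.t.zero`). Step: `exists_res_FinB`: `K' → P → K`, `P = O(-k,-k)^N`; induction hypothesis for `K'` and `h k k`, `Bdd.sum`, `BddT.left₃`. -/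
theorem bdd_trunc (P : DMod X → ℤ → Prop)
    (hP : ∀ E z, P E z → 0 ≤ z ∧ dbCoh X E ∧ ∀ i : ℤ, i ≠ -1 → i ≠ 0 → IsZero (HH i E))
    (h : ∀ m n : ℤ, ∃ C : ℤ, 0 ≤ C ∧ ∀ E z, P E z → Bdd (G.LL m n) E (C * z)) (n' : ℕ) :
    ∀ K : X.Modules, IsCoh K → ∃ C : ℤ, 0 ≤ C ∧ ∀ E z, P E z → BddT (n' - 1) (SS K) E (C * z) := by
  induction n' with
  | zero =>
    intro K hK
    refine ⟨0, le_rfl, fun E z hE => ?_⟩
    obtain ⟨hz, hE1, hE2⟩ := hP E z hE
    have hge : E.IsGE (-1) := (GaE_ge hE2).1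
    have hzero : ∀ i : ℤ, i < ((0 : ℕ) : ℤ) - 1 → ∀ φ : SS K ⟶ E⟦i⟧, φ = 0 := by
      intro i hi φ
      have : (E⟦i⟧).IsGE (-1 - i) :=
        DerivedCategory.TStructure.t.isGE_shift _ (-1) i (-1 - i) (by omega)
      exact DerivedCategory.TStructure.t.zero φ 0 (-1 - i) (by push_cast at hi; omega)
    refine ⟨fun i hi => (Bd_finrank_zero (hzero i hi)).1, fun I hI => ?_⟩
    rw [zero_mul]
    refine le_of_eq (Finset.sum_eq_zero fun i hi => ?_)
    rw [(Bd_finrank_zero (hzero i (hI i hi))).2, Nat.cast_zero]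
  | succ n' ih =>
    intro K hK
    obtain ⟨k, N, K', hK', a, b, c, hT⟩ := BiP.exists_res_FinB G hK
    obtain ⟨C1, hC1, h1⟩ := ih K' hK'
    obtain ⟨C2, hC2, h2⟩ := h k k
    refine ⟨C1 + N * C2, by positivity, fun E z hE => ?_⟩
    have h3 := BddT.left₃ (Triangle.mk a b c) hT (h1 E z hE)
      (((h2 E z hE).sum N).truncate ((n' : ℤ) - 1 + 1))
    have e1 : (((n' + 1 : ℕ) : ℤ) - 1) = (n' : ℤ) - 1 + 1 := by push_cast; ring
    have e2 : (C1 + N * C2) * z = C1 * z + N * (C2 * z) := by ring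
    rw [e1, e2]
    exact h3

omit [IsIntegral X] [CX X] [IsLocallyNoetherian X] in
/-- vanishing of `Hom(SS K, E[i])` for two-term complexes, `i > c` -/
theorem GaE_vanish {K : X.Modules} {c : ℤ}
    (hc : ∀ F : X.Modules, QC F → ∀ i : ℤ, c < i → ∀ α : SS K ⟶ (SS F)⟦i⟧, α = 0)
    {E : DMod X} (hE : dbCoh X E) (hE2 : ∀ i : ℤ, i ≠ -1 → i ≠ 0 → IsZero (HH i E)) :
    ∀ i : ℤ, c < i → ∀ φ : SS K ⟶ E⟦i⟧, φ = 0 := by
  obtain ⟨hge, hle⟩ := GaE_ge hE2
  refine M21.bounded_induction (fun E' : DMod X => ∀ i : ℤ, c < i → ∀ φ : SS K ⟶ E'⟦i⟧, φ = 0)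
    ?_ ?_ E (-1) 0 ?_
  · intro A B e hA i hi φ
    have h1 := hA i hi (φ ≫ ((shiftFunctor (DMod X) i).mapIso e).inv)
    have h2 : φ = (φ ≫ ((shiftFunctor (DMod X) i).mapIso e).inv) ≫
        ((shiftFunctor (DMod X) i).mapIso e).hom := by
      rw [Category.assoc, Iso.inv_hom_id, Category.comp_id]
    rw [h2, h1, zero_comp]
  · intro T hT h1 h3 i hi φ
    exact hom_zero₂ (SS K) T hT i (h1 i hi) (h3 i hi) φ
  · intro n i hi φ
    by_cases hn : n ≠ -1 ∧ n ≠ 0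
    · have h1 : IsZero ((DerivedCategory.singleFunctor X.Modules n).obj (HH n E)) :=
        (DerivedCategory.singleFunctor X.Modules n).map_isZero (hE2 n hn.1 hn.2)
      exact ((shiftFunctor (DMod X) i).map_isZero h1).eq_of_tgt _ _
    · have hn' : n ≤ 0 := by
        by_contra hlt
        exact hn ⟨by omega, by omega⟩
      have e : (SS (HH n E))⟦-n⟧ ≅ (DerivedCategory.singleFunctor X.Modules n).obj (HH n E) :=
        ((DerivedCategory.singleFunctors X.Modules).shiftIso (-n) n 0 (by omega)).app _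
      have e' : (SS (HH n E))⟦-n + i⟧ ≅
          ((DerivedCategory.singleFunctor X.Modules n).obj (HH n E))⟦i⟧ :=
        (shiftFunctorAdd (DMod X) (-n) i).app _ ≪≫ (shiftFunctor (DMod X) i).mapIso e
      have h1 := hc (HH n E) (hE.2 n).qc (-n + i) (by omega) (φ ≫ e'.inv)
      have h2 : φ = (φ ≫ e'.inv) ≫ e'.hom := by
        rw [Category.assoc, Iso.inv_hom_id, Category.comp_id]
      rw [h2, h1, zero_comp]

/-- Coherent sheaves: `ext_vanish` gives `c` with `Hom(SS K, (SS F)⟦i⟧) = 0` for all quasi-coherent `F` and `i > c`, so `Hom(SS K, E⟦i⟧) = 0` for `i > c` (triangle `H^{-1}(E)[1] → E → H^0(E)`); `bdd_trunc` with `n' - 1 > c`, `BddT.bdd`. -/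
theorem bdd_coh [X.IsSeparated]
    (hp : ∀ x : X, IsClosed ({x} : Set X) → ∃ a b : X.presheaf.stalk x,
      IsPar2 (X.presheaf.stalk x) a b) (P : DMod X → ℤ → Prop)
    (hP : ∀ E z, P E z → 0 ≤ z ∧ dbCoh X E ∧ ∀ i : ℤ, i ≠ -1 → i ≠ 0 → IsZero (HH i E))
    (h : ∀ m n : ℤ, ∃ C : ℤ, 0 ≤ C ∧ ∀ E z, P E z → Bdd (G.LL m n) E (C * z))
    {K : X.Modules} (hK : IsCoh K) : ∃ C : ℤ, 0 ≤ C ∧ ∀ E z, P E z → Bdd (SS K) E (C * z) := by
  obtain ⟨c, hc⟩ : ∃ c : ℤ, ∀ F : X.Modules, QC F → ∀ i : ℤ, c < i →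
      ∀ α : SS K ⟶ (SS F)⟦i⟧, α = 0 := by
    first
      | exact ext_vanish G hp hK
      | exact ext_vanish hp hK
  obtain ⟨C, hC, h1⟩ := bdd_trunc G P hP h (c + 2).toNat K hK
  refine ⟨C, hC, fun E z hE => (h1 E z hE).bdd fun i hi => ?_⟩
  obtain ⟨-, hE1, hE2⟩ := hP E z hE
  exact GaE_vanish hc hE1 hE2 i (by
    have := Int.self_le_toNat (c + 2)
    omega)

/-- All objects (`M21.bounded_induction`, as in the proof of `eul_unique`; `Bdd.left₂`, `Bdd.shift_left`, `Bdd.iso_left`). -/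
theorem bdd_db [X.IsSeparated]
    (hp : ∀ x : X, IsClosed ({x} : Set X) → ∃ a b : X.presheaf.stalk x,
      IsPar2 (X.presheaf.stalk x) a b) (P : DMod X → ℤ → Prop)
    (hP : ∀ E z, P E z → 0 ≤ z ∧ dbCoh X E ∧ ∀ i : ℤ, i ≠ -1 → i ≠ 0 → IsZero (HH i E))
    (h : ∀ m n : ℤ, ∃ C : ℤ, 0 ≤ C ∧ ∀ E z, P E z → Bdd (G.LL m n) E (C * z))
    (K : DMod X) (hK : dbCoh X K) : ∃ C : ℤ, 0 ≤ C ∧ ∀ E z, P E z → Bdd K E (C * z) := by
  obtain ⟨⟨a, b, ha, hb⟩, hc⟩ := hK
  refine M21.bounded_induction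
    (fun K' : DMod X => ∃ C : ℤ, 0 ≤ C ∧ ∀ E z, P E z → Bdd K' E (C * z)) ?_ ?_ K a b ?_
  · rintro A B e ⟨C, hC, h1⟩
    exact ⟨C, hC, fun E z hE => (h1 E z hE).iso_left e⟩
  · rintro T hT ⟨C1, hC1, h1⟩ ⟨C3, hC3, h3⟩
    refine ⟨C1 + C3, add_nonneg hC1 hC3, fun E z hE => ?_⟩
    rw [add_mul]
    exact Bdd.left₂ T hT (h1 E z hE) (h3 E z hE)
  · intro n
    obtain ⟨C, hC, h1⟩ := bdd_coh G hp P hP h (hc n)
    have e : (SS (HH n K))⟦-n⟧ ≅ (DerivedCategory.singleFunctor X.Modules n).obj (HH n K) :=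
      ((DerivedCategory.singleFunctors X.Modules).shiftIso (-n) n 0 (by omega)).app _
    exact ⟨C, hC, fun E z hE => ((h1 E z hE).shift_left (-n)).iso_left e⟩

end M21.E3
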