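import Pool.Agent.H.MP_21b43d_ag.E3.V.BdK
import Pool.Agent.H.MP_21b43d_ag.E3.S4.StabP

/-!
# M21, full support, V-M: objects with one cohomology group at four neighbouring twists
-/

set_option autoImplicit false

open CategoryTheory CategoryTheory.Limits CategoryTheory.Pretriangulated AlgebraicGeometry
  TopologicalSpace

noncomputable section

namespace M21.E3

variable {X : Scheme.{0}} [IsIntegral X] [CX X] [IsLocallyNoetherian X] {G : BiP X} {ι : Type}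
  [Fintype ι]

namespace BiP

/-- the invariants of slope 2 -/
abbrev qq (T : G.Split (FO X) ι) : RDX (IsCoh : ObjectProperty X.Modules) := (rdx T).sh 2

/-- (aux) the three invariants in terms of Euler forms -/
theorem inv_MaA (T : G.Split (FO X) ι) (E : DMod X) (hE : dbCoh X E) :
    eul (qq T).r E = G.nr E ∧ eul (qq T).D E = G.nd1 E + G.nd2 E - 2 * G.nr E ∧
      eul (qq T).x E = G.nx E := by
  refine ⟨?_, ?_, ?_⟩
  · have h := eul_lin_Num T E hE 1 (-1) (-1) 1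
    have e : (qq T).r = (fun F => 1 * M21.eulF ℂ (G.LL 1 1) (SS F) +
        (-1) * M21.eulF ℂ (G.LL 1 0) (SS F) +
        (-1) * M21.eulF ℂ (G.LL 0 1) (SS F) + 1 * M21.eulF ℂ (G.LL 0 0) (SS F)) := by
      funext F
      show G.nr (SS F) = _
      unfold nr
      ring
    rw [e, h]
    unfold nr
    ring
  · have h := eul_lin_Num T E hE (-2) 3 3 (-4)
    have e : (qq T).D = (fun F => (-2) * M21.eulF ℂ (G.LL 1 1) (SS F) +
        3 * M21.eulF ℂ (G.LL 1 0) (SS F) +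
        3 * M21.eulF ℂ (G.LL 0 1) (SS F) + (-4) * M21.eulF ℂ (G.LL 0 0) (SS F)) := by
      funext F
      show G.nd1 (SS F) + G.nd2 (SS F) - 2 * G.nr (SS F) = _
      unfold nr nd1 nd2
      ring
    rw [e, h]
    unfold nr nd1 nd2
    ring
  · have h := eul_lin_Num T E hE 0 0 0 1
    have e : (qq T).x = (fun F => 0 * M21.eulF ℂ (G.LL 1 1) (SS F) +
        0 * M21.eulF ℂ (G.LL 1 0) (SS F) +
        0 * M21.eulF ℂ (G.LL 0 1) (SS F) + 1 * M21.eulF ℂ (G.LL 0 0) (SS F)) := by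
      funext F
      show G.nx (SS F) = _
      unfold nx
      ring
    rw [e, h]
    unfold nx
    ring

/-- If at the four twists `(m₀, m₀), (m₀+1, m₀), (m₀, m₀+1), (m₀+1, m₀+1)` only `Hom(·, E[p])` can be nonzero, then the dimensions of the four groups are the
`(-1)^p χ ≥ 0` (`Bdd.of_single`, `num_db`), so each is at most the sum `(-1)^p ∑ χ`, and `∑ χ = r (2m₀+1)² + (4m₀+2)(nd1 + nd2) + 4 nx` (`eulF_eq`). `nd1 + nd2 = eul D` (`eul_D`) `= eul (qq T).D + 2 eul r`, `nx`, `nr`: `eul_mm`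
for `t = 0`, `t = 1`. Then `bdd_all`. -/
theorem bdd_of_single4 (T : G.Split (FO X) ι) (m₀ m n p : ℤ) : ∃ c : ℤ, 0 ≤ c ∧ ∀ E : DMod X,
    dbCoh X E → (∀ m' n' : ℤ, (m' = m₀ ∨ m' = m₀ + 1) → (n' = m₀ ∨ n' = m₀ + 1) →
      ∀ i : ℤ, i ≠ p → ∀ φ : G.LL m' n' ⟶ E⟦i⟧, φ = 0) →
    Bdd (G.LL m n) E (c * (|eul (qq T).r E| + |eul (qq T).D E| + |eul (qq T).x E|)) := by
  obtain ⟨c, hc, hb⟩ := G.bdd_all m₀ m₀ m n
  refine ⟨c * ((2 * m₀ + 1) ^ 2 + 2 * |4 * m₀ + 2| + 4), by positivity, fun E hE h => ?_⟩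
  obtain ⟨er, eD, ex⟩ := inv_MaA T E hE
  have hχ := G.eulF_eq E (fun m n => (num_db T E hE m n).1)
  have k1 := Bdd.of_single p (num_db T E hE m₀ m₀).1 (h _ _ (Or.inl rfl) (Or.inl rfl))
  have k2 := Bdd.of_single p (num_db T E hE (m₀ + 1) m₀).1 (h _ _ (Or.inr rfl) (Or.inl rfl))
  have k3 := Bdd.of_single p (num_db T E hE m₀ (m₀ + 1)).1 (h _ _ (Or.inl rfl) (Or.inr rfl))
  have k4 := Bdd.of_single p (num_db T E hE (m₀ + 1) (m₀ + 1)).1
    (h _ _ (Or.inr rfl) (Or.inr rfl))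
  have hs : (p.negOnePow : ℤ) * M21.eulF ℂ (G.LL m₀ m₀) E +
      (p.negOnePow : ℤ) * M21.eulF ℂ (G.LL (m₀ + 1) m₀) E +
      (p.negOnePow : ℤ) * M21.eulF ℂ (G.LL m₀ (m₀ + 1)) E +
      (p.negOnePow : ℤ) * M21.eulF ℂ (G.LL (m₀ + 1) (m₀ + 1)) E ≤
      ((2 * m₀ + 1) ^ 2 + 2 * |4 * m₀ + 2| + 4) *
        (|eul (qq T).r E| + |eul (qq T).D E| + |eul (qq T).x E|) := by
    have h1 : (p.negOnePow : ℤ) * M21.eulF ℂ (G.LL m₀ m₀) E +
        (p.negOnePow : ℤ) * M21.eulF ℂ (G.LL (m₀ + 1) m₀) E +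
        (p.negOnePow : ℤ) * M21.eulF ℂ (G.LL m₀ (m₀ + 1)) E +
        (p.negOnePow : ℤ) * M21.eulF ℂ (G.LL (m₀ + 1) (m₀ + 1)) E =
        (p.negOnePow : ℤ) * (((2 * m₀ + 1) ^ 2 + 2 * (4 * m₀ + 2)) * eul (qq T).r E +
          (4 * m₀ + 2) * eul (qq T).D E + 4 * eul (qq T).x E) := by
      rw [er, eD, ex, hχ, hχ, hχ, hχ]
      ring
    have h2 : |(p.negOnePow : ℤ)| = 1 := Int.isUnit_iff_abs_eq.1 (p.negOnePow).isUnit
    rw [h1]
    refine (le_abs_self _).trans ?_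
    rw [abs_mul, h2, one_mul]
    refine (abs_add_three _ _ _).trans ?_
    rw [abs_mul, abs_mul, abs_mul]
    have h3 : |(2 * m₀ + 1) ^ 2 + 2 * (4 * m₀ + 2)| ≤ (2 * m₀ + 1) ^ 2 + 2 * |4 * m₀ + 2| := by
      refine (abs_add_le _ _).trans ?_
      rw [abs_mul, abs_of_nonneg (sq_nonneg _)]
      rfl
    have h4 : (0 : ℤ) ≤ |4 * m₀ + 2| := abs_nonneg _
    have h5 : (0 : ℤ) ≤ (2 * m₀ + 1) ^ 2 := sq_nonneg _
    have h6 := abs_nonneg (eul (qq T).r E)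
    have h7 := abs_nonneg (eul (qq T).D E)
    have h8 := abs_nonneg (eul (qq T).x E)
    have h9 : |(4 : ℤ)| = 4 := rfl
    rw [h9]
    have h10 := mul_le_mul_of_nonneg_right h3 h6
    nlinarith [mul_nonneg h5 h7, mul_nonneg h5 h8, mul_nonneg h4 h7, mul_nonneg h4 h8]
  rw [mul_assoc]
  refine hb E _ (k1.1.mono ?_) (k2.1.mono ?_) (k3.1.mono ?_) (k4.1.mono ?_) <;>
    linarith [k1.2, k2.2, k3.2, k4.2]

end BiP

end M21.E3
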