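import Pool.Agent.H.MP_21b43d_ag.E3.V.MaA
import Pool.Agent.H.MP_21b43d_ag.E3.V.Conv

/-!
# M21, full support, V-M: vanishing for complexes in the tilted heart
-/

set_option autoImplicit false

open CategoryTheory CategoryTheory.Limits CategoryTheory.Pretriangulated AlgebraicGeometry
  TopologicalSpace

noncomputable section

namespace M21.E3

variable {X : Scheme.{0}} [IsIntegral X] [CX X] [IsLocallyNoetherian X] {G : BiP X} {ι : Type}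
  [Fintype ι]

namespace BiP

/-- The results on sheaves on `X` (for covers of `ℙ¹ × ℙ¹`: `win_cover`, `bdd_winX`, `hom_zero_low`, `hom_zero_high`). -/
structure Van (T : G.Split (FO X) ι) : Prop where
  win : Win (qq T)
  bdd : ∀ (K : ℕ) (m n : ℤ), ∃ A B : ℤ, 0 ≤ A ∧ 0 ≤ B ∧ ∀ F,
    ((qq T).sh (-K)).Tc F → ((qq T).sh K).Fc F →
      Bdd (G.LL m n) (SS F) (A * (qq T).r F - B * (qq T).x F)
  low : ∃ c : ℕ, ∀ (M m n : ℤ), m ≤ M → n ≤ M → ∀ F,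
    ((qq T).sh (-2 * M - c)).Fc F → ∀ φ : G.LL m n ⟶ (SS F)⟦(0 : ℤ)⟧, φ = 0
  high : ∃ c : ℕ, ∀ (M m n : ℤ), M ≤ m → M ≤ n → ∀ F,
    ((qq T).sh (-2 * M + c)).Tc F → ∀ φ : G.LL m n ⟶ (SS F)⟦(2 : ℤ)⟧, φ = 0

omit [IsIntegral X] [CX X] [IsLocallyNoetherian X] in
/-- (aux) the truncation triangle of a two-term complex -/
theorem MaB_tri (E : DMod X) (h : ∀ i : ℤ, i ≠ -1 → i ≠ 0 → IsZero (HH i E)) :
    ∃ T ∈ distTriang (DMod X), Nonempty (T.obj₁ ≅ (SS (HH (-1) E))⟦(1 : ℤ)⟧) ∧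
      T.obj₂ = E ∧ Nonempty (T.obj₃ ≅ SS (HH 0 E)) := by
  obtain ⟨A, B, hA, hB, a, b, c, hT⟩ :=
    DerivedCategory.TStructure.t.exists_triangle E (-1) 0 (by lia)
  have hAi : A.IsLE (-1) := ⟨hA⟩
  have hBi : B.IsGE 0 := ⟨hB⟩
  have hBl : B.IsLE 0 := by
    rw [DerivedCategory.isLE_iff]
    intro n hn
    exact isZero3a_Tilt1 hT n (n + 1) rfl (h n (by lia) (by lia))
      (A.isZero_of_isLE (-1) (n + 1) (by lia))
  have hAg : A.IsGE (-1) := by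
    rw [DerivedCategory.isGE_iff]
    intro n hn
    exact isZero1a_Tilt1 hT (n - 1) n (by lia) (B.isZero_of_isGE 0 (n - 1) (by lia))
      (h n (by lia) (by lia))
  have isoB : IsIso ((DerivedCategory.homologyFunctor X.Modules 0).map b) := by
    have h1 : Mono ((DerivedCategory.homologyFunctor X.Modules 0).map b) :=
      mono2_Tilt1 hT 0 (A.isZero_of_isLE (-1) 0 (by lia))
    have h2 : Epi ((DerivedCategory.homologyFunctor X.Modules 0).map b) :=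
      epi2_Tilt1 hT 0 1 (by lia) (A.isZero_of_isLE (-1) 1 (by lia))
    exact isIso_of_mono_of_epi _
  have isoA : IsIso ((DerivedCategory.homologyFunctor X.Modules (-1)).map a) := by
    have h1 : Mono ((DerivedCategory.homologyFunctor X.Modules (-1)).map a) :=
      mono1_Tilt1 hT (-2) (-1) (by lia) (B.isZero_of_isGE 0 (-2) (by lia))
    have h2 : Epi ((DerivedCategory.homologyFunctor X.Modules (-1)).map a) :=
      epi1_Tilt1 hT (-1) (B.isZero_of_isGE 0 (-1) (by lia))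
    exact isIso_of_mono_of_epi _
  refine ⟨Triangle.mk a b c, hT, ?_, rfl, ?_⟩
  · have hg : (A⟦(-1 : ℤ)⟧).IsGE 0 := by
      rw [DerivedCategory.isGE_iff]
      intro n hn
      exact (A.isZero_of_isGE (-1) (-1 + n) (by lia)).of_iso (hhShiftTilt A (-1) n (-1 + n) rfl)
    have hl : (A⟦(-1 : ℤ)⟧).IsLE 0 := by
      rw [DerivedCategory.isLE_iff]
      intro n hn
      exact (A.isZero_of_isLE (-1) (-1 + n) (by lia)).of_iso (hhShiftTilt A (-1) n (-1 + n) rfl)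
    obtain ⟨M, ⟨u⟩⟩ := DerivedCategory.exists_iso_singleFunctor_obj_of_isGE_of_isLE (A⟦(-1 : ℤ)⟧) 0
    have e1 : M ≅ HH (-1) E :=
      ((DerivedCategory.singleFunctorCompHomologyFunctorIso X.Modules 0).app M).symm ≪≫
        (DerivedCategory.homologyFunctor X.Modules 0).mapIso u.symm ≪≫
        hhShiftTilt A (-1) 0 (-1) (by lia) ≪≫
        asIso ((DerivedCategory.homologyFunctor X.Modules (-1)).map a)
    have e2 : (A⟦(-1 : ℤ)⟧) ≅ SS (HH (-1) E) :=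
      u ≪≫ (DerivedCategory.singleFunctor X.Modules 0).mapIso e1
    exact ⟨(shiftShiftNeg A (-1 : ℤ)).symm ≪≫ (shiftFunctor (DMod X) (-(-1 : ℤ))).mapIso e2⟩
  · obtain ⟨M, ⟨u⟩⟩ := DerivedCategory.exists_iso_singleFunctor_obj_of_isGE_of_isLE B 0
    have e1 : M ≅ HH 0 E :=
      ((DerivedCategory.singleFunctorCompHomologyFunctorIso X.Modules 0).app M).symm ≪≫
        (DerivedCategory.homologyFunctor X.Modules 0).mapIso u.symm ≪≫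
        (asIso ((DerivedCategory.homologyFunctor X.Modules 0).map b)).symm
    exact ⟨u ≪≫ (DerivedCategory.singleFunctor X.Modules 0).mapIso e1⟩

/-- `Hom(LL m n, E[i])` of a two-term complex from the cohomology sheaves (long exact sequence of the triangle `H^{-1}(E)[1] → E → H^0(E)`; `hom_zero_cech`). -/
theorem hom_two_zero (E : DMod X) (hE : dbCoh X E)
    (h : ∀ i : ℤ, i ≠ -1 → i ≠ 0 → IsZero (HH i E)) (m n i : ℤ)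
    (h1 : ∀ φ : G.LL m n ⟶ (SS (HH (-1) E))⟦i + 1⟧, φ = 0)
    (h0 : ∀ φ : G.LL m n ⟶ (SS (HH 0 E))⟦i⟧, φ = 0) (φ : G.LL m n ⟶ E⟦i⟧) : φ = 0 := by
  obtain ⟨T, hT, ⟨e1⟩, rfl, ⟨e3⟩⟩ := MaB_tri E h
  refine hom_zero₂ _ T hT i ?_ ?_ φ
  · intro ψ
    let e : T.obj₁⟦i⟧ ≅ (SS (HH (-1) T.obj₂))⟦i + 1⟧ :=
      (shiftFunctor (DMod X) i).mapIso e1 ≪≫
        ((shiftFunctorAdd' (DMod X) (1 : ℤ) i (i + 1) (by lia)).app (SS (HH (-1) T.obj₂))).symm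
    rw [← cancel_mono e.hom, h1 (ψ ≫ e.hom), zero_comp]
  · intro ψ
    let e : T.obj₃⟦i⟧ ≅ (SS (HH 0 T.obj₂))⟦i⟧ := (shiftFunctor (DMod X) i).mapIso e3
    rw [← cancel_mono e.hom, h0 (ψ ≫ e.hom), zero_comp]

omit [IsIntegral X] [CX X] [IsLocallyNoetherian X] in
/-- (aux) Koszul step, third object. -/
theorem MaB_ko3 (A B C E : DMod X) (T : Triangle (DMod X)) (hT : T ∈ distTriang (DMod X))
    (i1 : T.obj₁ ≅ A) (i2 : T.obj₂ ≅ B ⊞ B) (i3 : T.obj₃ ≅ C) (i : ℤ)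
    (hB : ∀ φ : B ⟶ E⟦i⟧, φ = 0) (hA : ∀ φ : A ⟶ E⟦i - 1⟧, φ = 0) (φ : C ⟶ E⟦i⟧) : φ = 0 := by
  have h2 : ∀ ψ : T.obj₂ ⟶ E⟦i⟧, ψ = 0 := by
    intro ψ
    have h4 : i2.inv ≫ ψ = 0 := by
      apply biprod.hom_ext'
      · rw [comp_zero]
        exact hB _
      · rw [comp_zero]
        exact hB _
    rw [← cancel_epi i2.inv, h4, comp_zero]
  have h1 : ∀ ψ : T.obj₁⟦(1 : ℤ)⟧ ⟶ E⟦i⟧, ψ = 0 := by
    intro ψ
    let e : E⟦i⟧ ≅ (E⟦i - 1⟧)⟦(1 : ℤ)⟧ := (shiftFunctorAdd' (DMod X) (i - 1) 1 i (by lia)).app E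
    obtain ⟨g, hg⟩ := (shiftFunctor (DMod X) (1 : ℤ)).map_surjective (ψ ≫ e.hom)
    have h5 : g = 0 := by
      rw [← cancel_epi i1.inv, hA (i1.inv ≫ g), comp_zero]
    rw [← cancel_mono e.hom, ← hg, h5, Functor.map_zero, zero_comp]
  obtain ⟨ψ, hψ⟩ := Triangle.yoneda_exact₃ T hT (i3.hom ≫ φ) (h2 _)
  rw [← cancel_epi i3.hom, hψ, h1 ψ, comp_zero, comp_zero]

omit [IsIntegral X] [CX X] [IsLocallyNoetherian X] in
/-- (aux) Koszul step, first object. -/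
theorem MaB_ko1 (A B C E : DMod X) (T : Triangle (DMod X)) (hT : T ∈ distTriang (DMod X))
    (i1 : T.obj₁ ≅ A) (i2 : T.obj₂ ≅ B ⊞ B) (i3 : T.obj₃ ≅ C) (i : ℤ)
    (hB : ∀ φ : B ⟶ E⟦i⟧, φ = 0) (hC : ∀ φ : C ⟶ E⟦i + 1⟧, φ = 0) (φ : A ⟶ E⟦i⟧) : φ = 0 := by
  have h2 : ∀ ψ : T.obj₂⟦(1 : ℤ)⟧ ⟶ (E⟦i⟧)⟦(1 : ℤ)⟧, ψ = 0 := by
    intro ψ
    obtain ⟨g, hg⟩ := (shiftFunctor (DMod X) (1 : ℤ)).map_surjective ψ
    have h4 : i2.inv ≫ g = 0 := by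
      apply biprod.hom_ext'
      · rw [comp_zero]
        exact hB _
      · rw [comp_zero]
        exact hB _
    have h5 : g = 0 := by rw [← cancel_epi i2.inv, h4, comp_zero]
    rw [← hg, h5, Functor.map_zero]
  have h3 : ∀ ψ : T.obj₃ ⟶ (E⟦i⟧)⟦(1 : ℤ)⟧, ψ = 0 := by
    intro ψ
    let e : E⟦i + 1⟧ ≅ (E⟦i⟧)⟦(1 : ℤ)⟧ := (shiftFunctorAdd' (DMod X) i 1 (i + 1) rfl).app E
    rw [← cancel_mono e.inv, ← cancel_epi i3.inv, hC (i3.inv ≫ ψ ≫ e.inv), zero_comp, comp_zero]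
  have h6 : (i1.hom ≫ φ)⟦(1 : ℤ)⟧' = 0 := by
    obtain ⟨g, hg⟩ := Triangle.yoneda_exact₃ T.rotate (rot_of_distTriang T hT)
      ((i1.hom ≫ φ)⟦(1 : ℤ)⟧' : T.obj₁⟦(1 : ℤ)⟧ ⟶ (E⟦i⟧)⟦(1 : ℤ)⟧) (h3 _)
    have h7 : g = 0 := h2 g
    rw [hg, h7, comp_zero]
    rfl
  have h8 : i1.hom ≫ φ = 0 :=
    (shiftFunctor (DMod X) (1 : ℤ)).map_injective (by rw [h6, Functor.map_zero])
  rw [← cancel_epi i1.hom, h8, comp_zero]

theorem MaB_Fc {𝒞 : Type*} [Category 𝒞] [Abelian 𝒞] {W : ObjectProperty 𝒞} (q : RDX W) {k : ℤ}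
    (hk : 0 ≤ k) {M : 𝒞} (h : q.Fc M) : (q.sh k).Fc M := by
  refine ⟨h.1, fun N i hi hN => ?_⟩
  have h1 := h.2 N i hi hN
  have h2 := q.r_nonneg N hN
  rw [RDX.sh_D]
  nlinarith

theorem MaB_Tc {𝒞 : Type*} [Category 𝒞] [Abelian 𝒞] {W : ObjectProperty 𝒞} (q : RDX W) {k : ℤ}
    (hk : k ≤ 0) {M : 𝒞} (h : q.Tc M) : (q.sh k).Tc M := by
  refine ⟨h.1, fun Q p hp hQ hz => ?_⟩
  have h1 := h.2 Q p hp hQ hz
  have h2 := q.r_nonneg Q hQ.1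
  rw [RDX.sh_D]
  nlinarith

/-- Case 1: only `H^1` at the twists `(-j-1, -j-1), …, (-j, -j)`. Let `c` be the maximum of the two constants of `V.low`, `V.high`, `2j ≥ c + 2`. `i ≤ -2`: `hom_two_zero` with `hom_zero_cech`. `i = -1`: `h^0(M(m,n)) = 0` for `m, n ≤ -j + 1`
(`V.low` with `M = -j + 1`, `Fc_mono`), `Hom(LL, N[-1]) = 0`. `i = 2`: `h^3(M) = 0`, `h^2(N(m,n)) = 0` by `V.high` (`M = -j - 1`). `i ≥ 3`: clear. `i = 0`: at `(-j,-j)`: hypothesis. At `(-j-1, -j)`: by the Koszul triangle (`exists_triangle_B`)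
`O(j-1,j) → O(j,j)² → O(j+1,j)` a map `O(j+1,j) → E` which vanishes on `O(j,j)²` comes from `O(j-1,j)[1] → E`, i.e. `Hom(LL (-j+1) (-j), E[-1]) = 0`. Similarly `(-j, -j-1)`, and `(-j-1,-j-1)` from `(-j, -j-1)` (`O(j-1,j+1) → O(j,j+1)² → O(j+1,j+1)`). -/
theorem single_case1 (T : G.Split (FO X) ι) (V : Van T) : ∃ c : ℕ, ∀ j : ℕ, c ≤ j →
    ∀ E : DMod X, dbCoh X E → (∀ i : ℤ, i ≠ -1 → i ≠ 0 → IsZero (HH i E)) →
      (qq T).Fc (HH (-1) E) → ((qq T).sh ((2 * j + 2 + c : ℕ) : ℤ)).Tc (HH 0 E) →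
      (∀ φ : G.LL (-j) (-j) ⟶ E⟦(0 : ℤ)⟧, φ = 0) →
      ∀ m n : ℤ, (m = -j - 1 ∨ m = -j - 1 + 1) → (n = -j - 1 ∨ n = -j - 1 + 1) →
        ∀ i : ℤ, i ≠ 1 → ∀ φ : G.LL m n ⟶ E⟦i⟧, φ = 0 := by
  obtain ⟨c₁, hc₁⟩ := V.low
  obtain ⟨c₂, hc₂⟩ := V.high
  refine ⟨c₁ + c₂ + 2, ?_⟩
  intro j hj E hE h hF hT h0 m n hm hn i hi φ
  have hQ1 : QC (HH (-1) E) := (hE.2 (-1)).qc
  have hQ0 : QC (HH 0 E) := (hE.2 0).qc
  have hneg : ∀ m n : ℤ, m ≤ -j + 1 → n ≤ -j + 1 → ∀ φ : G.LL m n ⟶ E⟦(-1 : ℤ)⟧, φ = 0 := by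
    intro m n hm hn
    refine hom_two_zero E hE h m n (-1) ?_ (G.hom_zero_cech hQ0 m n (-1) (Or.inl (by norm_num)))
    exact hc₁ (-j + 1) m n hm hn _ (MaB_Fc _ (by lia) hF)
  have key : ∀ m n : ℤ, (m = -j - 1 ∨ m = -j) → (n = -j - 1 ∨ n = -j) →
      ∀ φ : G.LL m n ⟶ E⟦(0 : ℤ)⟧, φ = 0 := by
    have k1 : ∀ φ : G.LL (-j - 1) (-j) ⟶ E⟦(0 : ℤ)⟧, φ = 0 := by
      obtain ⟨T', hT', ⟨i1⟩, ⟨i2⟩, ⟨i3⟩⟩ := G.exists_triangle_B (-(j : ℤ) - 1) (-(j : ℤ))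
      refine MaB_ko3 _ _ _ E T' hT' i1 i2 i3 0 ?_ ?_
      · have e : -(j : ℤ) - 1 + 1 = -j := by ring
        rw [e]
        exact h0
      · exact hneg _ _ (by lia) (by lia)
    have k2 : ∀ φ : G.LL (-j) (-j - 1) ⟶ E⟦(0 : ℤ)⟧, φ = 0 := by
      obtain ⟨T', hT', ⟨i1⟩, ⟨i2⟩, ⟨i3⟩⟩ := G.exists_triangle_Z (-(j : ℤ)) (-(j : ℤ) - 1)
      refine MaB_ko3 _ _ _ E T' hT' i1 i2 i3 0 ?_ ?_
      · have e : -(j : ℤ) - 1 + 1 = -j := by ring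
        rw [e]
        exact h0
      · exact hneg _ _ (by lia) (by lia)
    have k3 : ∀ φ : G.LL (-j - 1) (-j - 1) ⟶ E⟦(0 : ℤ)⟧, φ = 0 := by
      obtain ⟨T', hT', ⟨i1⟩, ⟨i2⟩, ⟨i3⟩⟩ := G.exists_triangle_B (-(j : ℤ) - 1) (-(j : ℤ) - 1)
      refine MaB_ko3 _ _ _ E T' hT' i1 i2 i3 0 ?_ ?_
      · have e : -(j : ℤ) - 1 + 1 = -j := by ring
        rw [e]
        exact k2
      · exact hneg _ _ (by lia) (by lia)
    rintro m n (rfl | rfl) (rfl | rfl)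
    · exact k3
    · exact k1
    · exact k2
    · exact h0
  rcases lt_or_ge i (-1) with h1 | h1
  · exact hom_two_zero E hE h m n i (G.hom_zero_cech hQ1 m n (i + 1) (Or.inl (by lia)))
      (G.hom_zero_cech hQ0 m n i (Or.inl (by lia))) φ
  rcases lt_or_ge 2 i with h2 | h2
  · exact hom_two_zero E hE h m n i (G.hom_zero_cech hQ1 m n (i + 1) (Or.inr (by lia)))
      (G.hom_zero_cech hQ0 m n i (Or.inr (by lia))) φ
  obtain rfl | rfl | rfl : i = -1 ∨ i = 0 ∨ i = 2 := by lia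
  · exact hneg m n (by lia) (by lia) φ
  · exact key m n (by lia) (by lia) φ
  · refine hom_two_zero E hE h m n 2 (G.hom_zero_cech hQ1 m n (2 + 1) (Or.inr (by norm_num))) ?_ φ
    exact hc₂ (-j - 1) m n (by lia) (by lia) _ (RDX.Tc_mono _ (by push_cast; lia) hT)

/-- Case 2: only `H^0` at the twists `(j, j), …, (j+1, j+1)`. `i ≤ -2`: clear. `i = -1`: `h^0(M(m,n)) = 0` by `V.low` (`M = j + 1`, `HH (-1) E ∈ F(-(2j+2+c))`). `i = 2`: `h^2(N(m,n)) = 0` for `m, n ≥ j - 1` by `V.high` (`M = j - 1`, `2j - 2 ≥ c`). `i ≥ 3`: clear.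
`i = 1`: at `(j,j)`: hypothesis. At `(j+1, j)`: Koszul triangle `O(-j-1,-j) → O(-j,-j)² → O(-j+1,-j)`: a map `O(-j-1,-j) → E[1]` is the restriction of a map of `O(-j,-j)²` since `Hom(O(-j+1,-j), E[2]) = 0`. Similarly the others. -/
theorem single_case2 (T : G.Split (FO X) ι) (V : Van T) : ∃ c : ℕ, ∀ j : ℕ, c ≤ j →
    ∀ E : DMod X, dbCoh X E → (∀ i : ℤ, i ≠ -1 → i ≠ 0 → IsZero (HH i E)) →
      ((qq T).sh (-((2 * j + 2 + c : ℕ) : ℤ))).Fc (HH (-1) E) → (qq T).Tc (HH 0 E) →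
      (∀ φ : G.LL j j ⟶ E⟦(1 : ℤ)⟧, φ = 0) →
      ∀ m n : ℤ, (m = j ∨ m = j + 1) → (n = j ∨ n = j + 1) →
        ∀ i : ℤ, i ≠ 0 → ∀ φ : G.LL m n ⟶ E⟦i⟧, φ = 0 := by
  obtain ⟨c₁, hc₁⟩ := V.low
  obtain ⟨c₂, hc₂⟩ := V.high
  refine ⟨c₁ + c₂ + 2, ?_⟩
  intro j hj E hE h hF hT h0 m n hm hn i hi φ
  have hQ1 : QC (HH (-1) E) := (hE.2 (-1)).qc
  have hQ0 : QC (HH 0 E) := (hE.2 0).qc
  have hpos : ∀ m n : ℤ, (j : ℤ) - 1 ≤ m → (j : ℤ) - 1 ≤ n →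
      ∀ φ : G.LL m n ⟶ E⟦(2 : ℤ)⟧, φ = 0 := by
    intro m n hm hn
    refine hom_two_zero E hE h m n 2 (G.hom_zero_cech hQ1 m n (2 + 1) (Or.inr (by norm_num))) ?_
    exact hc₂ (j - 1) m n hm hn _ (MaB_Tc _ (by lia) hT)
  have key : ∀ m n : ℤ, (m = j ∨ m = j + 1) → (n = j ∨ n = j + 1) →
      ∀ φ : G.LL m n ⟶ E⟦(1 : ℤ)⟧, φ = 0 := by
    have k1 : ∀ φ : G.LL (j + 1) j ⟶ E⟦(1 : ℤ)⟧, φ = 0 := by
      obtain ⟨T', hT', ⟨i1⟩, ⟨i2⟩, ⟨i3⟩⟩ := G.exists_triangle_B ((j : ℤ) - 1) (j : ℤ)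
      have e1 : (j : ℤ) - 1 + 2 = j + 1 := by ring
      have e2 : (j : ℤ) - 1 + 1 = j := by ring
      rw [e1] at i1
      rw [e2] at i2
      exact MaB_ko1 _ _ _ E T' hT' i1 i2 i3 1 h0 (hpos _ _ (by lia) (by lia))
    have k2 : ∀ φ : G.LL j (j + 1) ⟶ E⟦(1 : ℤ)⟧, φ = 0 := by
      obtain ⟨T', hT', ⟨i1⟩, ⟨i2⟩, ⟨i3⟩⟩ := G.exists_triangle_Z (j : ℤ) ((j : ℤ) - 1)
      have e1 : (j : ℤ) - 1 + 2 = j + 1 := by ring
      have e2 : (j : ℤ) - 1 + 1 = j := by ring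
      rw [e1] at i1
      rw [e2] at i2
      exact MaB_ko1 _ _ _ E T' hT' i1 i2 i3 1 h0 (hpos _ _ (by lia) (by lia))
    have k3 : ∀ φ : G.LL (j + 1) (j + 1) ⟶ E⟦(1 : ℤ)⟧, φ = 0 := by
      obtain ⟨T', hT', ⟨i1⟩, ⟨i2⟩, ⟨i3⟩⟩ := G.exists_triangle_B ((j : ℤ) - 1) ((j : ℤ) + 1)
      have e1 : (j : ℤ) - 1 + 2 = j + 1 := by ring
      have e2 : (j : ℤ) - 1 + 1 = j := by ring
      rw [e1] at i1
      rw [e2] at i2
      exact MaB_ko1 _ _ _ E T' hT' i1 i2 i3 1 k2 (hpos _ _ (by lia) (by lia))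
    rintro m n (rfl | rfl) (rfl | rfl)
    · exact h0
    · exact k2
    · exact k1
    · exact k3
  rcases lt_or_ge i (-1) with h1 | h1
  · exact hom_two_zero E hE h m n i (G.hom_zero_cech hQ1 m n (i + 1) (Or.inl (by lia)))
      (G.hom_zero_cech hQ0 m n i (Or.inl (by lia))) φ
  rcases lt_or_ge 2 i with h2 | h2
  · exact hom_two_zero E hE h m n i (G.hom_zero_cech hQ1 m n (i + 1) (Or.inr (by lia)))
      (G.hom_zero_cech hQ0 m n i (Or.inr (by lia))) φ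
  obtain rfl | rfl | rfl : i = -1 ∨ i = 1 ∨ i = 2 := by lia
  · refine hom_two_zero E hE h m n (-1) ?_
      (G.hom_zero_cech hQ0 m n (-1) (Or.inl (by norm_num))) φ
    exact hc₁ (j + 1) m n (by lia) (by lia) _ (RDX.Fc_mono _ (by push_cast; lia) hF)
  · exact key m n hm hn φ
  · exact hpos m n (by lia) (by lia) φ

end BiP

end M21.E3
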