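import Pool.Agent.H.MP_21b43d_ag.E3.TNoeth
import Pool.Agent.H.MP_21b43d_ag.E3.Cmp

/-!
# M21, full support, V-M: truncations of slopes in the tilted heart
-/

set_option autoImplicit false

open CategoryTheory CategoryTheory.Limits CategoryTheory.Pretriangulated
  CategoryTheory.Triangulated

universe w v u

noncomputable section

namespace M21.E3

variable {𝒞 : Type u} [Category.{v} 𝒞] [Abelian 𝒞] [HasDerivedCategory.{w} 𝒞]

/-- the cohomology of `N[0]` -/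
private theorem zero0_MaC (N : 𝒞) (n : ℤ) (hn : n ≠ 0) :
    IsZero (HH n ((DerivedCategory.singleFunctor 𝒞 0).obj N)) := by
  rcases lt_or_gt_of_ne hn with h | h
  · exact DerivedCategory.isZero_of_isGE _ 0 n h
  · exact DerivedCategory.isZero_of_isLE _ 0 n h

/-- the cohomology of `N[1]` -/
private theorem zero1_MaC (N : 𝒞) (n : ℤ) (hn : n ≠ -1) :
    IsZero (HH n (((DerivedCategory.singleFunctor 𝒞 0).obj N)⟦(1 : ℤ)⟧)) := by
  have sh : HH n (((DerivedCategory.singleFunctor 𝒞 0).obj N)⟦(1 : ℤ)⟧) ≅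
      HH (1 + n) ((DerivedCategory.singleFunctor 𝒞 0).obj N) :=
    ((DerivedCategory.homologyFunctor 𝒞 0).shiftIso (1 : ℤ) n (1 + n) rfl).app _
  exact (zero0_MaC N (1 + n) (by omega)).of_iso sh

/-- `H^{-1}(N[1]) ≅ N`, naturally -/
private def nat_MaC : (DerivedCategory.singleFunctor 𝒞 0 ⋙
    shiftFunctor (DerivedCategory 𝒞) (1 : ℤ)) ⋙ DerivedCategory.homologyFunctor 𝒞 (-1) ≅ 𝟭 𝒞 :=
  Functor.associator _ _ _ ≪≫ Functor.isoWhiskerLeft (DerivedCategory.singleFunctor 𝒞 0)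
    ((DerivedCategory.homologyFunctor 𝒞 0).shiftIso (1 : ℤ) (-1) 0 (by lia)) ≪≫
    DerivedCategory.singleFunctorCompHomologyFunctorIso 𝒞 0

/-- the map `K → H^0(K)[0]` for `K ≤ 0` -/
private theorem top_MaC (K : DerivedCategory 𝒞) (hK : ∀ i, 0 < i → IsZero (HH i K)) :
    ∃ (M : 𝒞) (m : K ⟶ (DerivedCategory.singleFunctor 𝒞 0).obj M),
      IsIso ((DerivedCategory.homologyFunctor 𝒞 0).map m) := by
  obtain ⟨A', A'', hA', hA'', i, p, e, hT'⟩ :=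
    DerivedCategory.TStructure.t.exists_triangle K (-1) 0 (by lia)
  have hA'i : A'.IsLE (-1) := ⟨hA'⟩
  have hA''i : A''.IsGE 0 := ⟨hA''⟩
  have hA''l : A''.IsLE 0 := by
    rw [DerivedCategory.isLE_iff]
    intro n hn
    exact isZero3a_Tilt1 hT' n (n + 1) rfl (hK n hn)
      (A'.isZero_of_isLE (-1) (n + 1) (by lia))
  obtain ⟨M, ⟨u⟩⟩ := DerivedCategory.exists_iso_singleFunctor_obj_of_isGE_of_isLE A'' 0
  have hp : IsIso ((DerivedCategory.homologyFunctor 𝒞 0).map p) := by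
    have h1 : Mono ((DerivedCategory.homologyFunctor 𝒞 0).map p) :=
      mono2_Tilt1 hT' 0 (A'.isZero_of_isLE (-1) 0 (by lia))
    have h2 : Epi ((DerivedCategory.homologyFunctor 𝒞 0).map p) :=
      epi2_Tilt1 hT' 0 1 (by lia) (A'.isZero_of_isLE (-1) 1 (by lia))
    exact isIso_of_mono_of_epi _
  refine ⟨M, p ≫ u.hom, ?_⟩
  rw [Functor.map_comp]
  infer_instance

/-- the map `H^{-1}(K)[1] → K` for `K ≥ -1` -/
private theorem bot_MaC (K : DerivedCategory 𝒞) (hK : ∀ i, i < -1 → IsZero (HH i K)) :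
    ∃ (M : 𝒞) (m : ((DerivedCategory.singleFunctor 𝒞 0).obj M)⟦(1 : ℤ)⟧ ⟶ K),
      IsIso ((DerivedCategory.homologyFunctor 𝒞 (-1)).map m) := by
  obtain ⟨A', A'', hA', hA'', i, p, e, hT'⟩ :=
    DerivedCategory.TStructure.t.exists_triangle K (-1) 0 (by lia)
  have hA'i : A'.IsLE (-1) := ⟨hA'⟩
  have hA''i : A''.IsGE 0 := ⟨hA''⟩
  have hA'l : A'.IsGE (-1) := by
    rw [DerivedCategory.isGE_iff]
    intro n hn
    exact isZero1a_Tilt1 hT' (n - 1) n (by lia) (A''.isZero_of_isGE 0 (n - 1) (by lia))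
      (hK n hn)
  obtain ⟨M, ⟨u⟩⟩ := DerivedCategory.exists_iso_singleFunctor_obj_of_isGE_of_isLE A' (-1)
  have hi : IsIso ((DerivedCategory.homologyFunctor 𝒞 (-1)).map i) := by
    have h1 : Mono ((DerivedCategory.homologyFunctor 𝒞 (-1)).map i) :=
      mono1_Tilt1 hT' (-2) (-1) (by lia) (A''.isZero_of_isGE 0 (-2) (by lia))
    have h2 : Epi ((DerivedCategory.homologyFunctor 𝒞 (-1)).map i) :=
      epi1_Tilt1 hT' (-1) (A''.isZero_of_isGE 0 (-1) (by lia))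
    exact isIso_of_mono_of_epi _
  refine ⟨M, ((DerivedCategory.singleFunctors 𝒞).shiftIso 1 (-1) 0 (by lia)).hom.app M ≫
    u.inv ≫ i, ?_⟩
  rw [Functor.map_comp, Functor.map_comp]
  infer_instance

variable {W : ObjectProperty 𝒞}

private theorem Tc_MaC (q : RDX W) (K : ℕ) {M : 𝒞} (h : (q.sh K).Tc M) : q.Tc M := by
  refine ⟨h.1, fun Q p hp hQ hz => ?_⟩
  have h1 := h.2 Q p hp hQ hz
  have h2 := q.r_nonneg Q hQ.1
  rw [RDX.sh_D] at h1
  have h3 : 0 ≤ (K : ℤ) * q.r Q := mul_nonneg (Int.natCast_nonneg K) h2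
  linarith

private theorem Fc_MaC (q : RDX W) (K : ℕ) {M : 𝒞} (h : (q.sh (-K)).Fc M) : q.Fc M := by
  refine ⟨h.1, fun N i hi hN => ?_⟩
  have h1 := h.2 N i hi hN
  have h2 := q.r_nonneg N hN
  rw [RDX.sh_D] at h1
  have h3 : 0 ≤ (K : ℤ) * q.r N := mul_nonneg (Int.natCast_nonneg K) h2
  linarith

variable [(dbW W).IsTriangulated]

/-- a distinguished triangle with all terms in the tilted heart is a short exact sequence -/
private theorem ses_MaC (hW : WSerre W) (q : RDX W) {X Y Z : DerivedCategory 𝒞} {f : X ⟶ Y}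
    {g : Y ⟶ Z} {δ : Z ⟶ X⟦(1 : ℤ)⟧}
    (hT : Triangle.mk f g δ ∈ distTriang (DerivedCategory 𝒞)) (hX : dbW W X) (hY : dbW W Y)
    (hZ : dbW W Z) (h₁ : (tilt hW q).heart ⟨X, hX⟩) (h₂ : (tilt hW q).heart ⟨Y, hY⟩)
    (h₃ : (tilt hW q).heart ⟨Z, hZ⟩) :
    ∃ (i : (⟨⟨X, hX⟩, h₁⟩ : Hrt (tilt hW q)) ⟶ ⟨⟨Y, hY⟩, h₂⟩)
      (p : (⟨⟨Y, hY⟩, h₂⟩ : Hrt (tilt hW q)) ⟶ ⟨⟨Z, hZ⟩, h₃⟩) (w : i ≫ p = 0),
      (ShortComplex.mk i p w).ShortExact := by
  let X' : (dbW W).FullSubcategory := ⟨X, hX⟩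
  let Y' : (dbW W).FullSubcategory := ⟨Y, hY⟩
  let Z' : (dbW W).FullSubcategory := ⟨Z, hZ⟩
  let f' : X' ⟶ Y' := (dbW W).ι.preimage (X := X') (Y := Y') f
  let g' : Y' ⟶ Z' := (dbW W).ι.preimage (X := Y') (Y := Z') g
  let δ' : Z' ⟶ X'⟦(1 : ℤ)⟧ := (dbW W).ι.preimage (X := Z') (Y := X'⟦(1 : ℤ)⟧)
    (δ ≫ (((dbW W).ι.commShiftIso (1 : ℤ)).app X').inv)
  have hT' : Triangle.mk f' g' δ' ∈ distTriang (dbW W).FullSubcategory := by
    change (dbW W).ι.mapTriangle.obj (Triangle.mk f' g' δ') ∈ distTriang (DerivedCategory 𝒞)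
    refine isomorphic_distinguished _ hT _ ?_
    refine Triangle.isoMk _ _ (Iso.refl X) (Iso.refl Y) (Iso.refl Z) ?_ ?_ ?_
    · change (dbW W).ι.map f' ≫ 𝟙 _ = 𝟙 _ ≫ f
      rw [Category.comp_id, Category.id_comp]
      exact (dbW W).ι.map_preimage _
    · change (dbW W).ι.map g' ≫ 𝟙 _ = 𝟙 _ ≫ g
      rw [Category.comp_id, Category.id_comp]
      exact (dbW W).ι.map_preimage _
    · have h1 : (dbW W).ι.map δ' = δ ≫ (((dbW W).ι.commShiftIso (1 : ℤ)).app X').inv :=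
        (dbW W).ι.map_preimage _
      have h2 : (shiftFunctor (DerivedCategory 𝒞) (1 : ℤ)).map (𝟙 X) = 𝟙 _ :=
        CategoryTheory.Functor.map_id _ _
      have h3 : ((dbW W).ι.map δ' ≫ ((dbW W).ι.commShiftIso (1 : ℤ)).hom.app X') = δ := by
        rw [h1, Category.assoc]
        exact (congrArg (δ ≫ ·) ((((dbW W).ι.commShiftIso (1 : ℤ)).app X').inv_hom_id)).trans
          (Category.comp_id _)
      exact (congrArg₂ (fun a b => a ≫ b) h3 h2).trans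
        ((Category.comp_id δ).trans (Category.id_comp δ).symm)
  obtain ⟨i, p, w, h, -, -⟩ := exists_ses_of_triangle (tilt hW q) _ hT' h₁ h₂ h₃
  exact ⟨i, p, w, h⟩

/-- The quotient `N_K` of `H^0(E)` in `F(K)`: `0 → N' → H^0(E) → N → 0`, `N'` in `T(K)` (`exists_ses` for `q.sh K`). `N` is a quotient of `H^0(E) ∈ T`, so in `T` (`Tc_quot`), so it is in the heart. Let `g : E → H^0(E) → N` (`E → SS (H^0 E)` is the truncation,
`E` is in degrees `≤ 0`), `E'` its cocone (triangle `E' → E → SS N`). Long exact sequence: `H^{-1}(E') = H^{-1}(E)`, `H^0(E') = ker (H^0(E) → N) = N'`, `H^1(E') = coker = 0`, other `H^i = 0`. So `E'` is in the heart (`Tc_mono`: `N' ∈ T(K) ⊆ T(0)`), and a triangle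
with all objects in the heart is a short exact sequence in the heart (lemma in `HeartAb`; see also the proofs in `TNoeth`). -/
theorem heart_quot (hW : WSerre W) (q : RDX W) (E : Hrt (tilt hW q)) (K : ℕ) :
    ∃ (E' Q : Hrt (tilt hW q)) (i : E' ⟶ E) (p : E ⟶ Q) (w : i ≫ p = 0) (N : 𝒞)
      (_ : Q.obj.obj ≅ (DerivedCategory.singleFunctor 𝒞 0).obj N),
      (ShortComplex.mk i p w).ShortExact ∧ q.Tc N ∧ (q.sh K).Fc N ∧
      (q.sh K).Tc (HH 0 E'.obj.obj) ∧ Nonempty (HH (-1) E'.obj.obj ≅ HH (-1) E.obj.obj) ∧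
      ∀ e : 𝒞 → ℤ, AddOn W e → e (HH 0 E.obj.obj) = e (HH 0 E'.obj.obj) + e N := by
  have hE := (tilt_heart_iff hW q E.obj).1 E.property
  have hEW : ∀ i, W (HH i E.obj.obj) := E.obj.property.2
  obtain ⟨M, m, hm⟩ := top_MaC E.obj.obj (fun i hi => hE.1 i (by omega) (by omega))
  let σ := DerivedCategory.singleFunctorCompHomologyFunctorIso 𝒞 0
  let e0 : HH 0 E.obj.obj ≅ M := asIso ((DerivedCategory.homologyFunctor 𝒞 0).map m) ≪≫ σ.app M
  have hMW : W M := hW.iso e0 (hEW 0)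
  obtain ⟨S, hS, rfl, hTc, hFc⟩ := (q.sh K).exists_ses hW M hMW
  have hST : W S.X₁ := hTc.1
  have hSF : W S.X₃ := hFc.1.1
  let F₀ := (DerivedCategory.singleFunctor 𝒞 0).obj S.X₃
  let p : E.obj.obj ⟶ F₀ := m ≫ (DerivedCategory.singleFunctor 𝒞 0).map S.g
  have hF₀z : ∀ n, n ≠ 0 → IsZero (HH n F₀) := zero0_MaC S.X₃
  obtain ⟨X, x, w, hT⟩ := distinguished_cocone_triangle₁ p
  have htri := dbW_triangulated hW
  have hcl : (dbW W).IsClosedUnderIsomorphisms := ⟨fun e h => dbW_iso hW e h⟩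
  have hF₀ : dbW W F₀ := dbW_single hW _ hSF 0
  have hX : dbW W X := (dbW W).ext_of_isTriangulatedClosed₁ _ hT E.obj.property hF₀
  have hp : (DerivedCategory.homologyFunctor 𝒞 0).map p ≫ (σ.app S.X₃).hom =
      e0.hom ≫ S.g := by
    have e := σ.hom.naturality S.g
    simp only [Functor.comp_map, Functor.id_map] at e
    simp only [p, e0, Functor.map_comp, Iso.trans_hom, asIso_hom, Category.assoc, Iso.app_hom, e]
  have hpe : Epi ((DerivedCategory.homologyFunctor 𝒞 0).map p) := by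
    have := hS.epi_g
    have h1 : (DerivedCategory.homologyFunctor 𝒞 0).map p =
        (e0.hom ≫ S.g) ≫ (σ.app S.X₃).inv := by
      rw [← hp, Category.assoc, Iso.hom_inv_id, Category.comp_id]
    rw [h1]
    infer_instance
  have hX0 : ∀ i, i ≠ -1 → i ≠ 0 → IsZero (HH i X) := by
    intro i hi hi'
    rcases lt_trichotomy i 1 with h1 | h1 | h1
    · exact isZero1a_Tilt1 hT (i - 1) i (by lia) (hF₀z (i - 1) (by lia)) (hE.1 i hi hi')
    · subst h1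
      exact isZero1_Tilt1 hT 0 1 (by lia) hpe ((hE.1 1 (by omega) (by omega)).mono _)
    · exact isZero1a_Tilt1 hT (i - 1) i (by lia) (hF₀z (i - 1) (by lia)) (hE.1 i hi hi')
  have hxm : ∀ i, i ≤ 0 → Mono ((DerivedCategory.homologyFunctor 𝒞 i).map x) :=
    fun i hi => mono1_Tilt1 hT (i - 1) i (by lia) (hF₀z (i - 1) (by lia))
  have hxe : Epi ((DerivedCategory.homologyFunctor 𝒞 (-1)).map x) :=
    epi1_Tilt1 hT (-1) (hF₀z (-1) (by lia))
  have hx1 : IsIso ((DerivedCategory.homologyFunctor 𝒞 (-1)).map x) := by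
    have := hxm (-1) (by lia)
    exact isIso_of_mono_of_epi _
  let e1 : HH (-1) X ≅ HH (-1) E.obj.obj := asIso ((DerivedCategory.homologyFunctor 𝒞 (-1)).map x)
  obtain ⟨e₁, -⟩ := iso1_Tilt1 (ShortComplex.mk ((DerivedCategory.homologyFunctor 𝒞 0).map x)
    ((DerivedCategory.homologyFunctor 𝒞 0).map p) _) S
    (DerivedCategory.HomologySequence.exact₂ _ hT 0) hS.exact (hxm 0 le_rfl) hS.mono_f e0
    (σ.app S.X₃) hp
  have e₁' : HH 0 X ≅ S.X₁ := e₁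
  have hTX : (q.sh K).Tc (HH 0 X) := (q.sh K).Tc_iso hW e₁'.symm hTc
  have hN : q.Tc S.X₃ := by
    have := hS.epi_g
    exact q.Tc_quot hW (e0.hom ≫ S.g) (epi_comp _ _) hSF hE.2.1
  have hh1 : (tilt hW q).heart ⟨X, hX⟩ := (tilt_heart_iff hW q _).2
    ⟨hX0, Tc_MaC q K hTX, q.Fc_iso hW e1.symm hE.2.2⟩
  have hh3 : (tilt hW q).heart ⟨F₀, hF₀⟩ := (tilt_heart_iff hW q _).2
    ⟨fun i _ hi => hF₀z i hi, q.Tc_iso hW (σ.app S.X₃).symm hN,
      Fc_zero_tilt hW q (hF₀z (-1) (by omega))⟩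
  obtain ⟨i, p', w', hse⟩ := ses_MaC hW q hT hX E.obj.property hF₀ hh1 E.property hh3
  refine ⟨⟨⟨X, hX⟩, hh1⟩, ⟨⟨F₀, hF₀⟩, hh3⟩, i, p', w', S.X₃, Iso.refl _, hse, hN, hFc, hTX,
    ⟨e1⟩, fun e he => ?_⟩
  have h1 := he S hS hST hMW hSF
  have h2 := e_iso_DbW2 hW he e0 (hEW 0)
  have h3 := e_iso_DbW2 hW he e₁' (hX.2 0)
  rw [h2, h1, ← h3]

/-- The part `M_K` of `H^{-1}(E)` in `T(-K)`: `0 → M → H^{-1}(E) → M'' → 0`, `M ∈ T(-K)`, `M'' ∈ F(-K)`. `M` is a subobject of `H^{-1}(E) ∈ F`, so in `F`, `M[1]` is in the heart; `M[1] → H^{-1}(E)[1] → E` with cone `E''`: `H^{-1}(E'') = M''`, `H^0(E'') = H^0(E)`. -/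
theorem heart_sub (hW : WSerre W) (q : RDX W) (E : Hrt (tilt hW q)) (K : ℕ) :
    ∃ (L E'' : Hrt (tilt hW q)) (i : L ⟶ E) (p : E ⟶ E'') (w : i ≫ p = 0) (M : 𝒞)
      (_ : L.obj.obj ≅ ((DerivedCategory.singleFunctor 𝒞 0).obj M)⟦(1 : ℤ)⟧),
      (ShortComplex.mk i p w).ShortExact ∧ (q.sh (-K)).Tc M ∧ q.Fc M ∧
      (q.sh (-K)).Fc (HH (-1) E''.obj.obj) ∧ Nonempty (HH 0 E''.obj.obj ≅ HH 0 E.obj.obj) ∧
      ∀ e : 𝒞 → ℤ, AddOn W e → e (HH (-1) E.obj.obj) = e M + e (HH (-1) E''.obj.obj) := by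
  have hE := (tilt_heart_iff hW q E.obj).1 E.property
  have hEW : ∀ i, W (HH i E.obj.obj) := E.obj.property.2
  obtain ⟨M, m, hm⟩ := bot_MaC E.obj.obj (fun i hi => hE.1 i (by omega) (by omega))
  let e0 : HH (-1) E.obj.obj ≅ M :=
    (asIso ((DerivedCategory.homologyFunctor 𝒞 (-1)).map m)).symm ≪≫ nat_MaC.app M
  have hMW : W M := hW.iso e0 (hEW (-1))
  obtain ⟨S, hS, rfl, hTc, hFc⟩ := (q.sh (-K)).exists_ses hW M hMW
  have hST : W S.X₁ := hTc.1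
  have hSF : W S.X₃ := hFc.1.1
  let L := ((DerivedCategory.singleFunctor 𝒞 0).obj S.X₁)⟦(1 : ℤ)⟧
  let f : L ⟶ E.obj.obj := ((DerivedCategory.singleFunctor 𝒞 0).map S.f)⟦(1 : ℤ)⟧' ≫ m
  have hLz : ∀ n, n ≠ -1 → IsZero (HH n L) := zero1_MaC S.X₁
  let e1 : HH (-1) L ≅ S.X₁ := nat_MaC.app S.X₁
  obtain ⟨Y, g, δ, hT⟩ := distinguished_cocone_triangle f
  have htri := dbW_triangulated hW
  have hcl : (dbW W).IsClosedUnderIsomorphisms := ⟨fun e h => dbW_iso hW e h⟩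
  have hL : dbW W L := (dbW W).le_shift (1 : ℤ) _ (dbW_single hW _ hST 0)
  have hY : dbW W Y := (dbW W).ext_of_isTriangulatedClosed₃ _ hT hL E.obj.property
  have hf : (DerivedCategory.homologyFunctor 𝒞 (-1)).map f ≫ e0.hom = e1.hom ≫ S.f := by
    have e := (nat_MaC (𝒞 := 𝒞)).hom.naturality S.f
    simp only [Functor.comp_map, Functor.id_map] at e
    simp only [f, e0, e1, Functor.map_comp, Iso.trans_hom, Iso.symm_hom, asIso_inv,
      Category.assoc, Iso.app_hom, IsIso.hom_inv_id_assoc, e]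
  have hfm : Mono ((DerivedCategory.homologyFunctor 𝒞 (-1)).map f) := by
    have := hS.mono_f
    have h1 : (DerivedCategory.homologyFunctor 𝒞 (-1)).map f = (e1.hom ≫ S.f) ≫ e0.inv := by
      rw [← hf, Category.assoc, Iso.hom_inv_id, Category.comp_id]
    rw [h1]
    infer_instance
  have hY0 : ∀ i, i ≠ -1 → i ≠ 0 → IsZero (HH i Y) := by
    intro i hi hi'
    by_cases h1 : i = -2
    · subst h1
      exact isZero3_Tilt1 hT (-2) (-1) (by lia) ((hE.1 (-2) (by omega) (by omega)).epi _) hfm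
    · exact isZero3a_Tilt1 hT i (i + 1) rfl (hE.1 i hi hi') (hLz (i + 1) (by omega))
  have hg0 : IsIso ((DerivedCategory.homologyFunctor 𝒞 0).map g) := by
    have h1 : Mono ((DerivedCategory.homologyFunctor 𝒞 0).map g) :=
      mono2_Tilt1 hT 0 (hLz 0 (by omega))
    have h2 : Epi ((DerivedCategory.homologyFunctor 𝒞 0).map g) :=
      epi2_Tilt1 hT 0 1 (by lia) (hLz 1 (by omega))
    exact isIso_of_mono_of_epi _
  let e2 : HH 0 E.obj.obj ≅ HH 0 Y := asIso ((DerivedCategory.homologyFunctor 𝒞 0).map g)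
  obtain ⟨e3⟩ := iso3_Tilt1 (ShortComplex.mk ((DerivedCategory.homologyFunctor 𝒞 (-1)).map f)
    ((DerivedCategory.homologyFunctor 𝒞 (-1)).map g) _) S
    (DerivedCategory.HomologySequence.exact₂ _ hT (-1)) hS.exact
    (epi2_Tilt1 hT (-1) 0 (by lia) (hLz 0 (by omega))) hS.epi_g e1 e0 hf
  have e3' : HH (-1) Y ≅ S.X₃ := e3
  have hFY : (q.sh (-K)).Fc (HH (-1) Y) := (q.sh (-K)).Fc_iso hW e3'.symm hFc
  have hM : q.Fc S.X₁ := by
    have := hS.mono_f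
    exact q.Fc_sub hW (S.f ≫ e0.inv) (mono_comp _ _) hST hE.2.2
  have hh1 : (tilt hW q).heart ⟨L, hL⟩ := (tilt_heart_iff hW q _).2
    ⟨fun i hi _ => hLz i hi, Tc_zero_tilt hW q (hLz 0 (by omega)), q.Fc_iso hW e1.symm hM⟩
  have hh3 : (tilt hW q).heart ⟨Y, hY⟩ := (tilt_heart_iff hW q _).2
    ⟨hY0, q.Tc_iso hW e2 hE.2.1, Fc_MaC q K hFY⟩
  obtain ⟨i, p', w', hse⟩ := ses_MaC hW q hT hL E.obj.property hY hh1 E.property hh3
  refine ⟨⟨⟨L, hL⟩, hh1⟩, ⟨⟨Y, hY⟩, hh3⟩, i, p', w', S.X₁, Iso.refl _, hse, hTc, hM, hFY,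
    ⟨e2.symm⟩, fun e he => ?_⟩
  have h1 := he S hS hST hMW hSF
  have h2 := e_iso_DbW2 hW he e0 (hEW (-1))
  have h3 := e_iso_DbW2 hW he e3' (hY.2 (-1))
  rw [h2, h1, ← h3]

end M21.E3
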