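import Pool.Agent.H.MP_21b43d_ag.E3.HNab

/-!
# M21, full support, V-N: numerical consequences of semistability
-/

set_option autoImplicit false

open CategoryTheory CategoryTheory.Limits

universe v u

namespace M21.E3

variable {A : Type u} [Category.{v} A] [Abelian A] {c : Charge A}

theorem numV_ph_le {E F : A} (hE : ¬ IsZero E) (hF : ¬ IsZero F) (h : c.ph E ≤ c.ph F) :
    c.m E * c.D F ≤ c.m F * c.D E := by
  rw [← not_lt, c.ph_lt_iff hF hE, not_lt] at h
  exact h

theorem numV_epi {E Q : A} (p : E ⟶ Q) (hp : Epi p) :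
    c.D E = c.D (kernel p) + c.D Q ∧ c.m E = c.m (kernel p) + c.m Q := by
  have hS : (ShortComplex.mk (kernel.ι p) p (kernel.condition p)).ShortExact :=
    { exact := ShortComplex.exact_of_f_is_kernel _ (kernelIsKernel p)
      mono_f := inferInstance
      epi_g := hp }
  exact ⟨c.D_add _ hS, c.m_add _ hS⟩

theorem numV_mono {E L : A} (i : L ⟶ E) (hi : Mono i) :
    c.D E = c.D L + c.D (cokernel i) ∧ c.m E = c.m L + c.m (cokernel i) := by
  have hS : (ShortComplex.mk i (cokernel.π i) (cokernel.condition i)).ShortExact :=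
    { exact := ShortComplex.exact_of_g_is_cokernel _ (cokernelIsCokernel i)
      mono_f := hi
      epi_g := inferInstance }
  exact ⟨c.D_add _ hS, c.m_add _ hS⟩

theorem numV_image {E F : A} {f : E ⟶ F} (hf : f ≠ 0) : ¬ IsZero (Abelian.image f) := by
  intro hI
  apply hf
  rw [← Abelian.image.fac f, hI.eq_of_src (Abelian.image.ι f) 0, comp_zero]

/-- Quotients of a semistable object: `- m Q ≤ |m E|`. If `D E = 0` then `ph E = 1`, so `ph Q = 1`
(if `Q ≠ 0`; if `Q = 0` then `m Q = 0`), `D Q = 0` and `m Q ≥ 0` (`m_pos`). If `D E > 0`: if `D Q = 0` again `m Q ≥ 0`;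
otherwise `ph E ≤ ph Q` says `m E / D E ≤ m Q / D Q` (phases are increasing in `m / D`; use `ph_lt_iff`
or the analogous lemma in `HNab`, `HNab2`, `HNab3`), and `D Q ≤ D E`. -/
theorem Charge.SS.quot_ge {E Q : A} (hE : c.SS E) (p : E ⟶ Q) (hp : Epi p) :
    - c.m Q ≤ |c.m E| := by
  have habs := abs_nonneg (c.m E)
  by_cases hQ : IsZero Q
  · rw [c.zero_m_HNab hQ]
    omega
  rcases le_or_gt 0 (c.m Q) with h0 | h0
  · omega
  have h1 := numV_ph_le hE.1 hQ (c.ss_quot hE p hp hQ)
  have h2 := (numV_epi (c := c) p hp).1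
  have h3 := c.D_nonneg (kernel p)
  have h4 : 0 < c.D Q := by
    rcases (c.D_nonneg Q).eq_or_lt with h | h
    · have := c.m_pos Q h.symm hQ
      omega
    · exact h
  have h5 : c.m E * c.D Q ≤ c.m Q * c.D Q := by nlinarith
  have h6 : c.m E ≤ c.m Q := le_of_mul_le_mul_right h5 h4
  have h7 := neg_abs_le (c.m E)
  omega

/-- Subobjects of a semistable object: `m L ≤ |m E|`. If `D E = 0` then `D L = 0` and
`m E = m L + m (E/L) ≥ m L`. If `D E > 0`: `L = 0` is clear; `D L = 0`, `L ≠ 0` is impossible (phase 1 > `ph E`);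
otherwise `m L / D L ≤ m E / D E` and `D L ≤ D E`. -/
theorem Charge.SS.sub_le {E L : A} (hE : c.SS E) (i : L ⟶ E) (hi : Mono i) :
    c.m L ≤ |c.m E| := by
  have habs := abs_nonneg (c.m E)
  by_cases hL : IsZero L
  · rw [c.zero_m_HNab hL]
    exact habs
  rcases le_or_gt (c.m L) 0 with h0 | h0
  · omega
  have h1 := numV_ph_le hL hE.1 (hE.2 L i hi hL)
  obtain ⟨h2, h2'⟩ := numV_mono (c := c) i hi
  have h3 := c.D_nonneg (cokernel i)
  have h4 := c.D_nonneg L
  have h7 := le_abs_self (c.m E)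
  rcases (c.D_nonneg E).eq_or_lt with h5 | h5
  · have h6 : c.D (cokernel i) = 0 := by omega
    have h8 : 0 ≤ c.m (cokernel i) := by
      by_cases hz : IsZero (cokernel i)
      · rw [c.zero_m_HNab hz]
      · exact (c.m_pos _ h6 hz).le
    omega
  · have h8 : 0 < c.m L * c.D E := mul_pos h0 h5
    have h9 : 0 < c.m E := by
      by_contra hcon
      push Not at hcon
      nlinarith
    have h10 : c.m L * c.D E ≤ c.m E * c.D E := by nlinarith
    have h11 : c.m L ≤ c.m E := le_of_mul_le_mul_right h10 h5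
    omega

/-- Nonzero subobjects of a semistable object with `m E ≤ 0 < D E`. -/
theorem Charge.SS.sub_nonpos {E L : A} (hE : c.SS E) (hm : c.m E ≤ 0) (hD : 0 < c.D E)
    (i : L ⟶ E) (hi : Mono i) (hL : ¬ IsZero L) : c.m L ≤ 0 ∧ 0 < c.D L := by
  have h1 := numV_ph_le hL hE.1 (hE.2 L i hi hL)
  have h4 := c.D_nonneg L
  have h5 : c.m L ≤ 0 := by
    by_contra hcon
    push Not at hcon
    nlinarith [mul_pos hcon hD]
  refine ⟨h5, ?_⟩
  rcases h4.eq_or_lt with h | h
  · have := c.m_pos L h.symm hL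
    omega
  · exact h

/-- Nonzero quotients of a semistable object with `0 < m E` or `D E = 0`. -/
theorem Charge.SS.quot_pos {E Q : A} (hE : c.SS E) (h : 0 < c.m E ∨ c.D E = 0)
    (p : E ⟶ Q) (hp : Epi p) (hQ : ¬ IsZero Q) : 0 < c.m Q := by
  have h1 := numV_ph_le hE.1 hQ (c.ss_quot hE p hp hQ)
  have h2 := (numV_epi (c := c) p hp).1
  have h3 := c.D_nonneg (kernel p)
  rcases (c.D_nonneg Q).eq_or_lt with h4 | h4
  · exact c.m_pos Q h4.symm hQ
  · rcases h with h | h
    · have h5 := mul_pos h h4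
      have h6 := c.D_nonneg E
      by_contra hcon
      push Not at hcon
      nlinarith
    · omega

/-- The image of `S` in `E` is a nonzero quotient of `S` and a subobject of `E`. -/
theorem Charge.SS.hom_zero_of_quot {E S : A} (hE : c.SS E) (hm : c.m E ≤ 0) (hD : 0 < c.D E)
    (hS : ∀ (I : A) (p : S ⟶ I), Epi p → ¬ IsZero I → c.D I ≠ 0 → 0 < c.m I) (f : S ⟶ E) :
    f = 0 := by
  by_contra hf
  have hI := numV_image hf
  obtain ⟨h1, h2⟩ := hE.sub_nonpos hm hD (Abelian.image.ι f) inferInstance hI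
  have h3 := hS _ (Abelian.factorThruImage f) inferInstance hI h2.ne'
  omega

/-- The image of `E` in `O` is a nonzero quotient of `E` and a subobject of `O`. -/
theorem Charge.SS.hom_zero_of_sub {E O : A} (hE : c.SS E) (h : 0 < c.m E ∨ c.D E = 0)
    (hO : ∀ (I : A) (i : I ⟶ O), Mono i → ¬ IsZero I → c.m I < 0) (f : E ⟶ O) :
    f = 0 := by
  by_contra hf
  have hI := numV_image hf
  have h1 := hE.quot_pos h (Abelian.factorThruImage f) inferInstance hI
  have h2 := hO _ (Abelian.image.ι f) inferInstance hI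
  omega

end M21.E3
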