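import Pool.Agent.H.MP_21b43d_ag.E3.V.MaC
import Pool.Agent.H.MP_21b43d_ag.E3.V.Conv
import Pool.Agent.H.MP_21b43d_ag.E3.V.Num

/-!
# M21, full support, V-M: ranks of the cohomology of semistable objects
-/

set_option autoImplicit false

open CategoryTheory CategoryTheory.Limits CategoryTheory.Pretriangulated
  CategoryTheory.Triangulated

universe w v u

noncomputable section

namespace M21.E3

variable {𝒞 : Type u} [Category.{v} 𝒞] [Abelian 𝒞] [HasDerivedCategory.{w} 𝒞]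
  {W : ObjectProperty 𝒞} [(dbW W).IsTriangulated]

/-- `|Re Z| + Im Z` -/
def zAb (hW : WSerre W) (q : RDX W) (t : ℤ) (E : Hrt (tilt hW q)) : ℤ :=
  |eul (mm q t) E.obj.obj| + eul q.D E.obj.obj

section maD

variable {q : RDX W}

omit [HasDerivedCategory.{w} 𝒞] in
theorem maD_addOn_r (q : RDX W) : AddOn W q.r := fun S hS h₁ h₂ h₃ => (q.add S hS h₁ h₂ h₃).1

omit [HasDerivedCategory.{w} 𝒞] in
theorem maD_addOn_x (q : RDX W) : AddOn W q.x := fun S hS h₁ h₂ h₃ => (q.add S hS h₁ h₂ h₃).2.2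

omit [HasDerivedCategory.{w} 𝒞] in
theorem maD_Tc {k : ℤ} (hk : k ≤ 0) {M : 𝒞} (hM : q.Tc M) : (q.sh k).Tc M := by
  refine ⟨hM.1, fun Q p hp hQ hz => ?_⟩
  have h1 := hM.2 Q p hp hQ hz
  have h2 := q.r_nonneg Q hQ.1
  rw [RDX.sh_D]
  nlinarith

omit [HasDerivedCategory.{w} 𝒞] in
theorem maD_Tc' {k : ℤ} (hk : 0 ≤ k) {M : 𝒞} (hM : (q.sh k).Tc M) : q.Tc M := by
  refine ⟨hM.1, fun Q p hp hQ hz => ?_⟩
  have h1 := hM.2 Q p hp hQ hz
  have h2 := q.r_nonneg Q hQ.1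
  rw [RDX.sh_D] at h1
  nlinarith

omit [HasDerivedCategory.{w} 𝒞] in
theorem maD_Fc {k : ℤ} (hk : 0 ≤ k) {M : 𝒞} (hM : q.Fc M) : (q.sh k).Fc M := by
  refine ⟨hM.1, fun N i hi hN => ?_⟩
  have h1 := hM.2 N i hi hN
  have h2 := q.r_nonneg N hN
  rw [RDX.sh_D]
  nlinarith

omit [HasDerivedCategory.{w} 𝒞] in
theorem maD_Fc' {k : ℤ} (hk : k ≤ 0) {M : 𝒞} (hM : (q.sh k).Fc M) : q.Fc M := by
  refine ⟨hM.1, fun N i hi hN => ?_⟩
  have h1 := hM.2 N i hi hN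
  have h2 := q.r_nonneg N hN
  rw [RDX.sh_D] at h1
  nlinarith

omit [(dbW W).IsTriangulated] in
/-- the value on an object in degree `0` -/
theorem maD_eulS (hW : WSerre W) (e : 𝒞 → ℤ) (he : AddOn W e) (N : 𝒞) (hN : W N) :
    eul e ((DerivedCategory.singleFunctor 𝒞 0).obj N) = e N := by
  rw [eul_two hW e he]
  · have h1 : e (HH (-1) ((DerivedCategory.singleFunctor 𝒞 0).obj N)) = 0 :=
      e_zero_DbW2 hW he (DerivedCategory.isZero_of_isGE _ 0 (-1) (by norm_num))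
    have h2 : e N = e (HH 0 ((DerivedCategory.singleFunctor 𝒞 0).obj N)) :=
      e_iso_DbW2 hW he ((DerivedCategory.singleFunctorCompHomologyFunctorIso 𝒞 0).app N).symm hN
    rw [h1, h2, sub_zero]
  · intro i _ h0
    rcases lt_or_gt_of_ne h0 with h | h
    · exact DerivedCategory.isZero_of_isGE _ 0 i h
    · exact DerivedCategory.isZero_of_isLE _ 0 i h

theorem maD_eulQ (hW : WSerre W) (e : 𝒞 → ℤ) (he : AddOn W e) {Q : Hrt (tilt hW q)} {N : 𝒞}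
    (hN : W N) (a : Q.obj.obj ≅ (DerivedCategory.singleFunctor 𝒞 0).obj N) :
    eul e Q.obj.obj = e N := by
  rw [eul_iso hW e he a Q.obj.property, maD_eulS hW e he N hN]

theorem maD_eulL (hW : WSerre W) (e : 𝒞 → ℤ) (he : AddOn W e) {L : Hrt (tilt hW q)} {M : 𝒞}
    (hM : W M) (a : L.obj.obj ≅ ((DerivedCategory.singleFunctor 𝒞 0).obj M)⟦(1 : ℤ)⟧) :
    eul e L.obj.obj = - e M := by
  rw [eul_iso hW e he a L.obj.property, eul_shift hW e he _ (dbW_single hW M hM 0),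
    maD_eulS hW e he M hM]
  simp

/-- numbers of the quotient -/
theorem maD_quot (hW : WSerre W) {C t : ℤ} (ht : C + 1 ≤ t) {K : ℕ}
    {CK : ℤ} (hCK : ∀ F, (q.sh (-K)).Tc F → (q.sh K).Fc F → q.x F ≤ CK * q.r F)
    (hq : Pos q t) {E Q : Hrt (tilt hW q)} (hE : (tCharge hW q t hq).SS E) (p : E ⟶ Q)
    (hp : Epi p) {N : 𝒞} (a : Q.obj.obj ≅ (DerivedCategory.singleFunctor 𝒞 0).obj N)
    (hT : q.Tc N) (hF : (q.sh K).Fc N) :
    q.x N ≤ CK * q.r N ∧ 0 ≤ q.r N ∧ 0 ≤ q.D N ∧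
      t * q.r N - q.x N ≤ |eul (mm q t) E.obj.obj| := by
  refine ⟨hCK N (maD_Tc (by omega) hT) hF, q.r_nonneg N hT.1, (q.Tc_D hW hT).1, ?_⟩
  have h1 := hE.quot_ge p hp
  have h2 : (tCharge hW q t hq).m Q = mm q t N := maD_eulQ hW _ (addOn_mm q t) hT.1 a
  have h3 : (tCharge hW q t hq).m E = eul (mm q t) E.obj.obj := rfl
  rw [h2, h3] at h1
  unfold mm at h1 ⊢
  linarith

/-- numbers of the subobject -/
theorem maD_sub (hW : WSerre W) {C t : ℤ} (ht : C + 1 ≤ t) {K : ℕ}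
    {CK : ℤ} (hCK : ∀ F, (q.sh (-K)).Tc F → (q.sh K).Fc F → q.x F ≤ CK * q.r F)
    (hq : Pos q t) {E L : Hrt (tilt hW q)} (hE : (tCharge hW q t hq).SS E) (i : L ⟶ E)
    (hi : Mono i) {M : 𝒞} (a : L.obj.obj ≅ ((DerivedCategory.singleFunctor 𝒞 0).obj M)⟦(1 : ℤ)⟧)
    (hT : (q.sh (-K)).Tc M) (hF : q.Fc M) :
    q.x M ≤ CK * q.r M ∧ 0 ≤ q.r M ∧ q.D M ≤ 0 ∧
      t * q.r M - q.x M ≤ |eul (mm q t) E.obj.obj| := by
  refine ⟨hCK M hT (maD_Fc (by omega) hF), q.r_nonneg M hT.1,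
    hF.2 M (𝟙 _) inferInstance hT.1, ?_⟩
  have h1 := hE.sub_le i hi
  have h2 : (tCharge hW q t hq).m L = - mm q t M := maD_eulL hW _ (addOn_mm q t) hT.1 a
  have h3 : (tCharge hW q t hq).m E = eul (mm q t) E.obj.obj := rfl
  rw [h2, h3] at h1
  unfold mm at h1 ⊢
  linarith

/-- the inequalities for the quotient -/
theorem maD_num {t CK z xN rN DN Da' Db' ra' rb' xa' xb' Da Db ra rb xa xb mE DE rE xE DE' rE' xE'
    ma mb : ℤ} (hz : z = |mE| + DE) (hCK0 : 0 ≤ CK) (h1 : xN ≤ CK * rN) (h2 : 0 ≤ rN)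
    (h4 : t * rN - xN ≤ |mE|) (h3 : 0 ≤ DN) (d1 : 0 ≤ Da') (rn1 : 0 ≤ ra') (rn2 : 0 ≤ rb)
    (r0 : ra ≤ 2 * z) (r1 : rb ≤ 2 * z) (hDa : 0 ≤ Da) (hDb : Db ≤ 0) (hDE : DE = Da - Db)
    (hrE : rE = ra - rb) (hxE : xE = xa - xb) (hmE : mE = ma - mb) (hDE' : DE' = Da' - Db')
    (hrE' : rE' = ra' - rb') (hxE' : xE' = xa' - xb') (br : rb' = rb) (bD : Db' = Db)
    (bx : xb' = xb) (sr : ra = ra' + rN) (sD : Da = Da' + DN) (sx : xa = xa' + xN)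
    (hma : ma = xa - t * ra) (hmb : mb = xb - t * rb) :
    |rN| ≤ (2 * CK + 4 * |t| + 2) * z ∧ |xN| ≤ (2 * CK + 4 * |t| + 2) * z ∧
    |rE'| ≤ (2 * CK + 4 * |t| + 2) * z ∧ |DE'| ≤ (2 * CK + 4 * |t| + 2) * z ∧
    |xE'| ≤ (2 * CK + 4 * |t| + 2) * z := by
  have habt := abs_nonneg t
  have habm := abs_nonneg mE
  have hz0 : 0 ≤ z := by rw [hz, hDE]; linarith
  have hmz : |mE| ≤ z := by rw [hz, hDE]; linarith
  have hDz : DE ≤ z := by rw [hz]; linarith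
  have k1 : 0 ≤ CK * z := mul_nonneg hCK0 hz0
  have k2 : 0 ≤ |t| * z := mul_nonneg habt hz0
  have e : (2 * CK + 4 * |t| + 2) * z = 2 * (CK * z) + 4 * (|t| * z) + 2 * z := by ring
  have rN2 : rN ≤ 2 * z := by linarith
  have k3 : CK * rN ≤ 2 * (CK * z) := by nlinarith
  have tl := neg_abs_le t
  have tu := le_abs_self t
  have k4 : -(2 * (|t| * z)) ≤ t * rN := by nlinarith
  have hrEa : |rE| ≤ 2 * z := by rw [abs_le]; constructor <;> linarith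
  have k5 : |t * rE| ≤ 2 * (|t| * z) := by
    rw [abs_mul]
    nlinarith
  have hxE2 : xE = mE + t * rE := by rw [hxE, hmE, hrE, hma, hmb]; ring
  have k6 : |xE| ≤ z + 2 * (|t| * z) := by
    rw [hxE2]
    exact (abs_add_le _ _).trans (by linarith)
  have k7 := abs_le.1 k6
  rw [e]
  refine ⟨?_, ?_, ?_, ?_, ?_⟩
  · rw [abs_le]
    constructor <;> linarith
  · rw [abs_le]
    constructor <;> linarith
  · rw [abs_le]
    constructor <;> linarith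
  · rw [abs_le]
    constructor <;> linarith
  · have e2 : xE' = xE - xN := by rw [hxE', hxE, sx, bx]; ring
    rw [e2, abs_le]
    constructor <;> linarith

/-- the inequalities for the subobject -/
theorem maD_num' {t CK z xM rM DM Da'' Db'' ra'' rb'' xa'' xb'' Da Db ra rb xa xb mE DE rE xE
    DE'' rE'' xE'' ma mb : ℤ} (hz : z = |mE| + DE) (hCK0 : 0 ≤ CK) (h1 : xM ≤ CK * rM)
    (h2 : 0 ≤ rM) (h4 : t * rM - xM ≤ |mE|) (h3 : DM ≤ 0) (d1 : Db'' ≤ 0) (rn1 : 0 ≤ rb'')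
    (rn2 : 0 ≤ ra)
    (r0 : ra ≤ 2 * z) (r1 : rb ≤ 2 * z) (hDa : 0 ≤ Da) (hDb : Db ≤ 0) (hDE : DE = Da - Db)
    (hrE : rE = ra - rb) (hxE : xE = xa - xb) (hmE : mE = ma - mb) (hDE' : DE'' = Da'' - Db'')
    (hrE' : rE'' = ra'' - rb'') (hxE' : xE'' = xa'' - xb'') (br : ra'' = ra) (bD : Da'' = Da)
    (bx : xa'' = xa) (sr : rb = rM + rb'') (sD : Db = DM + Db'') (sx : xb = xM + xb'')
    (hma : ma = xa - t * ra) (hmb : mb = xb - t * rb) :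
    |rM| ≤ (2 * CK + 4 * |t| + 2) * z ∧ |xM| ≤ (2 * CK + 4 * |t| + 2) * z ∧
    |rE''| ≤ (2 * CK + 4 * |t| + 2) * z ∧ |DE''| ≤ (2 * CK + 4 * |t| + 2) * z ∧
    |xE''| ≤ (2 * CK + 4 * |t| + 2) * z := by
  have habt := abs_nonneg t
  have habm := abs_nonneg mE
  have hz0 : 0 ≤ z := by rw [hz, hDE]; linarith
  have hmz : |mE| ≤ z := by rw [hz, hDE]; linarith
  have hDz : DE ≤ z := by rw [hz]; linarith
  have k1 : 0 ≤ CK * z := mul_nonneg hCK0 hz0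
  have k2 : 0 ≤ |t| * z := mul_nonneg habt hz0
  have e : (2 * CK + 4 * |t| + 2) * z = 2 * (CK * z) + 4 * (|t| * z) + 2 * z := by ring
  have rN2 : rM ≤ 2 * z := by linarith
  have k3 : CK * rM ≤ 2 * (CK * z) := by nlinarith
  have tl := neg_abs_le t
  have tu := le_abs_self t
  have k4 : -(2 * (|t| * z)) ≤ t * rM := by nlinarith
  have hrEa : |rE| ≤ 2 * z := by rw [abs_le]; constructor <;> linarith
  have k5 : |t * rE| ≤ 2 * (|t| * z) := by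
    rw [abs_mul]
    nlinarith
  have hxE2 : xE = mE + t * rE := by rw [hxE, hmE, hrE, hma, hmb]; ring
  have k6 : |xE| ≤ z + 2 * (|t| * z) := by
    rw [hxE2]
    exact (abs_add_le _ _).trans (by linarith)
  have k7 := abs_le.1 k6
  rw [e]
  refine ⟨?_, ?_, ?_, ?_, ?_⟩
  · rw [abs_le]
    constructor <;> linarith
  · rw [abs_le]
    constructor <;> linarith
  · rw [abs_le]
    constructor <;> linarith
  · rw [abs_le]
    constructor <;> linarith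
  · have e2 : xE'' = xE + xM := by rw [hxE', hxE, sx, bx]; ring
    rw [e2, abs_le]
    constructor <;> linarith

end maD

/-- Ranks. `H^0`: `heart_quot` with `K = 1`: `0 → N' → H^0(E) → N → 0`, `N' ∈ T(1)`, `N ∈ T(0) ∩ F(1)`: `x N ≤ C r N` (`h.c0 1`), so `- m Q ≥ (t - C) r N ≥ r N` for `t > C`, and `- m Q ≤ |m E|` (`SS.quot_ge`), so `r N ≤ |m E|`.
`D N' - r N' ≥ 0` (`Tc_D` for `q.sh 1`), `D N ≥ 0`, so `r N' ≤ D N' ≤ D (H^0 E) ≤ D E` (`D_heart_TCharge`). `H^{-1}`: `heart_sub` with `K = 1`, `x M ≤ C r M`, `m L = - (x M - t r M) ≥ r M`, `m L ≤ |m E|` (`SS.sub_le`); `M'' := H^{-1}(E'') ∈ F(-1)`: `D M'' + r M'' ≤ 0`,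
`r M'' ≤ - D M'' ≤ - D (H^{-1} E) ≤ D E` as `D M ≤ 0`. -/
theorem ranks (hW : WSerre W) {q : RDX W} (h : Win q) : ∃ t₀ : ℤ, ∀ t : ℤ, t₀ ≤ t →
    ∀ (hq : Pos q t) (E : Hrt (tilt hW q)), (tCharge hW q t hq).SS E →
      q.r (HH 0 E.obj.obj) ≤ 2 * zAb hW q t E ∧ q.r (HH (-1) E.obj.obj) ≤ 2 * zAb hW q t E := by
  obtain ⟨C, hC0, hC⟩ := h.c0 1
  refine ⟨C + 1, fun t ht hq E hE => ?_⟩
  have hDE := eul_heart_TCharge hW q q.D (addOn_D q) E
  obtain ⟨hDa, hDb⟩ := D_heart_TCharge hW q E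
  have hm := abs_nonneg (eul (mm q t) E.obj.obj)
  unfold zAb
  constructor
  · obtain ⟨E', Q, i, p, w, N, a, hS, hT, hF, hT', ⟨b⟩, he⟩ := heart_quot hW q E 1
    obtain ⟨h1, h2, h3, h4⟩ := maD_quot hW ht hC hq hE p hS.epi_g a hT hF
    have h5 := he q.r (maD_addOn_r q)
    have h6 := he q.D (addOn_D q)
    have h7 := ((q.sh ((1 : ℕ) : ℤ)).Tc_D hW hT').1
    rw [RDX.sh_D] at h7
    push_cast at h7
    have h8 : q.r N ≤ (t - C) * q.r N := by nlinarith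
    have h9 : (t - C) * q.r N = t * q.r N - C * q.r N := by ring
    linarith
  · obtain ⟨L, E'', i, p, w, M, a, hS, hT, hF, hF', ⟨b⟩, he⟩ := heart_sub hW q E 1
    obtain ⟨h1, h2, h3, h4⟩ := maD_sub hW ht hC hq hE i hS.mono_f a hT hF
    have h5 := he q.r (maD_addOn_r q)
    have h6 := he q.D (addOn_D q)
    have h7 := hF'.2 _ (𝟙 _) inferInstance hF'.1.1
    rw [RDX.sh_D] at h7
    push_cast at h7
    have h8 : q.r M ≤ (t - C) * q.r M := by nlinarith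
    have h9 : (t - C) * q.r M = t * q.r M - C * q.r M := by ring
    linarith

/-- Numbers of the pieces of `heart_quot`: `0 ≤ r N ≤ r (H^0 E) ≤ 2z`; `x N ≤ C_K r N` (`h.c0 K`, `Fc`, `Tc_mono`), `- (x N - t r N) ≤ |m E| ≤ z` (`SS.quot_ge`), so `|x N| ≤ C z`. `eul e E' = eul e E - e N` (`eul_heart_add_TCharge`, the equality `eul e Q = e N`);
`eul q.D E' = D (N') - D (H^{-1} E)`, `0 ≤ D N' ≤ D (H^0 E)`; `eul q.r E' = r N' - r (H^{-1}E)`; `eul q.x E' = eul (mm q t) E' + t eul q.r E'` and `eul (mm q t) E' = eul (mm q t) E - (x N - t r N)`. -/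
theorem quot_num (hW : WSerre W) {q : RDX W} (h : Win q) : ∃ t₀ : ℤ, ∀ t : ℤ, t₀ ≤ t →
    ∀ K : ℕ, ∃ C : ℤ, 0 ≤ C ∧ ∀ (hq : Pos q t) (E : Hrt (tilt hW q)), (tCharge hW q t hq).SS E →
      ∃ (E' Q : Hrt (tilt hW q)) (i : E' ⟶ E) (p : E ⟶ Q) (w : i ≫ p = 0) (N : 𝒞)
        (_ : Q.obj.obj ≅ (DerivedCategory.singleFunctor 𝒞 0).obj N),
        (ShortComplex.mk i p w).ShortExact ∧ q.Tc N ∧ (q.sh K).Fc N ∧
        (q.sh K).Tc (HH 0 E'.obj.obj) ∧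
        |q.r N| ≤ C * zAb hW q t E ∧ |q.x N| ≤ C * zAb hW q t E ∧
        |eul q.r E'.obj.obj| ≤ C * zAb hW q t E ∧ |eul q.D E'.obj.obj| ≤ C * zAb hW q t E ∧
        |eul q.x E'.obj.obj| ≤ C * zAb hW q t E := by
  obtain ⟨t₀, hr⟩ := ranks hW h
  refine ⟨t₀, fun t ht K => ?_⟩
  obtain ⟨CK, hCK0, hCK⟩ := h.c0 K
  have habt := abs_nonneg t
  refine ⟨2 * CK + 4 * |t| + 2, by positivity, fun hq E hE => ?_⟩
  obtain ⟨E', Q, i, p, w, N, a, hS, hT, hF, hT', ⟨b⟩, he⟩ := heart_quot hW q E K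
  obtain ⟨h1, h2, h3, h4⟩ := maD_quot (C := t - 1) hW (by omega) hCK hq hE p hS.epi_g a hT hF
  refine ⟨E', Q, i, p, w, N, a, hS, hT, hF, hT', ?_⟩
  obtain ⟨r0, r1⟩ := hr t ht hq E hE
  have hDE := eul_heart_TCharge hW q q.D (addOn_D q) E
  have hrE := eul_heart_TCharge hW q q.r (maD_addOn_r q) E
  have hxE := eul_heart_TCharge hW q q.x (maD_addOn_x q) E
  have hmE := eul_heart_TCharge hW q (mm q t) (addOn_mm q t) E
  have hDE' := eul_heart_TCharge hW q q.D (addOn_D q) E'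
  have hrE' := eul_heart_TCharge hW q q.r (maD_addOn_r q) E'
  have hxE' := eul_heart_TCharge hW q q.x (maD_addOn_x q) E'
  have hWb' : W (HH (-1) E'.obj.obj) := E'.obj.property.2 (-1)
  have hWb : W (HH (-1) E.obj.obj) := E.obj.property.2 (-1)
  have br := e_iso_DbW2 hW (maD_addOn_r q) b hWb'
  have bD := e_iso_DbW2 hW (addOn_D q) b hWb'
  have bx := e_iso_DbW2 hW (maD_addOn_x q) b hWb'
  have sr := he q.r (maD_addOn_r q)
  have sD := he q.D (addOn_D q)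
  have sx := he q.x (maD_addOn_x q)
  have d1 := (q.Tc_D hW (maD_Tc' (by omega) hT')).1
  have rn1 := q.r_nonneg _ hT'.1
  have rn2 := q.r_nonneg _ hWb
  obtain ⟨hDa, hDb⟩ := D_heart_TCharge hW q E
  exact maD_num (z := zAb hW q t E) (by unfold zAb; rfl) hCK0 h1 h2 h4 h3 d1 rn1 rn2 r0 r1 hDa hDb
    hDE hrE hxE hmE hDE' hrE' hxE' br bD bx sr sD sx rfl rfl

/-- Numbers of the pieces of `heart_sub`. -/
theorem sub_num (hW : WSerre W) {q : RDX W} (h : Win q) : ∃ t₀ : ℤ, ∀ t : ℤ, t₀ ≤ t →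
    ∀ K : ℕ, ∃ C : ℤ, 0 ≤ C ∧ ∀ (hq : Pos q t) (E : Hrt (tilt hW q)), (tCharge hW q t hq).SS E →
      ∃ (L E'' : Hrt (tilt hW q)) (i : L ⟶ E) (p : E ⟶ E'') (w : i ≫ p = 0) (M : 𝒞)
        (_ : L.obj.obj ≅ ((DerivedCategory.singleFunctor 𝒞 0).obj M)⟦(1 : ℤ)⟧),
        (ShortComplex.mk i p w).ShortExact ∧ (q.sh (-K)).Tc M ∧ q.Fc M ∧
        (q.sh (-K)).Fc (HH (-1) E''.obj.obj) ∧
        |q.r M| ≤ C * zAb hW q t E ∧ |q.x M| ≤ C * zAb hW q t E ∧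
        |eul q.r E''.obj.obj| ≤ C * zAb hW q t E ∧ |eul q.D E''.obj.obj| ≤ C * zAb hW q t E ∧
        |eul q.x E''.obj.obj| ≤ C * zAb hW q t E := by
  obtain ⟨t₀, hr⟩ := ranks hW h
  refine ⟨t₀, fun t ht K => ?_⟩
  obtain ⟨CK, hCK0, hCK⟩ := h.c0 K
  have habt := abs_nonneg t
  refine ⟨2 * CK + 4 * |t| + 2, by positivity, fun hq E hE => ?_⟩
  obtain ⟨L, E'', i, p, w, M, a, hS, hT, hF, hF', ⟨b⟩, he⟩ := heart_sub hW q E K
  obtain ⟨h1, h2, h3, h4⟩ := maD_sub (C := t - 1) hW (by omega) hCK hq hE i hS.mono_f a hT hF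
  refine ⟨L, E'', i, p, w, M, a, hS, hT, hF, hF', ?_⟩
  obtain ⟨r0, r1⟩ := hr t ht hq E hE
  have hDE := eul_heart_TCharge hW q q.D (addOn_D q) E
  have hrE := eul_heart_TCharge hW q q.r (maD_addOn_r q) E
  have hxE := eul_heart_TCharge hW q q.x (maD_addOn_x q) E
  have hmE := eul_heart_TCharge hW q (mm q t) (addOn_mm q t) E
  have hDE' := eul_heart_TCharge hW q q.D (addOn_D q) E''
  have hrE' := eul_heart_TCharge hW q q.r (maD_addOn_r q) E''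
  have hxE' := eul_heart_TCharge hW q q.x (maD_addOn_x q) E''
  have hWa' : W (HH 0 E''.obj.obj) := E''.obj.property.2 0
  have hWa : W (HH 0 E.obj.obj) := E.obj.property.2 0
  have br := e_iso_DbW2 hW (maD_addOn_r q) b hWa'
  have bD := e_iso_DbW2 hW (addOn_D q) b hWa'
  have bx := e_iso_DbW2 hW (maD_addOn_x q) b hWa'
  have sr := he q.r (maD_addOn_r q)
  have sD := he q.D (addOn_D q)
  have sx := he q.x (maD_addOn_x q)
  have hF0 := maD_Fc' (q := q) (k := -(K : ℤ)) (by omega) hF'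
  have d1 := hF0.2 _ (𝟙 _) inferInstance hF0.1.1
  have rn1 := q.r_nonneg _ hF0.1.1
  have rn2 := q.r_nonneg _ hWa
  obtain ⟨hDa, hDb⟩ := D_heart_TCharge hW q E
  exact maD_num' (z := zAb hW q t E) (by unfold zAb; rfl) hCK0 h1 h2 h4 h3 d1 rn1 rn2 r0 r1 hDa hDb
    hDE hrE hxE hmE hDE' hrE' hxE' br bD bx sr sD sx rfl rfl

end M21.E3
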