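import Pool.Agent.H.MP_21b43d_ag.E3.V.Tst

/-!
# M21, full support, V-S2, sheaf part
-/

set_option autoImplicit false

open CategoryTheory CategoryTheory.Limits

universe v u

namespace M21.E3

variable {𝒞 : Type u} [Category.{v} 𝒞] [Abelian 𝒞] {W : ObjectProperty 𝒞}

/-- Small degree. Proof: `b ≠ 0` since otherwise `J ≅ H` is in `T(0)` and `F(0)`, so zero. The image of `b` is a nonzero
subobject of the torsion-free `S_j`, so it has `r ≥ ρ = r(S_j)`, hence `= ρ` and `r(T) = 0`. `0 ≤ D T ≤ d`, `-d ≤ D H ≤ 0`.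
`x(H) ≤ C₂ r(H)` (`Win.small` for `k = 0`). If `D T = 0` then `x T ≥ 0` (`x_pos`, `inv_zero`), if `D T ≥ 1` then
`x T ≥ j - C' > 0` for `j > C'` (`hS.quot`). Since `D T - D H ≥ 1`, `D T ≥ 1` or `H ≠ 0` (and then `r H > 0`); so
`x T + (t - C₂) r H > 0` if `t > C₂`, `j > C'`. -/
theorem propA_small (hW : WSerre W) {q : RDX W} (h : Win q) {ρ C : ℤ} (hρ : 0 < ρ)
    (hr : ∀ F, q.Tf F → ¬ IsZero F → ρ ≤ q.r F) {S : ℕ → 𝒞} (hS : TestS q ρ C S) (d : ℤ) :
    ∃ t₁ : ℤ, ∃ j₁ : ℕ, ∀ (t : ℤ), t₁ ≤ t → ∀ (j : ℕ), j₁ ≤ j → ∀ (H J T : 𝒞) (a : H ⟶ J) (b : J ⟶ S j)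
      (e : S j ⟶ T) (wab : a ≫ b = 0) (wbe : b ≫ e = 0), Mono a → (ShortComplex.mk a b wab).Exact →
      (ShortComplex.mk b e wbe).Exact → Epi e → q.Fc H → q.Tc J → q.Tc T → ¬ IsZero J →
      q.D T - q.D H ≤ d → q.D T - q.D H ≠ 0 → 0 < (q.x T - t * q.r T) - (q.x H - t * q.r H) := by
  obtain ⟨C₂, hC₂, hsm⟩ := h.small hW 0 d
  obtain ⟨C', hC'⟩ := hS.quot d
  refine ⟨C₂ + 1, C'.toNat + 1, ?_⟩
  intro t ht j hj H J T a b e wab wbe ha hab hbe he hH hJ hT hJz hd hne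
  have hWH : W H := hH.1.1
  have hDT : 0 ≤ q.D T := (q.Tc_D hW hT).1
  have hDH : q.D H ≤ 0 := hH.2 H (𝟙 H) inferInstance hWH
  have hrH : 0 ≤ q.r H := q.r_nonneg H hWH
  -- the map `b` is not zero
  have hb : b ≠ 0 := by
    intro hb0
    have hea : Epi a := hab.epi_f hb0
    have hia : IsIso a := isIso_of_mono_of_epi a
    exact hJz (q.isZero_of_Tc_Fc hW hJ (q.Fc_iso hW (asIso a) hH))
  have hK : W (kernel e) := hW.kernel e (hS.mem j) hT.1
  have hTfS : q.Tf (S j) := (hS.Fc j).1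
  have hTfK : q.Tf (kernel e) := q.Tf_sub_Wk2 (kernel.ι e) inferInstance hK hTfS
  have hKz : ¬ IsZero (kernel e) := by
    intro hz
    apply hb
    rw [← kernel.lift_ι e b wbe, hz.eq_of_tgt (kernel.lift e b wbe) 0, zero_comp]
  have hrK : ρ ≤ q.r (kernel e) := hr _ hTfK hKz
  have hadd := (q.add_ker_Wk2 hW e he (hS.mem j) hT.1).1
  rw [hS.r j] at hadd
  have hrT0 : 0 ≤ q.r T := q.r_nonneg T hT.1
  have hrT : q.r T = 0 := by linarith
  -- the bound for `H`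
  have hxH : q.x H ≤ C₂ * q.r H := by
    refine hsm H ⟨hH.1, fun N i hi hN => ?_⟩ ?_
    · have h1 := hH.2 N i hi hN
      rw [RDX.sh_D]
      linarith
    · rw [RDX.sh_D]
      linarith
  have hxH' : q.r H ≤ t * q.r H - q.x H := by nlinarith
  rw [hrT, mul_zero, sub_zero]
  rcases eq_or_lt_of_le hDT with h0 | h1
  · have hxT : 0 ≤ q.x T := by
      by_cases hz : IsZero T
      · exact (q.inv_zero hW hz).2.2.ge
      · exact (q.x_pos T hT.1 hrT h0.symm hz).le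
    have hHz : ¬ IsZero H := by
      intro hz
      apply hne
      rw [← h0, (q.inv_zero hW hz).2.1, sub_zero]
    have hrH0 : q.r H ≠ 0 := fun h2 => hHz (q.zero_of_Tf_Wk2 hH.1 h2)
    have hrH1 : 0 < q.r H := lt_of_le_of_ne hrH (Ne.symm hrH0)
    linarith
  · have hxT := hC' j T e he hT.1 hrT (by linarith)
    have hjC : C' < (j : ℤ) := by
      have h2 : C' ≤ (C'.toNat : ℤ) := Int.self_le_toNat C'
      have h3 : ((C'.toNat + 1 : ℕ) : ℤ) ≤ (j : ℤ) := by exact_mod_cast hj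
      push_cast at h3
      linarith
    have h4 : (j : ℤ) ≤ (j : ℤ) * q.D T := by
      have h5 : (0 : ℤ) ≤ (j : ℤ) := Int.natCast_nonneg j
      nlinarith
    linarith

end M21.E3
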