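import Pool.Agent.H.MP_21b43d_ag.E3.V.PropA1
import Pool.Agent.H.MP_21b43d_ag.E3.V.PropA2
import Pool.Agent.H.MP_21b43d_ag.E3.V.ExQ

/-!
# M21, full support, V-S2: quotients of `S_j` in the tilted heart
-/

set_option autoImplicit false

open CategoryTheory CategoryTheory.Limits CategoryTheory.Pretriangulated
  CategoryTheory.Triangulated

universe w v u

namespace M21.E3

variable {𝒞 : Type u} [Category.{v} 𝒞] [Abelian 𝒞] [HasDerivedCategory.{w} 𝒞]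
  {W : ObjectProperty 𝒞} [(dbW W).IsTriangulated]

private theorem propA_arith {ρ C t : ℤ} (hρ : 0 < ρ) (hC : 0 ≤ C) {j : ℕ} (hj1 : 1 ≤ j)
    (hj : 2 * C + |t| + 2 ≤ j) {x : ℤ} (hx : |x - ρ * j ^ 2| ≤ C * (j + 1)) : 0 < x - t * ρ := by
  have h1 := (abs_le.1 hx).1
  have h2 : (1 : ℤ) ≤ j := by exact_mod_cast hj1
  have h3 := le_abs_self t
  have h4 := abs_nonneg t
  have h5 : (2 * C + |t| + 2) * (j : ℤ) ≤ (j : ℤ) * j :=
    mul_le_mul_of_nonneg_right hj (by omega)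
  have h6 : |t| * 1 ≤ |t| * (j : ℤ) := mul_le_mul_of_nonneg_left h2 h4
  have h7 : C * 1 ≤ C * (j : ℤ) := mul_le_mul_of_nonneg_left h2 hC
  have h8 : 0 ≤ (j : ℤ) ^ 2 - t - C * (j + 1) := by nlinarith
  have h9 : C * (j + 1) + 1 ≤ (j : ℤ) ^ 2 - t := by nlinarith
  have h10 : (j : ℤ) ^ 2 - t ≤ ρ * ((j : ℤ) ^ 2 - t) := by
    have h11 : 0 ≤ (j : ℤ) ^ 2 - t := by nlinarith
    nlinarith
  nlinarith

/-- **Proposition a.** `J = 0`: `I ≅ Y` and `m(Y) = x(S_j) - t ρ > 0` for large `j`. Otherwise `propA_large`, `propA_small` with `d = d₁`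
(`eul_heart_TCharge`, `D_heart_TCharge`, `mm`). -/
theorem propA (hW : WSerre W) {q : RDX W} (h : Win q) {ρ C : ℤ} (hρ : 0 < ρ) (hC : 0 ≤ C)
    (hr : ∀ F, q.Tf F → ¬ IsZero F → ρ ≤ q.r F) {S : ℕ → 𝒞} (hS : TestS q ρ C S) :
    ∃ t₁ : ℤ, ∀ t : ℤ, t₁ ≤ t → ∃ j₁ : ℕ, ∀ (j : ℕ), j₁ ≤ j → ∀ (Y I : Hrt (tilt hW q))
      (_ : Y.obj.obj ≅ (DerivedCategory.singleFunctor 𝒞 0).obj (S j)) (p : Y ⟶ I), Epi p →
      ¬ IsZero I → eul q.D I.obj.obj ≠ 0 → 0 < eul (mm q t) I.obj.obj := by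
  obtain ⟨d₁, tL, hL⟩ := propA_large hW h hρ hC hr hS
  obtain ⟨tS, jS, hSm⟩ := propA_small hW h hρ hr hS d₁
  refine ⟨max tL tS, fun t ht => ?_⟩
  refine ⟨max (max 1 jS) (2 * C + |t| + 2).toNat, ?_⟩
  intro j hj Y I e p hp hI hD
  have hj1 : 1 ≤ j := (le_max_left _ _).trans ((le_max_left _ _).trans hj)
  have hj2 : jS ≤ j := (le_max_right _ _).trans ((le_max_left _ _).trans hj)
  have hj3 : 2 * C + |t| + 2 ≤ (j : ℤ) :=
    Int.toNat_le.1 ((le_max_right _ _).trans hj)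
  have htL : tL ≤ t := (le_max_left _ _).trans ht
  have htS : tS ≤ t := (le_max_right _ _).trans ht
  rw [eul_heart_TCharge hW q q.D (addOn_D q) I] at hD
  rw [eul_heart_TCharge hW q (mm q t) (addOn_mm q t) I]
  obtain ⟨-, hT, hF⟩ := (tilt_heart_iff hW q I.obj).1 I.property
  obtain ⟨J, a, b, g, wab, wbg, ha, hab, hbg, hg, hJ, -⟩ := exact_of_quot hW q Y I e p hp
  by_cases hJ0 : IsZero J
  · have hH : IsZero (HH (-1) I.obj.obj) := IsZero.of_mono a hJ0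
    have hb : b = 0 := hJ0.eq_of_src _ _
    have hmono : Mono g := hbg.mono_g hb
    have hiso : IsIso g := isIso_of_mono_of_epi g
    have e1 : mm q t (S j) = mm q t (HH 0 I.obj.obj) :=
      e_iso_DbW2 hW (addOn_mm q t) (asIso g) (hS.mem j)
    have e2 : mm q t (HH (-1) I.obj.obj) = 0 := by
      have h1 := q.inv_zero hW hH
      unfold mm
      rw [h1.1, h1.2.2]
      omega
    rw [e2, ← e1, sub_zero]
    unfold mm
    rw [hS.r j]
    exact propA_arith hρ hC hj1 hj3 (hS.x j)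
  · have key : 0 < (q.x (HH 0 I.obj.obj) - t * q.r (HH 0 I.obj.obj)) -
        (q.x (HH (-1) I.obj.obj) - t * q.r (HH (-1) I.obj.obj)) := by
      rcases le_total d₁ (q.D (HH 0 I.obj.obj) - q.D (HH (-1) I.obj.obj)) with h1 | h1
      · exact hL t htL j hj1 _ _ _ a b g wab wbg ha hab hbg hg hF hJ hT hJ0 h1
      · exact hSm t htS j hj2 _ _ _ a b g wab wbg ha hab hbg hg hF hJ hT hJ0 h1 hD
    exact key

end M21.E3
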