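import Pool.Agent.H.MP_21b43d_ag.E3.V.TstX

/-!
# M21, full support, V-S: the test objects `O(j, j)` and `Ω(-j, -j)`
-/

set_option autoImplicit false

open CategoryTheory CategoryTheory.Limits CategoryTheory.Pretriangulated AlgebraicGeometry
  TopologicalSpace

noncomputable section

namespace M21.E3

variable {X : Scheme.{0}} [IsIntegral X] [CX X] [IsLocallyNoetherian X] {G : BiP X} {ι : Type}
  [Fintype ι] [DecidableEq ι]

namespace BiP

/-- (aux) the numbers of `O(j, j)` -/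
private theorem numbers_TstS (T : G.Split (FO X) ι) (j : ℤ) :
    IsCoh (G.OO j j) ∧ Rk1 (rdx T) (G.OO j j) ∧ (rdx T).r (G.OO j j) = Fintype.card ι ∧
      (rdx T).D (G.OO j j) = 2 * Fintype.card ι * j + (∑ l, (T.a l + 1) + ∑ l, (T.b l + 1)) ∧
      (rdx T).x (G.OO j j) = Fintype.card ι * j ^ 2 +
        (∑ l, (T.a l + 1) + ∑ l, (T.b l + 1)) * j + ∑ l, (T.a l + 1) * (T.b l + 1) := by
  have hO : IsCoh (G.OO j j) := isCoh_OO G _ _
  obtain ⟨T', ha, hb⟩ := T.exists_OF (G := G) j j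
  obtain ⟨h1, h2, h3⟩ := rdx_split T T' hO.qc
  refine ⟨hO, Split.rk1 T T' hO.qc, h1, ?_, ?_⟩
  · have h2' : (rdx T).D (G.OO j j) = ∑ l, (T'.a l + 1) + ∑ l, (T'.b l + 1) := h2
    rw [h2']
    have e1 : ∑ l, (T'.a l + 1) = ∑ l, (T.a l + 1) + Fintype.card ι * j := by
      rw [← nsmul_eq_mul, ← Finset.card_univ, ← Finset.sum_const, ← Finset.sum_add_distrib]
      refine Finset.sum_congr rfl fun l _ => ?_
      rw [ha]; ring
    have e2 : ∑ l, (T'.b l + 1) = ∑ l, (T.b l + 1) + Fintype.card ι * j := by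
      rw [← nsmul_eq_mul, ← Finset.card_univ, ← Finset.sum_const, ← Finset.sum_add_distrib]
      refine Finset.sum_congr rfl fun l _ => ?_
      rw [hb]; ring
    rw [e1, e2]
    ring
  · have h3' : (rdx T).x (G.OO j j) = ∑ l, (T'.a l + 1) * (T'.b l + 1) := h3
    rw [h3', ← Finset.sum_add_distrib, Finset.sum_mul]
    have e0 : (Fintype.card ι : ℤ) * j ^ 2 = ∑ _l : ι, j ^ 2 := by
      rw [Finset.sum_const, Finset.card_univ, nsmul_eq_mul]
    rw [e0, ← Finset.sum_add_distrib, ← Finset.sum_add_distrib]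
    refine Finset.sum_congr rfl fun l _ => ?_
    rw [ha, hb]
    ring

/-- The test objects `O(j, j)` for `q = (rdx T).sh 2`. Numbers: `rdx_split`, `Split.exists_OF`, or `numbers_Twi` (`O(j,j)` is the twist of `O`). Windows: `exists_window` for
`O(0,0)` and `Tc_Twi`, `Fc_Twi` (`O(j,j) ≅ Twi j j O(0,0)`), or `Rk1` (`O(j,j)` is in `T(l)` iff `D_l > 0` and in `F(l)` iff `D_l ≤ 0`: this is the quickest: subobjects of rank one with torsion
cokernel). `quot`: `T' = coker`, kernel `J ⊆ O(j,j)`; twist by `(-j,-j)`: `J₀ = J(-j,-j) ⊆ O`, `r J₀ = ρ`, `D(J₀) = D(O) - D(T')`, `x(T') = x(T'(-j,-j)) + j D(T')` (`numbers_Twi`, `r T' = 0`),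
`x(T'(-j,-j)) = x(O) - x(J₀) ≥ x(O) - C' ρ` (`Win.small` for a slope `k` with `O ∈ F(k)`). -/
theorem testS (T : G.Split (FO X) ι) (hw : Win ((rdx T).sh 2)) : ∃ C : ℤ, 0 ≤ C ∧
    TestS ((rdx T).sh 2) (Fintype.card ι) C (fun j : ℕ => G.OO j j) := by
  have hW := wserre_isCoh X
  have hne := T.nonempty
  obtain ⟨ρ, hρ⟩ : ∃ ρ : ℤ, ρ = Fintype.card ι := ⟨_, rfl⟩
  have hρ1 : 1 ≤ ρ := by
    have : 0 < Fintype.card ι := Fintype.card_pos
    rw [hρ]
    exact_mod_cast this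
  obtain ⟨A, hA⟩ : ∃ A : ℤ, A = ∑ l, (T.a l + 1) + ∑ l, (T.b l + 1) := ⟨_, rfl⟩
  obtain ⟨B, hB⟩ : ∃ B : ℤ, B = ∑ l, (T.a l + 1) * (T.b l + 1) := ⟨_, rfl⟩
  have hnum := numbers_TstS T
  simp only [← hρ, ← hA, ← hB] at hnum
  have hA1 := le_abs_self A
  have hA2 := neg_abs_le A
  have hA3 := abs_nonneg A
  have hB1 := le_abs_self B
  have hB2 := neg_abs_le B
  have hB3 := abs_nonneg B
  obtain ⟨C, hC⟩ : ∃ C : ℤ, C = |A| + |B| + 2 * ρ + 2 := ⟨_, rfl⟩
  have hFc : ∀ j : ℕ, (((rdx T).sh 2).sh (2 * j + C)).Fc (G.OO j j) := by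
    intro j
    obtain ⟨-, hrk, hr, hD, -⟩ := hnum j
    refine ((hrk.sh_TstX 2).sh_TstX (2 * j + C)).fc_TstX hW ?_
    rw [RDX.sh_D, RDX.sh_D, RDX.sh_r, hr, hD]
    nlinarith
  rw [← hρ]
  refine ⟨C, by linarith, ?_⟩
  refine { mem := fun j => (hnum j).1, r := fun j => (hnum j).2.2.1, D := ?_, x := ?_, Fc := hFc,
           Tc := ?_, quot := ?_ }
  · intro j
    obtain ⟨-, -, hr, hD, -⟩ := hnum j
    rw [RDX.sh_D, hr, hD, abs_le]
    constructor <;> linarith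
  · intro j
    obtain ⟨-, -, -, -, hx⟩ := hnum j
    rw [RDX.sh_x, hx]
    have hj : (0 : ℤ) ≤ j := Int.natCast_nonneg j
    have e : ρ * (j : ℤ) ^ 2 + A * j + B - ρ * (j : ℤ) ^ 2 = A * j + B := by ring
    rw [e, abs_le]
    constructor <;> nlinarith
  · intro j hj
    obtain ⟨-, hrk, hr, hD, -⟩ := hnum j
    refine (hrk.sh_TstX 2).tc_TstX hW ?_
    rw [RDX.sh_D, hr, hD]
    nlinarith
  · intro d
    obtain ⟨K, hK0, hK⟩ := hw.small hW C (d - A + 2 * ρ + C * ρ)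
    refine ⟨K * ρ - B, ?_⟩
    intro j M p hp hM hr0 hDd
    have hM' : IsCoh M := hM
    obtain ⟨hO, hrk, hr, hD, hx⟩ := hnum j
    have hJ : IsCoh (kernel p) := hW.kernel p hO hM
    obtain ⟨a1, a2, a3⟩ := (rdx T).add _ (se_ker_Rk1b p) hJ hO hM
    dsimp only at a1 a2 a3
    rw [RDX.sh_r] at hr0
    rw [RDX.sh_D, hr0, mul_zero, sub_zero] at hDd
    rw [RDX.sh_D, hr0, mul_zero, sub_zero, RDX.sh_x]
    rw [hr, hr0, add_zero] at a1
    rw [hD] at a2
    rw [hx] at a3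
    -- the twist of the kernel
    have hH : (((rdx T).sh 2).sh C).Fc (G.Twi (-j) (-j) (kernel p)) := by
      have h1 : (((rdx T).sh 2).sh (2 * j + C)).Fc (kernel p) :=
        (((rdx T).sh 2).sh (2 * j + C)).Fc_sub hW (kernel.ι p) inferInstance hJ (hFc j)
      rw [RDX.sh_sh] at h1 ⊢
      have h2 := (Fc_Twi T (-j) (2 + (2 * j + C)) (F := kernel p)).2 h1
      have e : (2 : ℤ) + (2 * j + C) + 2 * (-j) = 2 + C := by ring
      rwa [e] at h2
    obtain ⟨n1, n2, n3, n4⟩ := numbers_Twi T (-j) (-j) hJ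
    have m1 : (rdx T).r (G.Twi (-j) (-j) (kernel p)) = (rdx T).r (kernel p) := n1
    have m2 : (rdx T).D (G.Twi (-j) (-j) (kernel p)) = (rdx T).D (kernel p) -
        2 * j * (rdx T).r (kernel p) := by
      change G.nd1 (SS (G.Twi (-j) (-j) (kernel p))) + G.nd2 (SS (G.Twi (-j) (-j) (kernel p))) =
        G.nd1 (SS (kernel p)) + G.nd2 (SS (kernel p)) - 2 * j * G.nr (SS (kernel p))
      rw [n2, n3]
      ring
    have m3 : (rdx T).x (G.Twi (-j) (-j) (kernel p)) = (rdx T).r (kernel p) * j ^ 2 -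
        j * (rdx T).D (kernel p) + (rdx T).x (kernel p) := by
      change G.nx (SS (G.Twi (-j) (-j) (kernel p))) = G.nr (SS (kernel p)) * j ^ 2 -
        j * (G.nd1 (SS (kernel p)) + G.nd2 (SS (kernel p))) + G.nx (SS (kernel p))
      rw [n4]
      ring
    have h3 := hK _ hH (by
      rw [RDX.sh_D, RDX.sh_D, RDX.sh_r, m1, m2, ← a1]
      have e : (rdx T).D (kernel p) = 2 * ρ * j + A - (rdx T).D M := by linarith
      rw [e]
      linarith)
    rw [RDX.sh_x, RDX.sh_r, m1, m3, ← a1] at h3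
    have e1 : (rdx T).D (kernel p) = 2 * ρ * j + A - (rdx T).D M := by linarith
    have e2 : (rdx T).x (kernel p) = ρ * (j : ℤ) ^ 2 + A * j + B - (rdx T).x M := by linarith
    rw [e1, e2] at h3
    linarith

end BiP

end M21.E3
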