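import Pool.Agent.H.MP_21b43d_ag.E3.V.MaB
import Pool.Agent.H.MP_21b43d_ag.E3.V.MaD
import Pool.Agent.H.MP_21b43d_ag.E3.V.PropA
import Pool.Agent.H.MP_21b43d_ag.E3.V.TstS

/-!
# M21, full support, V-M: the main estimate, slopes `≤ 0`
-/

set_option autoImplicit false

open CategoryTheory CategoryTheory.Limits CategoryTheory.Pretriangulated AlgebraicGeometry
  TopologicalSpace

noncomputable section

namespace M21.E3

variable {X : Scheme.{0}} [IsIntegral X] [CX X] [IsLocallyNoetherian X] {G : BiP X} {ι : Type}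
  [Fintype ι]

instance isTriangulated_dbW_isCoh : (dbW (IsCoh : ObjectProperty X.Modules)).IsTriangulated :=
  inferInstanceAs (dbCoh X).IsTriangulated

namespace BiP

/-- the tilted heart -/
abbrev HT (T : G.Split (FO X) ι) := Hrt (tilt (wserre_isCoh X) (qq T))

/-- **Slopes `≤ 0`.** `t₀`: the maximum of the constants of `propA` (for `testS`, `rank_ge`, `Split.nonempty`), `quot_num`. Let `t ≥ t₀` and `j` be larger than the constants of `propA`, `single_case1` and the constant of `TestS.Tc`; `K = 2j + 2 + c`. Let `E` be semistable with `m E ≤ 0 < D E`; `E' → E → Q`, `Q ≅ SS N` as in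
`quot_num`. `Hom(O(j,j), E') = 0`: `O(j,j) ∈ T` is in the heart; by `propA` and `SS.hom_zero_of_quot` there is no nonzero map `O(j,j) → E`, and `E' → E` is a monomorphism in the heart. `single_case1`, `bdd_of_single4` (`m₀ = -j-1`, `p = 1`): `Bdd (LL m n) E' (c' * 3 C z)`.
`Bdd (LL m n) Q (A r - B x)` by `V.bdd K` (`T(0) ⊆ T(-K)`) `≤ (A + B) C z`. `Bdd.right₂` for the triangle of the short exact sequence (`exists_triangle_of_ses`, `(dbW _).ι.map_distinguished`), `Bdd.mono`. -/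
theorem case1 (T : G.Split (FO X) ι) (V : Van T) : ∃ t₀ : ℤ, ∀ t : ℤ, t₀ ≤ t → ∀ m n : ℤ,
    ∃ C : ℤ, 0 ≤ C ∧ ∀ (hq : Pos (qq T) t) (E : HT T), (tCharge (wserre_isCoh X) (qq T) t hq).SS E →
      eul (mm (qq T) t) E.obj.obj ≤ 0 → 0 < eul (qq T).D E.obj.obj →
        Bdd (G.LL m n) E.obj.obj (C * zAb (wserre_isCoh X) (qq T) t E) := by
  classical
  have hW := wserre_isCoh X
  obtain ⟨CS, hCS0, hTS⟩ := testS T V.win
  have hne := T.nonempty
  have hρ : 0 < (Fintype.card ι : ℤ) := by exact_mod_cast Fintype.card_pos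
  obtain ⟨t₁, hA⟩ := propA hW V.win hρ hCS0 (fun F hF h0 => rank_ge T hF h0) hTS
  obtain ⟨t₂, hQ⟩ := quot_num hW V.win
  refine ⟨max t₁ t₂, fun t ht m n => ?_⟩
  obtain ⟨j₁, hj₁⟩ := hA t ((le_max_left _ _).trans ht)
  obtain ⟨c, hc⟩ := single_case1 T V
  obtain ⟨j, hj1, hj2, hj3⟩ : ∃ j : ℕ, j₁ ≤ j ∧ c ≤ j ∧ CS ≤ (j : ℤ) :=
    ⟨max (max j₁ c) CS.toNat, (le_max_left _ _).trans (le_max_left _ _),
      (le_max_right _ _).trans (le_max_left _ _), Int.toNat_le.1 (le_max_right _ _)⟩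
  obtain ⟨C₁, hC₁0, hC₁⟩ := hQ t ((le_max_right _ _).trans ht) (2 * j + 2 + c)
  obtain ⟨c', hc'0, hc'⟩ := bdd_of_single4 T (-j - 1) m n 1
  obtain ⟨A, B, hA0, hB0, hAB⟩ := V.bdd (2 * j + 2 + c) m n
  refine ⟨c' * (3 * C₁) + (A + B) * C₁, by positivity, fun hq E hE hm hD => ?_⟩
  obtain ⟨E', Q, i, p, w, N, e, hse, hNT, hNF, hE'T, hrN, hxN, hr', hD', hx'⟩ := hC₁ hq E hE
  obtain ⟨z, hz⟩ : ∃ z, z = zAb (wserre_isCoh X) (qq T) t E := ⟨_, rfl⟩
  rw [← hz] at hrN hxN hr' hD' hx' ⊢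
  have hQb : Bdd (G.LL m n) Q.obj.obj ((A + B) * (C₁ * z)) := by
    have h1 : ((qq T).sh (-((2 * j + 2 + c : ℕ) : ℤ))).Tc N := by
      have h2 : ((rdx T).sh (2 + -((2 * j + 2 + c : ℕ) : ℤ))).Tc N :=
        (rdx T).Tc_mono (by omega) hNT
      rw [← RDX.sh_sh] at h2
      exact h2
    have h3 := (hAB N h1 hNF).iso_right e.symm
    refine h3.mono ?_
    have h4 : A * (qq T).r N ≤ A * (C₁ * z) :=
      mul_le_mul_of_nonneg_left ((le_abs_self _).trans hrN) hA0
    have h5 : B * -(C₁ * z) ≤ B * (qq T).x N :=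
      mul_le_mul_of_nonneg_left (neg_le.1 ((neg_le_abs _).trans hxN)) hB0
    linarith
  obtain ⟨hE'0, hE'1, hE'F⟩ := (tilt_heart_iff hW (qq T) E'.obj).1 E'.property
  have hφ : ∀ φ : G.LL (-j) (-j) ⟶ E'.obj.obj⟦(0 : ℤ)⟧, φ = 0 := by
    intro φ
    have hO : IsCoh (G.OO (- -(j : ℤ)) (- -(j : ℤ))) := isCoh_OO G _ _
    have hdb : dbW (IsCoh : ObjectProperty X.Modules) (G.LL (-j) (-j)) := dbW_single hW _ hO 0
    have hjj : G.OO (- -(j : ℤ)) (- -(j : ℤ)) = G.OO j j := by rw [neg_neg]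
    have hYh : (tilt hW (qq T)).heart ⟨G.LL (-j) (-j), hdb⟩ := by
      rw [tilt_heart_iff]
      have h1 : ∀ i : ℤ, i ≠ 0 → IsZero (HH i (G.LL (-j) (-j))) := by
        intro i hi
        rcases lt_or_gt_of_ne hi with h2 | h2
        · exact DerivedCategory.isZero_of_isGE _ 0 i h2
        · exact DerivedCategory.isZero_of_isLE _ 0 i h2
      refine ⟨fun i _ hi => h1 i hi, ?_, Fc_zero_tilt hW _ (h1 (-1) (by norm_num))⟩
      refine (qq T).Tc_iso hW
        ((DerivedCategory.singleFunctorCompHomologyFunctorIso X.Modules 0).app _).symm ?_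
      have h2 := hTS.Tc j hj3
      rw [← hjj] at h2
      exact h2
    let Y : HT T := ⟨⟨G.LL (-j) (-j), hdb⟩, hYh⟩
    have hiso : Y.obj.obj ≅ (DerivedCategory.singleFunctor X.Modules 0).obj (G.OO j j) :=
      (DerivedCategory.singleFunctor X.Modules 0).mapIso (eqToIso hjj)
    let φ' : G.LL (-j) (-j) ⟶ E'.obj.obj := φ ≫ (shiftFunctorZero (DMod X) ℤ).hom.app _
    let f₁ : Y.obj ⟶ E'.obj := (dbW (IsCoh : ObjectProperty X.Modules)).ι.preimage φ'
    let f : Y ⟶ E' := (hι (tilt hW (qq T))).preimage f₁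
    have hf : f ≫ i = 0 := hE.hom_zero_of_quot hm hD
      (fun I p hp hI hDI => hj₁ j hj1 Y I hiso p hp hI hDI) (f ≫ i)
    have hi : Mono i := hse.mono_f
    have hf0 : f = 0 := by
      rw [← cancel_mono i, hf, zero_comp]
    have hf₁ : f₁ = 0 := by
      have h1 : (hι (tilt hW (qq T))).map f = f₁ := Functor.map_preimage _ _
      rw [← h1, hf0, Functor.map_zero]
    have hφ' : φ' = 0 := by
      have h1 : (dbW (IsCoh : ObjectProperty X.Modules)).ι.map f₁ = φ' := Functor.map_preimage _ _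
      rw [← h1, hf₁, Functor.map_zero]
    have h2 : φ = φ' ≫ (shiftFunctorZero (DMod X) ℤ).inv.app _ := by
      simp only [φ', Category.assoc, Iso.hom_inv_id_app]
      exact (Category.comp_id _).symm
    rw [h2, hφ', zero_comp]
  have hE'db : dbCoh X E'.obj.obj := E'.obj.property
  have hE'b := hc' E'.obj.obj hE'db (hc j hj2 E'.obj.obj hE'db hE'0 hE'F hE'T hφ)
  obtain ⟨δ, hδ⟩ := exists_triangle_of_ses (tilt hW (qq T)) _ hse
  have h := (dbW (IsCoh : ObjectProperty X.Modules)).ι.map_distinguished _ hδ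
  have hfin : Bdd (G.LL m n) E.obj.obj _ := Bdd.right₂ _ h hE'b hQb
  refine hfin.mono ?_
  have h6 : c' * (|eul (qq T).r E'.obj.obj| + |eul (qq T).D E'.obj.obj| +
      |eul (qq T).x E'.obj.obj|) ≤ c' * (3 * (C₁ * z)) :=
    mul_le_mul_of_nonneg_left (by linarith) hc'0
  nlinarith [h6]

end BiP

end M21.E3
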