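import Pool.Agent.H.MP_21b43d_ag.E3.V.Tst

/-!
# M21, full support, V-S2, sheaf part
-/

set_option autoImplicit false

open CategoryTheory CategoryTheory.Limits

universe v u

namespace M21.E3

variable {𝒞 : Type u} [Category.{v} 𝒞] [Abelian 𝒞] {W : ObjectProperty 𝒞}

/-- numerical part of `propA_large` -/
theorem PropA1_num {ρ C C₁ n t rJ DS DJ xS xJ Δ : ℤ} (hρ : 0 < ρ) (hC : 0 ≤ C) (hC₁ : 0 ≤ C₁)
    (hn : 1 ≤ n) (ht : C₁ ≤ t) (hrJ : ρ ≤ rJ) (hDS : DS ≤ 2 * ρ * n + C)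
    (hxS : ρ * n ^ 2 - C * (n + 1) ≤ xS) (hxJ : 4 * xJ ≤ (2 * n + C + C₁) * DJ + C₁ * rJ)
    (hΔ : DS - DJ = Δ)
    (hd : 5 * C + ρ * (C + C₁) + (C + C₁) * C + C₁ * ρ + 1 ≤ Δ) :
    0 < (xS - xJ) - t * (ρ - rJ) := by
  have hc : 0 ≤ C + C₁ := add_nonneg hC hC₁
  have h1 : 0 ≤ ρ * (C + C₁) := mul_nonneg hρ.le hc
  have h2 : 0 ≤ (C + C₁) * C := mul_nonneg hc hC
  have h3 : 0 ≤ C₁ * ρ := mul_nonneg hC₁ hρ.le
  have hDJ : DJ ≤ 2 * ρ * n + C - Δ := by linarith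
  have h4 : (2 * n + C + C₁) * DJ ≤ (2 * n + C + C₁) * (2 * ρ * n + C - Δ) :=
    mul_le_mul_of_nonneg_left hDJ (by linarith)
  have h5 : 0 ≤ (4 * t - C₁) * (rJ - ρ) := mul_nonneg (by linarith) (by linarith)
  have h6 : 0 ≤ (C + C₁) * Δ := mul_nonneg hc (by linarith)
  have h7 : 0 ≤ (n - 1) * (2 * Δ - (10 * C + 2 * (ρ * (C + C₁)) + 2 * ((C + C₁) * C) +
      2 * (C₁ * ρ))) := mul_nonneg (by linarith) (by linarith)
  have h8 : 0 ≤ (n - 1) * C := mul_nonneg (by linarith) hC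
  have h9 : 0 ≤ (n - 1) * ((C + C₁) * C) := mul_nonneg (by linarith) h2
  have h10 : 0 ≤ (n - 1) * (C₁ * ρ) := mul_nonneg (by linarith) h3
  nlinarith

/-- Large degree. -/
theorem propA_large (hW : WSerre W) {q : RDX W} (h : Win q) {ρ C : ℤ} (hρ : 0 < ρ) (hC : 0 ≤ C)
    (hr : ∀ F, q.Tf F → ¬ IsZero F → ρ ≤ q.r F) {S : ℕ → 𝒞} (hS : TestS q ρ C S) :
    ∃ d₁ t₁ : ℤ, ∀ (t : ℤ), t₁ ≤ t → ∀ (j : ℕ), 1 ≤ j → ∀ (H J T : 𝒞) (a : H ⟶ J) (b : J ⟶ S j)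
      (e : S j ⟶ T) (wab : a ≫ b = 0) (wbe : b ≫ e = 0), Mono a → (ShortComplex.mk a b wab).Exact →
      (ShortComplex.mk b e wbe).Exact → Epi e → q.Fc H → q.Tc J → q.Tc T → ¬ IsZero J →
      d₁ ≤ q.D T - q.D H → 0 < (q.x T - t * q.r T) - (q.x H - t * q.r H) := by
  obtain ⟨C₁, hC₁, hc1⟩ := h.c1
  refine ⟨5 * C + ρ * (C + C₁) + (C + C₁) * C + C₁ * ρ + 1, C₁, ?_⟩
  intro t ht j hj H J T a b e wab wbe ha hab hbe he hH hJ hT hJz hd
  have hWI : W (kernel e) := hW.kernel e (hS.mem j) hT.1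
  -- the two short exact sequences
  have s1 : (ShortComplex.mk (kernel.ι e) e (kernel.condition _)).ShortExact :=
    { exact := ShortComplex.exact_kernel e
      mono_f := inferInstance
      epi_g := he }
  have hepi : Epi (kernel.lift e b wbe) := hbe.epi_kernelLift
  have wl : a ≫ kernel.lift e b wbe = 0 := by
    rw [← cancel_mono (kernel.ι e), Category.assoc, kernel.lift_ι, wab, zero_comp]
  have s2 : (ShortComplex.mk a (kernel.lift e b wbe) wl).ShortExact := by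
    refine { exact := ?_, mono_f := ha, epi_g := hepi }
    refine ShortComplex.exact_of_f_is_kernel _ ?_
    refine KernelFork.IsLimit.ofι' a wl ?_
    intro Z k hk
    have hk2 : k ≫ b = 0 := by
      rw [← kernel.lift_ι e b wbe, ← Category.assoc, hk, zero_comp]
    exact ⟨hab.lift k hk2, hab.lift_f k hk2⟩
  obtain ⟨r1, D1, x1⟩ := q.add _ s1 hWI (hS.mem j) hT.1
  obtain ⟨r2, D2, x2⟩ := q.add _ s2 hH.1.1 hJ.1 hWI
  dsimp only at r1 D1 x1 r2 D2 x2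
  -- the class of `J`
  have hCn : ((2 * j + C.toNat : ℕ) : ℤ) = 2 * j + C := by
    push_cast
    rw [Int.toNat_of_nonneg hC]
  have hj0 : (0 : ℤ) ≤ (j : ℤ) := Int.natCast_nonneg j
  have hHF : (q.sh (2 * j + C)).Fc H := by
    refine ⟨hH.1, fun N i hi hN => ?_⟩
    have e1 := hH.2 N i hi hN
    have e2 := q.r_nonneg N hN
    rw [RDX.sh_D]
    nlinarith
  have hIF : (q.sh (2 * j + C)).Fc (kernel e) :=
    (q.sh (2 * j + C)).Fc_sub hW (kernel.ι e) inferInstance hWI (hS.Fc j)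
  have hJF : (q.sh (2 * j + C)).Fc J := (q.sh (2 * j + C)).Fc_ext hW _ s2 hHF hIF
  have hJr : ρ ≤ q.r J := hr J hJF.1 hJz
  have hxJ : 4 * q.x J ≤ (2 * j + C + C₁) * q.D J + C₁ * q.r J := by
    have e1 := hc1 (2 * j + C.toNat) J hJ (by rw [hCn]; exact hJF)
    rw [hCn] at e1
    exact e1
  have hDS : q.D (S j) ≤ 2 * ρ * j + C := by
    have := (abs_le.1 (hS.D j)).2
    linarith
  have hxS : ρ * (j : ℤ) ^ 2 - C * (j + 1) ≤ q.x (S j) := by
    have := (abs_le.1 (hS.x j)).1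
    linarith
  have hjn : (1 : ℤ) ≤ (j : ℤ) := by exact_mod_cast hj
  have key := PropA1_num (t := t) (Δ := q.D T - q.D H) hρ hC hC₁ hjn ht hJr hDS hxS hxJ
    (by linarith) hd
  have hrS := hS.r j
  have e3 : q.x T - q.x H = q.x (S j) - q.x J := by linarith
  have e4 : q.r T - q.r H = ρ - q.r J := by linarith
  have e5 : (q.x T - t * q.r T) - (q.x H - t * q.r H) =
      (q.x T - q.x H) - t * (q.r T - q.r H) := by ring
  rw [e5, e3, e4]
  exact key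

end M21.E3
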