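import Pool.Agent.H.MP_21b43d_ag.E3.V.Tst

/-!
# M21, full support, V-S3, sheaf part
-/

set_option autoImplicit false

open CategoryTheory CategoryTheory.Limits

universe v u

namespace M21.E3

variable {𝒞 : Type u} [Category.{v} 𝒞] [Abelian 𝒞] {W : ObjectProperty 𝒞}

/-- the inequality of Proposition b, large degree -/
private theorem ineq_PropB1 {ρ C C₁ t j xV xO xR rV rR DV DO DR : ℤ} (hρ : 0 < ρ) (hC : 0 ≤ C)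
    (hC₁ : 0 ≤ C₁) (ht : C₁ ≤ t) (hj : 1 ≤ j)
    (h1 : 4 * xV ≤ -(2 * j + C + C₁) * DV + C₁ * rV) (e1 : rV = ρ + rR) (e2 : DV = DO + DR)
    (e3 : xV = xO + xR) (hR : 0 ≤ rR) (o2 : -C ≤ DO + 2 * ρ * j)
    (o3 : -(C * (j + 1)) ≤ xO - ρ * j ^ 2)
    (hD : 2 * C + 2 * ρ * (C + C₁) + C * (C + C₁) + 8 * C + C₁ * ρ + 1 ≤ DR) :
    xR - t * rR < 0 := by
  subst e1 e2 e3
  have b1 : 0 ≤ (2 * j + C + C₁) * (DO + 2 * ρ * j + C) := mul_nonneg (by linarith) (by linarith)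
  have b2 : 0 ≤ (4 * t - C₁) * rR := mul_nonneg (by linarith) hR
  have p1 : 0 ≤ ρ * (C + C₁) := mul_nonneg hρ.le (by linarith)
  have p2 : 0 ≤ C * (C + C₁) := mul_nonneg hC (by linarith)
  have p3 : 0 ≤ C₁ * ρ := mul_nonneg hC₁ hρ.le
  have hDR : 1 ≤ DR := by linarith
  have b3 : 0 ≤ (C + C₁) * DR := mul_nonneg (by linarith) (by linarith)
  have b4 : 0 ≤ (2 * j) * (DR - (2 * C + 2 * ρ * (C + C₁) + C * (C + C₁) + 8 * C + C₁ * ρ + 1)) :=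
    mul_nonneg (by linarith) (by linarith)
  have b5 : 0 ≤ (j - 1) * (C * (C + C₁) + 4 * C + C₁ * ρ) :=
    mul_nonneg (by linarith) (by linarith)
  have b6 : 0 ≤ j * (2 * C + 2 * ρ * (C + C₁) + C * (C + C₁) + 8 * C + C₁ * ρ) :=
    mul_nonneg (by linarith) (by linarith)
  nlinarith

/-- Large degree: `0 → O_j → V → R → 0`, `V ∈ F(0)`, `R ∈ T(0)`. `V` is also in `T(-(2j + C))` (`Tc_ext`, `Tc_mono`), so
`4 x(V) ≤ -(2j + C + C₁) D(V) + C₁ r(V)`; `V` is torsion-free and not zero, so `r V ≥ ρ`. With `D(V) = D(O_j) + D(R)`: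
`4 (x(R) - t r(R)) = 4 x(V) - 4 x(O_j) - 4t(r(V) - ρ) ≤ -(2j + C + C₁)(-2ρj - C + D(R)) + C₁ r(V) - 4ρj² + 4C(j+1) - 4t(r(V) - ρ)`
`= -(2j + C + C₁) D(R) + (linear in j) - (4t - C₁)(r(V) - ρ) + C₁ρ < 0` if `D(R) ≥ d₁`, `4t ≥ C₁`, `j ≥ 1`. -/
theorem propB_large (hW : WSerre W) {q : RDX W} (h : Win q) {ρ C : ℤ} (hρ : 0 < ρ) (hC : 0 ≤ C)
    (hr : ∀ F, q.Tf F → ¬ IsZero F → ρ ≤ q.r F) {O : ℕ → 𝒞} (hO : TestO q ρ C O) :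
    ∃ d₁ t₁ : ℤ, ∀ (t : ℤ), t₁ ≤ t → ∀ (j : ℕ), 1 ≤ j → ∀ (V R : 𝒞) (a : O j ⟶ V) (b : V ⟶ R)
      (w : a ≫ b = 0), (ShortComplex.mk a b w).ShortExact → q.Fc V → q.Tc R → d₁ ≤ q.D R →
      q.x R - t * q.r R < 0 := by
  have _ := hr
  obtain ⟨C₁, hC₁, hc⟩ := h.c1'
  refine ⟨2 * C + 2 * ρ * (C + C₁) + C * (C + C₁) + 8 * C + C₁ * ρ + 1, C₁, ?_⟩
  intro t ht j hj V R a b w hS hV hR hD
  have hj0 : (1 : ℤ) ≤ j := by exact_mod_cast hj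
  have hk : ∀ k : ℤ, k ≤ 0 → (q.sh k).Tc R := by
    intro k hk
    refine ⟨hR.1, fun Q p hp hQ hz => ?_⟩
    have h1 := hR.2 Q p hp hQ hz
    have h2 := q.r_nonneg Q hQ.1
    rw [RDX.sh_D]
    nlinarith
  have hTV : (q.sh (-(2 * (j : ℤ) + C))).Tc V :=
    (q.sh _).Tc_ext hW _ hS (hO.Tc j) (hk _ (by linarith))
  obtain ⟨m, hm⟩ : ∃ m : ℕ, (m : ℤ) = 2 * (j : ℤ) + C :=
    ⟨(2 * (j : ℤ) + C).toNat, Int.toNat_of_nonneg (by linarith)⟩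
  rw [← hm] at hTV
  have h1 := hc m V hTV hV
  rw [hm] at h1
  obtain ⟨e1, e2, e3⟩ := q.add _ hS (hO.mem j) hV.1.1 hR.1
  dsimp only at e1 e2 e3
  rw [hO.r j] at e1
  exact ineq_PropB1 hρ hC hC₁ ht hj0 h1 e1 e2 e3 (q.r_nonneg R hR.1) (abs_le.1 (hO.D j)).1
    (abs_le.1 (hO.x j)).1 hD

end M21.E3
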