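import Pool.Agent.H.MP_21b43d_ag.E3.S4.Asm4
import Pool.Agent.H.MP_21b43d_ag.E3.V.Conv

/-!
# M21, full support, V-C: direct images and windows; the bounds on `X`
-/

set_option autoImplicit false

open CategoryTheory CategoryTheory.Limits CategoryTheory.Pretriangulated AlgebraicGeometry
  TopologicalSpace

universe v u v' u'

noncomputable section

namespace M21.E3

section

variable {𝒞 : Type u'} [Category.{v'} 𝒞] [Abelian 𝒞] {W : ObjectProperty 𝒞}

theorem PuW_Tf {q q' : RDX W} (hr : ∀ M, W M → q.r M = q'.r M) {M : 𝒞} (hM : q.Tf M) :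
    q'.Tf M :=
  ⟨hM.1, fun N i hi hN hr' => hM.2 N i hi hN (by rw [hr N hN, hr'])⟩

theorem PuW_Fc {q q' : RDX W} (hr : ∀ M, W M → q.r M = q'.r M)
    (hD : ∀ M, W M → q.D M = q'.D M) {M : 𝒞} (hM : q.Fc M) : q'.Fc M :=
  ⟨PuW_Tf hr hM.1, fun N i hi hN => by rw [← hD N hN]; exact hM.2 N i hi hN⟩

theorem PuW_Tc {q q' : RDX W} (hr : ∀ M, W M → q.r M = q'.r M)
    (hD : ∀ M, W M → q.D M = q'.D M) {M : 𝒞} (hM : q.Tc M) : q'.Tc M :=
  ⟨hM.1, fun Q p hp hQ hz => by
    rw [← hD Q hQ.1]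
    exact hM.2 Q p hp (PuW_Tf (fun M hM => (hr M hM).symm) hQ) hz⟩

end

namespace Push

variable {𝒞 : Type u'} [Category.{v'} 𝒞] [Abelian 𝒞] {W : ObjectProperty 𝒞}
  {𝒟 : Type u} [Category.{v} 𝒟] [Abelian 𝒟] {V : ObjectProperty 𝒟}
  {q : RDX V} {P : 𝒞 ⥤ 𝒟} [P.PreservesZeroMorphisms] {c : ℤ} (h : Push W q P c)

include h

/-- `P M` has slopes `> - 2 c` if `M` has slopes `> 0`: by `exists_ses` for `q.sh (-2c)` let `P M → N` be the quotient in
`F(-2c)`; it is a quotient of `P M''`, `M''` a quotient of `M` with `P M'' ∈ F(0)` (`quot`, `l = -2c`); so `M''` is torsion-free for `h.rdx` with `D ≤ 0`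
and `M'' = 0` as `M ∈ T`. -/
theorem step1T (hW : WSerre W) (hV : WSerre V) {M : 𝒞} (hM : h.rdx.Tc M) :
    (q.sh (-(2 * c))).Tc (P.obj M) := by
  obtain ⟨S, hS, h2, h1, h3⟩ := (q.sh (-(2 * c))).exists_ses hV (P.obj M) (h.mem M hM.1)
  have hz : IsZero S.X₃ := by
    by_contra hz
    have he := hS.epi_g
    let p : P.obj M ⟶ S.X₃ := eqToHom h2.symm ≫ S.g
    have hp : Epi p := epi_comp _ _
    obtain ⟨M'', g, k, hg, hM'', hk, hF⟩ := h.quot M hM.1 S.X₃ p hp h3.1.1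
    have h4 := hF _ h3
    have e : -(2 * c) + 2 * c = 0 := by ring
    rw [e] at h4
    have h5 := h4.2 (P.obj M'') (𝟙 _) inferInstance h4.1.1
    rw [RDX.sh_D] at h5
    have h6 : h.rdx.Tf M'' := by
      refine ⟨hM'', fun N i hi hN hr => h.zero N hN ?_⟩
      exact h4.1.2 (P.obj N) (P.map i) (h.mono_map hW i hi hM'' hN) (h.mem N hN) hr
    have h7 : ¬ IsZero M'' := by
      intro h8
      have h9 : IsZero (P.obj M'') := P.map_isZero h8
      have h10 : p = 0 := by rw [← hk, h9.eq_of_src k 0, comp_zero]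
      apply hz
      rw [IsZero.iff_id_eq_zero, ← cancel_epi p, h10, zero_comp, zero_comp]
    have h8 := hM.2 M'' g hg h6 h7
    have h9 : h.rdx.D M'' = q.D (P.obj M'') := rfl
    linarith
  have hm := hS.mono_f
  have h4 : IsIso S.f := hS.isIso_f_iff.2 hz
  have h5 := (q.sh (-(2 * c))).Tc_iso hV (asIso S.f) h1
  rw [h2] at h5
  exact h5

end Push

section

variable {X Q : Scheme.{0}} (π : X ⟶ Q) [CX X] [CX Q]
    (hC : (CX.f : X ⟶ Spec (.of ℂ)) = π ≫ CX.f)
    (G : BiP Q) (haff : ∀ s t, IsAffineOpen (π ⁻¹ᵁ G.U s t))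
    (hfin : ∀ s t, (π.app (G.U s t)).hom.Finite) (pt : X)
    (hpt : π pt ∈ (G.V false ⊓ G.V true) ⊓ (G.W false ⊓ G.W true)) [IsIntegral X] [IsIntegral Q]
    [IsLocallyNoetherian X] [IsLocallyNoetherian Q]
    {ι : Type} [Fintype ι] (S : G.Split (FO Q) Unit) (T : (G.pull π haff pt hpt).Split (FO X) ι)

include hC hfin in
/-- Windows of direct images (`exists_push`, `numbers_push`, `Push.step1`, `Push.step1T`; the classes `T`, `F` for `(rdx T).sh l` and for the
pulled back `RDX` agree since the numbers agree on coherent modules, as in `Pos.congr`). -/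
theorem push_windows : ∃ c : ℕ, ∀ (l : ℤ) (M : X.Modules),
    (((BiP.rdx T).sh l).Fc M → ((BiP.rdx S).sh (l + c)).Fc ((PP π).obj M)) ∧
    (((BiP.rdx T).sh l).Tc M → ((BiP.rdx S).sh (l - c)).Tc ((PP π).obj M)) := by
  have hπ : IsFinite π := isFinite_of_charts π G haff hfin
  have hW := wserre_isCoh X
  have hV := wserre_isCoh Q
  obtain ⟨c, hc⟩ := exists_push π G haff pt hpt hC S T
  have er : ∀ (l : ℤ) (M : X.Modules), IsCoh M →
      ((BiP.rdx T).sh l).r M = (hc l).rdx.r M := by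
    intro l M hM
    exact (numbers_push π hC G haff pt hpt S T hM).1
  have eD : ∀ (l : ℤ) (M : X.Modules), IsCoh M →
      ((BiP.rdx T).sh l).D M = (hc l).rdx.D M := by
    intro l M hM
    obtain ⟨e1, e2, e3, -⟩ := numbers_push π hC G haff pt hpt S T hM
    show (G.pull π haff pt hpt).nd1 (SS M) + (G.pull π haff pt hpt).nd2 (SS M) -
        l * (G.pull π haff pt hpt).nr (SS M) =
      G.nd1 (SS ((PP π).obj M)) + G.nd2 (SS ((PP π).obj M)) - l * G.nr (SS ((PP π).obj M))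
    rw [e1, e2, e3]
  refine ⟨2 * c, fun l M => ⟨fun hM => ?_, fun hM => ?_⟩⟩
  · have h2 := (hc l).step1 hW hV (PuW_Fc (er l) (eD l) hM)
    rw [RDX.sh_sh] at h2
    have e : l + ((2 * c : ℕ) : ℤ) = l + 2 * (c : ℤ) := by push_cast; ring
    rw [e]
    exact h2
  · have h2 := (hc l).step1T hW hV (PuW_Tc (er l) (eD l) hM)
    rw [RDX.sh_sh] at h2
    have e : l - ((2 * c : ℕ) : ℤ) = l + -(2 * (c : ℤ)) := by push_cast; ring
    rw [e]
    exact h2

end

end M21.E3
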