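import Pool.Agent.H.MP_21b43d_ag.E3.V.Conv
import Pool.Agent.H.MP_21b43d_ag.E3.Rk1

/-!
# M21, full support, V-S: test objects (abstract conditions)
-/

set_option autoImplicit false

open CategoryTheory CategoryTheory.Limits

universe v u

namespace M21.E3

variable {𝒞 : Type u} [Category.{v} 𝒞] [Abelian 𝒞] {W : ObjectProperty 𝒞}

/-- The properties of `S_j = O(j, j)`. -/
structure TestS (q : RDX W) (ρ C : ℤ) (S : ℕ → 𝒞) : Prop where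
  mem : ∀ j, W (S j)
  r : ∀ j, q.r (S j) = ρ
  D : ∀ j, |q.D (S j) - 2 * ρ * j| ≤ C
  x : ∀ j, |q.x (S j) - ρ * j ^ 2| ≤ C * (j + 1)
  Fc : ∀ j : ℕ, (q.sh (2 * j + C)).Fc (S j)
  Tc : ∀ j : ℕ, C ≤ j → q.Tc (S j)
  /-- torsion quotients of small degree -/
  quot : ∀ d : ℤ, ∃ C' : ℤ, ∀ (j : ℕ) (T : 𝒞) (p : S j ⟶ T), Epi p → W T → q.r T = 0 →
    q.D T ≤ d → j * q.D T - C' ≤ q.x T

/-- The properties of `Ω(-j, -j)`. -/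
structure TestO (q : RDX W) (ρ C : ℤ) (O : ℕ → 𝒞) : Prop where
  mem : ∀ j, W (O j)
  r : ∀ j, q.r (O j) = ρ
  D : ∀ j, |q.D (O j) + 2 * ρ * j| ≤ C
  x : ∀ j, |q.x (O j) - ρ * j ^ 2| ≤ C * (j + 1)
  Tc : ∀ j : ℕ, (q.sh (-(2 * j + C))).Tc (O j)
  Fc : ∀ j : ℕ, C ≤ j → q.Fc (O j)
  hart : ∀ j, Hart q (O j)
  /-- torsion-free extensions of small degree -/
  ext : ∀ d : ℤ, ∃ C' : ℤ, ∀ (j : ℕ) (V : 𝒞) (i : O j ⟶ V), Mono i → q.Tf V → q.r V = ρ →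
    q.D V - q.D (O j) ≤ d → q.x V - q.x (O j) ≤ C' - j * (q.D V - q.D (O j))

end M21.E3
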