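import Pool.Agent.H.MP_21b43d_ag.E3.V.TstX

/-!
# M21, full support, V-S: the test objects `O(j, j)` and `Ω(-j, -j)`
-/

set_option autoImplicit false

open CategoryTheory CategoryTheory.Limits CategoryTheory.Pretriangulated AlgebraicGeometry
  TopologicalSpace

noncomputable section

namespace M21.E3

variable {X : Scheme.{0}} [IsIntegral X] [CX X] [IsLocallyNoetherian X] {G : BiP X} {ι : Type}
  [Fintype ι] [DecidableEq ι]

namespace BiP

/-- `Ω` is split with the dual exponents: coherent, torsion-free, `r = card ι`, rank one, Hartogs (`OmegaSplit`-type lemmas in `E3/G/Omega`, `Split.rk1`, `Split.hart`). -/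
theorem omega_facts (T : G.Split (FO X) ι) (d : DualB T) :
    IsCoh d.Om.mod ∧ Nonempty (G.Split d.Om ι) ∧ Rk1 (rdx T) d.Om.mod ∧ Hart (rdx T) d.Om.mod :=
  ⟨d.splitOm.isCoh d.qc_Om, ⟨d.splitOm⟩, Split.rk1 T d.splitOm d.qc_Om,
    Split.hart T d.splitOm d.qc_Om⟩

end BiP

end M21.E3
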