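import Pool.Agent.H.MP_21b43d_ag.E3.V.Tst
import Pool.Agent.H.MP_21b43d_ag.E3.G.DualC
import Pool.Agent.H.MP_21b43d_ag.E3.S4.Asm4

/-!
# M21, full support, V-S: the test objects `O(j, j)` and `Ω(-j, -j)`
-/

set_option autoImplicit false

open CategoryTheory CategoryTheory.Limits CategoryTheory.Pretriangulated AlgebraicGeometry
  TopologicalSpace

noncomputable section

namespace M21.E3

section

variable {𝒞 : Type*} [Category 𝒞] [Abelian 𝒞] {W : ObjectProperty 𝒞}

/-- a rank one object of nonpositive degree is in `F` -/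
theorem Rk1.fc_TstX (hW : WSerre W) {q : RDX W} {S : 𝒞} (h : Rk1 q S) (hD : q.D S ≤ 0) :
    q.Fc S := by
  refine ⟨h.tf, fun N i hi hN => ?_⟩
  by_cases hz : IsZero N
  · exact (q.inv_zero hW hz).2.1.le
  · obtain ⟨h1, h2⟩ := q.add_coker_Wk2 hW i hi hN h.mem
    have h3 := h.sub N i hi hN hz
    have h4 : q.r (cokernel i) = 0 := by linarith
    have h5 := q.D_nonneg _ (hW.cokernel i hN h.mem) h4
    linarith

/-- a rank one object of positive degree is in `T` -/
theorem Rk1.tc_TstX (hW : WSerre W) {q : RDX W} {S : 𝒞} (h : Rk1 q S) (hD : 0 < q.D S) :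
    q.Tc S := by
  refine ⟨h.mem, fun Q p hp hQ hz => ?_⟩
  have hK : W (kernel p) := hW.kernel p h.mem hQ.1
  obtain ⟨h1, h2⟩ := q.add_ker_Wk2 hW p hp h.mem hQ.1
  by_cases hKz : IsZero (kernel p)
  · have h3 := (q.inv_zero hW hKz).2.1
    rw [h3] at h2
    linarith
  · exfalso
    have h3 := h.sub (kernel p) (kernel.ι p) inferInstance hK hKz
    have h4 : q.r Q = 0 := by linarith
    exact hz (hQ.2 Q (𝟙 Q) inferInstance hQ.1 h4)

/-- sums of copies of an object of `T` are in `T` -/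
theorem RDX.Tc_pow_TstX (hW : WSerre W) (q : RDX W) {S : 𝒞} (h : q.Tc S) (n : ℕ) :
    q.Tc (⨁ (fun _ : Fin n => S)) := by
  induction n with
  | zero =>
    have hz := zero_Rk1 S
    exact q.Tc_of_rank_zero hW (hW.zero _ hz) (q.inv_zero hW hz).1
  | succ n ih => exact q.Tc_iso hW (succ_Rk1 S n) (q.Tc_ext hW _ (se_Rk1 S _) h ih)

/-- the rank one property does not depend on the shift of the degree -/
theorem Rk1.sh_TstX {q : RDX W} {S : 𝒞} (h : Rk1 q S) (k : ℤ) : Rk1 (q.sh k) S :=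
  ⟨h.mem, h.pos, h.sub⟩

/-- a rank one object is in `F` for large slopes -/
theorem Rk1.exists_fc_TstX (hW : WSerre W) {q : RDX W} {S : 𝒞} (h : Rk1 q S) {k : ℤ}
    (hk : q.D S ≤ k) (hk0 : 0 ≤ k) : (q.sh k).Fc S := by
  refine (h.sh_TstX k).fc_TstX hW ?_
  rw [RDX.sh_D]
  have h1 := h.pos
  nlinarith

/-- a rank one object is in `T` for small slopes -/
theorem Rk1.exists_tc_TstX (hW : WSerre W) {q : RDX W} {S : 𝒞} (h : Rk1 q S) {k : ℤ}
    (hk : - q.D S < k) (hk0 : 0 ≤ k) : (q.sh (-k)).Tc S := by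
  refine (h.sh_TstX (-k)).tc_TstX hW ?_
  rw [RDX.sh_D]
  have h1 := h.pos
  nlinarith

end

variable {X : Scheme.{0}} [IsIntegral X] [CX X] [IsLocallyNoetherian X] {G : BiP X} {ι : Type}
  [Fintype ι] [DecidableEq ι]

namespace BiP

/-- Nonzero torsion-free sheaves have rank at least `card ι` (a nonzero morphism `O(-k,-k) → F` is a monomorphism: its image is
torsion-free of positive rank, and `O(-k,-k)` has rank one, `Split.rk1`; or directly as in `Split.rk1`). -/
theorem rank_ge (T : G.Split (FO X) ι) {F : X.Modules} (hF : (rdx T).Tf F) (h0 : ¬ IsZero F) :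
    (Fintype.card ι : ℤ) ≤ (rdx T).r F := by
  have hW := wserre_isCoh X
  have hFc : IsCoh F := hF.1
  obtain ⟨k, hk⟩ := G.exists_hom_ne_zero (F := F) (IsCoh.qc hFc) h0
  obtain ⟨φ, hφ⟩ := hk k k le_rfl le_rfl
  have hO : IsCoh (G.OO (-k) (-k)) := isCoh_OO G _ _
  obtain ⟨T', -, -⟩ := T.exists_OF (G := G) (-k) (-k)
  have hrk : Rk1 (rdx T) (G.OO (-k) (-k)) := Split.rk1 T T' hO.qc
  have hcard : (rdx T).r (G.OO (-k) (-k)) = Fintype.card ι := (rdx_split T T' hO.qc).1
  have hI : IsCoh (Abelian.image φ) := W_im_Rk1b hW φ hO hFc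
  have hK : IsCoh (kernel φ) := hW.kernel φ hO hFc
  have h5 := ((rdx T).add _ (se_im_Rk1b φ) hK hO hI).1
  dsimp only at h5
  have hKz : IsZero (kernel φ) := by
    by_contra hKz
    have h6 := hrk.sub _ (kernel.ι φ) inferInstance hK hKz
    have h7 : (rdx T).r (Abelian.image φ) = 0 := by omega
    have h8 : IsZero (Abelian.image φ) := hF.2 _ (Abelian.image.ι φ) inferInstance hI h7
    apply hφ
    rw [← Abelian.image.fac φ, h8.eq_of_src (Abelian.image.ι φ) 0, comp_zero]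
  have h6 := ((rdx T).inv_zero hW hKz).1
  have h7 := ((rdx T).add_coker_Wk2 hW (Abelian.image.ι φ) inferInstance hI hFc).1
  have h8 := (rdx T).r_nonneg _ (hW.cokernel (Abelian.image.ι φ) hI hFc)
  omega

/-- Some constant for a sheaf: every coherent torsion-free sheaf is in some `F(c)`, every coherent sheaf is in some `T(-c)`.
(`M ∈ T(-c)`: e.g. `M` is a quotient of `O(-k,-k)^n`, which is in `T` of small slope by `Rk1`; `M ∈ F(c)` for `M` torsion-free: `exists_embed` into `O(k,k)^n`.) -/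
theorem exists_window (T : G.Split (FO X) ι) {M : X.Modules} (hM : (rdx T).Tf M) :
    ∃ c : ℕ, ((rdx T).sh (-c)).Tc M ∧ ((rdx T).sh c).Fc M := by
  have hW := wserre_isCoh X
  have hMc : IsCoh M := hM.1
  -- the quotient of a sum of line bundles
  obtain ⟨k, n, φ, hφ⟩ := G.exists_epi hMc
  have hO : IsCoh (G.OO (-k) (-k)) := isCoh_OO G _ _
  obtain ⟨T', -, -⟩ := T.exists_OF (G := G) (-k) (-k)
  have hrk : Rk1 (rdx T) (G.OO (-k) (-k)) := Split.rk1 T T' hO.qc
  -- the subobject of a sum of line bundles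
  obtain ⟨l, m, j, hj⟩ := exists_embed T hM
  have hO2 : IsCoh (G.OO l l) := isCoh_OO G _ _
  obtain ⟨T2, -, -⟩ := T.exists_OF (G := G) l l
  have hrk2 : Rk1 (rdx T) (G.OO l l) := Split.rk1 T T2 hO2.qc
  obtain ⟨c, hc1, hc2⟩ : ∃ c : ℕ, - (rdx T).D (G.OO (-k) (-k)) < (c : ℤ) ∧
      (rdx T).D (G.OO l l) ≤ (c : ℤ) := by
    refine ⟨(|(rdx T).D (G.OO (-k) (-k))| + |(rdx T).D (G.OO l l)| + 1).toNat, ?_, ?_⟩
    · have h1 := Int.self_le_toNat (|(rdx T).D (G.OO (-k) (-k))| + |(rdx T).D (G.OO l l)| + 1)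
      have h2 := neg_abs_le ((rdx T).D (G.OO (-k) (-k)))
      have h3 := abs_nonneg ((rdx T).D (G.OO l l))
      linarith
    · have h1 := Int.self_le_toNat (|(rdx T).D (G.OO (-k) (-k))| + |(rdx T).D (G.OO l l)| + 1)
      have h2 := le_abs_self ((rdx T).D (G.OO l l))
      have h3 := abs_nonneg ((rdx T).D (G.OO (-k) (-k)))
      linarith
  have hc0 : (0 : ℤ) ≤ c := Int.natCast_nonneg c
  refine ⟨c, ?_, ?_⟩
  · exact ((rdx T).sh (-c)).Tc_quot hW φ hφ hMc
      (((rdx T).sh (-c)).Tc_pow_TstX hW (hrk.exists_tc_TstX hW hc1 hc0) n)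
  · exact ((rdx T).sh c).Fc_sub hW j hj hMc
      (((rdx T).sh c).Fc_pow_QB hW (hrk2.exists_fc_TstX hW hc2 hc0) m)

end BiP

end M21.E3
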